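import Pool.Agent.UC.GDefs

/-!
# UC G1: tangent vectors in a chart
-/

set_option autoImplicit false

open Topology Filter Metric

noncomputable section

namespace Pool.Agent.UC

open Pool.Agent.H17BP (Surface IsForm IsChart Tan Pr)

variable {V : Type} [NormedAddCommGroup V] [NormedSpace ℂ V] [FiniteDimensional ℂ V] {X : Set V} {κ : Type} {Q : κ → V → ℂ} {e m j : ℕ}
  {Ω : V → V → V → ℂ}

private theorem G1_pair (L : (ℂ × ℂ) →L[ℂ] V) (w : ℂ × ℂ) : L w = w.1 • L (1, 0) + w.2 • L (0, 1) := by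
  rw [← map_smul, ← map_smul, ← map_add]
  congr 1
  ext
  · simp
  · simp

theorem tan_span (hX : Surface X) {σ : ℂ × ℂ → V} {τ : V → ℂ × ℂ} (h : IsChart X σ τ) :
    ∀ᶠ p in 𝓝 (0 : ℂ × ℂ), ∀ c : ℂ, c ≠ 0 → ∀ v ∈ Tan X (c • σ p), ∃ α a b : ℂ,
      v = α • (c • σ p) + c • (a • fderiv ℂ σ p (1, 0) + b • fderiv ℂ σ p (0, 1)) := by
  obtain ⟨ℓ, hℓ⟩ := exists_dual_vector ℂ (σ 0) (norm_ne_zero_iff.mpr h.ne)
  have hℓ0 : ℓ (σ 0) ≠ 0 := by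
    rw [hℓ.2]
    simpa using h.ne
  have hσc : Tendsto σ (𝓝 0) (𝓝 (σ 0)) := h.σ_an.continuousAt
  have h1 : ∀ᶠ p in 𝓝 (0 : ℂ × ℂ), AnalyticAt ℂ σ p := h.σ_an.eventually_analyticAt
  have h2 : ∀ᶠ p in 𝓝 (0 : ℂ × ℂ), ℓ (σ p) ≠ 0 := by
    have : ContinuousAt (fun p => ℓ (σ p)) 0 := ℓ.continuous.continuousAt.comp h.σ_an.continuousAt
    exact this.eventually_ne hℓ0
  have h3 : ∀ᶠ p in 𝓝 (0 : ℂ × ℂ), AnalyticAt ℂ τ (σ p) := hσc.eventually h.τ_an.eventually_analyticAt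
  have h4 : ∀ᶠ p in 𝓝 (0 : ℂ × ℂ), ∀ᶠ y in 𝓝 (σ p), y ∈ X → ∃ c : ℂ, c ≠ 0 ∧ y = c • σ (τ y) :=
    hσc.eventually (eventually_eventually_nhds.2 h.right)
  filter_upwards [h1, h2, h3, h4, h.left] with p p1 p2 p3 p4 p5
  rintro c hc v ⟨γ, hγ, hγX, hγ0, hγd⟩
  have hδ : AnalyticAt ℂ (fun z => c⁻¹ • γ z) 0 := AnalyticAt.fun_smul analyticAt_const hγ
  have hδ0 : c⁻¹ • γ 0 = σ p := by rw [hγ0, smul_smul, inv_mul_cancel₀ hc, one_smul]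
  have hδX : ∀ᶠ z in 𝓝 (0 : ℂ), c⁻¹ • γ z ∈ X := hγX.mono fun z hz => hX.smul _ hz _ (inv_ne_zero hc)
  have hδd : HasDerivAt (fun z => c⁻¹ • γ z) (c⁻¹ • v) 0 := by
    have := hγ.differentiableAt.hasDerivAt.const_smul c⁻¹
    rwa [hγd] at this
  have hδt : Tendsto (fun z => c⁻¹ • γ z) (𝓝 0) (𝓝 (σ p)) := by
    have := hδ.continuousAt.tendsto
    rwa [hδ0] at this
  have h5 : ∀ᶠ z in 𝓝 (0 : ℂ), ∃ k : ℂ, k ≠ 0 ∧ c⁻¹ • γ z = k • σ (τ (c⁻¹ • γ z)) := by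
    filter_upwards [hδt.eventually p4, hδX] with z hz1 hz2
    exact hz1 hz2
  -- the derivative of `σ (τ (δ z))`
  have hτd : HasFDerivAt τ (fderiv ℂ τ (σ p)) ((fun z => c⁻¹ • γ z) 0) := by
    rw [show (fun z => c⁻¹ • γ z) 0 = σ p from hδ0]
    exact p3.differentiableAt.hasFDerivAt
  have h6 : HasDerivAt (fun z => τ (c⁻¹ • γ z)) (fderiv ℂ τ (σ p) (c⁻¹ • v)) 0 := hτd.comp_hasDerivAt 0 hδd
  have hσd : HasFDerivAt σ (fderiv ℂ σ p) ((fun z => τ (c⁻¹ • γ z)) 0) := by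
    rw [show (fun z => τ (c⁻¹ • γ z)) 0 = p by simp only [hδ0, p5]]
    exact p1.differentiableAt.hasFDerivAt
  set w : ℂ × ℂ := fderiv ℂ τ (σ p) (c⁻¹ • v) with hw
  have h7 : HasDerivAt (fun z => σ (τ (c⁻¹ • γ z))) (fderiv ℂ σ p w) 0 := hσd.comp_hasDerivAt 0 h6
  have h8 : HasDerivAt (fun z => ℓ (c⁻¹ • γ z)) (ℓ (c⁻¹ • v)) 0 := ℓ.hasFDerivAt.comp_hasDerivAt 0 hδd
  have h9 : HasDerivAt (fun z => ℓ (σ (τ (c⁻¹ • γ z)))) (ℓ (fderiv ℂ σ p w)) 0 := ℓ.hasFDerivAt.comp_hasDerivAt 0 h7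
  have h11 : ∀ᶠ z in 𝓝 (0 : ℂ), ℓ (σ (τ (c⁻¹ • γ z))) ≠ 0 := by
    refine h9.continuousAt.eventually_ne ?_
    simp only [hδ0, p5]
    exact p2
  have h12 : HasDerivAt (fun z => ℓ (c⁻¹ • γ z) / ℓ (σ (τ (c⁻¹ • γ z))))
      ((ℓ (c⁻¹ • v) * ℓ (σ p) - ℓ (σ p) * ℓ (fderiv ℂ σ p w)) / ℓ (σ p) ^ 2) 0 := by
    have := h8.div h9 (by simp only [hδ0, p5]; exact p2)
    simp only [hδ0, p5] at this
    exact this
  set k' : ℂ := (ℓ (c⁻¹ • v) * ℓ (σ p) - ℓ (σ p) * ℓ (fderiv ℂ σ p w)) / ℓ (σ p) ^ 2 with hk'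
  have h13 : HasDerivAt (fun z => (ℓ (c⁻¹ • γ z) / ℓ (σ (τ (c⁻¹ • γ z)))) • σ (τ (c⁻¹ • γ z))) (fderiv ℂ σ p w + k' • σ p) 0 := by
    have := h12.smul h7
    simp only [hδ0, p5, div_self p2, one_smul] at this
    exact this
  have h14 : (fun z => c⁻¹ • γ z) =ᶠ[𝓝 0] fun z => (ℓ (c⁻¹ • γ z) / ℓ (σ (τ (c⁻¹ • γ z)))) • σ (τ (c⁻¹ • γ z)) := by
    filter_upwards [h5, h11] with z hz1 hz2
    obtain ⟨k, -, hk⟩ := hz1
    have : ℓ (c⁻¹ • γ z) = k * ℓ (σ (τ (c⁻¹ • γ z))) := by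
      conv_lhs => rw [hk]
      rw [map_smul, smul_eq_mul]
    rw [this, mul_div_assoc, div_self hz2, mul_one]
    exact hk
  have h15 : c⁻¹ • v = fderiv ℂ σ p w + k' • σ p := hδd.unique (h13.congr_of_eventuallyEq h14)
  refine ⟨k', w.1, w.2, ?_⟩
  have h16 : v = c • (c⁻¹ • v) := by rw [smul_smul, mul_inv_cancel₀ hc, one_smul]
  rw [h16, h15, G1_pair (fderiv ℂ σ p) w, smul_add, add_comm]
  congr 1
  rw [smul_smul, smul_smul, mul_comm]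

theorem tan_comb (hX : Surface X) {σ : ℂ × ℂ → V} {τ : V → ℂ × ℂ} (h : IsChart X σ τ) :
    ∀ᶠ p in 𝓝 (0 : ℂ × ℂ), ∀ c : ℂ, c ≠ 0 → ∀ α a b : ℂ,
      α • (c • σ p) + c • (a • fderiv ℂ σ p (1, 0) + b • fderiv ℂ σ p (0, 1)) ∈ Tan X (c • σ p) := by
  have h1 : ∀ᶠ p in 𝓝 (0 : ℂ × ℂ), AnalyticAt ℂ σ p := h.σ_an.eventually_analyticAt
  have h2 : ∀ᶠ p in 𝓝 (0 : ℂ × ℂ), ∀ᶠ q in 𝓝 p, σ q ∈ X := eventually_eventually_nhds.2 h.σ_mem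
  filter_upwards [h1, h2] with p p1 p2
  intro c hc α a b
  have h3 : HasDerivAt (fun z : ℂ => p + z • ((a, b) : ℂ × ℂ)) (a, b) 0 := by
    have h4 : HasDerivAt (fun z : ℂ => z • ((a, b) : ℂ × ℂ)) ((1 : ℂ) • ((a, b) : ℂ × ℂ)) 0 :=
      (hasDerivAt_id (0 : ℂ)).smul_const _
    rw [one_smul] at h4
    exact h4.const_add p
  have h0 : p + (0 : ℂ) • ((a, b) : ℂ × ℂ) = p := by simp
  have hl : AnalyticAt ℂ (fun z : ℂ => p + z • ((a, b) : ℂ × ℂ)) 0 := by fun_prop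
  have hσ : AnalyticAt ℂ (fun z : ℂ => σ (p + z • ((a, b) : ℂ × ℂ))) 0 :=
    AnalyticAt.comp (g := σ) (f := fun z : ℂ => p + z • ((a, b) : ℂ × ℂ)) (by rw [h0]; exact p1) hl
  have hσd : HasDerivAt (fun z : ℂ => σ (p + z • ((a, b) : ℂ × ℂ))) (fderiv ℂ σ p (a, b)) 0 := by
    have h5 : HasFDerivAt σ (fderiv ℂ σ p) (p + (0 : ℂ) • ((a, b) : ℂ × ℂ)) := by
      rw [h0]
      exact p1.differentiableAt.hasFDerivAt
    exact h5.comp_hasDerivAt (0 : ℂ) h3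
  have hk : HasDerivAt (fun z : ℂ => c * (1 + α * z)) (c * α) 0 := by
    have h6 : HasDerivAt (fun z : ℂ => α * z) α 0 := by simpa using (hasDerivAt_id (0 : ℂ)).const_mul α
    exact (h6.const_add 1).const_mul c
  have hka : AnalyticAt ℂ (fun z : ℂ => c * (1 + α * z)) 0 := by fun_prop
  refine ⟨fun z => (c * (1 + α * z)) • σ (p + z • ((a, b) : ℂ × ℂ)), hka.smul hσ, ?_, ?_, ?_⟩
  · have h7 : ∀ᶠ z : ℂ in 𝓝 0, c * (1 + α * z) ≠ 0 := by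
      refine hka.continuousAt.eventually_ne ?_
      simpa using hc
    have h8 : ∀ᶠ z : ℂ in 𝓝 0, σ (p + z • ((a, b) : ℂ × ℂ)) ∈ X := by
      have h9 : Tendsto (fun z : ℂ => p + z • ((a, b) : ℂ × ℂ)) (𝓝 0) (𝓝 p) := by
        have := hl.continuousAt.tendsto
        rwa [h0] at this
      exact h9.eventually p2
    filter_upwards [h7, h8] with z hz1 hz2
    exact hX.smul _ hz2 _ hz1
  · simp
  · have h10 := hk.smul hσd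
    rw [show (fun z => (c * (1 + α * z)) • σ (p + z • ((a, b) : ℂ × ℂ))) = (fun z : ℂ => c * (1 + α * z)) • fun z : ℂ => σ (p + z • ((a, b) : ℂ × ℂ)) from rfl,
      h10.deriv, G1_pair (fderiv ℂ σ p) (a, b)]
    simp only [mul_zero, add_zero, mul_one, zero_smul]
    rw [add_comm, smul_smul, mul_comm]

theorem omega_comb (hX : Surface X) (hΩ : IsForm X m j Ω) {σ : ℂ × ℂ → V} {τ : V → ℂ × ℂ} (h : IsChart X σ τ) :
    ∀ᶠ p in 𝓝 (0 : ℂ × ℂ), ∀ c : ℂ, c ≠ 0 → ∀ α a b α' a' b' : ℂ,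
      c ^ j * Ω (c • σ p) (α • (c • σ p) + c • (a • fderiv ℂ σ p (1, 0) + b • fderiv ℂ σ p (0, 1)))
        (α' • (c • σ p) + c • (a' • fderiv ℂ σ p (1, 0) + b' • fderiv ℂ σ p (0, 1))) =
        (a * b' - b * a') ^ m * Ω (σ p) (fderiv ℂ σ p (1, 0)) (fderiv ℂ σ p (0, 1)) := by
  filter_upwards [tan_comb hX h, h.σ_mem] with p p1 p2
  intro c hc α a b α' a' b'
  have ht : ∀ α a b : ℂ, α • σ p + (a • fderiv ℂ σ p (1, 0) + b • fderiv ℂ σ p (0, 1)) ∈ Tan X (σ p) := by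
    intro α a b
    have := p1 1 one_ne_zero α a b
    simpa only [one_smul] using this
  have h1 : fderiv ℂ σ p (1, 0) ∈ Tan X (σ p) := by simpa using ht 0 1 0
  have h2 : fderiv ℂ σ p (0, 1) ∈ Tan X (σ p) := by simpa using ht 0 0 1
  have h3 : ∀ a b : ℂ, a • fderiv ℂ σ p (1, 0) + b • fderiv ℂ σ p (0, 1) ∈ Tan X (σ p) := fun a b => by simpa using ht 0 a b
  have e1 : ∀ α a b : ℂ, α • (c • σ p) + c • (a • fderiv ℂ σ p (1, 0) + b • fderiv ℂ σ p (0, 1)) =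
      c • (a • fderiv ℂ σ p (1, 0) + b • fderiv ℂ σ p (0, 1) + α • σ p) := by
    intro α a b
    rw [smul_add c _ (α • σ p), smul_smul, smul_smul, mul_comm, add_comm]
  rw [e1, e1, hΩ.scale _ p2 _ (by rw [add_comm]; exact ht _ _ _) _ (by rw [add_comm]; exact ht _ _ _) c hc,
    hΩ.add_smul _ p2 _ (h3 a b) _ (h3 a' b'), hΩ.det _ p2 _ h1 _ h2]

/-- The value does not depend on `v`. -/
theorem omega_quot (hX : Surface X) (hΩ : IsForm X m j Ω) {q : V → ℂ} {x : V} (hx : x ∈ X) (hE : fderiv ℂ q x x = 0) {v v₁ w : V}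
    (hv : v ∈ Tan X x) (hv₁ : v₁ ∈ Tan X x) (hw : w ∈ Tan X x) (hqw : fderiv ℂ q x w = 0) :
    Ω x v w * fderiv ℂ q x v₁ ^ m = Ω x v₁ w * fderiv ℂ q x v ^ m := by
  obtain ⟨σ, τ, h, rfl⟩ := hX.chart x hx
  have h1 := (tan_span hX h).self_of_nhds 1 one_ne_zero
  have h2 := (omega_comb hX hΩ h).self_of_nhds 1 one_ne_zero
  simp only [one_smul, one_pow, one_mul] at h1 h2
  obtain ⟨α, a, b, rfl⟩ := h1 v hv
  obtain ⟨α₁, a₁, b₁, rfl⟩ := h1 v₁ hv₁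
  obtain ⟨α', a', b', rfl⟩ := h1 w hw
  rw [h2, h2]
  simp only [map_add, map_smul, smul_eq_mul, hE, mul_zero, zero_add] at hqw ⊢
  set A := fderiv ℂ q (σ 0) (fderiv ℂ σ 0 (1, 0)) with hA
  set B := fderiv ℂ q (σ 0) (fderiv ℂ σ 0 (0, 1)) with hB
  have h3 : (a * b' - b * a') * (a₁ * A + b₁ * B) = (a₁ * b' - b₁ * a') * (a * A + b * B) := by
    linear_combination (a * b₁ - a₁ * b) * hqw
  calc (a * b' - b * a') ^ m * Ω (σ 0) (fderiv ℂ σ 0 (1, 0)) (fderiv ℂ σ 0 (0, 1)) * (a₁ * A + b₁ * B) ^ m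
      = ((a * b' - b * a') * (a₁ * A + b₁ * B)) ^ m * Ω (σ 0) (fderiv ℂ σ 0 (1, 0)) (fderiv ℂ σ 0 (0, 1)) := by
        rw [mul_pow]; ring
    _ = ((a₁ * b' - b₁ * a') * (a * A + b * B)) ^ m * Ω (σ 0) (fderiv ℂ σ 0 (1, 0)) (fderiv ℂ σ 0 (0, 1)) := by rw [h3]
    _ = _ := by rw [mul_pow]; ring

end Pool.Agent.UC
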