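import Pool.Agent.UC.Defs

/-!
# UC Ch: a chart on an open cone
-/

set_option autoImplicit false

open Topology Filter Metric

noncomputable section

namespace Pool.Agent.UC

open Pool.Agent.H17BP (Surface IsForm IsChart Tan Pr)

variable {V : Type} [NormedAddCommGroup V] [NormedSpace ℂ V] [FiniteDimensional ℂ V] {X : Set V}

/-- A chart on an open cone. `U` is a given neighbourhood of `0` (where the equations of `Mon` hold). -/
theorem exists_cone (hX : Surface X) {σ : ℂ × ℂ → V} {τ : V → ℂ × ℂ} (h : IsChart X σ τ) {U : Set (ℂ × ℂ)} (hU : U ∈ 𝓝 (0 : ℂ × ℂ)) :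
    ∃ (W : Set V) (T : V → ℂ × ℂ) (H : V → ℂ), IsOpen W ∧ σ 0 ∈ W ∧ T (σ 0) = 0 ∧
      (∀ y ∈ W, ∀ c : ℂ, c ≠ 0 → c • y ∈ W ∧ T (c • y) = T y ∧ H (c • y) = c * H y) ∧
      (∀ y ∈ W, AnalyticAt ℂ T y ∧ AnalyticAt ℂ H y ∧ H y ≠ 0 ∧ T y ∈ U) ∧ ∀ y ∈ W, y ∈ X → y = H y • σ (T y) := by
  -- a linear form with value `1` at `σ 0`
  obtain ⟨l, hl⟩ : ∃ l : V →L[ℂ] ℂ, l (σ 0) = 1 := by
    obtain ⟨g, hg⟩ := SeparatingDual.exists_ne_zero (R := ℂ) h.ne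
    refine ⟨(g (σ 0))⁻¹ • g, ?_⟩
    simp [hg]
  -- the normalisation
  obtain ⟨n, hn⟩ : ∃ n : V → V, n = fun y => (l y)⁻¹ • y := ⟨_, rfl⟩
  have hn0 : n (σ 0) = σ 0 := by rw [hn]; simp [hl]
  have hnan : ∀ y, l y ≠ 0 → AnalyticAt ℂ n y := by
    intro y hy
    rw [hn]
    exact ((l.analyticAt y).inv hy).smul analyticAt_id
  have hln : ∀ y, l y ≠ 0 → l (n y) = 1 := by
    intro y hy
    rw [hn]
    simp [hy]
  have hτ0 : τ (σ 0) = 0 := h.left.self_of_nhds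
  -- the good points of the chart
  have hσ : ∀ᶠ p in 𝓝 (0 : ℂ × ℂ), AnalyticAt ℂ σ p ∧ l (σ p) ≠ 0 ∧ p ∈ U := by
    have h1 : ContinuousAt (fun p => l (σ p)) 0 := l.continuous.continuousAt.comp h.σ_an.continuousAt
    have h2 : l (σ 0) ≠ 0 := by rw [hl]; exact one_ne_zero
    exact h.σ_an.eventually_analyticAt.and ((h1.eventually_ne h2).and hU)
  have hB : ∀ᶠ y in 𝓝 (σ 0), AnalyticAt ℂ τ y ∧ (AnalyticAt ℂ σ (τ y) ∧ l (σ (τ y)) ≠ 0 ∧ τ y ∈ U) ∧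
      (y ∈ X → ∃ c : ℂ, c ≠ 0 ∧ y = c • σ (τ y)) := by
    have h1 : Tendsto τ (𝓝 (σ 0)) (𝓝 0) := by
      have h3 := h.τ_an.continuousAt.tendsto
      rwa [hτ0] at h3
    exact h.τ_an.eventually_analyticAt.and ((h1.eventually hσ).and h.right)
  obtain ⟨B, hB1, hBo, hB0⟩ := _root_.eventually_nhds_iff.1 hB
  have hopen : IsOpen {y | l y ≠ 0} := isOpen_ne_fun l.continuous continuous_const
  have hncont : ContinuousOn n {y | l y ≠ 0} := fun y hy => (hnan y hy).continuousAt.continuousWithinAt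
  refine ⟨{y | l y ≠ 0} ∩ n ⁻¹' B, fun y => τ (n y), fun y => l y * (l (σ (τ (n y))))⁻¹, hncont.isOpen_inter_preimage hopen hBo, ?_, ?_, ?_, ?_, ?_⟩
  · refine ⟨?_, ?_⟩
    · show l (σ 0) ≠ 0
      rw [hl]
      exact one_ne_zero
    · show n (σ 0) ∈ B
      rw [hn0]
      exact hB0
  · show τ (n (σ 0)) = 0
    rw [hn0, hτ0]
  · rintro y ⟨hy1, hy2⟩ c hc
    have hy1' : l y ≠ 0 := hy1
    have e : n (c • y) = n y := by
      rw [hn]
      simp only [map_smul, smul_eq_mul, mul_inv, smul_smul]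
      congr 1
      field_simp
    refine ⟨⟨?_, ?_⟩, ?_, ?_⟩
    · show l (c • y) ≠ 0
      rw [map_smul, smul_eq_mul]
      exact mul_ne_zero hc hy1'
    · show n (c • y) ∈ B
      rw [e]
      exact hy2
    · show τ (n (c • y)) = τ (n y)
      rw [e]
    · show l (c • y) * (l (σ (τ (n (c • y)))))⁻¹ = c * (l y * (l (σ (τ (n y))))⁻¹)
      rw [e, map_smul, smul_eq_mul, mul_assoc]
  · rintro y ⟨hy1, hy2⟩
    have hy1' : l y ≠ 0 := hy1
    obtain ⟨h1, ⟨h2, h3, h4⟩, -⟩ := hB1 (n y) hy2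
    have hT : AnalyticAt ℂ (fun y => τ (n y)) y := h1.fun_comp (hnan y hy1')
    refine ⟨hT, ?_, mul_ne_zero hy1' (inv_ne_zero h3), h4⟩
    refine (l.analyticAt y).mul (AnalyticAt.inv ?_ h3)
    have h5 : AnalyticAt ℂ (fun y => σ (τ (n y))) y := AnalyticAt.fun_comp (g := σ) (f := fun y => τ (n y)) h2 hT
    exact (l.analyticAt _).fun_comp h5
  · rintro y ⟨hy1, hy2⟩ hyX
    have hy1' : l y ≠ 0 := hy1
    obtain ⟨-, ⟨-, h3, -⟩, h5⟩ := hB1 (n y) hy2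
    have hnX : n y ∈ X := by
      rw [hn]
      exact hX.smul y hyX _ (inv_ne_zero hy1')
    obtain ⟨c, hc, hc2⟩ := h5 hnX
    have h6 : c * l (σ (τ (n y))) = 1 := by
      have h7 := congrArg l hc2
      rw [hln y hy1', map_smul, smul_eq_mul] at h7
      exact h7.symm
    have h8 : (l (σ (τ (n y))))⁻¹ = c := inv_eq_of_mul_eq_one_left h6
    show y = (l y * (l (σ (τ (n y))))⁻¹) • σ (τ (n y))
    rw [h8, mul_smul, ← hc2, hn]
    simp only [smul_smul]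
    rw [mul_inv_cancel₀ hy1', one_smul]

end Pool.Agent.UC
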