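import Pool.Agent.H17BP.Model
import Pool.Agent.H74.NB.Dec

/-!
# UC Defs: bubbles and the zeros of the equation of a curve

`X` is the cone of a closed surface, `D` the common zero set in `X` of forms `Q k` of the same degree `e`.  At every point of `D` there is a
chart and a form `Q i` which is a unit times `x` (smooth point of `D`, `b = 0`) or `x * y` (node, `b = 1`) in the chart; this monomial divides
the other forms.

`Lo 𝒰 f w r k`: along the ultrafilter `𝒰` the functions `f n` have at least `k` zeros near `w`.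
-/

set_option autoImplicit false

open Topology Filter Metric

namespace Pool.Agent.UC

open Pool.Agent.H17BP (Surface IsForm IsChart Tan Pr)
open Pool.Agent.H74.NB (CC Obj)

/-- The function `f` has at least `k` zeros in `S` (with multiplicities); `U` is the domain. -/
def ZGe (f : ℂ → ℂ) (U S : Set ℂ) (k : ℕ) : Prop :=
  ∃ (s : Multiset ℂ) (g : ℂ → ℂ), s.card = k ∧ (∀ a ∈ s, a ∈ S) ∧ DifferentiableOn ℂ g U ∧ ∀ z ∈ U, f z = (s.map fun a => z - a).prod * g z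

/-- Along `𝒰` the functions `f n`, holomorphic on the ball, have at least `k` zeros arbitrarily near `w`. -/
def Lo (𝒰 : Ultrafilter ℕ) (f : ℕ → ℂ → ℂ) (w : ℂ) (r : ℝ) (k : ℕ) : Prop :=
  ∀ s : ℝ, 0 < s → s ≤ r → ∀ᶠ n in (𝒰 : Filter ℕ), ZGe (f n) (ball w r) (ball w s) k

variable {V : Type} [NormedAddCommGroup V] [NormedSpace ℂ V]

/-- A rational curve of degree `d` in `X`: `K` is the lift of the affine line, `K'` the lift near infinity. -/
structure RatC (X : Set V) (d : ℕ) (K K' : ℂ → V) : Prop where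
  diff : Differentiable ℂ K
  diff' : Differentiable ℂ K'
  mem : ∀ z, K z ∈ X
  mem' : ∀ z, K' z ∈ X
  rel : ∀ z : ℂ, z ≠ 0 → K z = z ^ d • K' z⁻¹

/-- In the chart `σ` all the forms `Q k` are multiples of `x` (if `b = 0`), of `x * y` (if `b = 1`), and `Q i` is a unit times it. -/
structure Mon {κ : Type} (X : Set V) (Q : κ → V → ℂ) (i : κ) (b : ℕ) (σ : ℂ × ℂ → V) (τ : V → ℂ × ℂ) : Prop where
  chart : IsChart X σ τ
  le : b ≤ 1
  dvd : ∀ k, ∃ r : ℂ × ℂ → ℂ, AnalyticAt ℂ r 0 ∧ ∀ᶠ p in 𝓝 (0 : ℂ × ℂ), Q k (σ p) = p.1 * p.2 ^ b * r p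
  unit : ∃ r : ℂ × ℂ → ℂ, AnalyticAt ℂ r 0 ∧ r 0 ≠ 0 ∧ ∀ᶠ p in 𝓝 (0 : ℂ × ℂ), Q i (σ p) = p.1 * p.2 ^ b * r p

/-- `D = {x ∈ X | Q k x = 0 for all k}` is a curve with at most nodes on the surface `X`, with reduced local equations among the `Q k`. -/
structure Crv {κ : Type} (X : Set V) (Q : κ → V → ℂ) (e : ℕ) : Prop where
  surf : Surface X
  an : ∀ k x, AnalyticAt ℂ (Q k) x
  smul : ∀ k (c : ℂ) x, Q k (c • x) = c ^ e * Q k x
  loc : ∀ x ∈ X, (∀ k, Q k x = 0) → ∃ (i : κ) (b : ℕ) (σ : ℂ × ℂ → V) (τ : V → ℂ × ℂ), σ 0 = x ∧ Mon X Q i b σ τ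

/-- The curve `K` lies in `D`; near the point `K c` it is the branch `x = 0`, `b = 1` if there is another branch `y = 0`, and along `K` the
quotient of `Q i₀` by the local equation has a zero of order `ν` at `c`. -/
def At {κ : Type} (X : Set V) (Q : κ → V → ℂ) (i₀ : κ) (K : ℂ → V) (c : ℂ) (b ν : ℕ) : Prop :=
  ∃ (i : κ) (σ : ℂ × ℂ → V) (τ : V → ℂ × ℂ) (h y : ℂ → ℂ) (r : ℂ × ℂ → ℂ), Mon X Q i b σ τ ∧ AnalyticAt ℂ h c ∧ h c ≠ 0 ∧
    AnalyticAt ℂ y c ∧ y c = 0 ∧ (¬ ∀ᶠ z in 𝓝 c, y z = 0) ∧ (∀ᶠ z in 𝓝 c, K z = h z • σ (0, y z)) ∧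
    AnalyticAt ℂ r 0 ∧ (∀ᶠ p in 𝓝 (0 : ℂ × ℂ), Q i₀ (σ p) = p.1 * p.2 ^ b * r p) ∧ analyticOrderAt (fun z => r (0, y z)) c = ν

/-- The inequality for the rational curves in `D`.  The finite set `F` contains all the points of the affine line where `D` has a node or where
the quotient of `Q i₀` by the local equation vanishes. -/
def Krh {κ : Type} (X : Set V) (Q : κ → V → ℂ) (e m j : ℕ) : Prop :=
  ∀ (d : ℕ) (K K' : ℂ → V), 1 ≤ d → RatC X d K K' → (∀ z k, Q k (K z) = 0) →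
    ∀ (i₀ : κ) (F : Finset ℂ) (b ν : ℂ → ℕ) (b' ν' : ℕ), (∀ c ∈ F, At X Q i₀ K c (b c) (ν c)) → (∀ c ∉ F, At X Q i₀ K c 0 0) →
      At X Q i₀ K' 0 b' ν' → m * (e * d + 2) + j * d ≤ m * (∑ c ∈ F, (ν c + b c) + (ν' + b'))

/-- every rational curve in `X` lies in `D` -/
def RatIn {κ : Type} (X : Set V) (Q : κ → V → ℂ) : Prop :=
  ∀ (d : ℕ) (K K' : ℂ → V), 1 ≤ d → RatC X d K K' → ∀ z k, Q k (K z) = 0

/-- The conclusion of the main induction for the mass `M`: if `Φ n → (z - w) ^ M • G z`, then `G w` lies in `D`, and in every chart at this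
point `Q i ∘ Φ n` has, near `w`, at least `e M + 2 + (j/m) M` zeros (smooth point) resp. `e M + 1 + (j/m) M` zeros (node). -/
def UCat {κ : Type} (X : Set V) (Q : κ → V → ℂ) (e m j : ℕ) (𝒰 : Ultrafilter ℕ) (M : ℕ) : Prop :=
  ∀ (Φ : ℕ → ℂ → V) (w : ℂ) (G : ℂ → V) (r : ℝ), Obj 𝒰 Φ w M G r → (∀ᶠ n in (𝒰 : Filter ℕ), ∀ z ∈ ball w r, Φ n z ∈ X) →
    (∀ k, Q k (G w) = 0) ∧ ∀ (i : κ) (b : ℕ) (σ : ℂ × ℂ → V) (τ : V → ℂ × ℂ), Mon X Q i b σ τ → Pr (σ 0) (G w) →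
      ∃ k : ℕ, m * (e * M + (2 - b)) + j * M ≤ m * k ∧ Lo 𝒰 (fun n z => Q i (Φ n z)) w r k

end Pool.Agent.UC
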