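import Pool.Agent.UC.Defs

/-!
# UC NonC: a rational curve of positive degree is not constant near any point
-/

set_option autoImplicit false

open Topology Filter Metric

namespace Pool.Agent.UC

open Pool.Agent.H17BP (Surface IsForm IsChart Tan Pr)

variable {V : Type} [NormedAddCommGroup V] [NormedSpace ℂ V]

/-- there is no rational curve of positive degree in a line -/
private theorem NonC_line [FiniteDimensional ℂ V] {X : Set V} (h0 : (0 : V) ∉ X) {d : ℕ} {K K' : ℂ → V} (h : RatC X d K K') (hd : 1 ≤ d)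
    {x : V} (hx : x ≠ 0) {f : ℂ → ℂ} (hf : ∀ z, K z = f z • x) : False := by
  -- a linear form
  obtain ⟨ℓ, hℓ⟩ : ∃ ℓ : V →L[ℂ] ℂ, ℓ x = 1 := by
    obtain ⟨g, -, hg⟩ := exists_dual_vector ℂ x (norm_ne_zero_iff.2 hx)
    refine ⟨((‖x‖ : ℂ)⁻¹) • g, ?_⟩
    rw [smul_apply, hg]
    have : (‖x‖ : ℂ) ≠ 0 := by exact_mod_cast norm_ne_zero_iff.2 hx
    simp [this]
  have hfℓ : ∀ z, ℓ (K z) = f z := fun z => by rw [hf, map_smul, hℓ, smul_eq_mul, mul_one]
  have hfd : Differentiable ℂ f := by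
    have h1 : Differentiable ℂ fun z => ℓ (K z) := ℓ.differentiable.comp h.diff
    exact (funext hfℓ : (fun z => ℓ (K z)) = f) ▸ h1
  have hf0 : ∀ z, f z ≠ 0 := by
    intro z hz
    have h1 := h.mem z
    rw [hf, hz, zero_smul] at h1
    exact h0 h1
  -- the other lift
  have hrel : ∀ u : ℂ, u ≠ 0 → K' u = (u ^ d * f u⁻¹) • x := by
    intro u hu
    have h1 := h.rel u⁻¹ (inv_ne_zero hu)
    rw [inv_inv, hf] at h1
    rw [mul_smul, h1, smul_smul, ← mul_pow, mul_inv_cancel₀ hu, one_pow, one_smul]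
  have hK' : ∀ u, K' u = ℓ (K' u) • x := by
    have h1 : Set.EqOn K' (fun u => ℓ (K' u) • x) {u | u ≠ 0} := by
      intro u hu
      change K' u = ℓ (K' u) • x
      rw [hrel u hu, map_smul, hℓ, smul_eq_mul, mul_one]
    have h2 : Dense {u : ℂ | u ≠ 0} := dense_compl_singleton 0
    have h3 := Continuous.ext_on h2 h.diff'.continuous
      ((ℓ.continuous.comp h.diff'.continuous).smul continuous_const) h1
    exact fun u => congrFun h3 u
  have hμ0 : ℓ (K' 0) ≠ 0 := by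
    intro h1
    have h2 := h.mem' 0
    rw [hK' 0, h1, zero_smul] at h2
    exact h0 h2
  have h1 : Tendsto (fun z => (f z)⁻¹) (cocompact ℂ) (𝓝 0) := by
    have h2 : Tendsto (fun z : ℂ => z⁻¹) (cocompact ℂ) (𝓝 0) := by
      rw [← Metric.cobounded_eq_cocompact]
      exact tendsto_inv₀_cobounded
    have h3 : Tendsto (fun z : ℂ => ((ℓ (K' z⁻¹))⁻¹) * (z⁻¹) ^ d) (cocompact ℂ) (𝓝 ((ℓ (K' 0))⁻¹ * 0 ^ d)) := by
      refine Tendsto.mul ?_ (h2.pow d)
      refine Tendsto.inv₀ ?_ hμ0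
      exact ((ℓ.continuous.comp h.diff'.continuous).tendsto 0).comp h2
    rw [zero_pow (by omega), mul_zero] at h3
    refine h3.congr' ?_
    have h4 : ∀ᶠ z : ℂ in cocompact ℂ, z ≠ 0 := by
      rw [← Metric.cobounded_eq_cocompact]
      exact Bornology.eventually_ne_cobounded 0
    filter_upwards [h4] with z hz
    have h5 := h.rel z hz
    have h6 : f z = z ^ d * ℓ (K' z⁻¹) := by rw [← hfℓ, h5, map_smul, smul_eq_mul]
    rw [h6, mul_inv, inv_pow]
    ring
  have h2 := (hfd.inv hf0).apply_eq_of_tendsto_cocompact 0 h1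
  exact inv_ne_zero (hf0 0) h2

/-- proportional near one point implies proportional everywhere -/
private theorem NonC_ident [FiniteDimensional ℂ V] {K : ℂ → V} (hK : Differentiable ℂ K) {c : ℂ} {x : V} (h : ∀ᶠ z in 𝓝 c, ∃ t : ℂ, K z = t • x) :
    ∀ z, ∃ t : ℂ, K z = t • x := by
  by_cases hx : x = 0
  · have h1 : K = fun _ => 0 := by
      have h2 : AnalyticOnNhd ℂ K Set.univ := fun z _ => hK.analyticAt z
      have h3 : AnalyticOnNhd ℂ (fun _ : ℂ => (0 : V)) Set.univ := fun z _ => analyticAt_const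
      refine h2.eq_of_eventuallyEq h3 (z₀ := c) ?_
      filter_upwards [h] with z hz
      obtain ⟨t, ht⟩ := hz
      rw [ht, hx, smul_zero]
    intro z
    exact ⟨0, by rw [h1, zero_smul]⟩
  obtain ⟨ℓ, hℓ⟩ : ∃ ℓ : V →L[ℂ] ℂ, ℓ x = 1 := by
    obtain ⟨g, -, hg⟩ := exists_dual_vector ℂ x (norm_ne_zero_iff.2 hx)
    refine ⟨((‖x‖ : ℂ)⁻¹) • g, ?_⟩
    rw [smul_apply, hg]
    have : (‖x‖ : ℂ) ≠ 0 := by exact_mod_cast norm_ne_zero_iff.2 hx
    simp [this]
  have h1 : K = fun z => ℓ (K z) • x := by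
    have h2 : AnalyticOnNhd ℂ K Set.univ := fun z _ => hK.analyticAt z
    have h3 : AnalyticOnNhd ℂ (fun z : ℂ => ℓ (K z) • x) Set.univ := fun z _ =>
      Differentiable.analyticAt ((ℓ.differentiable.comp hK).smul_const x) z
    refine h2.eq_of_eventuallyEq h3 (z₀ := c) ?_
    filter_upwards [h] with z hz
    obtain ⟨t, ht⟩ := hz
    rw [ht, map_smul, hℓ, smul_eq_mul, mul_one]
  exact fun z => ⟨_, congrFun h1 z⟩

/-- a rational curve of positive degree is not constant near any point -/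
theorem nonconst [FiniteDimensional ℂ V] {X : Set V} (hX : Surface X) {d : ℕ} {K K' : ℂ → V} (h : RatC X d K K') (hd : 1 ≤ d) :
    (∀ c, ¬ ∀ᶠ z in 𝓝 c, Pr (K z) (K c)) ∧ ¬ ∀ᶠ z in 𝓝 (0 : ℂ), Pr (K' z) (K' 0) := by
  have h0 : (0 : V) ∉ X := hX.zero
  constructor
  · intro c hc
    have h1 := NonC_ident h.diff (c := c) (x := K c) (hc.mono fun z hz => ⟨_, hz.choose_spec.2⟩)
    choose f hf using h1
    exact NonC_line h0 h hd (fun h2 => h0 (h2 ▸ h.mem c)) hf
  · intro hc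
    obtain ⟨r, hr, hb⟩ := Metric.eventually_nhds_iff_ball.1 hc
    -- the point `c = 2 / r`
    have hc0 : ((2 / r : ℝ) : ℂ) ≠ 0 := by
      have : (2 / r : ℝ) ≠ 0 := by positivity
      exact_mod_cast this
    have h1 : ∀ᶠ z in 𝓝 ((2 / r : ℝ) : ℂ), ∃ t : ℂ, K z = t • K' 0 := by
      have h2 : Tendsto (fun z : ℂ => z⁻¹) (𝓝 ((2 / r : ℝ) : ℂ)) (𝓝 (((2 / r : ℝ) : ℂ)⁻¹)) := tendsto_inv₀ hc0
      have h3 : (((2 / r : ℝ) : ℂ)⁻¹) ∈ ball (0 : ℂ) r := by
        rw [mem_ball_zero_iff, norm_inv, Complex.norm_real, Real.norm_eq_abs, abs_of_pos (by positivity), inv_div]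
        linarith
      filter_upwards [h2.eventually (isOpen_ball.mem_nhds h3), eventually_ne_nhds hc0] with z hz hz0
      obtain ⟨t, -, ht⟩ := hb _ hz
      exact ⟨z ^ d * t, by rw [h.rel z hz0, ht, smul_smul]⟩
    have h2 := NonC_ident h.diff h1
    choose f hf using h2
    exact NonC_line h0 h hd (fun h2 => h0 (h2 ▸ h.mem' 0)) hf

end Pool.Agent.UC
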