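import Pool.Agent.UC.Defs
import Pool.Agent.SY.Plug

/-!
# UC FinA: a bubble is an object of the induction
-/

set_option autoImplicit false

open Topology Filter Metric

noncomputable section

namespace Pool.Agent.UC

open Pool.Agent.H17BP (Surface IsForm IsChart Tan Pr)
open Pool.Agent.H74.NB (CC Obj)
open Pool.Agent.H36.BP (EN)
open Pool.Agent.H22.W (PseudoLength)
open Pool.Agent.SY (Cls BubbleAt NoBubbles)

variable {N : ℕ} {X : Set (EN N)}

theorem obj_of_bubble (hX : Surface X) {T : Set (EN N)} {n : PseudoLength X} {𝒰 : Ultrafilter ℕ} {F : ℕ → ℂ → EN N} {v : ℕ → ℂ → ℂ}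
    {H : ℂ → EN N} {u : ℂ → ℂ} {r : ℝ} {M : ℕ} (h : BubbleAt X T n 𝒰 F v H u r M) :
    Obj 𝒰 (fun k z => Complex.exp (v k z) • F k z) 0 M (fun z => u z • H z) r ∧
      ∀ᶠ k in (𝒰 : Filter ℕ), ∀ z ∈ ball (0 : ℂ) r, Complex.exp (v k z) • F k z ∈ X := by
  have h1 : ∀ (G : ℂ → EN N), Cls T n G → ∀ z, G z ≠ 0 := fun G hG z h0 => hX.zero (h0 ▸ hG.1.mem z)
  refine ⟨⟨h.r_pos, Eventually.of_forall fun k => ?_, Eventually.of_forall fun k z _ => ?_, ?_, ?_, ?_⟩,
    Eventually.of_forall fun k z _ => hX.smul _ ((h.cls k).1.mem z) _ (Complex.exp_ne_zero _)⟩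
  · exact ((h.diff_v k).cexp.smul (h.cls k).1.diff).differentiableOn
  · exact smul_ne_zero (Complex.exp_ne_zero _) (h1 _ (h.cls k) z)
  · intro z₀ hz₀ z hz
    have hG : ContinuousOn (fun z => z ^ M • (u z • H z)) (ball 0 r) :=
      (continuous_id.pow M).continuousOn.smul (h.diff_u.continuousOn.smul h.cls_H.1.diff.continuous.continuousOn)
    have h2 := h.lim.tendsto_comp (hG z₀ hz₀) hz₀ (g := z)
      (tendsto_nhdsWithin_iff.2 ⟨hz, hz.eventually (isOpen_ball.mem_nhds hz₀)⟩)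
    simpa only [sub_zero] using h2
  · exact h.diff_u.smul h.cls_H.1.diff.differentiableOn
  · exact smul_ne_zero (h.u_ne 0 (mem_ball_self h.r_pos)) (h1 _ h.cls_H 0)

end Pool.Agent.UC
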