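import Pool.Agent.UC.Defs
import Pool.Agent.UC.Ch
import Pool.Agent.H22.W.Def

/-!
# UC FinS: a curve of positive length crosses `D` transversally

`chart_curve`: in a chart a curve is `u' z • σ (x z, y z)`.  If `x' 0 = 0` then the curve `u' z • σ (0, y z)` in `D` has the same tangent vector
at `0`, so its length is zero.
-/

set_option autoImplicit false

open Topology Filter Metric

noncomputable section

namespace Pool.Agent.UC

open Pool.Agent.H17BP (Surface IsForm IsChart Pr)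
open Pool.Agent.H36.BP (EN)
open Pool.Agent.H14.PP (IsCone CurveAt)
open Pool.Agent.H22.W (PseudoLength tan_curve)

theorem isCone_of_surface {N : ℕ} {X : Set (EN N)} (hX : Surface X) : IsCone X where
  zero_notMem := hX.zero
  smul_mem := hX.smul
  closed := by
    refine isClosed_of_closure_subset ?_
    intro x hx
    by_cases h0 : x = 0
    · exact Or.inl h0
    · refine Or.inr (hX.closed x ?_ h0)
      have h1 : closure (insert (0 : EN N) X) = insert 0 (closure X) := by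
        rw [Set.insert_eq, closure_union, closure_singleton, ← Set.insert_eq]
      rw [h1] at hx
      exact hx.resolve_left h0

section chart

variable {V : Type} [NormedAddCommGroup V] [NormedSpace ℂ V] [FiniteDimensional ℂ V] {X : Set V}

/-- A curve in a chart. -/
theorem chart_curve (hX : Surface X) {σ : ℂ × ℂ → V} {τ : V → ℂ × ℂ} (h : IsChart X σ τ) {G : ℂ → V} (hG : AnalyticAt ℂ G 0)
    (hGX : ∀ᶠ z in 𝓝 (0 : ℂ), G z ∈ X) (hp : Pr (σ 0) (G 0)) :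
    ∃ x y u' : ℂ → ℂ, AnalyticAt ℂ x 0 ∧ AnalyticAt ℂ y 0 ∧ AnalyticAt ℂ u' 0 ∧ u' 0 ≠ 0 ∧
      (∀ᶠ z in 𝓝 (0 : ℂ), G z = u' z • σ (x z, y z)) ∧ x 0 = 0 ∧ y 0 = 0 := by
  obtain ⟨W, T, H, hWo, hW0, hT0, hWs, hWa, hWX⟩ := exists_cone hX h (U := Set.univ) univ_mem
  obtain ⟨c, hc, hc2⟩ := hp
  have hG0 : G 0 = c⁻¹ • σ 0 := by rw [hc2, smul_smul, inv_mul_cancel₀ hc, one_smul]
  obtain ⟨hGW, hGT, hGH⟩ := hWs (σ 0) hW0 c⁻¹ (inv_ne_zero hc)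
  rw [← hG0] at hGW hGT hGH
  obtain ⟨hTa, hHa, hH0, -⟩ := hWa (G 0) hGW
  have hTG : AnalyticAt ℂ (fun z => T (G z)) 0 := AnalyticAt.fun_comp (g := T) (f := G) hTa hG
  have hHG : AnalyticAt ℂ (fun z => H (G z)) 0 := AnalyticAt.fun_comp (g := H) (f := G) hHa hG
  refine ⟨fun z => (T (G z)).1, fun z => (T (G z)).2, fun z => H (G z), ?_, ?_, hHG, hH0, ?_, ?_, ?_⟩
  · exact analyticAt_fst.fun_comp hTG
  · exact analyticAt_snd.fun_comp hTG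
  · filter_upwards [hG.continuousAt.eventually (hWo.mem_nhds hGW), hGX] with z h1 h2
    exact hWX (G z) h1 h2
  · show (T (G 0)).1 = 0
    rw [hGT, hT0]
    rfl
  · show (T (G 0)).2 = 0
    rw [hGT, hT0]
    rfl

/-- If all `Q k` vanish along `γ` near `0`, with a neighbourhood which depends on `k`, they vanish on one neighbourhood. -/
theorem uniform_zero {κ : Type} {Q : κ → V → ℂ} (hQ : ∀ k x, AnalyticAt ℂ (Q k) x) {γ : ℂ → V} (hγ : AnalyticAt ℂ γ 0)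
    (h : ∀ k, ∀ᶠ z in 𝓝 (0 : ℂ), Q k (γ z) = 0) : ∀ᶠ z in 𝓝 (0 : ℂ), ∀ k, Q k (γ z) = 0 := by
  obtain ⟨r, hr, hr2⟩ := Metric.eventually_nhds_iff_ball.1 hγ.eventually_analyticAt
  refine Metric.eventually_nhds_iff_ball.2 ⟨r, hr, fun z hz k => ?_⟩
  have h1 : AnalyticOnNhd ℂ (fun z => Q k (γ z)) (ball 0 r) := fun w hw => (hQ k _).fun_comp (hr2 w hw)
  exact h1.eqOn_zero_of_preconnected_of_eventuallyEq_zero (convex_ball (0 : ℂ) r).isPreconnected (mem_ball_self hr) (h k) hz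

end chart

variable {N : ℕ} {X : Set (EN N)} {κ : Type} {Q : κ → EN N → ℂ} {e : ℕ}

theorem hasDerivAt_smul_sigma {σ : ℂ × ℂ → EN N} {u x y : ℂ → ℂ} (hσ : AnalyticAt ℂ σ 0) (hu : AnalyticAt ℂ u 0) (hx : AnalyticAt ℂ x 0)
    (hy : AnalyticAt ℂ y 0) (hx0 : x 0 = 0) (hy0 : y 0 = 0) :
    AnalyticAt ℂ (fun z => u z • σ (x z, y z)) 0 ∧
      deriv (fun z => u z • σ (x z, y z)) 0 = u 0 • fderiv ℂ σ 0 (deriv x 0, deriv y 0) + deriv u 0 • σ 0 := by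
  have hxy : AnalyticAt ℂ (fun z => (x z, y z)) 0 := hx.prod hy
  have e0 : (x 0, y 0) = (0 : ℂ × ℂ) := by rw [hx0, hy0]; rfl
  have hσ' : AnalyticAt ℂ σ (x 0, y 0) := by rw [e0]; exact hσ
  have h1 : AnalyticAt ℂ (fun z => σ (x z, y z)) 0 := AnalyticAt.fun_comp (g := σ) (f := fun z => (x z, y z)) hσ' hxy
  have hd1 : HasDerivAt (fun z => (x z, y z)) (deriv x 0, deriv y 0) 0 :=
    hx.differentiableAt.hasDerivAt.prodMk hy.differentiableAt.hasDerivAt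
  have hd2 : HasFDerivAt σ (fderiv ℂ σ (x 0, y 0)) (x 0, y 0) := hσ'.differentiableAt.hasFDerivAt
  have hd3 : HasDerivAt (fun z => σ (x z, y z)) (fderiv ℂ σ (x 0, y 0) (deriv x 0, deriv y 0)) 0 := hd2.comp_hasDerivAt (0 : ℂ) hd1
  have hd4 := hu.differentiableAt.hasDerivAt.smul hd3
  refine ⟨hu.smul h1, ?_⟩
  have e1 := hd4.deriv
  rw [e0] at e1
  exact e1

/-- the length of the tangent vector in a chart -/
theorem null_of_deriv (hc : Crv X Q e) {n : PseudoLength X} (hn : ∀ γ : ℂ → EN N, AnalyticAt ℂ γ 0 →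
      (∀ᶠ z in 𝓝 (0 : ℂ), γ z ∈ X ∧ ∀ k, Q k (γ z) = 0) → n.toFun (γ 0) (deriv γ 0) = 0) {H : ℂ → EN N} {u : ℂ → ℂ} (hH : AnalyticAt ℂ H 0)
    (hHX : ∀ᶠ z in 𝓝 (0 : ℂ), H z ∈ X) (hu : AnalyticAt ℂ u 0) (hu0 : u 0 ≠ 0) {σ : ℂ × ℂ → EN N} {τ : EN N → ℂ × ℂ}
    (hσ : IsChart X σ τ) {x y u' x₁ y₁ : ℂ → ℂ} (hx : AnalyticAt ℂ x 0) (hy : AnalyticAt ℂ y 0) (hu' : AnalyticAt ℂ u' 0) (hu'0 : u' 0 ≠ 0)
    (hx0 : x 0 = 0) (hy0 : y 0 = 0) (he : ∀ᶠ z in 𝓝 (0 : ℂ), u z • H z = u' z • σ (x z, y z)) (hx₁ : AnalyticAt ℂ x₁ 0)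
    (hy₁ : AnalyticAt ℂ y₁ 0) (hx₁0 : x₁ 0 = 0) (hy₁0 : y₁ 0 = 0) (hdx : deriv x₁ 0 = deriv x 0) (hdy : deriv y₁ 0 = deriv y 0)
    (hQ : ∀ k, ∀ᶠ z in 𝓝 (0 : ℂ), Q k (σ (x₁ z, y₁ z)) = 0) : n.toFun (H 0) (deriv H 0) = 0 := by
  have hC := isCone_of_surface hc.surf
  obtain ⟨hγa, hγd⟩ := hasDerivAt_smul_sigma hσ.σ_an hu' hx₁ hy₁ hx₁0 hy₁0
  obtain ⟨-, hGd⟩ := hasDerivAt_smul_sigma hσ.σ_an hu' hx hy hx0 hy0
  have hxy : Tendsto (fun z => (x₁ z, y₁ z)) (𝓝 (0 : ℂ)) (𝓝 (0 : ℂ × ℂ)) := by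
    have h1 := (hx₁.continuousAt.tendsto).prodMk_nhds hy₁.continuousAt.tendsto
    rw [hx₁0, hy₁0] at h1
    exact h1
  have hu'n : ∀ᶠ z in 𝓝 (0 : ℂ), u' z ≠ 0 := hu'.continuousAt.eventually_ne hu'0
  have h1 : ∀ᶠ z in 𝓝 (0 : ℂ), u' z • σ (x₁ z, y₁ z) ∈ X := by
    filter_upwards [hxy.eventually hσ.σ_mem, hu'n] with z h1 h2
    exact hc.surf.smul _ h1 _ h2
  have h2 : ∀ᶠ z in 𝓝 (0 : ℂ), ∀ k, Q k (u' z • σ (x₁ z, y₁ z)) = 0 := by
    refine uniform_zero (γ := fun z => u' z • σ (x₁ z, y₁ z)) hc.an hγa fun k => ?_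
    filter_upwards [hQ k] with z hz
    rw [hc.smul, hz, mul_zero]
  have h3 := hn (fun z => u' z • σ (x₁ z, y₁ z)) hγa (h1.and h2)
  have h4 : deriv (fun z => u' z • σ (x₁ z, y₁ z)) 0 = deriv (fun z => u z • H z) 0 := by
    rw [hγd, hdx, hdy, ← hGd]
    exact (Filter.EventuallyEq.deriv_eq he).symm
  have h5 : (fun z => u' z • σ (x₁ z, y₁ z)) 0 = u 0 • H 0 := by
    have h6 := he.self_of_nhds
    rw [hx0, hy0] at h6
    show u' 0 • σ (x₁ 0, y₁ 0) = u 0 • H 0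
    rw [hx₁0, hy₁0]
    exact h6.symm
  have h7 : deriv (fun z => u z • H z) 0 = u 0 • deriv H 0 + deriv u 0 • H 0 :=
    (hu.differentiableAt.hasDerivAt.smul hH.differentiableAt.hasDerivAt).deriv
  have h9 : n.toFun (u 0 • H 0) (u 0 • deriv H 0 + deriv u 0 • H 0) = 0 := by
    rw [← h5, ← h7, ← h4]
    exact h3
  have h8 : Pool.Agent.H14.PP.Tan X (H 0) (deriv H 0) := tan_curve ⟨hH, hHX⟩
  rwa [n.inv hC h8 hu0] at h9

/-- MODULE FinS: at a smooth point the curve `H` crosses `D` transversally. -/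
theorem order_one (hc : Crv X Q e) {n : PseudoLength X} (hn : ∀ γ : ℂ → EN N, AnalyticAt ℂ γ 0 →
      (∀ᶠ z in 𝓝 (0 : ℂ), γ z ∈ X ∧ ∀ k, Q k (γ z) = 0) → n.toFun (γ 0) (deriv γ 0) = 0) {H : ℂ → EN N} {u : ℂ → ℂ} (hH : AnalyticAt ℂ H 0)
    (hHX : ∀ᶠ z in 𝓝 (0 : ℂ), H z ∈ X) (hu : AnalyticAt ℂ u 0) (hu0 : u 0 ≠ 0) (hn1 : n.toFun (H 0) (deriv H 0) ≠ 0) {i : κ}
    {σ : ℂ × ℂ → EN N} {τ : EN N → ℂ × ℂ} (hσ : Mon X Q i 0 σ τ) (hp : Pr (σ 0) (H 0)) :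
    analyticOrderAt (fun z => Q i (u z • H z)) 0 = 1 := by
  have hG : AnalyticAt ℂ (fun z => u z • H z) 0 := hu.smul hH
  have hGX : ∀ᶠ z in 𝓝 (0 : ℂ), u z • H z ∈ X := by
    filter_upwards [hHX, hu.continuousAt.eventually_ne hu0] with z h1 h2
    exact hc.surf.smul _ h1 _ h2
  have hp' : Pr (σ 0) (u 0 • H 0) := by
    obtain ⟨c, hc0, hc1⟩ := hp
    refine ⟨c * (u 0)⁻¹, mul_ne_zero hc0 (inv_ne_zero hu0), ?_⟩
    rw [smul_smul, mul_assoc, inv_mul_cancel₀ hu0, mul_one]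
    exact hc1
  obtain ⟨x, y, u', hx, hy, hu', hu'0, he, hx0, hy0⟩ := chart_curve hc.surf hσ.chart hG hGX hp'
  have hdx : deriv x 0 ≠ 0 := by
    intro hd
    refine hn1 (null_of_deriv hc hn hH hHX hu hu0 hσ.chart hx hy hu' hu'0 hx0 hy0 he (x₁ := fun _ => 0) (y₁ := y) analyticAt_const hy rfl
      hy0 ?_ rfl fun k => ?_)
    · rw [hd]
      exact deriv_const 0 0
    · obtain ⟨r, -, hr⟩ := hσ.dvd k
      have hxy : Tendsto (fun z => ((0 : ℂ), y z)) (𝓝 (0 : ℂ)) (𝓝 (0 : ℂ × ℂ)) := by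
        have h1 := (tendsto_const_nhds (x := (0 : ℂ)) (f := 𝓝 (0 : ℂ))).prodMk_nhds hy.continuousAt.tendsto
        rw [hy0] at h1
        exact h1
      filter_upwards [hxy.eventually hr] with z hz
      rw [hz]
      simp
  obtain ⟨r, hr, hr0, hr1⟩ := hσ.unit
  have hxy : Tendsto (fun z => (x z, y z)) (𝓝 (0 : ℂ)) (𝓝 (0 : ℂ × ℂ)) := by
    have h1 := (hx.continuousAt.tendsto).prodMk_nhds hy.continuousAt.tendsto
    rw [hx0, hy0] at h1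
    exact h1
  have e0 : (x 0, y 0) = (0 : ℂ × ℂ) := by rw [hx0, hy0]; rfl
  have hr' : AnalyticAt ℂ (fun z => r (x z, y z)) 0 := by
    refine AnalyticAt.fun_comp (g := r) (f := fun z => (x z, y z)) ?_ (hx.prod hy)
    rw [e0]
    exact hr
  have e1 : (fun z => Q i (u z • H z)) =ᶠ[𝓝 0] fun z => x z * (u' z ^ e * r (x z, y z)) := by
    filter_upwards [he, hxy.eventually hr1] with z h1 h2
    rw [h1, hc.smul, h2]
    ring
  rw [analyticOrderAt_congr e1]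
  have e2 : analyticOrderAt (fun z => x z * (u' z ^ e * r (x z, y z))) 0 = analyticOrderAt x 0 + analyticOrderAt (fun z => u' z ^ e * r (x z, y z)) 0 :=
    analyticOrderAt_mul hx ((hu'.pow e).mul hr')
  rw [e2]
  have e3 : analyticOrderAt (fun z => u' z ^ e * r (x z, y z)) 0 = 0 := by
    have h1 : AnalyticAt ℂ (fun z => u' z ^ e * r (x z, y z)) 0 := (hu'.pow e).mul hr'
    rw [h1.analyticOrderAt_eq_zero]
    refine mul_ne_zero (pow_ne_zero _ hu'0) ?_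
    rw [e0]
    exact hr0
  have e4 : analyticOrderAt x 0 = 1 := by
    have h1 := hx.analyticOrderAt_sub_eq_one_of_deriv_ne_zero hdx
    simpa only [hx0, sub_zero] using h1
  rw [e3, e4, add_zero]

end Pool.Agent.UC
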