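import Pool.Agent.UC.AtInf
import Pool.Agent.UC.NonC

/-!
# UC AtEx: the local data along a rational curve in `D`

`AtEx_Good X f x`: the function `f` restricted to the cone `X` has a nonzero derivative at `x`.  This does not depend on charts; along the curve
it means that `y ^ b * r (0, y)` is not zero.
-/

set_option autoImplicit false

open Topology Filter Metric

noncomputable section

namespace Pool.Agent.UC

open Pool.Agent.H17BP (Surface IsForm IsChart Tan Pr)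

variable {V : Type} [NormedAddCommGroup V] [NormedSpace ℂ V] {X : Set V} {κ : Type} {Q : κ → V → ℂ} {e m j : ℕ}

/-- the derivative of `f` on `X` at `x` is not zero -/
private def AtEx_Good (X : Set V) (f : V → ℂ) (x : V) : Prop :=
  ∃ γ : ℂ → V, AnalyticAt ℂ γ 0 ∧ (∀ᶠ z in 𝓝 (0 : ℂ), γ z ∈ X) ∧ γ 0 = x ∧ deriv (fun z => f (γ z)) 0 ≠ 0

/-- the local data without the order -/
private structure AtEx_Pre (X : Set V) (Q : κ → V → ℂ) (i₀ : κ) (K : ℂ → V) (c : ℂ) (i : κ) (b : ℕ) (σ : ℂ × ℂ → V) (τ : V → ℂ × ℂ)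
    (h y : ℂ → ℂ) (r : ℂ × ℂ → ℂ) : Prop where
  mon : Mon X Q i b σ τ
  h_an : AnalyticAt ℂ h c
  h0 : h c ≠ 0
  y_an : AnalyticAt ℂ y c
  y0 : y c = 0
  ync : ¬ ∀ᶠ z in 𝓝 c, y z = 0
  eq : ∀ᶠ z in 𝓝 c, K z = h z • σ (0, y z)
  r_an : AnalyticAt ℂ r 0
  eq₀ : ∀ᶠ p in 𝓝 (0 : ℂ × ℂ), Q i₀ (σ p) = p.1 * p.2 ^ b * r p

private theorem AtEx_good_smul (hX : ∀ x ∈ X, ∀ c : ℂ, c ≠ 0 → c • x ∈ X) {f : V → ℂ} (hf : ∀ (c : ℂ) x, f (c • x) = c ^ e * f x)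
    {x : V} {c : ℂ} (hc : c ≠ 0) (h : AtEx_Good X f x) : AtEx_Good X f (c • x) := by
  obtain ⟨γ, h1, h2, h3, h4⟩ := h
  refine ⟨fun z => c • γ z, analyticAt_const.smul h1, h2.mono fun z hz => hX _ hz c hc, by simp only [h3], ?_⟩
  have : (fun z => f (c • γ z)) = fun z => c ^ e * f (γ z) := by
    funext z
    exact hf c _
  rw [this, deriv_const_mul_field]
  exact mul_ne_zero (pow_ne_zero _ hc) h4

/-- the curve `z ↦ (0, y z)` tends to `0` -/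
private theorem AtEx_tendsto {y : ℂ → ℂ} {c : ℂ} (hy : AnalyticAt ℂ y c) (hy0 : y c = 0) :
    Tendsto (fun z => ((0, y z) : ℂ × ℂ)) (𝓝 c) (𝓝 0) := by
  have h1 : Tendsto y (𝓝 c) (𝓝 0) := by
    have := hy.continuousAt.tendsto
    rwa [hy0] at this
  have h2 : Tendsto (fun z => ((0, y z) : ℂ × ℂ)) (𝓝 c) (𝓝 ((0 : ℂ), (0 : ℂ))) := tendsto_const_nhds.prodMk_nhds h1
  exact h2

/-- one direction of the criterion -/
private theorem AtEx_key1 [FiniteDimensional ℂ V] (hX : ∀ x ∈ X, ∀ c : ℂ, c ≠ 0 → c • x ∈ X) {i₀ i : κ} (hf : ∀ (c : ℂ) x, Q i₀ (c • x) = c ^ e * Q i₀ x)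
    {K : ℂ → V} {c : ℂ} {b : ℕ} {σ : ℂ × ℂ → V} {τ : V → ℂ × ℂ} {h y : ℂ → ℂ} {r : ℂ × ℂ → ℂ}
    (P : AtEx_Pre X Q i₀ K c i b σ τ h y r) :
    ∀ᶠ z in 𝓝 c, y z ^ b * r (0, y z) ≠ 0 → AtEx_Good X (Q i₀) (K z) := by
  have : CompleteSpace V := FiniteDimensional.complete ℂ V
  have hT := AtEx_tendsto P.y_an P.y0
  have e1 : ∀ᶠ p in 𝓝 (0 : ℂ × ℂ), AnalyticAt ℂ σ p ∧ AnalyticAt ℂ r p ∧ (∀ᶠ q in 𝓝 p, σ q ∈ X) ∧
      ∀ᶠ q in 𝓝 p, Q i₀ (σ q) = q.1 * q.2 ^ b * r q :=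
    P.mon.chart.σ_an.eventually_analyticAt.and (P.r_an.eventually_analyticAt.and
      (P.mon.chart.σ_mem.eventually_nhds.and P.eq₀.eventually_nhds))
  filter_upwards [hT.eventually e1, P.h_an.continuousAt.eventually_ne P.h0, P.eq] with z h1 h2 h3 h4
  obtain ⟨a1, a2, a3, a4⟩ := h1
  have hι : AnalyticAt ℂ (fun t : ℂ => ((t, y z) : ℂ × ℂ)) 0 := analyticAt_id.prod analyticAt_const
  have hιt : Tendsto (fun t : ℂ => ((t, y z) : ℂ × ℂ)) (𝓝 0) (𝓝 ((0, y z) : ℂ × ℂ)) := hι.continuousAt.tendsto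
  refine ⟨fun t => h z • σ (t, y z), ?_, ?_, h3.symm, ?_⟩
  · exact analyticAt_const.smul (AnalyticAt.fun_comp (g := σ) (f := fun t : ℂ => ((t, y z) : ℂ × ℂ)) a1 hι)
  · exact (hιt.eventually a3).mono fun t ht => hX _ ht _ h2
  · have h5 : (fun t => Q i₀ (h z • σ (t, y z))) =ᶠ[𝓝 0] fun t => t * (h z ^ e * (y z ^ b * r (t, y z))) := by
      filter_upwards [hιt.eventually a4] with t ht
      rw [hf, ht]
      ring
    have h6 : AnalyticAt ℂ (fun t : ℂ => h z ^ e * (y z ^ b * r (t, y z))) 0 :=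
      analyticAt_const.mul (analyticAt_const.mul (AnalyticAt.fun_comp (g := r) (f := fun t : ℂ => ((t, y z) : ℂ × ℂ)) a2 hι))
    rw [h5.deriv_eq]
    have h7 : HasDerivAt (fun t : ℂ => t * (h z ^ e * (y z ^ b * r (t, y z))))
        (1 * (h z ^ e * (y z ^ b * r (0, y z))) + 0 * deriv (fun t : ℂ => h z ^ e * (y z ^ b * r (t, y z))) 0) 0 :=
      (hasDerivAt_id (0 : ℂ)).mul h6.differentiableAt.hasDerivAt
    rw [h7.deriv, one_mul, zero_mul, add_zero]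
    exact mul_ne_zero (pow_ne_zero _ h2) h4

/-- the other direction -/
private theorem AtEx_key2 [FiniteDimensional ℂ V] (hX : ∀ x ∈ X, ∀ c : ℂ, c ≠ 0 → c • x ∈ X) {i₀ i : κ} (hf : ∀ (c : ℂ) x, Q i₀ (c • x) = c ^ e * Q i₀ x)
    {K : ℂ → V} {c : ℂ} {b : ℕ} {σ : ℂ × ℂ → V} {τ : V → ℂ × ℂ} {h y : ℂ → ℂ} {r : ℂ × ℂ → ℂ}
    (P : AtEx_Pre X Q i₀ K c i b σ τ h y r) :
    ∀ᶠ z in 𝓝 c, AtEx_Good X (Q i₀) (K z) → y z ^ b * r (0, y z) ≠ 0 := by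
  have : CompleteSpace V := FiniteDimensional.complete ℂ V
  have hT := AtEx_tendsto P.y_an P.y0
  have C := P.mon.chart
  obtain ⟨Λ, hΛ⟩ : ∃ Λ : V →L[ℂ] ℂ, Λ (σ 0) ≠ 0 := by
    obtain ⟨Λ, -, h2⟩ := exists_dual_vector ℂ (σ 0) (norm_ne_zero_iff.2 C.ne)
    refine ⟨Λ, ?_⟩
    rw [h2]
    exact Complex.ofReal_ne_zero.2 (norm_ne_zero_iff.2 C.ne)
  have hτ0 : τ (σ 0) = 0 := C.left.self_of_nhds
  have hτt : Tendsto τ (𝓝 (σ 0)) (𝓝 0) := by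
    have := C.τ_an.continuousAt.tendsto
    rwa [hτ0] at this
  -- the good neighbourhood of `0` in the chart
  have e0 : ∀ᶠ p in 𝓝 (0 : ℂ × ℂ), AnalyticAt ℂ σ p ∧ AnalyticAt ℂ r p ∧ Λ (σ p) ≠ 0 ∧ Q i₀ (σ p) = p.1 * p.2 ^ b * r p := by
    refine C.σ_an.eventually_analyticAt.and (P.r_an.eventually_analyticAt.and (Eventually.and ?_ P.eq₀))
    have : ContinuousAt (fun p => Λ (σ p)) 0 := Λ.continuous.continuousAt.comp C.σ_an.continuousAt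
    exact this.eventually_ne hΛ
  -- the good neighbourhood of `σ 0`
  have e1 : ∀ᶠ x in 𝓝 (σ 0), AnalyticAt ℂ τ x ∧ (x ∈ X → ∃ c : ℂ, c ≠ 0 ∧ x = c • σ (τ x)) ∧ AnalyticAt ℂ σ (τ x) ∧
      AnalyticAt ℂ r (τ x) ∧ Λ (σ (τ x)) ≠ 0 ∧ Q i₀ (σ (τ x)) = (τ x).1 * (τ x).2 ^ b * r (τ x) :=
    C.τ_an.eventually_analyticAt.and (C.right.and (hτt.eventually e0))
  have hσt : Tendsto σ (𝓝 0) (𝓝 (σ 0)) := C.σ_an.continuousAt.tendsto
  have e2 : ∀ᶠ p in 𝓝 (0 : ℂ × ℂ), τ (σ p) = p ∧ ∀ᶠ x in 𝓝 (σ p), AnalyticAt ℂ τ x ∧ (x ∈ X → ∃ c : ℂ, c ≠ 0 ∧ x = c • σ (τ x)) ∧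
      AnalyticAt ℂ σ (τ x) ∧ AnalyticAt ℂ r (τ x) ∧ Λ (σ (τ x)) ≠ 0 ∧ Q i₀ (σ (τ x)) = (τ x).1 * (τ x).2 ^ b * r (τ x) :=
    C.left.and (hσt.eventually e1.eventually_nhds)
  filter_upwards [hT.eventually e2, P.h_an.continuousAt.eventually_ne P.h0, P.eq] with z h1 h2 h3 h4
  obtain ⟨a1, a2⟩ := h1
  obtain ⟨γ, g1, g2, g3, g4⟩ := h4
  intro hcon
  apply g4
  set δ : ℂ → V := fun t => (h z)⁻¹ • γ t with hδ
  have hδ_an : AnalyticAt ℂ δ 0 := analyticAt_const.smul g1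
  have hδ0 : δ 0 = σ (0, y z) := by
    simp only [hδ]
    rw [g3, h3, smul_smul, inv_mul_cancel₀ h2, one_smul]
  have hδt : Tendsto δ (𝓝 0) (𝓝 (σ (0, y z))) := by
    have := hδ_an.continuousAt.tendsto
    rwa [hδ0] at this
  have hδX : ∀ᶠ t in 𝓝 (0 : ℂ), δ t ∈ X := g2.mono fun t ht => hX _ ht _ (inv_ne_zero h2)
  obtain ⟨b1, -, b3, b4, b5, -⟩ := a2.self_of_nhds
  rw [← hδ0] at b1 b3 b4 b5
  have hp0 : τ (δ 0) = (0, y z) := by rw [hδ0, a1]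
  have hp_an : AnalyticAt ℂ (fun t => τ (δ t)) 0 := AnalyticAt.fun_comp (g := τ) (f := δ) b1 hδ_an
  have hσp : AnalyticAt ℂ (fun t => σ (τ (δ t))) 0 := AnalyticAt.fun_comp (g := σ) (f := fun t => τ (δ t)) b3 hp_an
  have hrp : AnalyticAt ℂ (fun t => r (τ (δ t))) 0 := AnalyticAt.fun_comp (g := r) (f := fun t => τ (δ t)) b4 hp_an
  have hΛ1 : AnalyticAt ℂ (fun t => Λ (δ t)) 0 := (Λ.analyticAt _).fun_comp hδ_an
  have hΛ2 : AnalyticAt ℂ (fun t => Λ (σ (τ (δ t)))) 0 := (Λ.analyticAt _).fun_comp hσp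
  have hp1 : AnalyticAt ℂ (fun t => (τ (δ t)).1) 0 := analyticAt_fst.fun_comp hp_an
  have hp2 : AnalyticAt ℂ (fun t => (τ (δ t)).2) 0 := analyticAt_snd.fun_comp hp_an
  have h5 : (fun t => Q i₀ (γ t)) =ᶠ[𝓝 0] fun t => (h z * (Λ (δ t) / Λ (σ (τ (δ t))))) ^ e *
      ((τ (δ t)).1 * ((τ (δ t)).2 ^ b * r (τ (δ t)))) := by
    filter_upwards [hδt.eventually a2, hδX] with t ht1 ht2
    obtain ⟨-, c2, -, -, c5, c6⟩ := ht1
    obtain ⟨c, -, hc⟩ := c2 ht2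
    have hcΛ : Λ (δ t) / Λ (σ (τ (δ t))) = c := by
      rw [div_eq_iff c5]
      conv_lhs => rw [hc]
      rw [map_smul, smul_eq_mul]
    have hγ : γ t = (h z * c) • σ (τ (δ t)) := by
      rw [← smul_smul, ← hc, hδ, smul_smul, mul_inv_cancel₀ h2, one_smul]
    rw [hcΛ, hγ, hf, c6]
    ring
  rw [h5.deriv_eq]
  have hA : AnalyticAt ℂ (fun t => (h z * (Λ (δ t) / Λ (σ (τ (δ t))))) ^ e) 0 :=
    (analyticAt_const.mul (hΛ1.div hΛ2 b5)).pow e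
  have hB : AnalyticAt ℂ (fun t => (τ (δ t)).2 ^ b * r (τ (δ t))) 0 := (hp2.pow b).mul hrp
  have h6 := hA.differentiableAt.hasDerivAt.fun_mul (hp1.differentiableAt.hasDerivAt.fun_mul hB.differentiableAt.hasDerivAt)
  rw [h6.deriv, hp0]
  simp only [hcon, mul_zero, zero_mul, add_zero]

/-- from `At` to the local data -/
private theorem AtEx_of_at {i₀ : κ} {K : ℂ → V} {c : ℂ} {b ν : ℕ} (h : At X Q i₀ K c b ν) :
    ∃ (i : κ) (σ : ℂ × ℂ → V) (τ : V → ℂ × ℂ) (u y : ℂ → ℂ) (r : ℂ × ℂ → ℂ), AtEx_Pre X Q i₀ K c i b σ τ u y r ∧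
      analyticOrderAt (fun z => r (0, y z)) c = ν := by
  obtain ⟨i, σ, τ, u, y, r, h1, h2, h3, h4, h5, h6, h7, h8, h9, h10⟩ := h
  exact ⟨i, σ, τ, u, y, r, ⟨h1, h2, h3, h4, h5, h6, h7, h8, h9⟩, h10⟩

private theorem AtEx_to_at {i₀ : κ} {K : ℂ → V} {c : ℂ} {b ν : ℕ} {i : κ} {σ : ℂ × ℂ → V} {τ : V → ℂ × ℂ} {u y : ℂ → ℂ} {r : ℂ × ℂ → ℂ}
    (P : AtEx_Pre X Q i₀ K c i b σ τ u y r) (h : analyticOrderAt (fun z => r (0, y z)) c = ν) : At X Q i₀ K c b ν :=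
  ⟨i, σ, τ, u, y, r, P.mon, P.h_an, P.h0, P.y_an, P.y0, P.ync, P.eq, P.r_an, P.eq₀, h⟩

/-- the local data exist at every point -/
private theorem AtEx_exists [FiniteDimensional ℂ V] (hc : Crv X Q e) {d : ℕ} {K K' : ℂ → V} (h : RatC X d K K') (hd : 1 ≤ d)
    (hKD : ∀ z k, Q k (K z) = 0) (i₀ : κ) (c : ℂ) :
    ∃ (i : κ) (b : ℕ) (σ : ℂ × ℂ → V) (τ : V → ℂ × ℂ) (u y : ℂ → ℂ) (r : ℂ × ℂ → ℂ), AtEx_Pre X Q i₀ K c i b σ τ u y r := by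
  obtain ⟨i, b, σ, τ, h0, hm⟩ := hc.loc (K c) (h.mem c) (hKD c)
  have hat := at_of_mon hc (h.diff.analyticAt c) (Eventually.of_forall h.mem) (Eventually.of_forall hKD)
    ((nonconst hc.surf h hd).1 c) hm ⟨1, one_ne_zero, by rw [h0, one_smul]⟩
  obtain ⟨i', σ', τ', u, y, r, P, -⟩ := AtEx_of_at hat
  obtain ⟨r', h1, h2⟩ := P.mon.dvd i₀
  exact ⟨i', b, σ', τ', u, y, r', P.mon, P.h_an, P.h0, P.y_an, P.y0, P.ync, P.eq, h1, h2⟩

private theorem AtEx_r_an {i₀ : κ} {K : ℂ → V} {c : ℂ} {b : ℕ} {i : κ} {σ : ℂ × ℂ → V} {τ : V → ℂ × ℂ} {u y : ℂ → ℂ} {r : ℂ × ℂ → ℂ}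
    (P : AtEx_Pre X Q i₀ K c i b σ τ u y r) : AnalyticAt ℂ (fun z => r (0, y z)) c := by
  have h1 : AnalyticAt ℂ (fun z => ((0, y z) : ℂ × ℂ)) c := analyticAt_const.prod P.y_an
  have h2 : AnalyticAt ℂ r ((fun z => ((0, y z) : ℂ × ℂ)) c) := by
    simp only [P.y0]
    exact P.r_an
  exact AnalyticAt.fun_comp (g := r) h2 h1

/-- dichotomy -/
private theorem AtEx_dich [FiniteDimensional ℂ V] (hX : ∀ x ∈ X, ∀ c : ℂ, c ≠ 0 → c • x ∈ X) {i₀ i : κ}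
    (hf : ∀ (c : ℂ) x, Q i₀ (c • x) = c ^ e * Q i₀ x) {K : ℂ → V} {c : ℂ} {b : ℕ} {σ : ℂ × ℂ → V} {τ : V → ℂ × ℂ} {h y : ℂ → ℂ}
    {r : ℂ × ℂ → ℂ} (P : AtEx_Pre X Q i₀ K c i b σ τ h y r) :
    (∀ᶠ z in 𝓝 c, ¬ AtEx_Good X (Q i₀) (K z)) ∨
      ((∀ᶠ z in 𝓝[≠] c, AtEx_Good X (Q i₀) (K z)) ∧ analyticOrderAt (fun z => r (0, y z)) c ≠ ⊤) := by
  have hr := AtEx_r_an P
  rcases hr.eventually_eq_zero_or_eventually_ne_zero with h1 | h1
  · left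
    filter_upwards [h1, AtEx_key2 hX hf P] with z h2 h3 h4
    exact h3 h4 (by rw [h2, mul_zero])
  · right
    have hy : ∀ᶠ z in 𝓝[≠] c, y z ≠ 0 := P.y_an.eventually_eq_zero_or_eventually_ne_zero.resolve_left P.ync
    refine ⟨?_, ?_⟩
    · filter_upwards [h1, hy, nhdsWithin_le_nhds (AtEx_key1 hX hf P)] with z h2 h3 h4
      exact h4 (mul_ne_zero (pow_ne_zero _ h3) h2)
    · intro h2
      rw [analyticOrderAt_eq_top] at h2
      obtain ⟨z, h3, h4⟩ := (h1.and (nhdsWithin_le_nhds h2)).exists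
      exact h3 h4

/-- **The local data along a rational curve in `D`.** -/
theorem exists_at [FiniteDimensional ℂ V] (hc : Crv X Q e) {d : ℕ} {K K' : ℂ → V} (h : RatC X d K K') (hd : 1 ≤ d)
    (hKD : ∀ z k, Q k (K z) = 0) {i₀ : κ} {b' ν' : ℕ} (hi : At X Q i₀ K' 0 b' ν') :
    ∃ (F : Finset ℂ) (b ν : ℂ → ℕ), (∀ c ∈ F, At X Q i₀ K c (b c) (ν c)) ∧ ∀ c ∉ F, At X Q i₀ K c 0 0 := by
  classical
  have hX := hc.surf.smul
  have hf := hc.smul i₀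
  choose i b σ τ u y r P using AtEx_exists hc h hd hKD i₀
  -- at infinity
  have hinf : ∃ R : ℝ, ∀ z : ℂ, R < ‖z‖ → AtEx_Good X (Q i₀) (K z) := by
    obtain ⟨i', σ', τ', u', y', r', P', ho⟩ := AtEx_of_at hi
    have h1 : ∀ᶠ z in 𝓝[≠] (0 : ℂ), AtEx_Good X (Q i₀) (K' z) := by
      have hr : ∀ᶠ z in 𝓝[≠] (0 : ℂ), r' (0, y' z) ≠ 0 := by
        refine (AtEx_r_an P').eventually_eq_zero_or_eventually_ne_zero.resolve_left fun h2 => ?_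
        rw [analyticOrderAt_eq_top.2 h2] at ho
        exact ENat.natCast_ne_top ν' ho.symm
      have hy : ∀ᶠ z in 𝓝[≠] (0 : ℂ), y' z ≠ 0 := P'.y_an.eventually_eq_zero_or_eventually_ne_zero.resolve_left P'.ync
      filter_upwards [hr, hy, nhdsWithin_le_nhds (AtEx_key1 hX hf P')] with z h2 h3 h4
      exact h4 (mul_ne_zero (pow_ne_zero _ h3) h2)
    rw [eventually_nhdsWithin_iff, Metric.eventually_nhds_iff] at h1
    obtain ⟨ε, hε, h2⟩ := h1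
    refine ⟨ε⁻¹, fun z hz => ?_⟩
    have hz0 : z ≠ 0 := by
      rintro rfl
      rw [norm_zero] at hz
      exact absurd hz (not_lt.2 (inv_nonneg.2 hε.le))
    have h3 : AtEx_Good X (Q i₀) (K' z⁻¹) := by
      apply h2 _ (inv_ne_zero hz0)
      rw [dist_zero_right, norm_inv]
      exact inv_lt_of_inv_lt₀ hε hz
    rw [h.rel z hz0]
    exact AtEx_good_smul hX hf (pow_ne_zero _ hz0) h3
  -- the dichotomy at the points of the affine line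
  have hdich : ∀ c : ℂ, (∀ᶠ z in 𝓝 c, ¬ AtEx_Good X (Q i₀) (K z)) ∨
      ((∀ᶠ z in 𝓝[≠] c, AtEx_Good X (Q i₀) (K z)) ∧ analyticOrderAt (fun z => r c (0, y c z)) c ≠ ⊤) :=
    fun c => AtEx_dich hX hf (P c)
  set S : Set ℂ := {c | ∀ᶠ z in 𝓝 c, ¬ AtEx_Good X (Q i₀) (K z)} with hS
  have hSo : IsOpen S := by
    rw [isOpen_iff_eventually]
    intro c hc'
    exact hc'.eventually_nhds
  have hSc : IsClosed S := by
    rw [← isOpen_compl_iff, isOpen_iff_eventually]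
    intro c hc'
    have h1 : ∀ᶠ z in 𝓝[≠] c, AtEx_Good X (Q i₀) (K z) := ((hdich c).resolve_left hc').1
    rw [eventually_nhdsWithin_iff] at h1
    filter_upwards [h1.eventually_nhds] with z hz
    intro (hz' : ∀ᶠ z in 𝓝 z, ¬ AtEx_Good X (Q i₀) (K z))
    have h2 : ∀ᶠ w in 𝓝[≠] z, w ∈ ({c}ᶜ : Set ℂ) := by
      by_cases hzc : z = c
      · subst hzc
        exact self_mem_nhdsWithin
      · exact nhdsWithin_le_nhds (isOpen_compl_singleton.mem_nhds hzc)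
    obtain ⟨w, h3, h4, h5⟩ := (h2.and (nhdsWithin_le_nhds (hz.and hz'))).exists
    exact h5 (h4 h3)
  have hSe : S = ∅ := by
    rcases isClopen_iff.1 ⟨hSc, hSo⟩ with h1 | h1
    · exact h1
    · exfalso
      obtain ⟨R, hR⟩ := hinf
      have h2 : ((|R| + 1 : ℝ) : ℂ) ∈ S := by
        rw [h1]
        trivial
      have h3 : ¬ AtEx_Good X (Q i₀) (K ((|R| + 1 : ℝ) : ℂ)) := h2.self_of_nhds
      apply h3
      apply hR
      rw [Complex.norm_real, Real.norm_eq_abs, abs_of_pos (by positivity)]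
      linarith [le_abs_self R]
  have hall : ∀ c : ℂ, (∀ᶠ z in 𝓝[≠] c, AtEx_Good X (Q i₀) (K z)) ∧ analyticOrderAt (fun z => r c (0, y c z)) c ≠ ⊤ := by
    intro c
    refine (hdich c).resolve_left fun h1 => ?_
    have h2 : c ∈ S := h1
    rw [hSe] at h2
    exact h2
  -- the bad points are finite in number
  have hfin : {c : ℂ | ¬ AtEx_Good X (Q i₀) (K c)}.Finite := by
    by_contra hinfi
    obtain ⟨R, hR⟩ := hinf
    have hsub : {c : ℂ | ¬ AtEx_Good X (Q i₀) (K c)} ⊆ closedBall 0 R := by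
      intro c (hc' : ¬ AtEx_Good X (Q i₀) (K c))
      rw [mem_closedBall_zero_iff]
      exact not_lt.1 fun h1 => hc' (hR c h1)
    obtain ⟨c, -, hacc⟩ := Set.Infinite.exists_accPt_of_subset_isCompact hinfi (isCompact_closedBall (0 : ℂ) R) hsub
    rw [accPt_iff_frequently_nhdsNE] at hacc
    exact hacc ((hall c).1.mono fun z hz hz' => hz' hz)
  choose ν hν using fun c => ENat.ne_top_iff_exists.1 (hall c).2
  refine ⟨hfin.toFinset, b, ν, fun c _ => AtEx_to_at (P c) (hν c).symm, fun c hcF => ?_⟩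
  have hg : AtEx_Good X (Q i₀) (K c) := by
    by_contra hg
    exact hcF (hfin.mem_toFinset.2 hg)
  have h1 := (AtEx_key2 hX hf (P c)).self_of_nhds hg
  rw [(P c).y0] at h1
  have hb : b c = 0 := by
    by_contra hb
    rw [zero_pow hb, zero_mul] at h1
    exact h1 rfl
  have hr0 : r c (0, y c c) ≠ 0 := by
    rw [(P c).y0]
    exact right_ne_zero_of_mul h1
  have h2 := AtEx_to_at (ν := 0) (P c) (by
    rw [(AtEx_r_an (P c)).analyticOrderAt_eq_zero.2 hr0]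
    rfl)
  rwa [hb] at h2

end Pool.Agent.UC
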