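import Pool.Agent.UC.Ch

/-!
# UC AtInf: a curve in the divisor is one of the branches in the chart
-/

set_option autoImplicit false

open Topology Filter Metric

noncomputable section

namespace Pool.Agent.UC

open Pool.Agent.H17BP (Surface IsForm IsChart Tan Pr)

section

variable {V : Type} [NormedAddCommGroup V] [NormedSpace ℂ V] {X : Set V} {κ : Type} {Q : κ → V → ℂ}

private theorem ati_swap_an {p : ℂ × ℂ} : AnalyticAt ℂ (fun p : ℂ × ℂ => (p.2, p.1)) p :=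
  analyticAt_snd.prod analyticAt_fst

private theorem ati_swap_tendsto : Tendsto (fun p : ℂ × ℂ => (p.2, p.1)) (𝓝 0) (𝓝 0) := by
  have h : Continuous (fun p : ℂ × ℂ => (p.2, p.1)) := continuous_snd.prodMk continuous_fst
  exact h.tendsto 0

/-- the chart with the coordinates interchanged -/
private theorem ati_chart_swap {σ : ℂ × ℂ → V} {τ : V → ℂ × ℂ} (h : IsChart X σ τ) :
    IsChart X (fun p => σ (p.2, p.1)) (fun y => ((τ y).2, (τ y).1)) where
  σ_an := AnalyticAt.fun_comp (g := σ) (f := fun p : ℂ × ℂ => (p.2, p.1)) h.σ_an ati_swap_an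
  σ_mem := ati_swap_tendsto.eventually h.σ_mem
  ne := h.ne
  τ_an := AnalyticAt.fun_comp (g := fun p : ℂ × ℂ => (p.2, p.1)) (f := τ) ati_swap_an h.τ_an
  left := by
    filter_upwards [ati_swap_tendsto.eventually h.left] with p hp
    rw [hp]
  right := h.right
  inv := by
    filter_upwards [h.inv] with p hp
    rw [hp]

omit [NormedAddCommGroup V] [NormedSpace ℂ V] in
/-- the equations in the chart with the coordinates interchanged -/
private theorem ati_eq_swap {f : V → ℂ} {σ : ℂ × ℂ → V} {r : ℂ × ℂ → ℂ} (h : ∀ᶠ p in 𝓝 (0 : ℂ × ℂ), f (σ p) = p.1 * p.2 ^ 1 * r p) :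
    ∀ᶠ p in 𝓝 (0 : ℂ × ℂ), f (σ (p.2, p.1)) = p.1 * p.2 ^ 1 * r (p.2, p.1) := by
  filter_upwards [ati_swap_tendsto.eventually h] with p hp
  rw [hp]
  ring

/-- the monomial chart with the coordinates interchanged -/
private theorem ati_mon_swap {i : κ} {σ : ℂ × ℂ → V} {τ : V → ℂ × ℂ} (h : Mon X Q i 1 σ τ) :
    Mon X Q i 1 (fun p => σ (p.2, p.1)) (fun y => ((τ y).2, (τ y).1)) where
  chart := ati_chart_swap h.chart
  le := h.le
  dvd := by
    intro k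
    obtain ⟨r, h1, h2⟩ := h.dvd k
    exact ⟨fun p => r (p.2, p.1), AnalyticAt.fun_comp (g := r) (f := fun p : ℂ × ℂ => (p.2, p.1)) h1 ati_swap_an, ati_eq_swap h2⟩
  unit := by
    obtain ⟨r, h1, h2, h3⟩ := h.unit
    exact ⟨fun p => r (p.2, p.1), AnalyticAt.fun_comp (g := r) (f := fun p : ℂ × ℂ => (p.2, p.1)) h1 ati_swap_an, h2, ati_eq_swap h3⟩

/-- the curve in the branch `x = 0` -/
private theorem ati_branch {K : ℂ → V} {c : ℂ} {i : κ} {b : ℕ} {σ : ℂ × ℂ → V} {τ : V → ℂ × ℂ} (hm : Mon X Q i b σ τ) {η x y : ℂ → ℂ}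
    (hη : AnalyticAt ℂ η c) (hη0 : η c ≠ 0) (hy : AnalyticAt ℂ y c) (hy0 : y c = 0) (hyn : ¬ ∀ᶠ z in 𝓝 c, y z = 0)
    (hx : ∀ᶠ z in 𝓝 c, x z = 0) (hK : ∀ᶠ z in 𝓝 c, K z = η z • σ (x z, y z)) : At X Q i K c b 0 := by
  obtain ⟨r, h1, h2, h3⟩ := hm.unit
  refine ⟨i, σ, τ, η, y, r, hm, hη, hη0, hy, hy0, hyn, ?_, h1, h3, ?_⟩
  · filter_upwards [hx, hK] with z g1 g2
    rw [g2, g1]
  · have e1 : AnalyticAt ℂ (fun z => ((0 : ℂ), y z)) c := analyticAt_const.prod hy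
    have e2 : ((0 : ℂ), y c) = 0 := by rw [hy0]; rfl
    have e3 : AnalyticAt ℂ (fun z => r (0, y z)) c := AnalyticAt.fun_comp (g := r) (f := fun z => ((0 : ℂ), y z)) (by rw [e2]; exact h1) e1
    have e4 : analyticOrderAt (fun z => r (0, y z)) c = 0 := by
      rw [e3.analyticOrderAt_eq_zero, e2]
      exact h2
    rw [e4]
    rfl

/-- two analytic functions with product zero -/
private theorem ati_prod {x y : ℂ → ℂ} {c : ℂ} (hx : AnalyticAt ℂ x c) (hy : AnalyticAt ℂ y c) (h : ∀ᶠ z in 𝓝 c, x z * y z = 0) :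
    (∀ᶠ z in 𝓝 c, x z = 0) ∨ ∀ᶠ z in 𝓝 c, y z = 0 := by
  rcases hx.eventually_eq_zero_or_eventually_ne_zero with h1 | h1
  · exact Or.inl h1
  · right
    rcases hy.eventually_eq_zero_or_eventually_ne_zero with h2 | h2
    · exact h2
    · exfalso
      have h3 : ∀ᶠ z in 𝓝[≠] c, False := by
        filter_upwards [h1, h2, mem_nhdsWithin_of_mem_nhds h] with z g1 g2 g3
        exact mul_ne_zero g1 g2 g3
      obtain ⟨z, hz⟩ := h3.exists
      exact hz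

end

variable {V : Type} [NormedAddCommGroup V] [NormedSpace ℂ V] [FiniteDimensional ℂ V] {X : Set V} {κ : Type} {Q : κ → V → ℂ} {e : ℕ}

/-- MODULE AtInf: at the point at infinity (or any point `c`) the curve `K` is one of the branches. -/
theorem at_of_mon (hc : Crv X Q e) {K : ℂ → V} {c : ℂ} (hK : AnalyticAt ℂ K c) (hKX : ∀ᶠ z in 𝓝 c, K z ∈ X)
    (hKD : ∀ᶠ z in 𝓝 c, ∀ k, Q k (K z) = 0) (hnc : ¬ ∀ᶠ z in 𝓝 c, Pr (K z) (K c)) {i : κ} {b : ℕ} {σ : ℂ × ℂ → V} {τ : V → ℂ × ℂ}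
    (hm : Mon X Q i b σ τ) (hp : Pr (σ 0) (K c)) : At X Q i K c b 0 := by
  obtain ⟨r, hr1, hr2, hr3⟩ := hm.unit
  have hU : {p | Q i (σ p) = p.1 * p.2 ^ b * r p ∧ r p ≠ 0} ∈ 𝓝 (0 : ℂ × ℂ) := hr3.and (hr1.continuousAt.eventually_ne hr2)
  obtain ⟨W, T, H, hWo, hW0, hT0, hsm, han, heq⟩ := exists_cone hc.surf hm.chart hU
  obtain ⟨a, ha, hac⟩ := hp
  have hKc : K c = a⁻¹ • σ 0 := by rw [hac, smul_smul, inv_mul_cancel₀ ha, one_smul]
  obtain ⟨g1, g2, g3⟩ := hsm _ hW0 a⁻¹ (inv_ne_zero ha)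
  rw [← hKc] at g1 g2 g3
  obtain ⟨g4, g5, g6, -⟩ := han _ g1
  have hKW : ∀ᶠ z in 𝓝 c, K z ∈ W := hK.continuousAt.eventually (hWo.mem_nhds g1)
  have hq : AnalyticAt ℂ (fun z => T (K z)) c := AnalyticAt.fun_comp (g := T) (f := K) g4 hK
  have hη : AnalyticAt ℂ (fun z => H (K z)) c := AnalyticAt.fun_comp (g := H) (f := K) g5 hK
  have hq0 : T (K c) = 0 := by rw [g2, hT0]
  have hx : AnalyticAt ℂ (fun z => (T (K z)).1) c := analyticAt_fst.fun_comp hq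
  have hy : AnalyticAt ℂ (fun z => (T (K z)).2) c := analyticAt_snd.fun_comp hq
  have hx0 : (T (K c)).1 = 0 := by rw [hq0]; rfl
  have hy0 : (T (K c)).2 = 0 := by rw [hq0]; rfl
  have hKe : ∀ᶠ z in 𝓝 c, K z = H (K z) • σ (T (K z)) := by
    filter_upwards [hKW, hKX] with z h1 h2
    exact heq _ h1 h2
  have hmul : ∀ᶠ z in 𝓝 c, (T (K z)).1 * (T (K z)).2 ^ b = 0 := by
    filter_upwards [hKW, hKe, hKD] with z h1 h2 h3
    obtain ⟨-, -, h4, h5, h6⟩ := han _ h1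
    have h7 := h3 i
    rw [h2, hc.smul, h5] at h7
    rcases mul_eq_zero.1 h7 with h8 | h8
    · exact absurd h8 (pow_ne_zero _ h4)
    · rcases mul_eq_zero.1 h8 with h9 | h9
      · exact h9
      · exact absurd h9 h6
  -- the curve is not constant
  have hnq : ¬ ((∀ᶠ z in 𝓝 c, (T (K z)).1 = 0) ∧ ∀ᶠ z in 𝓝 c, (T (K z)).2 = 0) := by
    rintro ⟨h1, h2⟩
    refine hnc ?_
    filter_upwards [h1, h2, hKe, hKW] with z f1 f2 f3 f4
    have f5 : T (K z) = 0 := Prod.ext f1 f2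
    rw [f5] at f3
    refine ⟨H (K z) * a, mul_ne_zero (han _ f4).2.2.1 ha, ?_⟩
    rw [mul_smul, ← hac]
    exact f3
  have hb := hm.le
  interval_cases b
  · have hx1 : ∀ᶠ z in 𝓝 c, (T (K z)).1 = 0 := by
      filter_upwards [hmul] with z h1
      simpa using h1
    exact ati_branch hm hη g6 hy hy0 (fun h => hnq ⟨hx1, h⟩) hx1 hKe
  · have hmul' : ∀ᶠ z in 𝓝 c, (T (K z)).1 * (T (K z)).2 = 0 := by
      filter_upwards [hmul] with z h1
      simpa using h1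
    rcases ati_prod hx hy hmul' with h1 | h1
    · exact ati_branch hm hη g6 hy hy0 (fun h => hnq ⟨h1, h⟩) h1 hKe
    · exact ati_branch (ati_mon_swap hm) hη g6 hx hx0 (fun h => hnq ⟨h, h1⟩) h1 hKe

end Pool.Agent.UC
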