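import Pool.Agent.UC.Zc

/-!
# UC CMean: circle means of the logarithm of a zero free function on an annulus
-/

set_option autoImplicit false

open Topology Filter Metric Real MeasureTheory

noncomputable section

namespace Pool.Agent.UC

/-- the number of zeros as a sum over the divisor -/
private theorem cm_avg {f : ℂ → ℂ} {c : ℂ} {r R : ℝ} (hr : 0 < r) (hrR : r ≤ R) (hf : AnalyticOnNhd ℂ f (closedBall c R))
    (hne : ∀ z, r ≤ ‖z - c‖ → ‖z - c‖ ≤ R → f z ≠ 0) :
    circleAverage (fun z => log ‖f z‖) c R = ∑ᶠ u, (((ball c r).indicator (fun z => (analyticOrderNatAt f z : ℤ)) u : ℤ) : ℝ) * (log R - log ‖c - u‖) +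
      log ‖meromorphicTrailingCoeffAt f c‖ := by
  have hR : 0 < R := hr.trans_le hrR
  have habs : |R| = R := abs_of_pos hR
  have hw : c + (R : ℂ) ∈ closedBall c R := by
    simp [mem_closedBall, dist_eq_norm, abs_of_pos hR]
  have hne0 : f (c + (R : ℂ)) ≠ 0 := hne _ (by simp [abs_of_pos hR, hrR]) (by simp [abs_of_pos hR])
  have hD : ((MeromorphicOn.divisor f (closedBall c |R|) : ℂ → ℤ)) = (ball c r).indicator (fun z => (analyticOrderNatAt f z : ℤ)) := by
    funext u
    rw [habs]
    by_cases hu : u ∈ closedBall c R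
    · rw [MeromorphicOn.AnalyticOnNhd.divisor_apply hf hu, ← Nat.cast_analyticOrderNatAt (order_ne_top hf hw hne0 u hu)]
      by_cases hu' : u ∈ ball c r
      · simp [hu']
      · have h1 : f u ≠ 0 := by
          refine hne u ?_ (by simpa [dist_eq_norm] using hu)
          simpa [dist_eq_norm] using hu'
        have h2 : analyticOrderNatAt f u = 0 := by
          by_contra h
          exact h1 (apply_eq_zero_of_analyticOrderNatAt_ne_zero h)
        simp [hu', h2]
    · have h1 : u ∉ ball c r := fun h => hu (ball_subset_closedBall (ball_subset_ball hrR h))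
      simp only [Set.indicator_of_notMem h1]
      by_contra h
      exact hu ((MeromorphicOn.divisor f (closedBall c R)).supportWithinDomain h)
  have hf' : AnalyticOnNhd ℂ f (closedBall c |R|) := by rwa [habs]
  have h1 := MeromorphicOn.circleAverage_log_norm hR.ne' hf'.meromorphicOn
  have h2 := countingFunction_finsum_eq_finsum_add (c := c) (D := (MeromorphicOn.divisor f (closedBall c |R|) : ℂ → ℤ)) hR.ne'
    ((MeromorphicOn.divisor f (closedBall c |R|)).finiteSupport (isCompact_closedBall c |R|))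
  rw [← h2, hD] at h1
  exact h1

/-- the slope of the circle means is the number of zeros -/
theorem cm_slope {f : ℂ → ℂ} {c : ℂ} {r R : ℝ} (hr : 0 < r) (hrR : r ≤ R) (hf : AnalyticOnNhd ℂ f (closedBall c R))
    (hne : ∀ z, r ≤ ‖z - c‖ → ‖z - c‖ ≤ R → f z ≠ 0) :
    circleAverage (fun z => log ‖f z‖) c R - circleAverage (fun z => log ‖f z‖) c r = zc f (ball c r) * log (R / r) := by
  have hR : 0 < R := hr.trans_le hrR
  have hfr : AnalyticOnNhd ℂ f (closedBall c r) := hf.mono (closedBall_subset_closedBall hrR)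
  have hw : c + (r : ℂ) ∈ closedBall c r := by
    simp [mem_closedBall, dist_eq_norm, abs_of_pos hr]
  have hne0 : f (c + (r : ℂ)) ≠ 0 := hne _ (by simp [abs_of_pos hr]) (by simp [abs_of_pos hr, hrR])
  rw [cm_avg hr hrR hf hne, cm_avg hr le_rfl hfr (fun z h1 h2 => hne z h1 (h2.trans hrR))]
  set D : ℂ → ℤ := (ball c r).indicator (fun z => (analyticOrderNatAt f z : ℤ)) with hD
  have hfin : (Function.support D).Finite := by
    refine (zc_finite hfr hw hne0).subset ?_
    intro z hz
    by_cases hz' : z ∈ ball c r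
    · refine ⟨ball_subset_closedBall hz', fun h => hz ?_⟩
      simp [hD, hz', h]
    · exact absurd (by simp [hD, hz']) hz
  have hfin1 : ∀ g : ℂ → ℝ, (Function.support fun u => (D u : ℝ) * g u).Finite := fun g =>
    hfin.subset fun u hu h => hu (by simp [h])
  have h1 : (∑ᶠ u, (D u : ℝ) * (log R - log ‖c - u‖)) - ∑ᶠ u, (D u : ℝ) * (log r - log ‖c - u‖) = ∑ᶠ u, (D u : ℝ) * log (R / r) := by
    rw [← finsum_sub_distrib (hfin1 _) (hfin1 _)]
    refine finsum_congr fun u => ?_
    rw [log_div hR.ne' hr.ne']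
    ring
  have h2 : (∑ᶠ u, (D u : ℝ) * log (R / r)) = zc f (ball c r) * log (R / r) := by
    rw [← finsum_mul]
    congr 1
    unfold zc
    have h3 := (Nat.castAddMonoidHom ℝ).map_finsum_mem' (zc_finite' hfr hw hne0 (ball_subset_closedBall (x := c) (ε := r)))
    have h4 : ((∑ᶠ z ∈ ball c r, analyticOrderNatAt f z : ℕ) : ℝ) = ∑ᶠ z ∈ ball c r, (analyticOrderNatAt f z : ℝ) := h3
    rw [h4, finsum_mem_def]
    refine finsum_congr fun u => ?_
    rw [hD]
    by_cases hu : u ∈ ball c r
    · simp [hu]
    · simp [hu]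
  linarith [h1, h2]

private theorem cm_hasDerivAt_log {f : ℝ → ℂ} {w : ℂ} {t : ℝ} (hf : HasDerivAt f w t) (h0 : f t ≠ 0) :
    HasDerivAt (fun s => log ‖f s‖) (w / f t).re t := by
  have h1 : HasDerivAt (fun s => f s / f t) (w / f t) t := hf.div_const _
  have h2 : f t / f t ∈ Complex.slitPlane := by
    rw [div_self h0]
    exact Complex.one_mem_slitPlane
  have h3 := h1.clog_real h2
  rw [div_self h0, div_one] at h3
  have h4 : HasDerivAt (fun s => (Complex.log (f s / f t)).re) (w / f t).re t :=
    (Complex.reCLM.hasFDerivAt.comp_hasDerivAt t h3)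
  have h5 : HasDerivAt (fun s => (Complex.log (f s / f t)).re + log ‖f t‖) (w / f t).re t := by
    simpa using h4.add_const (log ‖f t‖)
  refine h5.congr_of_eventuallyEq ?_
  have h6 : ∀ᶠ s in 𝓝 t, f s ≠ 0 := hf.continuousAt.eventually_ne h0
  filter_upwards [h6] with s hs
  rw [Complex.log_re, norm_div, log_div (norm_ne_zero_iff.2 hs) (norm_ne_zero_iff.2 h0)]
  ring

/-- the mean of `z f' / f` -/
private def cm_J (g : ℂ → ℂ) (c : ℂ) (t : ℝ) : ℂ := ∫ θ in (0 : ℝ)..2 * π, (circleMap 0 t θ) * (deriv g (circleMap c t θ) / g (circleMap c t θ))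

private theorem cm_hasDerivAt_mean {g : ℂ → ℂ} {c : ℂ} {t : ℝ} (ht : 0 < t) (hg : ∀ z ∈ sphere c t, AnalyticAt ℂ g z ∧ g z ≠ 0) :
    HasDerivAt (fun s => circleAverage (fun z => log ‖g z‖) c s) ((2 * π)⁻¹ * ((cm_J g c t).re / t)) t := by
  set U : Set ℂ := {z | AnalyticAt ℂ g z ∧ g z ≠ 0} with hU
  have hUo : IsOpen U := by
    rw [isOpen_iff_mem_nhds]
    rintro z ⟨h1, h2⟩
    exact (h1.eventually_analyticAt).and (h1.continuousAt.eventually_ne h2)
  obtain ⟨δ, hδ, hK⟩ := (isCompact_sphere c t).exists_cthickening_subset_open hUo hg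
  set K := cthickening δ (sphere c t) with hKdef
  have hKc : IsCompact K := (isCompact_sphere c t).cthickening
  have hh : ContinuousOn (fun z => deriv g z / g z) K := by
    intro z hz
    have h1 := hK hz
    exact ((h1.1.deriv.continuousAt).div h1.1.continuousAt h1.2).continuousWithinAt
  obtain ⟨B, hB⟩ := hKc.exists_bound_of_continuousOn hh
  have hmem : ∀ s : ℝ, |s - t| ≤ δ → ∀ θ, circleMap c s θ ∈ K := by
    intro s hs θ
    refine mem_cthickening_of_dist_le (circleMap c s θ) (circleMap c t θ) δ _ (circleMap_mem_sphere c ht.le θ) ?_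
    have : circleMap c s θ - circleMap c t θ = ((s - t : ℝ) : ℂ) * Complex.exp (θ * Complex.I) := by
      simp only [circleMap]
      push_cast
      ring
    rw [dist_eq_norm, this, norm_mul, Complex.norm_exp_ofReal_mul_I, mul_one, Complex.norm_real]
    exact hs
  have hder : ∀ s : ℝ, |s - t| ≤ δ → ∀ θ : ℝ, HasDerivAt (fun s : ℝ => log ‖g (circleMap c s θ)‖)
      (Complex.exp (θ * Complex.I) * (deriv g (circleMap c s θ) / g (circleMap c s θ))).re s := by
    intro s hs θ
    have h1 := hK (hmem s hs θ)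
    have h2 : HasDerivAt (fun s : ℝ => circleMap c s θ) (Complex.exp (θ * Complex.I)) s := by
      have h3 : HasDerivAt (fun s : ℝ => (s : ℂ)) 1 s := Complex.ofRealCLM.hasDerivAt
      have h4 := (h3.mul_const (Complex.exp (θ * Complex.I))).const_add c
      simpa [circleMap] using h4
    have h3 : HasDerivAt (fun s : ℝ => g (circleMap c s θ)) (deriv g (circleMap c s θ) * Complex.exp (θ * Complex.I)) s :=
      h1.1.differentiableAt.hasDerivAt.comp_of_eq s h2 rfl
    have h4 := cm_hasDerivAt_log h3 h1.2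
    have h5 : deriv g (circleMap c s θ) * Complex.exp (θ * Complex.I) / g (circleMap c s θ) =
        Complex.exp (θ * Complex.I) * (deriv g (circleMap c s θ) / g (circleMap c s θ)) := by ring
    rw [h5] at h4
    exact h4
  have hcont : ∀ s : ℝ, |s - t| ≤ δ → Continuous (fun θ : ℝ => log ‖g (circleMap c s θ)‖) := by
    intro s hs
    rw [continuous_iff_continuousAt]
    intro θ
    have h1 := hK (hmem s hs θ)
    have h2 : ContinuousAt (fun θ : ℝ => g (circleMap c s θ)) θ :=
      ContinuousAt.comp (g := g) h1.1.continuousAt (continuous_circleMap c s).continuousAt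
    exact (h2.norm).log (norm_ne_zero_iff.2 h1.2)
  have hcont' : Continuous (fun θ : ℝ => (Complex.exp (θ * Complex.I) * (deriv g (circleMap c t θ) / g (circleMap c t θ))).re) := by
    have h0 : |t - t| ≤ δ := by simp [hδ.le]
    have h2 : Continuous (fun θ : ℝ => (fun z => deriv g z / g z) (circleMap c t θ)) :=
      hh.comp_continuous (continuous_circleMap c t) (hmem t h0)
    exact Complex.continuous_re.comp ((by fun_prop : Continuous fun θ : ℝ => Complex.exp (θ * Complex.I)).mul h2)
  have hs : closedBall t δ ∈ 𝓝 t := closedBall_mem_nhds t hδ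
  have hs' : ∀ s ∈ closedBall t δ, |s - t| ≤ δ := fun s hs => by simpa [Real.dist_eq] using hs
  have hmain := intervalIntegral.hasDerivAt_integral_of_dominated_loc_of_deriv_le (μ := volume) (a := 0) (b := 2 * π)
    (F := fun (s : ℝ) (θ : ℝ) => log ‖g (circleMap c s θ)‖)
    (F' := fun (s : ℝ) (θ : ℝ) => (Complex.exp (θ * Complex.I) * (deriv g (circleMap c s θ) / g (circleMap c s θ))).re)
    (bound := fun _ => B) hs
    (by
      filter_upwards [hs] with s hs1
      exact (hcont s (hs' s hs1)).aestronglyMeasurable)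
    ((hcont t (by simp [hδ.le])).intervalIntegrable _ _)
    hcont'.aestronglyMeasurable
    (Eventually.of_forall fun θ _ s hs1 => by
      refine (Complex.abs_re_le_norm _).trans ?_
      rw [norm_mul, Complex.norm_exp_ofReal_mul_I, one_mul]
      exact hB _ (hmem s (hs' s hs1) θ))
    intervalIntegrable_const
    (Eventually.of_forall fun θ _ s hs1 => hder s (hs' s hs1) θ)
  have h1 := hmain.2.const_mul ((2 * π)⁻¹)
  have h2 : (∫ θ in (0 : ℝ)..2 * π, (Complex.exp (θ * Complex.I) * (deriv g (circleMap c t θ) / g (circleMap c t θ))).re) = (cm_J g c t).re / t := by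
    have h3 : Continuous (fun θ : ℝ => (circleMap 0 t θ) * (deriv g (circleMap c t θ) / g (circleMap c t θ))) := by
      have h0 : |t - t| ≤ δ := by simp [hδ.le]
      exact (continuous_circleMap 0 t).mul (hh.comp_continuous (continuous_circleMap c t) (hmem t h0))
    have h4 : (cm_J g c t).re = ∫ θ in (0 : ℝ)..2 * π, ((circleMap 0 t θ) * (deriv g (circleMap c t θ) / g (circleMap c t θ))).re := by
      unfold cm_J
      exact (Complex.reCLM.intervalIntegral_comp_comm (h3.intervalIntegrable _ _)).symm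
    rw [h4, eq_div_iff ht.ne', ← intervalIntegral.integral_mul_const]
    refine intervalIntegral.integral_congr fun θ _ => ?_
    simp only [circleMap, zero_add]
    rw [mul_assoc, mul_comm (_ : ℝ) t, ← Complex.re_ofReal_mul]
  rw [h2] at h1
  exact h1

/-- the mean of `z f' / f` does not depend on the radius -/
private theorem cm_J_eq {g : ℂ → ℂ} {c : ℂ} {r R : ℝ} (hr : 0 < r) (hrR : r ≤ R)
    (hg : ∀ z, r ≤ ‖z - c‖ → ‖z - c‖ ≤ R → AnalyticAt ℂ g z ∧ g z ≠ 0) : cm_J g c R = cm_J g c r := by
  have hmem : ∀ z ∈ closedBall c R \ ball c r, r ≤ ‖z - c‖ ∧ ‖z - c‖ ≤ R := by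
    rintro z ⟨h1, h2⟩
    rw [mem_closedBall, dist_eq_norm] at h1
    rw [mem_ball, dist_eq_norm, not_lt] at h2
    exact ⟨h2, h1⟩
  have h := Complex.circleIntegral_eq_of_differentiable_on_annulus_off_countable (c := c) hr hrR (f := fun z => deriv g z / g z) (s := ∅)
    Set.countable_empty (fun z hz => by
      obtain ⟨h1, h2⟩ := hmem z hz
      have h3 := hg z h1 h2
      exact ((h3.1.deriv.continuousAt).div h3.1.continuousAt h3.2).continuousWithinAt)
    (fun z hz => by
      have h4 : z ∈ closedBall c R \ ball c r := ⟨ball_subset_closedBall hz.1.1, fun h => hz.1.2 (ball_subset_closedBall h)⟩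
      obtain ⟨h1, h2⟩ := hmem z h4
      have h3 := hg z h1 h2
      exact h3.1.deriv.differentiableAt.div h3.1.differentiableAt h3.2)
  have key : ∀ t : ℝ, (∮ z in C(c, t), deriv g z / g z) = Complex.I * cm_J g c t := by
    intro t
    unfold cm_J circleIntegral
    rw [← intervalIntegral.integral_const_mul]
    refine intervalIntegral.integral_congr fun θ _ => ?_
    simp only [deriv_circleMap, smul_eq_mul]
    ring
  rw [key, key] at h
  exact mul_left_cancel₀ Complex.I_ne_zero h

/-- the circle means of `log |g|` over the circles of an annulus without zeros are affine functions of `log t` -/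
theorem cm_affine {g : ℂ → ℂ} {c : ℂ} {r R : ℝ} (hr : 0 < r)
    (hg : ∀ z, r ≤ ‖z - c‖ → ‖z - c‖ ≤ R → AnalyticAt ℂ g z ∧ g z ≠ 0) :
    ∃ α β : ℝ, ∀ t, r ≤ t → t ≤ R → circleAverage (fun z => log ‖g z‖) c t = α * log t + β := by
  set α := (2 * π)⁻¹ * (cm_J g c r).re with hα
  set F := fun s => circleAverage (fun z => log ‖g z‖) c s - α * log s with hF
  have hd : ∀ t ∈ Set.Icc r R, HasDerivAt F 0 t := by
    intro t ht
    have ht0 : 0 < t := hr.trans_le ht.1
    have h1 := cm_hasDerivAt_mean (g := g) (c := c) ht0 (fun z hz => by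
      have hz' : ‖z - c‖ = t := by simpa [dist_eq_norm] using hz
      exact hg z (by rw [hz']; exact ht.1) (by rw [hz']; exact ht.2))
    have h2 : cm_J g c t = cm_J g c r := cm_J_eq hr ht.1 fun z h3 h4 => hg z h3 (h4.trans ht.2)
    rw [h2] at h1
    have h3 := h1.sub ((hasDerivAt_log ht0.ne').const_mul α)
    have h4 : (2 * π)⁻¹ * ((cm_J g c r).re / t) - α * t⁻¹ = 0 := by
      rw [hα]
      ring
    rw [h4] at h3
    exact h3
  refine ⟨α, F r, fun t h1 h2 => ?_⟩
  have h3 : F t = F r := by
    refine constant_of_has_deriv_right_zero (a := r) (b := R) (f := F) ?_ ?_ t ⟨h1, h2⟩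
    · exact fun s hs => (hd s hs).continuousAt.continuousWithinAt
    · exact fun s hs => (hd s ⟨hs.1, hs.2.le⟩).hasDerivWithinAt
  have h4 : circleAverage (fun z => log ‖g z‖) c t - α * log t = F r := h3
  linarith

end Pool.Agent.UC
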