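import Pool.Agent.UC.Defs
import Pool.Agent.H74.NB.Child
import Pool.Agent.H36.BP.Defs

/-!
# UC Child: the rescaling at a bubble, for curves in a cone
-/

set_option autoImplicit false
set_option linter.unusedVariables false

open Topology Filter Metric

noncomputable section

namespace Pool.Agent.UC

open Pool.Agent.H74.NB (CC Obj vec)
open Pool.Agent.H36.BP (EN)

/-- the limits of curves in a closed cone -/
private theorem child_mem {N : ℕ} {X : Set (EN N)} (hcl : ∀ x ∈ closure X, x ≠ 0 → x ∈ X) {z : ℂ} {F : ℂ → EN N}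
    (hF : ContinuousAt F z) (hz : F z ≠ 0) (h : ∃ᶠ y in 𝓝 z, F y ∈ X) : F z ∈ X := by
  refine hcl _ ?_ hz
  rw [mem_closure_iff_frequently]
  exact hF.tendsto.frequently h

/-- the lift near infinity -/
private theorem child_reflect {N : ℕ} {d : ℕ} (K : Fin (N + 1) → Polynomial ℂ) (hK : ∀ i, (K i).natDegree ≤ d) (z : ℂ) (hz : z ≠ 0) :
    vec K z = z ^ d • vec (fun i => (K i).reflect d) z⁻¹ := by
  ext i
  have : Invertible z := invertibleOfNonzero hz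
  have h1 := Polynomial.eval₂_reflect_mul_pow (RingHom.id ℂ) z d (K i) (hK i)
  rw [invOf_eq_inv] at h1
  simp only [PiLp.smul_apply, Pool.Agent.H74.NB.vec_apply, smul_eq_mul, Polynomial.eval]
  rw [← h1, mul_comm]

theorem dec_child {N : ℕ} {X : Set (EN N)} (h0 : (0 : EN N) ∉ X) (hs : ∀ x ∈ X, ∀ c : ℂ, c ≠ 0 → c • x ∈ X) (hcl : ∀ x ∈ closure X, x ≠ 0 → x ∈ X)
    {𝒰 : Ultrafilter ℕ} {Φ : ℕ → ℂ → EN N} {w : ℂ} {M : ℕ} {G : ℂ → EN N} {r : ℝ} (h : Obj 𝒰 Φ w (M + 1) G r)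
    (hX : ∀ᶠ n in (𝒰 : Filter ℕ), ∀ z ∈ ball w r, Φ n z ∈ X) :
    ∃ (b : ℕ → ℂ) (ρ : ℕ → ℝ) (p : Polynomial ℂ) (d : ℕ) (K K' : ℂ → EN N), Tendsto b 𝒰 (𝓝 w) ∧ (∀ᶠ n in (𝒰 : Filter ℕ), 0 < ρ n) ∧
      Tendsto ρ 𝒰 (𝓝 0) ∧ p.Monic ∧ p.natDegree + d = M + 1 ∧ (∀ a, p.rootMultiplicity a ≤ M) ∧ RatC X d K K' ∧ K' 0 = G w ∧
      CC 𝒰 (fun n ζ => ((ρ n : ℂ) ^ (M + 1))⁻¹ • Φ n (b n + ρ n * ζ)) (fun ζ => p.eval ζ • K ζ) Set.univ ∧
      ∀ a, ∃ δ : ℝ, Obj 𝒰 (fun n ζ => ((ρ n : ℂ) ^ (M + 1))⁻¹ • Φ n (b n + ρ n * ζ)) a (p.rootMultiplicity a)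
        (fun ζ => (p /ₘ (Polynomial.X - Polynomial.C a) ^ p.rootMultiplicity a).eval ζ • K ζ) δ := by
  obtain ⟨b, ρ, c, K, d, h1, h2, h3, h4, h5, h6, h7, h8, h9, h10, h11, h12⟩ := Pool.Agent.H74.NB.dec_child h
  have hK'0 : vec (fun i => (K i).reflect d) 0 = G w := by
    ext i
    rw [Pool.Agent.H74.NB.vec_apply, ← Polynomial.coeff_zero_eq_eval_zero, Polynomial.coeff_reflect, ← h7 i]
    congr 1
  have hlim : ∀ ζ : ℂ, c.eval ζ ≠ 0 → vec K ζ ∈ X := by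
    intro ζ hζ
    have e1 := h10 ζ (Set.mem_univ _) (fun _ => ζ) tendsto_const_nhds
    have e2 : ∀ᶠ n in (𝒰 : Filter ℕ), ((ρ n : ℂ) ^ (M + 1))⁻¹ • Φ n (b n + ρ n * ζ) ∈ X := by
      filter_upwards [hX, h2, h11 ‖ζ‖] with n g1 g2 g3
      refine hs _ (g1 _ (g3 ζ (by simp))) _ (inv_ne_zero (pow_ne_zero _ ?_))
      exact_mod_cast g2.ne'
    have e3 : c.eval ζ • vec K ζ ∈ X := hcl _ (mem_closure_of_tendsto e1 e2) (smul_ne_zero hζ (h8 ζ))
    have e4 := hs _ e3 (c.eval ζ)⁻¹ (inv_ne_zero hζ)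
    rwa [smul_smul, inv_mul_cancel₀ hζ, one_smul] at e4
  have hmem : ∀ z, vec K z ∈ X := by
    intro z
    refine child_mem hcl (Pool.Agent.H74.NB.vec_differentiable K).continuous.continuousAt (h8 z) ?_
    have e1 : ∀ᶠ y in 𝓝[≠] z, c.eval y ≠ 0 := by
      have e2 : ((c.roots.toFinset.erase z : Finset ℂ) : Set ℂ)ᶜ ∈ 𝓝 z :=
        (Finset.isClosed _).isOpen_compl.mem_nhds (by simp)
      filter_upwards [self_mem_nhdsWithin, mem_nhdsWithin_of_mem_nhds e2] with y hy1 hy2 hy3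
      refine hy2 ?_
      rw [Finset.mem_coe, Finset.mem_erase, Multiset.mem_toFinset]
      exact ⟨hy1, (Polynomial.mem_roots h4.ne_zero).2 hy3⟩
    exact (e1.mono fun y hy => hlim y hy).frequently.filter_mono nhdsWithin_le_nhds
  have hmem' : ∀ z, z ≠ 0 → vec (fun i => (K i).reflect d) z ∈ X := by
    intro z hz
    have e1 := child_reflect K h6 z⁻¹ (inv_ne_zero hz)
    rw [inv_inv] at e1
    have e2 : vec (fun i => (K i).reflect d) z = z ^ d • vec K z⁻¹ := by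
      rw [e1, smul_smul, ← mul_pow, mul_inv_cancel₀ hz, one_pow, one_smul]
    rw [e2]
    exact hs _ (hmem _) _ (pow_ne_zero _ hz)
  refine ⟨b, ρ, c, d, vec K, vec (fun i => (K i).reflect d), h1, h2, h3, h4, h5, fun a => Nat.lt_succ_iff.1 (h9 a), ⟨Pool.Agent.H74.NB.vec_differentiable _,
    Pool.Agent.H74.NB.vec_differentiable _, hmem, fun z => ?_, fun z hz => child_reflect K h6 z hz⟩, hK'0, h10, fun a => ?_⟩
  · by_cases hz : z = 0
    · subst hz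
      refine child_mem hcl (Pool.Agent.H74.NB.vec_differentiable _).continuous.continuousAt (by rw [hK'0]; exact h.nzG) ?_
      have e1 : ∀ᶠ y in 𝓝[≠] (0 : ℂ), vec (fun i => (K i).reflect d) y ∈ X := by
        filter_upwards [self_mem_nhdsWithin] with y hy
        exact hmem' y hy
      exact e1.frequently.filter_mono nhdsWithin_le_nhds
    · exact hmem' z hz
  · obtain ⟨c', g1, g2, g3⟩ := h12 a
    refine ⟨1, ?_⟩
    have g4 : c /ₘ (Polynomial.X - Polynomial.C a) ^ c.rootMultiplicity a = c' := by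
      have e1 := Polynomial.pow_mul_divByMonic_rootMultiplicity_eq c a
      have e2 : (Polynomial.X - Polynomial.C a) ^ c.rootMultiplicity a ≠ 0 := pow_ne_zero _ (Polynomial.X_sub_C_ne_zero a)
      exact mul_left_cancel₀ e2 (e1.trans g1)
    rw [g4]
    exact g3

end Pool.Agent.UC
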