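import Mathlib

/-!
# UC Zc: numbers of zeros
-/

set_option autoImplicit false

open Topology Filter Metric

noncomputable section

namespace Pool.Agent.UC

/-- the number of zeros of `f` in `s`, with multiplicities -/
def zc (f : ℂ → ℂ) (s : Set ℂ) : ℕ := ∑ᶠ z ∈ s, analyticOrderNatAt f z

/-- finite order everywhere on a closed ball -/
theorem order_ne_top {f : ℂ → ℂ} {c : ℂ} {r : ℝ} (hf : AnalyticOnNhd ℂ f (closedBall c r)) {w : ℂ} (hw : w ∈ closedBall c r)
    (hne : f w ≠ 0) : ∀ z ∈ closedBall c r, analyticOrderAt f z ≠ ⊤ := by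
  intro z hz
  refine hf.analyticOrderAt_ne_top_of_isPreconnected (convex_closedBall c r).isPreconnected hw hz ?_
  rw [(hf w hw).analyticOrderAt_eq_zero.2 hne]
  exact ENat.zero_ne_top

theorem zc_finite {f : ℂ → ℂ} {c : ℂ} {r : ℝ} (hf : AnalyticOnNhd ℂ f (closedBall c r)) {w : ℂ} (hw : w ∈ closedBall c r)
    (hne : f w ≠ 0) : {z | z ∈ closedBall c r ∧ analyticOrderNatAt f z ≠ 0}.Finite := by
  have h1 := (MeromorphicOn.divisor f (closedBall c r)).finiteSupport (isCompact_closedBall c r)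
  refine h1.subset ?_
  rintro z ⟨hz, hz0⟩
  rw [Function.mem_support, MeromorphicOn.AnalyticOnNhd.divisor_apply hf hz]
  have h2 := order_ne_top hf hw hne z hz
  rw [← Nat.cast_analyticOrderNatAt h2]
  simpa using hz0

theorem zc_finite' {f : ℂ → ℂ} {c : ℂ} {r : ℝ} (hf : AnalyticOnNhd ℂ f (closedBall c r)) {w : ℂ} (hw : w ∈ closedBall c r)
    (hne : f w ≠ 0) {s : Set ℂ} (hs : s ⊆ closedBall c r) : (s ∩ Function.support (analyticOrderNatAt f)).Finite :=
  (zc_finite hf hw hne).subset fun _ hz => ⟨hs hz.1, hz.2⟩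

theorem zc_congr {f g : ℂ → ℂ} {s : Set ℂ} (h : ∀ z ∈ s, f =ᶠ[𝓝 z] g) : zc f s = zc g s := by
  unfold zc
  refine finsum_mem_congr rfl fun z hz => ?_
  simp only [analyticOrderNatAt]
  rw [analyticOrderAt_congr (h z hz)]

theorem zc_empty (f : ℂ → ℂ) : zc f ∅ = 0 := by
  simp [zc]

theorem zc_union {f : ℂ → ℂ} {c : ℂ} {r : ℝ} (hf : AnalyticOnNhd ℂ f (closedBall c r)) {w : ℂ} (hw : w ∈ closedBall c r)
    (hne : f w ≠ 0) {s t : Set ℂ} (hs : s ⊆ closedBall c r) (ht : t ⊆ closedBall c r) (hd : Disjoint s t) :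
    zc f (s ∪ t) = zc f s + zc f t := by
  unfold zc
  exact finsum_mem_union' hd (zc_finite' hf hw hne hs) (zc_finite' hf hw hne ht)

theorem zc_mono {f : ℂ → ℂ} {c : ℂ} {r : ℝ} (hf : AnalyticOnNhd ℂ f (closedBall c r)) {w : ℂ} (hw : w ∈ closedBall c r)
    (hne : f w ≠ 0) {s t : Set ℂ} (hst : s ⊆ t) (ht : t ⊆ closedBall c r) : zc f s ≤ zc f t := by
  have h := zc_union hf hw hne (hst.trans ht) (Set.sdiff_subset.trans ht) (Set.disjoint_sdiff_right (s := s) (t := t))
  rw [Set.union_sdiff_cancel hst] at h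
  omega

/-- pairwise disjoint subsets -/
theorem zc_sum_le {ι : Type} (I : Finset ι) (s : ι → Set ℂ) {f : ℂ → ℂ} {c : ℂ} {r : ℝ} (hf : AnalyticOnNhd ℂ f (closedBall c r)) {w : ℂ}
    (hw : w ∈ closedBall c r) (hne : f w ≠ 0) (hd : ∀ i ∈ I, ∀ j ∈ I, i ≠ j → Disjoint (s i) (s j)) {t : Set ℂ}
    (hst : ∀ i ∈ I, s i ⊆ t) (ht : t ⊆ closedBall c r) : ∑ i ∈ I, zc f (s i) ≤ zc f t := by
  classical
  have key : zc f (⋃ i ∈ I, s i) = ∑ i ∈ I, zc f (s i) := by
    induction I using Finset.induction_on with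
    | empty => simp [zc]
    | insert a J ha ih =>
      rw [Finset.set_biUnion_insert, Finset.sum_insert ha]
      rw [zc_union hf hw hne ((hst a (Finset.mem_insert_self a J)).trans ht) ?_ ?_, ih]
      · intro i hi j hj hij
        exact hd i (Finset.mem_insert_of_mem hi) j (Finset.mem_insert_of_mem hj) hij
      · intro i hi
        exact hst i (Finset.mem_insert_of_mem hi)
      · intro z hz
        obtain ⟨i, hi, hz⟩ := Set.mem_iUnion₂.1 hz
        exact ht (hst i (Finset.mem_insert_of_mem hi) hz)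
      · rw [Set.disjoint_iUnion₂_right]
        intro i hi
        refine hd a (Finset.mem_insert_self a J) i (Finset.mem_insert_of_mem hi) ?_
        rintro rfl
        exact ha hi
  rw [← key]
  exact zc_mono hf hw hne (Set.iUnion₂_subset hst) ht

theorem zc_eq_zero {f : ℂ → ℂ} {s : Set ℂ} (h : ∀ z ∈ s, f z ≠ 0) : zc f s = 0 := by
  unfold zc
  rw [finsum_mem_eq_zero_of_forall_eq_zero]
  intro z hz
  by_contra h0
  exact h z hz (apply_eq_zero_of_analyticOrderNatAt_ne_zero h0)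

theorem zc_mul {f g : ℂ → ℂ} {c : ℂ} {r : ℝ} (hf : AnalyticOnNhd ℂ f (closedBall c r)) (hg : AnalyticOnNhd ℂ g (closedBall c r))
    {w w' : ℂ} (hw : w ∈ closedBall c r) (hne : f w ≠ 0) (hw' : w' ∈ closedBall c r) (hne' : g w' ≠ 0) {s : Set ℂ}
    (hs : s ⊆ closedBall c r) : zc (fun z => f z * g z) s = zc f s + zc g s := by
  unfold zc
  rw [← finsum_mem_add_distrib' (zc_finite' hf hw hne hs) (zc_finite' hg hw' hne' hs)]
  refine finsum_mem_congr rfl fun z hz => ?_
  exact analyticOrderNatAt_mul (hf z (hs hz)) (hg z (hs hz)) (order_ne_top hf hw hne z (hs hz)) (order_ne_top hg hw' hne' z (hs hz))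

theorem zc_pow {f : ℂ → ℂ} {c : ℂ} {r : ℝ} (hf : AnalyticOnNhd ℂ f (closedBall c r)) {w : ℂ} (hw : w ∈ closedBall c r)
    (hne : f w ≠ 0) {s : Set ℂ} (hs : s ⊆ closedBall c r) (m : ℕ) : zc (fun z => f z ^ m) s = m * zc f s := by
  induction m with
  | zero =>
    simp only [pow_zero, zero_mul]
    exact zc_eq_zero fun z _ => one_ne_zero
  | succ m ih =>
    have h1 : (fun z => f z ^ (m + 1)) = fun z => (fun y => f y ^ m) z * f z := by
      funext z
      exact pow_succ (f z) m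
    rw [h1, zc_mul (f := fun y => f y ^ m) (hf.pow m) hf hw (pow_ne_zero m hne) hw hne hs, ih]
    ring

/-- affine changes of the variable -/
theorem zc_affine (f : ℂ → ℂ) {a b : ℂ} (ha : a ≠ 0) (s : Set ℂ) :
    zc (fun u => f (a * u + b)) s = zc f ((fun u => a * u + b) '' s) := by
  have hinj : Function.Injective (fun u : ℂ => a * u + b) := fun u v h => by
    have h' : a * u + b = a * v + b := h
    exact mul_left_cancel₀ ha (add_right_cancel h')
  unfold zc
  rw [finsum_mem_image hinj.injOn]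
  refine finsum_mem_congr rfl fun z _ => ?_
  have h1 : AnalyticAt ℂ (fun u : ℂ => a * u + b) z := by fun_prop
  have h2 : deriv (fun u : ℂ => a * u + b) z ≠ 0 := by
    have : HasDerivAt (fun u : ℂ => a * u + b) a z := by
      simpa using ((hasDerivAt_id z).const_mul a).add_const b
    rw [this.deriv]
    exact ha
  simp only [analyticOrderNatAt]
  rw [← analyticOrderAt_comp_of_deriv_ne_zero h1 h2]
  rfl

/-- a ball around `c` without other zeros -/
theorem zc_center {f : ℂ → ℂ} {c : ℂ} {s : Set ℂ} (hc : c ∈ s) (h : ∀ z ∈ s, z ≠ c → f z ≠ 0) :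
    zc f s = analyticOrderNatAt f c := by
  unfold zc
  have h1 : ∑ᶠ z ∈ s, analyticOrderNatAt f z = ∑ᶠ z ∈ ({c} : Set ℂ), analyticOrderNatAt f z := by
    refine (finsum_mem_inter_support_eq _ s {c} ?_)
    ext z
    constructor
    · rintro ⟨h2, h3⟩
      refine ⟨?_, h3⟩
      by_contra h4
      exact h z h2 h4 (apply_eq_zero_of_analyticOrderNatAt_ne_zero h3)
    · rintro ⟨h2, h3⟩
      have h4 : z = c := h2
      exact ⟨h4 ▸ hc, h3⟩
  rw [h1, finsum_mem_singleton]

end Pool.Agent.UC
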