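import Pool.Agent.UC.Defs
import Pool.Agent.UC.Zc

/-!
# UC Ratio: comparison of the numbers of zeros of two functions whose quotient converges

The numbers of zeros are read off from the circle means of `log |f|` (Jensen).
-/

set_option autoImplicit false

open Topology Filter Metric Real

noncomputable section

namespace Pool.Agent.UC

open Pool.Agent.H74.NB (CC Obj)

/-- the annulus -/
private def ratio_ann (c : ℂ) (r R : ℝ) : Set ℂ := {z | r < ‖z - c‖ ∧ ‖z - c‖ ≤ R}

/-- the zeros in the annulus -/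
private def ratio_T (f : ℂ → ℂ) (c : ℂ) (r R : ℝ) : ℝ :=
  ∑ᶠ u, (ratio_ann c r R).indicator (fun u => (analyticOrderNatAt f u : ℝ)) u * (log R - log ‖c - u‖)

private theorem ratio_avg {f : ℂ → ℂ} {c w : ℂ} {R : ℝ} (hR : 0 < R) (hf : AnalyticOnNhd ℂ f (closedBall c R)) (hw : w ∈ closedBall c R)
    (hne : f w ≠ 0) :
    circleAverage (fun z => log ‖f z‖) c R = ∑ᶠ u, (closedBall c R).indicator (fun u => (analyticOrderNatAt f u : ℝ)) u * (log R - log ‖c - u‖) +
      log ‖meromorphicTrailingCoeffAt f c‖ := by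
  have habs : |R| = R := abs_of_pos hR
  have hf' : AnalyticOnNhd ℂ f (closedBall c |R|) := by rwa [habs]
  have h1 := MeromorphicOn.circleAverage_log_norm hR.ne' hf'.meromorphicOn
  have h2 := countingFunction_finsum_eq_finsum_add (c := c) (D := (MeromorphicOn.divisor f (closedBall c |R|) : ℂ → ℤ)) hR.ne'
    ((MeromorphicOn.divisor f (closedBall c |R|)).finiteSupport (isCompact_closedBall c |R|))
  rw [← h2] at h1
  rw [h1]
  congr 1
  refine finsum_congr fun u => ?_
  congr 1
  rw [habs]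
  by_cases hu : u ∈ closedBall c R
  · rw [MeromorphicOn.AnalyticOnNhd.divisor_apply hf hu, ← Nat.cast_analyticOrderNatAt (order_ne_top hf hw hne u hu)]
    simp [hu]
  · rw [Set.indicator_of_notMem hu]
    have h3 : MeromorphicOn.divisor f (closedBall c R) u = 0 := by
      by_contra h
      exact hu ((MeromorphicOn.divisor f (closedBall c R)).supportWithinDomain h)
    rw [h3]
    simp

/-- Jensen on an annulus -/
private theorem ratio_jensen {f : ℂ → ℂ} {c w : ℂ} {r R : ℝ} (hr : 0 < r) (hrR : r ≤ R) (hf : AnalyticOnNhd ℂ f (closedBall c R))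
    (hw : w ∈ closedBall c r) (hne : f w ≠ 0) :
    circleAverage (fun z => log ‖f z‖) c R - circleAverage (fun z => log ‖f z‖) c r =
      zc f (closedBall c r) * log (R / r) + ratio_T f c r R := by
  have hR : 0 < R := hr.trans_le hrR
  have hsub : closedBall c r ⊆ closedBall c R := closedBall_subset_closedBall hrR
  have hfr : AnalyticOnNhd ℂ f (closedBall c r) := hf.mono hsub
  rw [ratio_avg hR hf (hsub hw) hne, ratio_avg hr hfr hw hne]
  have hfinS : ∀ S ⊆ closedBall c R, ∀ g : ℂ → ℝ, (Function.support fun u => S.indicator (fun u => (analyticOrderNatAt f u : ℝ)) u * g u).Finite := by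
    intro S hS g
    refine (zc_finite hf (hsub hw) hne).subset ?_
    intro u hu
    by_cases h1 : u ∈ S
    · refine ⟨hS h1, fun h0 => hu ?_⟩
      simp [h0]
    · exact absurd (by simp [h1]) hu
  have hann : ratio_ann c r R ⊆ closedBall c R := fun u hu => by simpa [dist_eq_norm] using hu.2
  have h1 : (∑ᶠ u, (closedBall c R).indicator (fun u => (analyticOrderNatAt f u : ℝ)) u * (log R - log ‖c - u‖)) -
      ∑ᶠ u, (closedBall c r).indicator (fun u => (analyticOrderNatAt f u : ℝ)) u * (log r - log ‖c - u‖) =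
      (∑ᶠ u, (closedBall c r).indicator (fun u => (analyticOrderNatAt f u : ℝ)) u * log (R / r)) + ratio_T f c r R := by
    unfold ratio_T
    rw [← finsum_sub_distrib (hfinS _ subset_rfl _) (hfinS _ hsub _), ← finsum_add_distrib (hfinS _ hsub _) (hfinS _ hann _)]
    refine finsum_congr fun u => ?_
    rw [log_div hR.ne' hr.ne']
    by_cases h2 : u ∈ closedBall c r
    · have h3 : u ∉ ratio_ann c r R := fun h => by
        have h4 : ‖u - c‖ ≤ r := by simpa [dist_eq_norm] using h2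
        exact absurd h.1 (not_lt.2 h4)
      rw [Set.indicator_of_mem (hsub h2), Set.indicator_of_mem h2, Set.indicator_of_notMem h3]
      ring
    · rw [Set.indicator_of_notMem h2]
      by_cases h3 : u ∈ closedBall c R
      · have h4 : u ∈ ratio_ann c r R := by
          refine ⟨?_, by simpa [dist_eq_norm] using h3⟩
          have h5 : ¬ ‖u - c‖ ≤ r := by simpa [dist_eq_norm] using h2
          exact not_le.1 h5
        rw [Set.indicator_of_mem h3, Set.indicator_of_mem h4]
        ring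
      · have h4 : u ∉ ratio_ann c r R := fun h => h3 (hann h)
        rw [Set.indicator_of_notMem h3, Set.indicator_of_notMem h4]
        ring
  have h2 : (∑ᶠ u, (closedBall c r).indicator (fun u => (analyticOrderNatAt f u : ℝ)) u * log (R / r)) = zc f (closedBall c r) * log (R / r) := by
    rw [← finsum_mul]
    congr 1
    unfold zc
    have h3 := (Nat.castAddMonoidHom ℝ).map_finsum_mem' (zc_finite' hfr hw hne (subset_rfl (a := closedBall c r)))
    have h4 : ((∑ᶠ z ∈ closedBall c r, analyticOrderNatAt f z : ℕ) : ℝ) = ∑ᶠ z ∈ closedBall c r, (analyticOrderNatAt f z : ℝ) := h3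
    rw [h4, finsum_mem_def]
  linarith [h1, h2]

private theorem ratio_int {f : ℂ → ℂ} {c : ℂ} {r : ℝ} (hf : AnalyticOnNhd ℂ f (sphere c |r|)) :
    CircleIntegrable (fun z => log ‖f z‖) c r := hf.meromorphicOn.circleIntegrable_log_norm

/-- the comparison for one pair of functions: `ρ` is close to `ρ₀` on the closed annulus -/
private theorem ratio_one {f₁ f₂ ρ ρ₀ : ℂ → ℂ} {c w : ℂ} {r R η δ : ℝ} (hr : 0 < r) (hrR : r < R)
    (h₁ : AnalyticOnNhd ℂ f₁ (closedBall c R)) (h₂ : AnalyticOnNhd ℂ f₂ (closedBall c R))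
    (hρ : AnalyticOnNhd ℂ ρ₀ (closedBall c R)) (hw : r ≤ ‖w - c‖ ∧ ‖w - c‖ ≤ R) (hne : f₂ w ≠ 0)
    (heq : ∀ z, r ≤ ‖z - c‖ → ‖z - c‖ ≤ R → AnalyticAt ℂ ρ z ∧ f₁ =ᶠ[𝓝 z] fun y => ρ y * f₂ y)
    (hδ : 0 < δ) (hρδ : ∀ z, r ≤ ‖z - c‖ → ‖z - c‖ ≤ R → δ ≤ ‖ρ₀ z‖) (hη0 : 0 < η) (hη1 : η ≤ 1 / 2) (hη2 : η ≤ log (R / r) / 8)
    (hclose : ∀ z, r ≤ ‖z - c‖ → ‖z - c‖ ≤ R → ‖ρ₀ z - ρ z‖ < η * δ) :
    zc f₁ (closedBall c r) = zc f₂ (closedBall c r) + zc ρ₀ (closedBall c r) := by
  have hR : 0 < R := hr.trans hrR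
  set L := log (R / r) with hL
  have hL0 : 0 < L := log_pos ((one_lt_div hr).2 hrR)
  have hlog : ∀ z, r ≤ ‖z - c‖ → ‖z - c‖ ≤ R → |log ‖ρ z‖ - log ‖ρ₀ z‖| ≤ 2 * η ∧ ρ z ≠ 0 := by
    intro z hz1 hz2
    have e1 := hclose z hz1 hz2
    have e2 := hρδ z hz1 hz2
    have e3 : 0 < ‖ρ₀ z‖ := hδ.trans_le e2
    have e4 : ‖ρ₀ z - ρ z‖ ≤ η * ‖ρ₀ z‖ := e1.le.trans (mul_le_mul_of_nonneg_left e2 hη0.le)
    have e5 : ‖ρ₀ z‖ - ‖ρ z‖ ≤ ‖ρ₀ z - ρ z‖ := norm_sub_norm_le _ _
    have e6 : ‖ρ z‖ - ‖ρ₀ z‖ ≤ ‖ρ₀ z - ρ z‖ := by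
      rw [norm_sub_rev]
      exact norm_sub_norm_le _ _
    have e7 : 0 < ‖ρ z‖ := by nlinarith
    refine ⟨?_, norm_pos_iff.1 e7⟩
    rw [← log_div e7.ne' e3.ne', abs_le]
    have hq : 0 < ‖ρ z‖ / ‖ρ₀ z‖ := div_pos e7 e3
    have hq1 : 1 - η ≤ ‖ρ z‖ / ‖ρ₀ z‖ := by
      rw [le_div_iff₀ e3]
      nlinarith
    have hq2 : ‖ρ z‖ / ‖ρ₀ z‖ ≤ 1 + η := by
      rw [div_le_iff₀ e3]
      nlinarith
    constructor
    · have g1 : 1 - (‖ρ z‖ / ‖ρ₀ z‖)⁻¹ ≤ log (‖ρ z‖ / ‖ρ₀ z‖) := one_sub_inv_le_log_of_pos hq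
      have g2 : (‖ρ z‖ / ‖ρ₀ z‖)⁻¹ ≤ (1 - η)⁻¹ := inv_anti₀ (by linarith) hq1
      have g3 : (1 - η)⁻¹ ≤ 1 + 2 * η := by
        rw [inv_le_iff_one_le_mul₀ (by linarith)]
        nlinarith
      linarith
    · have g1 := log_le_sub_one_of_pos hq
      linarith
  have hwR : w ∈ closedBall c R := by simpa [dist_eq_norm] using hw.2
  have hne1 : f₁ w ≠ 0 := by
    rw [(heq w hw.1 hw.2).2.self_of_nhds]
    exact mul_ne_zero (hlog w hw.1 hw.2).2 hne
  have hsub : closedBall c r ⊆ closedBall c R := closedBall_subset_closedBall hrR.le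
  -- nonzero points in the smaller ball
  have hpt : ∀ f : ℂ → ℂ, AnalyticOnNhd ℂ f (closedBall c R) → f w ≠ 0 → ∃ y ∈ closedBall c r, f y ≠ 0 := by
    intro f hf hfw
    by_contra hcon
    push Not at hcon
    have h1 := order_ne_top hf hwR hfw c (mem_closedBall_self hR.le)
    refine h1 (analyticOrderAt_eq_top.2 ?_)
    filter_upwards [closedBall_mem_nhds c hr] with z hz
    exact hcon z hz
  obtain ⟨y1, hy1, hy1'⟩ := hpt f₁ h₁ hne1
  obtain ⟨y2, hy2, hy2'⟩ := hpt f₂ h₂ hne
  have hρw : ρ₀ w ≠ 0 := norm_pos_iff.1 (hδ.trans_le (hρδ w hw.1 hw.2))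
  obtain ⟨y0, hy0, hy0'⟩ := hpt ρ₀ hρ hρw
  have s1 := ratio_jensen hr hrR.le h₁ hy1 hy1'
  have s2 := ratio_jensen hr hrR.le h₂ hy2 hy2'
  have s0 := ratio_jensen hr hrR.le hρ hy0 hy0'
  -- the zeros in the annulus
  have hT : ratio_T f₁ c r R = ratio_T f₂ c r R := by
    unfold ratio_T
    refine finsum_congr fun u => ?_
    by_cases hu : u ∈ ratio_ann c r R
    · rw [Set.indicator_of_mem hu, Set.indicator_of_mem hu]
      obtain ⟨g1, g2⟩ := heq u hu.1.le hu.2
      have g3 : analyticOrderAt f₁ u = analyticOrderAt f₂ u := by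
        rw [analyticOrderAt_congr g2]
        have g4 : (fun y => ρ y * f₂ y) = ρ * f₂ := rfl
        rw [g4, analyticOrderAt_mul g1 (h₂ u (by simpa [dist_eq_norm] using hu.2)), g1.analyticOrderAt_eq_zero.2 (hlog u hu.1.le hu.2).2, zero_add]
      have g5 : analyticOrderNatAt f₁ u = analyticOrderNatAt f₂ u := by
        simp only [analyticOrderNatAt, g3]
      rw [g5]
    · rw [Set.indicator_of_notMem hu, Set.indicator_of_notMem hu]
  have hT0 : ratio_T ρ₀ c r R = 0 := by
    unfold ratio_T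
    rw [← finsum_zero (α := ℂ) (M := ℝ)]
    refine finsum_congr fun u => ?_
    by_cases hu : u ∈ ratio_ann c r R
    · have g1 : ρ₀ u ≠ 0 := norm_pos_iff.1 (hδ.trans_le (hρδ u hu.1.le hu.2))
      have g2 : analyticOrderNatAt ρ₀ u = 0 := by
        by_contra h
        exact g1 (apply_eq_zero_of_analyticOrderNatAt_ne_zero h)
      rw [Set.indicator_of_mem hu, g2]
      simp
    · rw [Set.indicator_of_notMem hu]
      ring
  -- comparison of the means
  have hcmp : ∀ t : ℝ, r ≤ t → t ≤ R → |circleAverage (fun z => log ‖f₁ z‖) c t - circleAverage (fun z => log ‖f₂ z‖) c t -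
      circleAverage (fun z => log ‖ρ₀ z‖) c t| ≤ 2 * η := by
    intro t ht1 ht2
    have ht0 : 0 < t := hr.trans_le ht1
    have hsub : sphere c |t| ⊆ closedBall c R := by
      rw [abs_of_pos ht0]
      exact sphere_subset_closedBall.trans (closedBall_subset_closedBall ht2)
    have hz' : ∀ z ∈ sphere c |t|, ‖z - c‖ = t := fun z hz => by
      rw [abs_of_pos ht0] at hz
      simpa [dist_eq_norm] using hz
    have i1 := ratio_int (h₁.mono hsub)
    have i2 := ratio_int (h₂.mono hsub)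
    have i0 := ratio_int (hρ.mono hsub)
    have hρan : AnalyticOnNhd ℂ ρ (sphere c |t|) := fun z hz => (heq z (by rw [hz' z hz]; exact ht1) (by rw [hz' z hz]; exact ht2)).1
    have i3 := ratio_int hρan
    -- equality of the integrals
    have e1 : circleAverage (fun z => log ‖f₁ z‖) c t = circleAverage (fun z => log ‖ρ z‖ + log ‖f₂ z‖) c t := by
      refine circleAverage_congr_codiscreteWithin ?_ ht0.ne'
      have g0 : ∀ᶠ z in codiscreteWithin (sphere c |t|), f₂ z ≠ 0 := by
        have g1 : f₂ ⁻¹' {0}ᶜ ∈ codiscreteWithin (closedBall c R) :=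
          h₂.preimage_zero_mem_codiscreteWithin hne hwR ⟨⟨c, mem_closedBall_self hR.le⟩, (convex_closedBall c R).isPreconnected⟩
        exact codiscreteWithin_mono hsub g1
      filter_upwards [g0, self_mem_codiscreteWithin (sphere c |t|)] with z g1 g2
      have g3 := heq z (by rw [hz' z g2]; exact ht1) (by rw [hz' z g2]; exact ht2)
      rw [g3.2.self_of_nhds, norm_mul, log_mul (norm_ne_zero_iff.2 (hlog z (by rw [hz' z g2]; exact ht1) (by rw [hz' z g2]; exact ht2)).2)
        (norm_ne_zero_iff.2 g1)]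
    have e2 := circleAverage_fun_add i3 i2
    have e3 := circleAverage_fun_sub i3 i0
    have e4 : circleAverage (fun z => log ‖f₁ z‖) c t - circleAverage (fun z => log ‖f₂ z‖) c t -
        circleAverage (fun z => log ‖ρ₀ z‖) c t = circleAverage (fun z => log ‖ρ z‖ - log ‖ρ₀ z‖) c t := by
      linarith
    rw [e4]
    refine (abs_circleAverage_le_circleAverage_abs).trans ?_
    refine circleAverage_mono_on_of_le_circle (i3.sub i0).abs fun z hz => ?_
    exact (hlog z (by rw [hz' z hz]; exact ht1) (by rw [hz' z hz]; exact ht2)).1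
  have c1 := hcmp r le_rfl hrR.le
  have c2 := hcmp R hrR.le le_rfl
  -- integrality
  have hmain : |((zc f₁ (closedBall c r) : ℝ) - zc f₂ (closedBall c r) - zc ρ₀ (closedBall c r))| * L ≤ 4 * η := by
    have e0 : |((zc f₁ (closedBall c r) : ℝ) - zc f₂ (closedBall c r) - zc ρ₀ (closedBall c r))| * L =
        |((zc f₁ (closedBall c r) : ℝ) - zc f₂ (closedBall c r) - zc ρ₀ (closedBall c r)) * L| := by
      rw [abs_mul, abs_of_pos hL0]
    rw [e0]
    have e : ((zc f₁ (closedBall c r) : ℝ) - zc f₂ (closedBall c r) - zc ρ₀ (closedBall c r)) * L =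
        (circleAverage (fun z => log ‖f₁ z‖) c R - circleAverage (fun z => log ‖f₂ z‖) c R - circleAverage (fun z => log ‖ρ₀ z‖) c R) -
        (circleAverage (fun z => log ‖f₁ z‖) c r - circleAverage (fun z => log ‖f₂ z‖) c r - circleAverage (fun z => log ‖ρ₀ z‖) c r) := by
      linarith
    rw [e]
    rw [abs_le] at c1 c2 ⊢
    constructor <;> linarith [c1.1, c1.2, c2.1, c2.2]
  have hlt : |((zc f₁ (closedBall c r) : ℝ) - zc f₂ (closedBall c r) - zc ρ₀ (closedBall c r))| < 1 := by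
    by_contra hcon
    rw [not_lt] at hcon
    have : L ≤ 4 * η := by nlinarith
    linarith
  have hint : |((zc f₁ (closedBall c r) : ℤ) - zc f₂ (closedBall c r) - zc ρ₀ (closedBall c r))| < 1 := by
    exact_mod_cast hlt
  have h7 : ((zc f₁ (closedBall c r) : ℤ) - zc f₂ (closedBall c r) - zc ρ₀ (closedBall c r)) = 0 := Int.abs_lt_one_iff.1 hint
  omega

/-- zeros can be divided out -/
private theorem ratio_zge {c : ℂ} {a r : ℝ} (har : a < r) : ∀ (k : ℕ) (f : ℂ → ℂ), DifferentiableOn ℂ f (ball c r) →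
    (∃ w ∈ closedBall c a, f w ≠ 0) → k ≤ zc f (closedBall c a) → ZGe f (ball c r) (closedBall c a) k := by
  have hsub : closedBall c a ⊆ ball c r := closedBall_subset_ball har
  intro k
  induction k with
  | zero =>
    intro f hf _ _
    exact ⟨0, f, rfl, by simp, hf, fun z _ => by simp⟩
  | succ k ih =>
    rintro f hf ⟨w, hw, hfw⟩ hk
    have hfa : ∀ g : ℂ → ℂ, DifferentiableOn ℂ g (ball c r) → AnalyticOnNhd ℂ g (closedBall c a) := fun g hg z hz =>
      hg.analyticAt (isOpen_ball.mem_nhds (hsub hz))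
    obtain ⟨z₀, hz₀, hz₀'⟩ : ∃ z₀ ∈ closedBall c a, f z₀ = 0 := by
      by_contra hcon
      push Not at hcon
      have := zc_eq_zero hcon
      omega
    set g := dslope f z₀ with hg
    have hgd : DifferentiableOn ℂ g (ball c r) := (Complex.differentiableOn_dslope (isOpen_ball.mem_nhds (hsub hz₀))).2 hf
    have hfg : ∀ z, f z = (z - z₀) * g z := by
      intro z
      have h1 := sub_smul_dslope f z₀ z
      rw [hz₀', sub_zero, smul_eq_mul] at h1
      exact h1.symm
    have hgw : g w ≠ 0 := fun h => hfw (by rw [hfg w, h, mul_zero])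
    have hne : w ≠ z₀ := fun h => hfw (by rw [h, hz₀'])
    have hzc : zc f (closedBall c a) = 1 + zc g (closedBall c a) := by
      have h1 : f = fun z => (fun y => y - z₀) z * g z := funext hfg
      conv_lhs => rw [h1]
      rw [zc_mul (f := fun y => y - z₀) (analyticOnNhd_id.sub analyticOnNhd_const) (hfa g hgd) hw (sub_ne_zero.2 hne) hw hgw subset_rfl]
      congr 1
      rw [zc_center hz₀ fun z _ h => sub_ne_zero.2 h]
      have h2 : analyticOrderAt (fun y : ℂ => y - z₀) z₀ = 1 := analyticOrderAt_id_sub_const_self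
      simp [analyticOrderNatAt, h2]
    obtain ⟨s, q, h1, h2, h3, h4⟩ := ih g hgd ⟨w, hw, hgw⟩ (by omega)
    refine ⟨z₀ ::ₘ s, q, by simp [h1], ?_, h3, fun z hz => ?_⟩
    · intro y hy
      rcases Multiset.mem_cons.1 hy with rfl | hy
      · exact hz₀
      · exact h2 y hy
    · rw [hfg z, h4 z hz, Multiset.map_cons, Multiset.prod_cons, mul_assoc]

private theorem ratio_of_zge {c : ℂ} {a r : ℝ} (har : a < r) {g : ℂ → ℂ} (hg : DifferentiableOn ℂ g (ball c r)) (s : Multiset ℂ) :
    (∀ y ∈ s, y ∈ closedBall c a) → ∀ f : ℂ → ℂ, (∀ z ∈ ball c r, f z = (s.map fun y => z - y).prod * g z) → (∃ w ∈ closedBall c a, f w ≠ 0) →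
      s.card ≤ zc f (closedBall c a) := by
  have hsub : closedBall c a ⊆ ball c r := closedBall_subset_ball har
  have hfa : ∀ g : ℂ → ℂ, DifferentiableOn ℂ g (ball c r) → AnalyticOnNhd ℂ g (closedBall c a) := fun g hg z hz =>
    hg.analyticAt (isOpen_ball.mem_nhds (hsub hz))
  induction s using Multiset.induction_on with
  | empty => simp
  | cons b s ih =>
    rintro hs f hf ⟨w, hw, hfw⟩
    set q : ℂ → ℂ := fun z => (s.map fun y => z - y).prod * g z with hq
    have hqd : DifferentiableOn ℂ q (ball c r) := by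
      refine DifferentiableOn.mul ?_ hg
      have h1 : Differentiable ℂ fun z : ℂ => (s.map fun y => z - y).prod := by
        clear ih hs hf hq q
        induction s using Multiset.induction_on with
        | empty => simp
        | cons b s ih2 =>
          simp only [Multiset.map_cons, Multiset.prod_cons]
          exact (differentiable_id.sub_const b).mul ih2
      exact h1.differentiableOn
    have hb := hs b (Multiset.mem_cons_self b s)
    have hfq : ∀ z ∈ ball c r, f z = (z - b) * q z := fun z hz => by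
      rw [hf z hz, Multiset.map_cons, Multiset.prod_cons, mul_assoc]
    have hqw : q w ≠ 0 := fun h => hfw (by rw [hfq w (hsub hw), h, mul_zero])
    have hne : w - b ≠ 0 := fun h => hfw (by rw [hfq w (hsub hw), h, zero_mul])
    have h1 := ih (fun y hy => hs y (Multiset.mem_cons_of_mem hy)) q (fun z _ => rfl) ⟨w, hw, hqw⟩
    have h2 : zc f (closedBall c a) = zc (fun z => (fun y => y - b) z * q z) (closedBall c a) := by
      refine zc_congr fun z hz => ?_
      filter_upwards [isOpen_ball.mem_nhds (hsub hz)] with y hy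
      exact hfq y hy
    rw [h2, zc_mul (f := fun y => y - b) (analyticOnNhd_id.sub analyticOnNhd_const) (hfa q hqd) hw hne hw hqw subset_rfl, zc_center hb fun z _ h => sub_ne_zero.2 h]
    have h3 : analyticOrderAt (fun y : ℂ => y - b) b = 1 := analyticOrderAt_id_sub_const_self
    have h4 : analyticOrderNatAt (fun y : ℂ => y - b) b = 1 := by simp [analyticOrderNatAt, h3]
    rw [h4, Multiset.card_cons]
    omega

/-- Two sequences of holomorphic functions whose quotient converges off the centre. -/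
theorem ratio {𝒰 : Ultrafilter ℕ} {F₁ F₂ : ℕ → ℂ → ℂ} {w : ℂ} {r : ℝ} {k : ℕ} {v : ℂ → ℂ} {ν : ℕ} (hr : 0 < r)
    (hF₁ : ∀ᶠ n in (𝒰 : Filter ℕ), DifferentiableOn ℂ (F₁ n) (ball w r))
    (hF₂ : ∀ᶠ n in (𝒰 : Filter ℕ), DifferentiableOn ℂ (F₂ n) (ball w r)) (hv : DifferentiableOn ℂ v (ball w r)) (hv0 : v w ≠ 0)
    {ρ : ℕ → ℂ → ℂ} (hρ : CC 𝒰 ρ (fun z => (z - w) ^ ν * v z) (ball w r \ {w}))
    (hρd : ∀ K ⊆ ball w r \ {w}, IsCompact K → ∀ᶠ n in (𝒰 : Filter ℕ), ∀ z ∈ K, DifferentiableAt ℂ (ρ n) z)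
    (he : ∀ K ⊆ ball w r \ {w}, IsCompact K → ∀ᶠ n in (𝒰 : Filter ℕ), ∀ z ∈ K, F₁ n z = ρ n z * F₂ n z) (h : Lo 𝒰 F₂ w r k) :
    Lo 𝒰 F₁ w r (k + ν) := by
  intro s₀ hs₀ hs₀r
  -- radii
  obtain ⟨t, ht0, hts, hvt⟩ : ∃ t, 0 < t ∧ t ≤ s₀ ∧ ∀ z ∈ ball w t, v z ≠ 0 := by
    have h1 : ∀ᶠ z in 𝓝 w, v z ≠ 0 := (hv.continuousOn.continuousAt (ball_mem_nhds w hr)).eventually_ne hv0
    obtain ⟨s, hs, hs'⟩ := Metric.mem_nhds_iff.1 h1
    exact ⟨min s s₀, lt_min hs hs₀, min_le_right _ _, fun z hz => hs' (ball_subset_ball (min_le_left _ _) hz)⟩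
  have htr : t ≤ r := hts.trans hs₀r
  set K : Set ℂ := {z | t / 8 ≤ ‖z - w‖ ∧ ‖z - w‖ ≤ 3 * t / 4} with hK
  have hKc : IsCompact K := by
    refine (isCompact_closedBall w (3 * t / 4)).of_isClosed_subset ?_ ?_
    · exact (isClosed_le continuous_const (continuous_id.sub continuous_const).norm).inter
        (isClosed_le (continuous_id.sub continuous_const).norm continuous_const)
    · intro z hz
      simpa [dist_eq_norm] using hz.2
  have hKs : K ⊆ ball w r \ {w} := by
    rintro z ⟨h1, h2⟩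
    refine ⟨?_, ?_⟩
    · rw [mem_ball, dist_eq_norm]
      linarith
    · rintro rfl
      rw [sub_self, norm_zero] at h1
      linarith
  have hKn : ∀ z, t / 4 ≤ ‖z - w‖ → ‖z - w‖ ≤ t / 2 → K ∈ 𝓝 z := by
    intro z h1 h2
    have h3 : {y : ℂ | t / 8 < ‖y - w‖ ∧ ‖y - w‖ < 3 * t / 4} ∈ 𝓝 z := by
      refine IsOpen.mem_nhds ?_ ⟨by linarith, by linarith⟩
      exact (isOpen_lt continuous_const (continuous_id.sub continuous_const).norm).inter
        (isOpen_lt (continuous_id.sub continuous_const).norm continuous_const)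
    exact Filter.mem_of_superset h3 fun y hy => ⟨hy.1.le, hy.2.le⟩
  set ρ₀ : ℂ → ℂ := fun z => (z - w) ^ ν * v z with hρ₀
  have hρ₀d : DifferentiableOn ℂ ρ₀ (ball w r) := DifferentiableOn.mul (by fun_prop) hv
  have hcb : closedBall w (t / 2) ⊆ ball w r := closedBall_subset_ball (by linarith)
  have hρ₀a : AnalyticOnNhd ℂ ρ₀ (closedBall w (t / 2)) := fun z hz => hρ₀d.analyticAt (isOpen_ball.mem_nhds (hcb hz))
  have hρ₀ne : ∀ z ∈ ball w t, z ≠ w → ρ₀ z ≠ 0 := fun z hz hzw => mul_ne_zero (pow_ne_zero ν (sub_ne_zero.2 hzw)) (hvt z hz)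
  -- lower bound
  set A : Set ℂ := {z | t / 4 ≤ ‖z - w‖ ∧ ‖z - w‖ ≤ t / 2} with hA
  have hAc : IsCompact A := by
    refine (isCompact_closedBall w (t / 2)).of_isClosed_subset ?_ ?_
    · exact (isClosed_le continuous_const (continuous_id.sub continuous_const).norm).inter
        (isClosed_le (continuous_id.sub continuous_const).norm continuous_const)
    · intro z hz
      simpa [dist_eq_norm] using hz.2
  have hAne : A.Nonempty := ⟨w + (t / 2 : ℝ), by
    simp only [hA, Set.mem_ofPred_eq, add_sub_cancel_left, Complex.norm_real, Real.norm_eq_abs, abs_of_pos (half_pos ht0)]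
    constructor <;> linarith⟩
  have hAw : ∀ z ∈ A, z ∈ ball w t ∧ z ≠ w := by
    rintro z ⟨h1, h2⟩
    refine ⟨?_, ?_⟩
    · rw [mem_ball, dist_eq_norm]
      linarith
    · rintro rfl
      rw [sub_self, norm_zero] at h1
      linarith
  have hρc : ContinuousOn (fun z => ‖ρ₀ z‖) A := by
    refine ContinuousOn.norm (hρ₀a.continuousOn.mono ?_)
    intro z hz
    simpa [dist_eq_norm] using hz.2
  obtain ⟨z₀, hz₀, hmin⟩ := hAc.exists_isMinOn hAne hρc
  set δ := ‖ρ₀ z₀‖ with hδ
  have hδ0 : 0 < δ := norm_pos_iff.2 (hρ₀ne z₀ (hAw z₀ hz₀).1 (hAw z₀ hz₀).2)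
  set L := log ((t / 2) / (t / 4)) with hL
  have hL0 : 0 < L := log_pos ((one_lt_div (by linarith)).2 (by linarith))
  set η := min (1 / 2) (L / 8) with hη
  have hη0 : 0 < η := lt_min (by norm_num) (by positivity)
  have hcl := hρ.unif (f := ρ₀) ?_ ?_ hKc hKs (ε := η * δ) (by positivity)
  rotate_left
  · exact hρ₀d.continuousOn.mono Set.sdiff_subset
  · exact isOpen_ball.sdiff isClosed_singleton
  have hlo := h (t / 4) (by linarith) (by linarith)
  filter_upwards [hF₁, hF₂, hρd K hKs hKc, he K hKs hKc, hcl, hlo] with n h1 h2 h3 h4 h5 h6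
  have hmono : closedBall w (t / 4) ⊆ ball w s₀ := closedBall_subset_ball (by linarith)
  have hdiff : DifferentiableOn ℂ (ρ n) K := fun z hz => (h3 z hz).differentiableWithinAt
  by_cases hcase : ∃ y, (t / 4 ≤ ‖y - w‖ ∧ ‖y - w‖ ≤ t / 2) ∧ F₂ n y ≠ 0
  · obtain ⟨y, hy, hy0⟩ := hcase
    have ha1 : AnalyticOnNhd ℂ (F₁ n) (closedBall w (t / 2)) := fun z hz => h1.analyticAt (isOpen_ball.mem_nhds (hcb hz))
    have ha2 : AnalyticOnNhd ℂ (F₂ n) (closedBall w (t / 2)) := fun z hz => h2.analyticAt (isOpen_ball.mem_nhds (hcb hz))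
    have key := ratio_one (f₁ := F₁ n) (f₂ := F₂ n) (ρ := ρ n) (ρ₀ := ρ₀) (c := w) (w := y) (r := t / 4) (R := t / 2) (η := η) (δ := δ)
      (by linarith) (by linarith) ha1 ha2 hρ₀a hy hy0
      (fun z hz1 hz2 => ⟨hdiff.analyticAt (hKn z hz1 hz2), by
        filter_upwards [hKn z hz1 hz2] with x hx
        exact h4 x hx⟩)
      hδ0 (fun z hz1 hz2 => hmin ⟨hz1, hz2⟩) hη0 (min_le_left _ _) (min_le_right _ _)
      (fun z hz1 hz2 => by
        have h7 := h5 z (mem_of_mem_nhds (hKn z hz1 hz2))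
        rwa [norm_sub_rev] at h7)
    -- a point in the small ball
    have hpt : ∀ f : ℂ → ℂ, AnalyticOnNhd ℂ f (closedBall w (t / 2)) → f y ≠ 0 → ∃ x ∈ closedBall w (t / 4), f x ≠ 0 := by
      intro f hf hfy
      by_contra hcon
      push Not at hcon
      have h7 := order_ne_top hf (w := y) (by simpa [dist_eq_norm] using hy.2) hfy w (mem_closedBall_self (by linarith))
      refine h7 (analyticOrderAt_eq_top.2 ?_)
      filter_upwards [closedBall_mem_nhds w (by linarith : 0 < t / 4)] with z hz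
      exact hcon z hz
    have hy1 : F₁ n y ≠ 0 := by
      have hyK : y ∈ K := mem_of_mem_nhds (hKn y hy.1 hy.2)
      rw [h4 y hyK]
      refine mul_ne_zero ?_ hy0
      intro h0
      have h7 := h5 y hyK
      rw [h0, zero_sub, norm_neg] at h7
      have h8 : δ ≤ ‖ρ₀ y‖ := hmin hy
      have h9 : η ≤ 1 / 2 := min_le_left _ _
      nlinarith
    obtain ⟨x1, hx1, hx1'⟩ := hpt (F₁ n) ha1 hy1
    obtain ⟨x2, hx2, hx2'⟩ := hpt (F₂ n) ha2 hy0
    have hk2 : k ≤ zc (F₂ n) (closedBall w (t / 4)) := by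
      obtain ⟨s, g, g1, g2, g3, g4⟩ := h6
      rw [← g1]
      exact ratio_of_zge (by linarith : t / 4 < r) g3 s (fun b hb => ball_subset_closedBall (g2 b hb)) (F₂ n) g4 ⟨x2, hx2, hx2'⟩
    have hk0 : zc ρ₀ (closedBall w (t / 4)) = ν := by
      rw [zc_center (mem_closedBall_self (by linarith)) fun z hz hzw => hρ₀ne z (closedBall_subset_ball (by linarith) hz) hzw]
      have hva : AnalyticAt ℂ v w := hv.analyticAt (ball_mem_nhds w hr)
      have h7 : analyticOrderAt ρ₀ w = ν := by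
        have h8 : ρ₀ = (fun z => (z - w) ^ ν) * v := rfl
        rw [h8, analyticOrderAt_mul (by fun_prop) hva, hva.analyticOrderAt_eq_zero.2 hv0, add_zero]
        have h9 : (fun z : ℂ => (z - w) ^ ν) = (· - w) ^ ν := rfl
        rw [h9, analyticOrderAt_centeredMonomial]
      simp [analyticOrderNatAt, h7]
    have hk1 : k + ν ≤ zc (F₁ n) (closedBall w (t / 4)) := by omega
    obtain ⟨s, g, g1, g2, g3, g4⟩ := ratio_zge (by linarith : t / 4 < r) (k + ν) (F₁ n) h1 ⟨x1, hx1, hx1'⟩ hk1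
    exact ⟨s, g, g1, fun b hb => hmono (g2 b hb), g3, g4⟩
  · -- identically zero
    push Not at hcase
    have hz : ∀ z ∈ ball w r, F₁ n z = 0 := by
      have hy : w + ((3 * t / 8 : ℝ) : ℂ) ∈ ball w r := by
        rw [mem_ball, dist_eq_norm, add_sub_cancel_left, Complex.norm_real, Real.norm_eq_abs, abs_of_pos (by positivity)]
        linarith
      have h7 : F₁ n =ᶠ[𝓝 (w + ((3 * t / 8 : ℝ) : ℂ))] 0 := by
        have h8 : {y : ℂ | t / 4 < ‖y - w‖ ∧ ‖y - w‖ < t / 2} ∈ 𝓝 (w + ((3 * t / 8 : ℝ) : ℂ)) := by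
          refine IsOpen.mem_nhds ?_ ?_
          · exact (isOpen_lt continuous_const (continuous_id.sub continuous_const).norm).inter
              (isOpen_lt (continuous_id.sub continuous_const).norm continuous_const)
          · simp only [Set.mem_ofPred_eq, add_sub_cancel_left, Complex.norm_real, Real.norm_eq_abs, abs_of_pos (by positivity : (0 : ℝ) < 3 * t / 8)]
            constructor <;> linarith
        filter_upwards [h8] with y hy
        have hyK : y ∈ K := mem_of_mem_nhds (hKn y hy.1.le hy.2.le)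
        rw [h4 y hyK, hcase y ⟨hy.1.le, hy.2.le⟩, mul_zero]
        rfl
      have h9 := (h1.analyticOnNhd isOpen_ball).eqOn_zero_of_preconnected_of_eventuallyEq_zero (convex_ball w r).isPreconnected hy h7
      exact fun z hz => h9 hz
    refine ⟨Multiset.replicate (k + ν) w, 0, by simp, ?_, differentiableOn_const 0, fun z hz' => by rw [hz z hz']; simp⟩
    intro b hb
    rw [Multiset.eq_of_mem_replicate hb]
    exact mem_ball_self hs₀

end Pool.Agent.UC
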