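import Pool.Agent.UC.ZgB
import Pool.Agent.UC.Ch
import Pool.Agent.UC.Ratio

/-!
# UC Chr: zeros near a child
-/

set_option autoImplicit false
set_option linter.unusedSectionVars false

open Topology Filter Metric

noncomputable section

namespace Pool.Agent.UC

open Pool.Agent.H17BP (Surface IsForm IsChart Tan Pr)
open Pool.Agent.H74.NB (CC Obj)

variable {V : Type} [NormedAddCommGroup V] [NormedSpace ℂ V] [FiniteDimensional ℂ V] {X : Set V} {κ : Type} {Q : κ → V → ℂ} {e m j : ℕ}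

/-- the coordinates of `exists_cone` are the coordinates of the chart -/
private theorem chr_left {σ : ℂ × ℂ → V} {τ : V → ℂ × ℂ} (h : IsChart X σ τ) {W : Set V} {T : V → ℂ × ℂ} {H : V → ℂ} (hW : IsOpen W)
    (hσW : σ 0 ∈ W) (hT0 : T (σ 0) = 0) (han : ∀ y ∈ W, AnalyticAt ℂ T y ∧ AnalyticAt ℂ H y ∧ H y ≠ 0)
    (hWX : ∀ y ∈ W, y ∈ X → y = H y • σ (T y)) : ∀ᶠ p in 𝓝 (0 : ℂ × ℂ), σ p ∈ W ∧ T (σ p) = p := by
  have hσc : Tendsto σ (𝓝 0) (𝓝 (σ 0)) := h.σ_an.continuousAt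
  have hTc : Tendsto T (𝓝 (σ 0)) (𝓝 0) := by
    have := (han _ hσW).1.continuousAt.tendsto
    rwa [hT0] at this
  have h0 : σ 0 ∈ X := h.σ_mem.self_of_nhds
  have hH0 : H (σ 0) = 1 := by
    have h1 := hWX _ hσW h0
    rw [hT0] at h1
    have h2 : (H (σ 0) - 1) • σ 0 = 0 := by
      rw [sub_smul, one_smul, sub_eq_zero]
      exact h1.symm
    rcases smul_eq_zero.1 h2 with h3 | h3
    · exact sub_eq_zero.1 h3
    · exact absurd h3 h.ne
  have hHc : Tendsto H (𝓝 (σ 0)) (𝓝 1) := by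
    have := (han _ hσW).2.1.continuousAt.tendsto
    rwa [hH0] at this
  have hTσ : Tendsto (fun p => T (σ p)) (𝓝 0) (𝓝 0) := hTc.comp hσc
  have hHσ : Tendsto (fun p => H (σ p)) (𝓝 0) (𝓝 1) := hHc.comp hσc
  have hpair : Tendsto (fun p => (σ (T (σ p)), H (σ p))) (𝓝 0) (𝓝 (σ 0, (1 : ℂ))) := (hσc.comp hTσ).prodMk_nhds hHσ
  filter_upwards [hσc.eventually (hW.mem_nhds hσW), h.σ_mem, h.left, hTσ.eventually h.left, hpair.eventually h.inv] with p h1 h2 h3 h4 h5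
  refine ⟨h1, ?_⟩
  have h6 := hWX _ h1 h2
  rw [← h6, h3, h4] at h5
  exact h5.symm

/-- MODULE Chr: zeros near a child: comparison of `Q i₀` and the local equation `Q i` at the point `K a` (module Ratio). -/
theorem lo_child (hc : Crv X Q e) {𝒰 : Ultrafilter ℕ} {Ψ : ℕ → ℂ → V} {a : ℂ} {μ : ℕ} (hμ : 1 ≤ μ) (hu : UCat X Q e m j 𝒰 μ) {δ : ℝ} {g : ℂ → ℂ}
    {K : ℂ → V} (h : Obj 𝒰 Ψ a μ (fun z => g z • K z) δ) (hX : ∀ᶠ n in (𝒰 : Filter ℕ), ∀ z ∈ ball a δ, Ψ n z ∈ X) (hg : g a ≠ 0)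
    (hgd : Differentiable ℂ g) (hK : Differentiable ℂ K) {i₀ : κ} {b ν : ℕ} (hat : At X Q i₀ K a b ν) :
    ∃ k : ℕ, m * (e * μ + (2 - b) + ν) + j * μ ≤ m * k ∧ Lo 𝒰 (fun n z => Q i₀ (Ψ n z)) a δ k := by
  obtain ⟨i, σ, τ, h', y, ρ, hm, hh, hh0, hy, hy0, -, hKe, hρ, hQ, hν⟩ := hat
  obtain ⟨u, hua, hu0, hQu⟩ := hm.unit
  have hKa : K a = h' a • σ 0 := by
    have h1 := hKe.self_of_nhds
    rw [hy0] at h1
    exact h1
  have hpr : Pr (σ 0) (g a • K a) := by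
    refine ⟨(g a * h' a)⁻¹, inv_ne_zero (mul_ne_zero hg hh0), ?_⟩
    rw [hKa, smul_smul, smul_smul, mul_assoc, inv_mul_cancel₀ (mul_ne_zero hg hh0), one_smul]
  obtain ⟨k, hk1, hk2⟩ := (hu Ψ a (fun z => g z • K z) δ h hX).2 i b σ τ hm hpr
  refine ⟨k + ν, by nlinarith [hk1], ?_⟩
  have hδ := h.pos
  have hU : {p : ℂ × ℂ | AnalyticAt ℂ ρ p ∧ AnalyticAt ℂ u p ∧ u p ≠ 0 ∧ Q i₀ (σ p) = p.1 * p.2 ^ b * ρ p ∧
      Q i (σ p) = p.1 * p.2 ^ b * u p} ∈ 𝓝 (0 : ℂ × ℂ) :=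
    hρ.eventually_analyticAt.and (hua.eventually_analyticAt.and ((hua.continuousAt.eventually_ne hu0).and (hQ.and hQu)))
  obtain ⟨W, T, H, hWo, hσW, hT0, hWc, hWan, hWX⟩ := exists_cone hc.surf hm.chart hU
  have hleft := chr_left hm.chart hWo hσW hT0 (fun y hy => ⟨(hWan y hy).1, (hWan y hy).2.1, (hWan y hy).2.2.1⟩) hWX
  have hyt : Tendsto (fun z => ((0 : ℂ), y z)) (𝓝 a) (𝓝 0) := by
    have h1 : Tendsto y (𝓝 a) (𝓝 0) := by
      have := hy.continuousAt.tendsto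
      rwa [hy0] at this
    exact tendsto_const_nhds.prodMk_nhds h1
  have hKW : ∀ᶠ z in 𝓝 a, K z ∈ W ∧ T (K z) = (0, y z) := by
    filter_upwards [hKe, hh.continuousAt.eventually_ne hh0, hyt.eventually hleft] with z h1 h2 h3
    obtain ⟨h4, h5, -⟩ := hWc _ h3.1 _ h2
    rw [h1]
    exact ⟨h4, h5.trans h3.2⟩
  have hgc : ∀ᶠ z in 𝓝 a, g z ≠ 0 := (hgd.continuous.continuousAt).eventually_ne hg
  -- the orders
  have hya : AnalyticAt ℂ (fun z => ((0 : ℂ), y z)) a := analyticAt_const.prod hy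
  have hρy : AnalyticAt ℂ (fun z => ρ (0, y z)) a := by
    refine AnalyticAt.fun_comp ?_ hya
    simp only [hy0]
    exact hρ
  have huy : AnalyticAt ℂ (fun z => u (0, y z)) a := by
    refine AnalyticAt.fun_comp ?_ hya
    simp only [hy0]
    exact hua
  have huy0 : u (0, y a) ≠ 0 := by
    rw [hy0]
    exact hu0
  obtain ⟨v₂, hv₂, hv₂0, hv₂e⟩ := (hρy.analyticOrderAt_eq_natCast).1 hν
  simp only [smul_eq_mul] at hv₂e
  -- a small ball
  obtain ⟨s, hs0, hs⟩ := Metric.eventually_nhds_iff_ball.1 (hKW.and (hgc.and (huy.eventually_analyticAt.and (hv₂.eventually_analyticAt.and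
    ((huy.continuousAt.eventually_ne huy0).and hv₂e)))))
  obtain ⟨s', hs'0, hs's⟩ := exists_between (show 0 < min s δ from lt_min hs0 hδ)
  have hs's1 : s' < s := hs's.trans_le (min_le_left _ _)
  have hs'r : s' < δ := hs's.trans_le (min_le_right _ _)
  have hsub1 : ball a s' ⊆ ball a s := ball_subset_ball hs's1.le
  have hsub2 : ball a s' ⊆ ball a δ := ball_subset_ball hs'r.le
  have hbW : ∀ z ∈ ball a s' \ {a}, (z - a) ^ μ • (g z • K z) ∈ W ∧ T ((z - a) ^ μ • (g z • K z)) = (0, y z) := by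
    intro z hz
    obtain ⟨h1, h2, -⟩ := hs z (hsub1 hz.1)
    have h5 : (z - a) ^ μ * g z ≠ 0 := mul_ne_zero (pow_ne_zero _ (sub_ne_zero.2 hz.2)) h2
    obtain ⟨h3, h4, -⟩ := hWc _ h1.1 _ h5
    rw [smul_smul]
    exact ⟨h3, h4.trans h1.2⟩
  have hdQ : ∀ i' : κ, ∀ᶠ n in (𝒰 : Filter ℕ), DifferentiableOn ℂ (fun z => Q i' (Ψ n z)) (ball a δ) := by
    intro i'
    filter_upwards [h.hol] with n h1
    intro z hz
    exact ((hc.an i' (Ψ n z)).differentiableAt.comp z ((h1 z hz).differentiableAt (isOpen_ball.mem_nhds hz))).differentiableWithinAt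
  have hdQ' : ∀ i' : κ, ∀ᶠ n in (𝒰 : Filter ℕ), DifferentiableOn ℂ (fun z => Q i' (Ψ n z)) (ball a s') :=
    fun i' => (hdQ i').mono fun n h1 => h1.mono hsub2
  have hKcW : ∀ K' ⊆ ball a s' \ {a}, IsCompact K' → ∀ᶠ n in (𝒰 : Filter ℕ), ∀ z ∈ K', Ψ n z ∈ W := by
    intro K' hK' hK'c
    refine Pool.Agent.H74.NB.unif_of_seq hK'c fun z₀ hz₀ z _ hz => ?_
    have h1 := hK' hz₀
    exact ((h.cc z₀ (hsub2 h1.1) z hz).eventually (hWo.mem_nhds (hbW z₀ h1).1)).frequently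
  refine (Lo.radius hs'0 hs'r.le (hdQ i₀)).1 ?_
  refine ratio (v := fun z => v₂ z / u (0, y z)) (ρ := fun n z => ρ (T (Ψ n z)) / u (T (Ψ n z))) hs'0 (hdQ' i₀) (hdQ' i) ?_ ?_ ?_ ?_ ?_
    ((Lo.radius hs'0 hs'r.le (hdQ i)).2 hk2)
  · intro z hz
    obtain ⟨-, -, h1, h2, h3, -⟩ := hs z (hsub1 hz)
    exact (h2.differentiableAt.div h1.differentiableAt h3).differentiableWithinAt
  · exact div_ne_zero hv₂0 huy0
  · intro z₀ hz₀ z hz
    obtain ⟨h1, h2⟩ := hbW z₀ hz₀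
    have h3 := ((hWan _ h1).1.continuousAt.tendsto).comp (h.cc z₀ (hsub2 hz₀.1) z hz)
    rw [h2] at h3
    obtain ⟨h4, h5, h6, -⟩ := (hWan _ h1).2.2.2
    rw [h2] at h4 h5 h6
    have h7 := (h4.continuousAt.tendsto.comp h3).div (h5.continuousAt.tendsto.comp h3) h6
    have h8 : (z₀ - a) ^ ν * (v₂ z₀ / u (0, y z₀)) = ρ (0, y z₀) / u (0, y z₀) := by
      rw [(hs z₀ (hsub1 hz₀.1)).2.2.2.2.2, mul_div_assoc]
    simp only [h8]
    exact h7
  · intro K' hK' hK'c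
    filter_upwards [hKcW K' hK' hK'c, h.hol] with n h1 h2
    intro z hz
    have h3 := h1 z hz
    have h4 : DifferentiableAt ℂ (Ψ n) z := (h2 z (hsub2 (hK' hz).1)).differentiableAt (isOpen_ball.mem_nhds (hsub2 (hK' hz).1))
    obtain ⟨h5, -, -, h6, h7, h8, -⟩ := hWan _ h3
    have h9 : DifferentiableAt ℂ (fun z => T (Ψ n z)) z := h5.differentiableAt.comp z h4
    exact (h6.differentiableAt.comp z h9).div (h7.differentiableAt.comp z h9) h8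
  · intro K' hK' hK'c
    filter_upwards [hKcW K' hK' hK'c, hX] with n h1 h2
    intro z hz
    have h3 := h1 z hz
    have h4 := hWX _ h3 (h2 z (hsub2 (hK' hz).1))
    obtain ⟨-, -, -, -, -, h8, h9, h10⟩ := hWan _ h3
    have h11 : Q i₀ (Ψ n z) = H (Ψ n z) ^ e * ((T (Ψ n z)).1 * (T (Ψ n z)).2 ^ b * ρ (T (Ψ n z))) := by
      conv_lhs => rw [h4, hc.smul, h9]
    have h12 : Q i (Ψ n z) = H (Ψ n z) ^ e * ((T (Ψ n z)).1 * (T (Ψ n z)).2 ^ b * u (T (Ψ n z))) := by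
      conv_lhs => rw [h4, hc.smul, h10]
    rw [h11, h12]
    field_simp

end Pool.Agent.UC
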