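import Pool.Agent.UC.ZgB
import Pool.Agent.UC.Ch

/-!
# UC Near: zeros near a point where the curves converge uniformly
-/

set_option autoImplicit false
set_option linter.unusedSectionVars false

open Topology Filter Metric

noncomputable section

namespace Pool.Agent.UC

open Pool.Agent.H17BP (Surface IsForm IsChart Tan Pr)
open Pool.Agent.H74.NB (CC Obj)

variable {V : Type} [NormedAddCommGroup V] [NormedSpace ℂ V] [FiniteDimensional ℂ V] {X : Set V} {κ : Type} {Q : κ → V → ℂ} {e m j : ℕ}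

/-- the coordinates of `exists_cone` are the coordinates of the chart -/
private theorem near_left {σ : ℂ × ℂ → V} {τ : V → ℂ × ℂ} (h : IsChart X σ τ) {W : Set V} {T : V → ℂ × ℂ} {H : V → ℂ} (hW : IsOpen W)
    (hσW : σ 0 ∈ W) (hT0 : T (σ 0) = 0) (han : ∀ y ∈ W, AnalyticAt ℂ T y ∧ AnalyticAt ℂ H y ∧ H y ≠ 0)
    (hWX : ∀ y ∈ W, y ∈ X → y = H y • σ (T y)) : ∀ᶠ p in 𝓝 (0 : ℂ × ℂ), σ p ∈ W ∧ T (σ p) = p := by
  have hσc : Tendsto σ (𝓝 0) (𝓝 (σ 0)) := h.σ_an.continuousAt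
  have hTc : Tendsto T (𝓝 (σ 0)) (𝓝 0) := by
    have := (han _ hσW).1.continuousAt.tendsto
    rwa [hT0] at this
  have h0 : σ 0 ∈ X := h.σ_mem.self_of_nhds
  have hH0 : H (σ 0) = 1 := by
    have h1 := hWX _ hσW h0
    rw [hT0] at h1
    have h2 : (H (σ 0) - 1) • σ 0 = 0 := by
      rw [sub_smul, one_smul, sub_eq_zero]
      exact h1.symm
    rcases smul_eq_zero.1 h2 with h3 | h3
    · exact sub_eq_zero.1 h3
    · exact absurd h3 h.ne
  have hHc : Tendsto H (𝓝 (σ 0)) (𝓝 1) := by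
    have := (han _ hσW).2.1.continuousAt.tendsto
    rwa [hH0] at this
  have hTσ : Tendsto (fun p => T (σ p)) (𝓝 0) (𝓝 0) := hTc.comp hσc
  have hHσ : Tendsto (fun p => H (σ p)) (𝓝 0) (𝓝 1) := hHc.comp hσc
  have hpair : Tendsto (fun p => (σ (T (σ p)), H (σ p))) (𝓝 0) (𝓝 (σ 0, (1 : ℂ))) := (hσc.comp hTσ).prodMk_nhds hHσ
  filter_upwards [hσc.eventually (hW.mem_nhds hσW), h.σ_mem, h.left, hTσ.eventually h.left, hpair.eventually h.inv] with p h1 h2 h3 h4 h5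
  refine ⟨h1, ?_⟩
  have h6 := hWX _ h1 h2
  rw [← h6, h3, h4] at h5
  exact h5.symm

/-- MODULE Near: zeros near a point where the rescaled curves converge to `K` uniformly. -/
theorem lo_near (hc : Crv X Q e) {𝒰 : Ultrafilter ℕ} {Ψ : ℕ → ℂ → V} {c : ℂ} {r : ℝ} {g : ℂ → ℂ} {K : ℂ → V} (hr : 0 < r)
    (hΨ : ∀ᶠ n in (𝒰 : Filter ℕ), DifferentiableOn ℂ (Ψ n) (ball c r)) (hX : ∀ᶠ n in (𝒰 : Filter ℕ), ∀ z ∈ ball c r, Ψ n z ∈ X)
    (hg : g c ≠ 0) (hgd : DifferentiableOn ℂ g (ball c r)) (_hK : DifferentiableOn ℂ K (ball c r)) (hcc : CC 𝒰 Ψ (fun z => g z • K z) (ball c r))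
    {i₀ : κ} {b ν : ℕ} (hat : At X Q i₀ K c b ν) : Lo 𝒰 (fun n z => Q i₀ (Ψ n z)) c r (ν + b) := by
  obtain ⟨i, σ, τ, h, y, ρ, hm, hh, hh0, hy, hy0, hyn, hKe, hρ, hQ, hν⟩ := hat
  have hU : {p : ℂ × ℂ | AnalyticAt ℂ ρ p ∧ Q i₀ (σ p) = p.1 * p.2 ^ b * ρ p} ∈ 𝓝 (0 : ℂ × ℂ) := hρ.eventually_analyticAt.and hQ
  obtain ⟨W, T, H, hWo, hσW, hT0, hWc, hWan, hWX⟩ := exists_cone hc.surf hm.chart hU
  have hleft := near_left hm.chart hWo hσW hT0 (fun y hy => ⟨(hWan y hy).1, (hWan y hy).2.1, (hWan y hy).2.2.1⟩) hWX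
  -- the limit curve in the coordinates
  have hyt : Tendsto (fun z => ((0 : ℂ), y z)) (𝓝 c) (𝓝 0) := by
    have h1 : Tendsto y (𝓝 c) (𝓝 0) := by
      have := hy.continuousAt.tendsto
      rwa [hy0] at this
    exact tendsto_const_nhds.prodMk_nhds h1
  have hKW : ∀ᶠ z in 𝓝 c, K z ∈ W ∧ T (K z) = (0, y z) := by
    filter_upwards [hKe, hh.continuousAt.eventually_ne hh0, hyt.eventually hleft] with z h1 h2 h3
    obtain ⟨h4, h5, -⟩ := hWc _ h3.1 _ h2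
    rw [h1]
    exact ⟨h4, h5.trans h3.2⟩
  have hcb : c ∈ ball c r := mem_ball_self hr
  have hgc : ∀ᶠ z in 𝓝 c, g z ≠ 0 := (hgd.continuousOn.continuousAt (ball_mem_nhds c hr)).eventually_ne hg
  -- orders
  obtain ⟨k, hk⟩ : ∃ k : ℕ, analyticOrderAt y c = k := by
    have h1 : analyticOrderAt y c ≠ ⊤ := fun h2 => hyn (analyticOrderAt_eq_top.1 h2)
    obtain ⟨k, hk⟩ := ENat.ne_top_iff_exists.1 h1
    exact ⟨k, hk.symm⟩
  have hk1 : 1 ≤ k := by
    rcases Nat.eq_zero_or_pos k with h1 | h1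
    · rw [h1, Nat.cast_zero, hy.analyticOrderAt_eq_zero] at hk
      exact absurd hy0 hk
    · exact h1
  obtain ⟨v₁, hv₁, hv₁0, hv₁e⟩ := (hy.analyticOrderAt_eq_natCast).1 hk
  have hρy : AnalyticAt ℂ (fun z => ρ (0, y z)) c := by
    have h1 : AnalyticAt ℂ (fun z => ((0 : ℂ), y z)) c := analyticAt_const.prod hy
    refine AnalyticAt.fun_comp ?_ h1
    simp only [hy0]
    exact hρ
  obtain ⟨v₂, hv₂, hv₂0, hv₂e⟩ := (hρy.analyticOrderAt_eq_natCast).1 hν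
  simp only [smul_eq_mul] at hv₁e hv₂e
  -- a small ball
  obtain ⟨s, hs0, hs⟩ := Metric.eventually_nhds_iff_ball.1 (hKW.and (hgc.and (hv₁.eventually_analyticAt.and (hv₂.eventually_analyticAt.and
    (hv₁e.and hv₂e)))))
  obtain ⟨s', hs'0, hs's⟩ := exists_between (show 0 < min s r from lt_min hs0 hr)
  have hs's1 : s' < s := hs's.trans_le (min_le_left _ _)
  have hs'r : s' < r := hs's.trans_le (min_le_right _ _)
  have hsub1 : closedBall c s' ⊆ ball c s := closedBall_subset_ball hs's1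
  have hsub2 : closedBall c s' ⊆ ball c r := closedBall_subset_ball hs'r
  have hbW : ∀ z ∈ closedBall c s', g z • K z ∈ W ∧ T (g z • K z) = (0, y z) := by
    intro z hz
    obtain ⟨h1, h2, -⟩ := hs z (hsub1 hz)
    obtain ⟨h3, h4, -⟩ := hWc _ h1.1 _ h2
    exact ⟨h3, h4.trans h1.2⟩
  have hΨW : ∀ᶠ n in (𝒰 : Filter ℕ), ∀ z ∈ closedBall c s', Ψ n z ∈ W := by
    refine Pool.Agent.H74.NB.unif_of_seq (isCompact_closedBall c s') fun z₀ hz₀ z _ hz => ?_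
    exact ((hcc z₀ (hsub2 hz₀) z hz).eventually (hWo.mem_nhds (hbW z₀ hz₀).1)).frequently
  have hbs : ball c s' ⊆ closedBall c s' := ball_subset_closedBall
  -- the functions
  have hdT : ∀ᶠ n in (𝒰 : Filter ℕ), DifferentiableOn ℂ (fun z => T (Ψ n z)) (ball c s') := by
    filter_upwards [hΨ, hΨW] with n h1 h2
    intro z hz
    refine ((hWan _ (h2 z (hbs hz))).1.differentiableAt.comp z ((h1 z (hsub2 (hbs hz))).differentiableAt ?_)).differentiableWithinAt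
    exact isOpen_ball.mem_nhds (hsub2 (hbs hz))
  have hdH : ∀ᶠ n in (𝒰 : Filter ℕ), DifferentiableOn ℂ (fun z => H (Ψ n z)) (ball c s') := by
    filter_upwards [hΨ, hΨW] with n h1 h2
    intro z hz
    refine ((hWan _ (h2 z (hbs hz))).2.1.differentiableAt.comp z ((h1 z (hsub2 (hbs hz))).differentiableAt ?_)).differentiableWithinAt
    exact isOpen_ball.mem_nhds (hsub2 (hbs hz))
  have hdρ : ∀ᶠ n in (𝒰 : Filter ℕ), DifferentiableOn ℂ (fun z => ρ (T (Ψ n z))) (ball c s') := by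
    filter_upwards [hdT, hΨW] with n h1 h2
    intro z hz
    have h3 := (hWan _ (h2 z (hbs hz))).2.2.2.1
    exact (h3.differentiableAt.comp z ((h1 z hz).differentiableAt (isOpen_ball.mem_nhds hz))).differentiableWithinAt
  have hccT : CC 𝒰 (fun n z => T (Ψ n z)) (fun z => ((0 : ℂ), y z)) (ball c s') := by
    intro z₀ hz₀ z hz
    obtain ⟨h1, h2⟩ := hbW z₀ (hbs hz₀)
    have h3 := ((hWan _ h1).1.continuousAt.tendsto).comp (hcc z₀ (hsub2 (hbs hz₀)) z hz)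
    rw [h2] at h3
    exact h3
  have hccρ : CC 𝒰 (fun n z => ρ (T (Ψ n z))) (fun z => (z - c) ^ ν * v₂ z) (ball c s') := by
    intro z₀ hz₀ z hz
    obtain ⟨h1, h2⟩ := hbW z₀ (hbs hz₀)
    have h3 := hccT z₀ hz₀ z hz
    have h4 := (hWan _ h1).2.2.2.1
    rw [h2] at h4
    have h5 := h4.continuousAt.tendsto.comp h3
    rw [(hs z₀ (hsub1 (hbs hz₀))).2.2.2.2.2] at h5
    exact h5
  have hccy : CC 𝒰 (fun n z => (T (Ψ n z)).2) (fun z => (z - c) ^ k * v₁ z) (ball c s') := by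
    intro z₀ hz₀ z hz
    have h3 := (continuous_snd.tendsto _).comp (hccT z₀ hz₀ z hz)
    simp only [Function.comp_def] at h3
    rw [(hs z₀ (hsub1 (hbs hz₀))).2.2.2.2.1] at h3
    exact h3
  have hv₁d : DifferentiableOn ℂ v₁ (ball c s') := fun z hz => (hs z (hsub1 (hbs hz))).2.2.1.differentiableAt.differentiableWithinAt
  have hv₂d : DifferentiableOn ℂ v₂ (ball c s') := fun z hz => (hs z (hsub1 (hbs hz))).2.2.2.1.differentiableAt.differentiableWithinAt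
  have hLρ : Lo 𝒰 (fun n z => ρ (T (Ψ n z))) c s' ν := Lo.of_limit hs'0 hdρ hv₂d hv₂0 hccρ
  have hdy : ∀ᶠ n in (𝒰 : Filter ℕ), DifferentiableOn ℂ (fun z => (T (Ψ n z)).2) (ball c s') := hdT.mono fun n h1 => h1.snd
  have hLy : Lo 𝒰 (fun n z => (T (Ψ n z)).2) c s' k := Lo.of_limit hs'0 hdy hv₁d hv₁0 hccy
  have hLyb : Lo 𝒰 (fun n z => (T (Ψ n z)).2 ^ b * ρ (T (Ψ n z))) c s' (ν + b) := by
    rcases Nat.le_one_iff_eq_zero_or_eq_one.1 hm.le with hb | hb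
    · subst hb
      simpa using hLρ
    · subst hb
      have := (hLy.le hk1).mul hLρ
      rw [add_comm]
      simpa using this
  have hL : Lo 𝒰 (fun n z => (H (Ψ n z) ^ e * (T (Ψ n z)).1) * ((T (Ψ n z)).2 ^ b * ρ (T (Ψ n z)))) c s' (ν + b) := by
    refine hLyb.mul_hol (F₂ := fun n z => H (Ψ n z) ^ e * (T (Ψ n z)).1) ?_
    filter_upwards [hdT, hdH] with n h1 h2
    exact (h2.pow e).mul h1.fst
  have hL' : Lo 𝒰 (fun n z => Q i₀ (Ψ n z)) c s' (ν + b) := by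
    intro t ht0 ht
    filter_upwards [hL t ht0 ht, hΨW, hX] with n h1 h2 h3
    refine h1.congr fun z hz => ?_
    have h4 := h2 z (hbs hz)
    have h5 := hWX _ h4 (h3 z (hsub2 (hbs hz)))
    have h6 := (hWan _ h4).2.2.2.2
    conv_rhs => rw [h5, hc.smul, h6]
    ring
  refine (Lo.radius hs'0 hs'r.le ?_).1 hL'
  filter_upwards [hΨ] with n h1
  intro z hz
  exact ((hc.an i₀ (Ψ n z)).differentiableAt.comp z ((h1 z hz).differentiableAt (isOpen_ball.mem_nhds hz))).differentiableWithinAt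

end Pool.Agent.UC
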