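import Pool.Agent.UC.ZgA

/-!
# UC Sca: from the rescaled functions to the original ones
-/

set_option autoImplicit false

open Topology Filter Metric

noncomputable section

namespace Pool.Agent.UC

/-- a positive radius, smaller than the given ones and than the half distances of the points of a finite set -/
private theorem sca_radius (C : Finset ℂ) {δ : ℂ → ℝ} (hδ : ∀ c ∈ C, 0 < δ c) :
    ∃ ε : ℝ, 0 < ε ∧ (∀ c ∈ C, ε ≤ δ c) ∧ ∀ c ∈ C, ∀ c' ∈ C, c ≠ c' → 2 * ε ≤ dist c c' := by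
  classical
  set P : Finset (ℂ × ℂ) := (C ×ˢ C).filter fun p => p.1 ≠ p.2 with hP
  have h1 : ∃ ε₁ : ℝ, 0 < ε₁ ∧ ∀ c ∈ C, ε₁ ≤ δ c := by
    rcases C.eq_empty_or_nonempty with h | h
    · exact ⟨1, one_pos, by simp [h]⟩
    · obtain ⟨c, hc, hm⟩ := C.exists_min_image δ h
      exact ⟨δ c, hδ c hc, hm⟩
  have h2 : ∃ ε₂ : ℝ, 0 < ε₂ ∧ ∀ p ∈ P, ε₂ ≤ dist p.1 p.2 := by
    rcases P.eq_empty_or_nonempty with h | h
    · exact ⟨1, one_pos, by simp [h]⟩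
    · obtain ⟨p, hp, hm⟩ := P.exists_min_image (fun p => dist p.1 p.2) h
      exact ⟨dist p.1 p.2, dist_pos.2 (Finset.mem_filter.1 hp).2, hm⟩
  obtain ⟨ε₁, h3, h4⟩ := h1
  obtain ⟨ε₂, h5, h6⟩ := h2
  refine ⟨min ε₁ (ε₂ / 2), lt_min h3 (by positivity), fun c hc => (min_le_left _ _).trans (h4 c hc), fun c hc c' hc' hne => ?_⟩
  have h7 := h6 (c, c') (Finset.mem_filter.2 ⟨Finset.mem_product.2 ⟨hc, hc'⟩, hne⟩)
  have h8 : min ε₁ (ε₂ / 2) ≤ ε₂ / 2 := min_le_right _ _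
  simp only at h7
  linarith

private theorem sca_const {f : ℂ → ℂ} {U S : Set ℂ} {k : ℕ} {t : ℂ} (ht : t ≠ 0) (h : ZGe (fun z => t * f z) U S k) : ZGe f U S k := by
  obtain ⟨s, g, h1, h2, h3, h4⟩ := h
  refine ⟨s, fun z => t⁻¹ * g z, h1, h2, h3.const_mul _, fun z hz => ?_⟩
  have h5 := h4 z hz
  simp only at h5
  calc f z = t⁻¹ * (t * f z) := by rw [inv_mul_cancel_left₀ ht]
    _ = t⁻¹ * ((s.map fun a => z - a).prod * g z) := by rw [h5]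
    _ = (s.map fun a => z - a).prod * (t⁻¹ * g z) := by ring

private theorem sca_image_ball {b ρ : ℂ} (hρ : ρ ≠ 0) (c : ℂ) (δ : ℝ) :
    (fun ζ => b + ρ * ζ) '' ball c δ = ball (b + ρ * c) (‖ρ‖ * δ) := by
  have hρ' : 0 < ‖ρ‖ := norm_pos_iff.2 hρ
  ext z
  constructor
  · rintro ⟨ζ, hζ, rfl⟩
    rw [mem_ball_iff_norm] at hζ ⊢
    have h1 : b + ρ * ζ - (b + ρ * c) = ρ * (ζ - c) := by ring
    show ‖b + ρ * ζ - (b + ρ * c)‖ < ‖ρ‖ * δ
    rw [h1, norm_mul]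
    exact mul_lt_mul_of_pos_left hζ hρ'
  · intro hz
    rw [mem_ball_iff_norm] at hz
    refine ⟨(z - b) / ρ, ?_, ?_⟩
    · rw [mem_ball_iff_norm]
      have h1 : (z - b) / ρ - c = (z - (b + ρ * c)) / ρ := by
        field_simp
        ring
      rw [h1, norm_div, div_lt_iff₀ hρ', mul_comm δ]
      exact hz
    · show b + ρ * ((z - b) / ρ) = z
      field_simp
      ring

variable {𝒰 : Ultrafilter ℕ} {F : ℕ → ℂ → ℂ} {w : ℂ} {r : ℝ}

/-- MODULE Sca: from the rescaled functions, which have `k c` zeros near the points `c` of a finite set, to the original ones. -/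
theorem Lo.of_rescaled (hr : 0 < r) (hF : ∀ᶠ n in (𝒰 : Filter ℕ), DifferentiableOn ℂ (F n) (ball w r)) {b : ℕ → ℂ} {ρ : ℕ → ℝ} {t : ℕ → ℂ}
    (hb : Tendsto b 𝒰 (𝓝 w)) (hρ : ∀ᶠ n in (𝒰 : Filter ℕ), 0 < ρ n) (hρ0 : Tendsto ρ 𝒰 (𝓝 0)) (ht : ∀ᶠ n in (𝒰 : Filter ℕ), t n ≠ 0)
    {C : Finset ℂ} {k : ℂ → ℕ} {δ : ℂ → ℝ} (hδ : ∀ c ∈ C, 0 < δ c) (h : ∀ c ∈ C, Lo 𝒰 (fun n ζ => t n * F n (b n + ρ n * ζ)) c (δ c) (k c)) :
    Lo 𝒰 F w r (∑ c ∈ C, k c) := by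
  intro s hs hsr
  obtain ⟨ε, hε, hεδ, hεd⟩ := sca_radius C hδ
  have h1 : ∀ᶠ n in (𝒰 : Filter ℕ), ∀ c ∈ C, ZGe (fun ζ => t n * F n (b n + ρ n * ζ)) (ball c (δ c)) (ball c ε) (k c) := by
    rw [eventually_all_finset]
    exact fun c hc => h c hc ε hε (hεδ c hc)
  have h2 : ∀ᶠ n in (𝒰 : Filter ℕ), ∀ c ∈ C, ball (b n + ρ n * c) (‖(ρ n : ℂ)‖ * δ c) ⊆ ball w s := by
    rw [eventually_all_finset]
    intro c _
    have h3 : Tendsto (fun n => ‖(ρ n : ℂ)‖ * δ c + dist (b n + ρ n * c) w) 𝒰 (𝓝 0) := by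
      have h4 : Tendsto (fun n => (ρ n : ℂ)) 𝒰 (𝓝 0) := (Complex.continuous_ofReal.tendsto' 0 0 (by simp)).comp hρ0
      have h5 : Tendsto (fun n => b n + (ρ n : ℂ) * c) 𝒰 (𝓝 (w + 0 * c)) := hb.add (h4.mul_const c)
      have h6 : Tendsto (fun n => ‖(ρ n : ℂ)‖ * δ c + dist (b n + ρ n * c) w) 𝒰 (𝓝 (‖(0 : ℂ)‖ * δ c + dist (w + 0 * c) w)) :=
        (h4.norm.mul_const _).add (h5.dist tendsto_const_nhds)
      simpa using h6
    filter_upwards [h3.eventually (gt_mem_nhds hs)] with n hn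
    exact ball_subset_ball' hn.le
  filter_upwards [h1, h2, hF, hρ, ht] with n h3 h4 h5 h6 h7
  have hρn : (ρ n : ℂ) ≠ 0 := Complex.ofReal_ne_zero.2 h6.ne'
  have hsub : ∀ c ∈ C, ball (b n + ρ n * c) (‖(ρ n : ℂ)‖ * ε) ⊆ ball (b n + ρ n * c) (‖(ρ n : ℂ)‖ * δ c) := fun c hc =>
    ball_subset_ball (mul_le_mul_of_nonneg_left (hεδ c hc) (norm_nonneg _))
  have h8 : ∀ c ∈ C, ZGe (F n) (ball w r) (ball (b n + ρ n * c) (‖(ρ n : ℂ)‖ * ε)) (k c) := by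
    intro c hc
    have h9 := ZGe.affine (f := F n) hρn (sca_const h7 (h3 c hc))
    rw [sca_image_ball hρn, sca_image_ball hρn] at h9
    exact ZGe.extend isOpen_ball isOpen_ball ((h4 c hc).trans (ball_subset_ball hsr)) h5 (hsub c hc) h9
  have h9 := ZGe.union C isOpen_ball h5 (fun c hc => ((hsub c hc).trans (h4 c hc)).trans (ball_subset_ball hsr)) (by
    intro c hc c' hc' hne
    refine ball_disjoint_ball ?_
    have h10 : dist (b n + ρ n * c) (b n + ρ n * c') = ‖(ρ n : ℂ)‖ * dist c c' := by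
      rw [dist_eq_norm, dist_eq_norm, ← norm_mul]
      congr 1
      ring
    rw [h10]
    have h11 := hεd c hc c' hc' hne
    nlinarith [norm_nonneg (ρ n : ℂ)]) h8
  exact h9.mono (Set.iUnion₂_subset fun c hc => (hsub c hc).trans (h4 c hc))

end Pool.Agent.UC
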