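import Pool.Agent.UC.Child
import Pool.Agent.UC.Chr
import Pool.Agent.UC.Near
import Pool.Agent.UC.AtEx
import Pool.Agent.UC.AtInf
import Pool.Agent.UC.NonC
import Pool.Agent.UC.Sca
import Pool.Agent.H74.NB.Child
import Pool.Agent.H36.BP.Defs

/-!
# UC Core: one rescaling: the zeros of a form near the points of a finite set
-/

set_option autoImplicit false

open Topology Filter Metric Polynomial

noncomputable section

namespace Pool.Agent.UC

open Pool.Agent.H17BP (Surface IsForm IsChart Tan Pr)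
open Pool.Agent.H74.NB (CC Obj)
open Pool.Agent.H36.BP (EN)

variable {N : ℕ} {X : Set (EN N)} {κ : Type} {Q : κ → EN N → ℂ} {e m j : ℕ}

/-- a rational curve of degree `0` is constant -/
private theorem Step_const {K K' : ℂ → EN N} (h : RatC X 0 K K') (z : ℂ) : K z = K' 0 := by
  have hb : Bornology.IsBounded (Set.range K) := by
    have h1 : IsCompact (K '' closedBall 0 1) := (isCompact_closedBall _ _).image h.diff.continuous
    have h2 : IsCompact (K' '' closedBall 0 1) := (isCompact_closedBall _ _).image h.diff'.continuous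
    refine (h1.isBounded.union h2.isBounded).subset ?_
    rintro _ ⟨x, rfl⟩
    by_cases hx : ‖x‖ ≤ 1
    · exact Or.inl ⟨x, by simpa using hx, rfl⟩
    · push Not at hx
      have hx0 : x ≠ 0 := by
        intro h0
        rw [h0, norm_zero] at hx
        linarith
      refine Or.inr ⟨x⁻¹, ?_, ?_⟩
      · rw [mem_closedBall_zero_iff, norm_inv]
        exact inv_le_one_of_one_le₀ hx.le
      · have := h.rel x hx0
        rw [pow_zero, one_smul] at this
        exact this.symm
  have hc : ∀ x y, K x = K y := fun x y => h.diff.apply_eq_apply_of_bounded hb x y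
  have ht : Tendsto (fun x : ℂ => K' x) (𝓝[≠] 0) (𝓝 (K' 0)) := (h.diff'.continuous.tendsto 0).mono_left nhdsWithin_le_nhds
  have ht2 : Tendsto (fun x : ℂ => K' x) (𝓝[≠] 0) (𝓝 (K z)) := by
    refine tendsto_const_nhds.congr' ?_
    filter_upwards [self_mem_nhdsWithin] with x hx
    have hx0 : x⁻¹ ≠ 0 := inv_ne_zero hx
    have := h.rel x⁻¹ hx0
    rw [pow_zero, one_smul, inv_inv] at this
    rw [← this]
    exact hc z _
  exact tendsto_nhds_unique ht2 ht

/-- the point at infinity of a rational curve in `D` lies in `D` -/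
private theorem Step_inf (hc : Crv X Q e) {d : ℕ} {K K' : ℂ → EN N} (h : RatC X d K K') (hD : ∀ z k, Q k (K z) = 0) (k : κ) :
    ∀ z, Q k (K' z) = 0 := by
  have h1 : ∀ z : ℂ, z ≠ 0 → Q k (K' z) = 0 := by
    intro z hz
    have hz' : z⁻¹ ≠ 0 := inv_ne_zero hz
    have h2 := h.rel z⁻¹ hz'
    rw [inv_inv] at h2
    have h3 := hD z⁻¹ k
    rw [h2, hc.smul] at h3
    exact (mul_eq_zero.mp h3).resolve_left (pow_ne_zero _ (pow_ne_zero _ hz'))
  intro z
  by_cases hz : z = 0
  · subst hz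
    have hcont : ContinuousAt (fun z => Q k (K' z)) 0 :=
      ((hc.an k (K' 0)).continuousAt).comp (f := K') h.diff'.continuous.continuousAt
    have ht : Tendsto (fun z : ℂ => Q k (K' z)) (𝓝[≠] 0) (𝓝 (Q k (K' 0))) := hcont.tendsto.mono_left nhdsWithin_le_nhds
    have ht2 : Tendsto (fun z : ℂ => Q k (K' z)) (𝓝[≠] 0) (𝓝 0) := by
      refine tendsto_const_nhds.congr' ?_
      filter_upwards [self_mem_nhdsWithin] with x hx
      exact (h1 x hx).symm
    exact tendsto_nhds_unique ht ht2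
  · exact h1 z hz

private theorem Step_pr_trans {x y z : EN N} (h1 : Pr x y) (h2 : Pr y z) : Pr x z := by
  obtain ⟨c, hc, rfl⟩ := h1
  obtain ⟨c', hc', rfl⟩ := h2
  exact ⟨c * c', mul_ne_zero hc hc', by rw [smul_smul]⟩

/-- the number of roots, as a sum of multiplicities over a finite set which contains the roots -/
private theorem Step_card {p : ℂ[X]} {C : Finset ℂ} (hC : p.roots.toFinset ⊆ C) : ∑ c ∈ C, p.rootMultiplicity c = p.natDegree := by
  classical
  have h1 : p.roots.card = p.natDegree := IsAlgClosed.card_roots_eq_natDegree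
  rw [← h1, ← Multiset.toFinset_sum_count_eq]
  rw [← Finset.sum_subset hC]
  · refine Finset.sum_congr rfl fun c _ => ?_
    rw [count_roots]
  · intro c _ hc
    rw [Multiset.mem_toFinset, ← Multiset.count_eq_zero, count_roots] at hc
    exact hc

open Classical in
/-- One rescaling: the zeros of `Q i` near the points of a finite set `C` of the rescaled plane. -/
theorem step_core (hc : Crv X Q e) (hm : 1 ≤ m) (hk : Krh X Q e m j) (hr : RatIn X Q) {𝒰 : Ultrafilter ℕ} {M : ℕ}
    (ih : ∀ μ, 1 ≤ μ → μ ≤ M → UCat X Q e m j 𝒰 μ) {Φ : ℕ → ℂ → EN N} {w : ℂ} {G : ℂ → EN N} {r : ℝ} (h : Obj 𝒰 Φ w (M + 1) G r)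
    (hX : ∀ᶠ n in (𝒰 : Filter ℕ), ∀ z ∈ ball w r, Φ n z ∈ X) {b : ℕ → ℂ} {ρ : ℕ → ℝ} {p : Polynomial ℂ} {d : ℕ} {K K' : ℂ → EN N}
    (hb : Tendsto b 𝒰 (𝓝 w)) (hρ : ∀ᶠ n in (𝒰 : Filter ℕ), 0 < ρ n) (hρ0 : Tendsto ρ 𝒰 (𝓝 0)) (hpm : p.Monic) (hpd : p.natDegree + d = M + 1)
    (hroot : ∀ a, p.rootMultiplicity a ≤ M) (hRat : RatC X d K K') (hK0 : K' 0 = G w)
    (hch : ∀ a, ∃ δ : ℝ, Obj 𝒰 (fun n ζ => ((ρ n : ℂ) ^ (M + 1))⁻¹ • Φ n (b n + ρ n * ζ)) a (p.rootMultiplicity a)
        (fun ζ => (p /ₘ (Polynomial.X - Polynomial.C a) ^ p.rootMultiplicity a).eval ζ • K ζ) δ) :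
    (∀ k, Q k (G w) = 0) ∧ ∀ (i : κ) (b₀ : ℕ) (σ : ℂ × ℂ → EN N) (τ : EN N → ℂ × ℂ), Mon X Q i b₀ σ τ → Pr (σ 0) (G w) →
      ∃ (S : Finset ℂ) (k : ℂ → ℕ) (δ : ℂ → ℝ), (∀ c ∈ S, 0 < δ c) ∧
        (∀ c ∈ S, Lo 𝒰 (fun n z => (((ρ n : ℂ) ^ (M + 1))⁻¹) ^ e * Q i (Φ n (b n + ρ n * z))) c (δ c) (k c)) ∧
        m * (e * (M + 1) + (2 - b₀)) + j * (M + 1) ≤ m * ∑ c ∈ S, k c ∧
        (d = 0 → m * (e * (M + 1) + 2 * (2 - b₀)) + j * (M + 1) ≤ m * ∑ c ∈ S, k c) := by
  -- the rescaled curves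
  set Ψ : ℕ → ℂ → EN N := fun n ζ => ((ρ n : ℂ) ^ (M + 1))⁻¹ • Φ n (b n + ρ n * ζ) with hΨ
  choose δ hobj using hch
  set g : ℂ → ℂ → ℂ := fun a ζ => (p /ₘ (Polynomial.X - Polynomial.C a) ^ p.rootMultiplicity a).eval ζ with hg
  have hg0 : ∀ a, g a a ≠ 0 := fun a => eval_divByMonic_pow_rootMultiplicity_ne_zero a hpm.ne_zero
  have hgd : ∀ a, Differentiable ℂ (g a) := fun a => Polynomial.differentiable _
  have hΨX : ∀ a s, ∀ᶠ n in (𝒰 : Filter ℕ), ∀ z ∈ ball a s, Ψ n z ∈ X := by
    intro a s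
    filter_upwards [Pool.Agent.H74.NB.ev_ball h.pos hb hρ0 (‖a‖ + s), hX, hρ] with n h1 h2 h3 z hz
    have h4 : z ∈ closedBall (0 : ℂ) (‖a‖ + s) := by
      rw [mem_ball, dist_eq_norm] at hz
      rw [mem_closedBall_zero_iff]
      have : z = (z - a) + a := by ring
      rw [this]
      refine (norm_add_le _ _).trans ?_
      linarith
    exact hc.surf.smul _ (h2 _ (h1 z h4)) _ (inv_ne_zero (pow_ne_zero _ (by exact_mod_cast h3.ne')))
  -- the scaling of the forms
  set t : ℕ → ℂ := fun n => (((ρ n : ℂ) ^ (M + 1))⁻¹) ^ e with ht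
  have ht0 : ∀ᶠ n in (𝒰 : Filter ℕ), t n ≠ 0 := by
    filter_upwards [hρ] with n h3
    exact pow_ne_zero _ (inv_ne_zero (pow_ne_zero _ (by exact_mod_cast h3.ne')))
  have hQΨ : ∀ i, (fun n ζ => Q i (Ψ n ζ)) = fun n ζ => t n * Q i (Φ n (b n + ρ n * ζ)) := by
    intro i
    funext n ζ
    rw [hΨ]
    simp only
    rw [hc.smul]
  have hQd : ∀ i, ∀ᶠ n in (𝒰 : Filter ℕ), DifferentiableOn ℂ (fun z => Q i (Φ n z)) (ball w r) := by
    intro i
    filter_upwards [h.hol] with n hn
    intro z hz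
    exact ((hc.an i (Φ n z)).differentiableAt).comp_differentiableWithinAt z (hn z hz)
  -- the value at a child
  have hchild : ∀ a, 1 ≤ p.rootMultiplicity a → (∀ k, Q k (K a) = 0) := by
    intro a ha k
    have h1 := (ih _ ha (hroot a) Ψ a _ (δ a) (hobj a) (hΨX a (δ a))).1 k
    rw [hc.smul] at h1
    exact (mul_eq_zero.mp h1).resolve_left (pow_ne_zero _ (hg0 a))
  rcases Nat.eq_zero_or_pos d with hd0 | hd
  · -- the ghost case
    subst hd0
    have hKc : ∀ z, K z = G w := fun z => (Step_const hRat z).trans hK0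
    rw [add_zero] at hpd
    have hpne : p.roots.toFinset.Nonempty := by
      rw [Multiset.toFinset_nonempty, ← Multiset.card_pos, IsAlgClosed.card_roots_eq_natDegree, hpd]
      omega
    obtain ⟨a₀, ha₀⟩ := hpne
    have hmult : ∀ a ∈ p.roots.toFinset, 1 ≤ p.rootMultiplicity a := by
      intro a ha
      rw [Multiset.mem_toFinset] at ha
      rw [← count_roots]
      exact Multiset.one_le_count_iff_mem.mpr ha
    refine ⟨fun k => ?_, fun i b₀ σ τ hmon hpr => ?_⟩
    · rw [← hKc a₀]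
      exact hchild a₀ (hmult a₀ ha₀) k
    · have hex : ∀ a, ∃ k : ℕ, a ∈ p.roots.toFinset → m * (e * p.rootMultiplicity a + (2 - b₀)) + j * p.rootMultiplicity a ≤ m * k ∧
          Lo 𝒰 (fun n ζ => t n * Q i (Φ n (b n + ρ n * ζ))) a (δ a) k := by
        intro a
        by_cases ha : a ∈ p.roots.toFinset
        · obtain ⟨k, h1, h2⟩ := (ih _ (hmult a ha) (hroot a) Ψ a _ (δ a) (hobj a) (hΨX a (δ a))).2 i b₀ σ τ hmon (by
            refine Step_pr_trans hpr ?_
            refine ⟨(g a a)⁻¹, inv_ne_zero (hg0 a), ?_⟩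
            show G w = (g a a)⁻¹ • (g a a • K a)
            rw [smul_smul, inv_mul_cancel₀ (hg0 a), one_smul, hKc])
          have h3 : (fun n z => Q i (Ψ n z)) = _ := hQΨ i
          rw [h3] at h2
          exact ⟨k, fun _ => ⟨h1, h2⟩⟩
        · exact ⟨0, fun h => absurd h ha⟩
      choose k hk' using hex
      have hbig : m * (e * (M + 1) + 2 * (2 - b₀)) + j * (M + 1) ≤ m * ∑ a ∈ p.roots.toFinset, k a := by
        have h1 : ∑ a ∈ p.roots.toFinset, (m * (e * p.rootMultiplicity a + (2 - b₀)) + j * p.rootMultiplicity a) ≤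
            ∑ a ∈ p.roots.toFinset, m * k a := Finset.sum_le_sum fun a ha => (hk' a ha).1
        have h2 : ∑ a ∈ p.roots.toFinset, p.rootMultiplicity a = M + 1 := by
          rw [Step_card (Finset.Subset.refl _), hpd]
        have h3 : ∑ a ∈ p.roots.toFinset, (m * (e * p.rootMultiplicity a + (2 - b₀)) + j * p.rootMultiplicity a) =
            m * (e * (M + 1) + p.roots.toFinset.card * (2 - b₀)) + j * (M + 1) := by
          rw [← h2, Finset.sum_add_distrib, ← Finset.mul_sum, Finset.sum_add_distrib, ← Finset.mul_sum, ← Finset.mul_sum,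
            Finset.sum_const, smul_eq_mul]
        rw [h3, ← Finset.mul_sum] at h1
        refine le_trans ?_ h1
        have h4 : 2 ≤ p.roots.toFinset.card := by
          by_contra hlt
          have h5 : p.roots.toFinset.card = 1 := by
            have : 1 ≤ p.roots.toFinset.card := Finset.card_pos.mpr ⟨a₀, ha₀⟩
            omega
          obtain ⟨a₁, ha₁⟩ := Finset.card_eq_one.mp h5
          rw [ha₁, Finset.sum_singleton] at h2
          have := hroot a₁
          omega
        have h5 : 2 * (2 - b₀) ≤ p.roots.toFinset.card * (2 - b₀) := Nat.mul_le_mul_right _ h4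
        gcongr
      refine ⟨p.roots.toFinset, k, δ, fun a _ => (hobj a).pos, fun a ha => (hk' a ha).2, le_trans ?_ hbig, fun _ => hbig⟩
      have h6 : 2 - b₀ ≤ 2 * (2 - b₀) := by omega
      gcongr
  · -- the case of a rational curve of positive degree
    have hKD : ∀ z k, Q k (K z) = 0 := hr d K K' hd hRat
    refine ⟨fun k => ?_, fun i b₀ σ τ hmon hpr => ?_⟩
    · rw [← hK0]
      exact Step_inf hc hRat hKD k 0
    have hnc := nonconst hc.surf hRat hd
    have hat0 : At X Q i K' 0 b₀ 0 := at_of_mon hc (hRat.diff'.analyticAt 0) (Eventually.of_forall hRat.mem')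
      (Eventually.of_forall fun z k => Step_inf hc hRat hKD k z) hnc.2 hmon (by rw [hK0]; exact hpr)
    obtain ⟨F, bF, νF, hF, hF'⟩ := exists_at hc hRat hd hKD hat0
    have hkrh := hk d K K' hd hRat hKD i F bF νF b₀ 0 hF hF' hat0
    set b' : ℂ → ℕ := fun c => if c ∈ F then bF c else 0 with hb'
    set ν' : ℂ → ℕ := fun c => if c ∈ F then νF c else 0 with hν'
    have hat : ∀ c, At X Q i K c (b' c) (ν' c) := by
      intro c
      by_cases hcF : c ∈ F
      · simp only [hb', hν', if_pos hcF]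
        exact hF c hcF
      · simp only [hb', hν', if_neg hcF]
        exact hF' c hcF
    have hb1 : ∀ c, b' c ≤ 1 := by
      intro c
      obtain ⟨_, _, _, _, _, _, hmon', -⟩ := hat c
      exact hmon'.le
    set CC' : Finset ℂ := F ∪ p.roots.toFinset with hCC
    have hex : ∀ c, ∃ k : ℕ, m * (e * p.rootMultiplicity c + (ν' c + b' c)) + j * p.rootMultiplicity c ≤ m * k ∧
        Lo 𝒰 (fun n ζ => t n * Q i (Φ n (b n + ρ n * ζ))) c (δ c) k := by
      intro c
      have h3 : (fun n z => Q i (Ψ n z)) = _ := hQΨ i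
      rcases Nat.eq_zero_or_pos (p.rootMultiplicity c) with h0 | h1
      · have ho := hobj c
        rw [h0] at ho
        refine ⟨ν' c + b' c, ?_, ?_⟩
        · rw [h0]
          simp
        · rw [← h3]
          refine lo_near hc ho.pos ho.hol (hΨX c _) (hg0 c) (hgd c).differentiableOn hRat.diff.differentiableOn ?_ (hat c)
          refine ho.cc.congr fun z _ => ?_
          rw [pow_zero, one_smul]
          simp only [hg, h0]
      · obtain ⟨k, h4, h5⟩ := lo_child hc h1 (ih _ h1 (hroot c)) (hobj c) (hΨX c _) (hg0 c) (hgd c) hRat.diff (hat c)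
        refine ⟨k, le_trans ?_ h4, by rw [← h3]; exact h5⟩
        have h6 := hb1 c
        have h7 : e * p.rootMultiplicity c + (ν' c + b' c) ≤ e * p.rootMultiplicity c + (2 - b' c) + ν' c := by omega
        gcongr
    choose k hk' using hex
    refine ⟨CC', k, δ, fun a _ => (hobj a).pos, fun a _ => (hk' a).2, ?_, fun h0 => absurd h0 (by omega)⟩
    · have h1 : ∑ c ∈ CC', (m * (e * p.rootMultiplicity c + (ν' c + b' c)) + j * p.rootMultiplicity c) ≤ ∑ c ∈ CC', m * k c :=
        Finset.sum_le_sum fun c _ => (hk' c).1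
      have h2 : ∑ c ∈ CC', p.rootMultiplicity c = p.natDegree := Step_card Finset.subset_union_right
      have h3 : ∑ c ∈ CC', (ν' c + b' c) = ∑ c ∈ F, (νF c + bF c) := by
        rw [← Finset.sum_subset (s₁ := F) (s₂ := CC') Finset.subset_union_left]
        · refine Finset.sum_congr rfl fun c hcF => ?_
          simp only [hb', hν', if_pos hcF]
        · intro c _ hcF
          simp [hb', hν', hcF]
      rw [Finset.sum_add_distrib, ← Finset.mul_sum, Finset.sum_add_distrib, ← Finset.mul_sum, ← Finset.mul_sum, h2, h3,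
        ← Finset.mul_sum] at h1
      refine le_trans ?_ h1
      have h4 := hmon.le
      rw [zero_add] at hkrh
      set S : ℕ := ∑ c ∈ F, (νF c + bF c) with hS
      rw [← hpd]
      zify [h4, (by omega : b₀ ≤ 2)] at hkrh ⊢
      nlinarith [hkrh]


end Pool.Agent.UC
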