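import Pool.Agent.UC.Defs
import Pool.Agent.UC.Ch
import Pool.Agent.UC.NonC
import Pool.Agent.SE.NullPoly

/-!
# UC Cov: a nonpositively curved pseudo-length vanishes on the tangent vectors of a curve which is a union of rational curves
-/

set_option autoImplicit false

open Topology Filter Metric

namespace Pool.Agent.UC

open Pool.Agent.H17BP (Surface IsForm IsChart Pr)
open Pool.Agent.H36.BP (EN)
open Pool.Agent.H14.PP (IsCone Tan CurveAt)
open Pool.Agent.H22.W (PseudoLength tan_entire tan_curve tan_mem)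
open Pool.Agent.SE (tan_smul_right null_rat)

variable {N : ℕ} {X : Set (EN N)}

/-- an open cone with coordinates -/
private structure Cov_Co (X : Set (EN N)) (σ : ℂ × ℂ → EN N) (U : Set (ℂ × ℂ)) (W : Set (EN N)) (T : EN N → ℂ × ℂ) (H : EN N → ℂ) : Prop where
  openU : IsOpen U
  an : ∀ p ∈ U, AnalyticAt ℂ σ p
  mem : ∀ p ∈ U, σ p ∈ X
  openW : IsOpen W
  cone : ∀ y ∈ W, ∀ c : ℂ, c ≠ 0 → c • y ∈ W ∧ T (c • y) = T y
  anT : ∀ y ∈ W, AnalyticAt ℂ T y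
  anH : ∀ y ∈ W, AnalyticAt ℂ H y
  ne : ∀ y ∈ W, H y ≠ 0
  mapsU : ∀ y ∈ W, T y ∈ U
  rep : ∀ y ∈ W, y ∈ X → y = H y • σ (T y)

/-- the length of the coordinate vector along the second axis -/
private noncomputable def Cov_phi (n : PseudoLength X) (σ : ℂ × ℂ → EN N) (w : ℂ) : ℝ :=
  n.toFun (σ (0, w)) (deriv (fun w => σ (0, w)) w)

private theorem Cov_curve {σ : ℂ × ℂ → EN N} {U : Set (ℂ × ℂ)} {W : Set (EN N)} {T : EN N → ℂ × ℂ} {H : EN N → ℂ}
    (hc : Cov_Co X σ U W T H) {w : ℂ} (hw : ((0 : ℂ), w) ∈ U) : CurveAt X (fun w => σ (0, w)) w := by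
  have h1 : Tendsto (fun w : ℂ => ((0 : ℂ), w)) (𝓝 w) (𝓝 (0, w)) := by
    have h2 : Continuous fun w : ℂ => ((0 : ℂ), w) := by fun_prop
    exact h2.tendsto w
  refine ⟨?_, ?_⟩
  · have h2 : AnalyticAt ℂ (fun w : ℂ => ((0 : ℂ), w)) w := analyticAt_const.prod analyticAt_id
    exact (hc.an _ hw).comp h2
  · filter_upwards [h1.eventually (hc.openU.mem_nhds hw)] with v hv
    exact hc.mem _ hv

private theorem Cov_phi_cont (n : PseudoLength X) {σ : ℂ × ℂ → EN N} {U : Set (ℂ × ℂ)} {W : Set (EN N)} {T : EN N → ℂ × ℂ} {H : EN N → ℂ}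
    (hc : Cov_Co X σ U W T H) {w : ℂ} (hw : ((0 : ℂ), w) ∈ U) : ContinuousAt (Cov_phi n σ) w := by
  have h1 : ContinuousAt (fun w : ℂ => ((0 : ℂ), w)) w := by
    have h2 : Continuous fun w : ℂ => ((0 : ℂ), w) := by fun_prop
    exact h2.continuousAt
  have h3 : ∀ᶠ v in 𝓝 w, ((0 : ℂ), v) ∈ U := h1.eventually (hc.openU.mem_nhds hw)
  have h4 := (Cov_curve hc hw).1
  exact n.tendsto (h3.mono fun v hv => tan_curve (Cov_curve hc hv)) (tan_curve (Cov_curve hc hw)) h4.continuousAt.tendsto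
    h4.deriv.continuousAt.tendsto

/-- a curve which in the coordinates is on the second axis -/
private theorem Cov_len (hX : IsCone X) (n : PseudoLength X) {σ : ℂ × ℂ → EN N} {U : Set (ℂ × ℂ)} {W : Set (EN N)} {T : EN N → ℂ × ℂ}
    {H : EN N → ℂ} (hc : Cov_Co X σ U W T H) {F : ℂ → EN N} {z₀ : ℂ} (hF : AnalyticAt ℂ F z₀) (hFX : ∀ᶠ z in 𝓝 z₀, F z ∈ X)
    (hFW : F z₀ ∈ W) (h1 : ∀ᶠ z in 𝓝 z₀, (T (F z)).1 = 0) :
    n.toFun (F z₀) (deriv F z₀) = ‖deriv (fun z => (T (F z)).2) z₀‖ * Cov_phi n σ (T (F z₀)).2 := by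
  set y : ℂ → ℂ := fun z => (T (F z)).2 with hy
  set a : ℂ → ℂ := fun z => H (F z) with ha
  have hTF : AnalyticAt ℂ (fun z => T (F z)) z₀ := (hc.anT _ hFW).comp hF
  have hya : AnalyticAt ℂ y z₀ := (analyticAt_snd).comp hTF
  have haa : AnalyticAt ℂ a z₀ := (hc.anH _ hFW).comp hF
  have hU0 : ((0 : ℂ), y z₀) ∈ U := by
    have h2 := hc.mapsU _ hFW
    have h3 : T (F z₀) = (0, y z₀) := Prod.ext h1.self_of_nhds rfl
    rw [h3] at h2
    exact h2
  have hrep : F =ᶠ[𝓝 z₀] fun z => a z • σ (0, y z) := by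
    filter_upwards [hFX, h1, hF.continuousAt.eventually (hc.openW.mem_nhds hFW)] with z hz1 hz2 hz3
    have h3 : T (F z) = (0, y z) := Prod.ext hz2 rfl
    have h4 := hc.rep _ hz3 hz1
    rw [h3] at h4
    exact h4
  have hcu := Cov_curve hc hU0
  have hd : HasDerivAt (fun z => a z • σ (0, y z)) (a z₀ • (deriv y z₀ • deriv (fun w => σ (0, w)) (y z₀)) + deriv a z₀ • σ (0, y z₀)) z₀ := by
    have h5 : HasDerivAt (fun z => σ (0, y z)) (deriv y z₀ • deriv (fun w => σ (0, w)) (y z₀)) z₀ :=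
      hcu.1.differentiableAt.hasDerivAt.scomp z₀ hya.differentiableAt.hasDerivAt
    exact haa.differentiableAt.hasDerivAt.smul h5
  have ht : Tan X (σ (0, y z₀)) (deriv (fun w => σ (0, w)) (y z₀)) := tan_curve hcu
  have hF0 : F z₀ = a z₀ • σ (0, y z₀) := hrep.self_of_nhds
  have hF1 : deriv F z₀ = a z₀ • (deriv y z₀ • deriv (fun w => σ (0, w)) (y z₀)) + deriv a z₀ • σ (0, y z₀) := by
    rw [hrep.deriv_eq, hd.deriv]
  have hF2 : n.toFun (F z₀) (deriv F z₀) = n.toFun (a z₀ • σ (0, y z₀))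
      (a z₀ • (deriv y z₀ • deriv (fun w => σ (0, w)) (y z₀)) + deriv a z₀ • σ (0, y z₀)) := by
    rw [hF1]
    exact congrArg (fun x => n.toFun x _) hF0
  rw [hF2, n.inv hX (tan_smul_right ht _) (hc.ne _ hFW), n.smul _ _ ht]
  rfl

private theorem Cov_comp_mem {σ : ℂ × ℂ → EN N} {κ : Type} {Q : κ → EN N → ℂ} {e : ℕ} (hQ : ∀ k (c : ℂ) x, Q k (c • x) = c ^ e * Q k x)
    {y : EN N} {a : ℂ} {p : ℂ × ℂ} (ha : a ≠ 0) (h : y = a • σ p) (hy : ∀ k, Q k y = 0) : ∀ k, Q k (σ p) = 0 := by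
  intro k
  have h1 := hy k
  rw [h, hQ] at h1
  exact (mul_eq_zero.1 h1).resolve_left (pow_ne_zero _ ha)

/-- the length of the second coordinate vector at a point of a rational curve -/
private theorem Cov_zero (hX : IsCone X) (n : PseudoLength X) {κ : Type} {Q : κ → EN N → ℂ} {e : ℕ}
    (hQ : ∀ k (c : ℂ) x, Q k (c • x) = c ^ e * Q k x) {σ : ℂ × ℂ → EN N} {U : Set (ℂ × ℂ)} {W : Set (EN N)} {T : EN N → ℂ × ℂ}
    {H : EN N → ℂ} (hc : Cov_Co X σ U W T H) (hbr : ∀ p ∈ U, (∀ k, Q k (σ p) = 0) → p.1 = 0 ∨ p.2 = 0)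
    {d : ℕ} {K K' : ℂ → EN N} (hK : RatC X d K K') (hKD : ∀ z k, Q k (K z) = 0) {c w : ℂ} (hKc : K c ∈ W)
    (hnc : ¬ ∀ᶠ z in 𝓝 c, Pr (K z) (K c)) (hw : w ≠ 0) (hT : T (K c) = (0, w)) : Cov_phi n σ w = 0 := by
  set η : ℂ → ℂ := fun z => (T (K z)).2 with hη
  have hKa : AnalyticAt ℂ K c := hK.diff.analyticAt c
  have hTK : AnalyticAt ℂ (fun z => T (K z)) c := (hc.anT _ hKc).comp hKa
  have hηa : AnalyticAt ℂ η c := (analyticAt_snd).comp hTK
  have hηc : η c = w := by rw [hη]; simp only [hT]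
  have hη0 : ∀ᶠ z in 𝓝 c, η z ≠ 0 := hηa.continuousAt.eventually_ne (by rw [hηc]; exact hw)
  have hW : ∀ᶠ z in 𝓝 c, K z ∈ W := hKa.continuousAt.eventually (hc.openW.mem_nhds hKc)
  have h1 : ∀ᶠ z in 𝓝 c, (T (K z)).1 = 0 := by
    filter_upwards [hη0, hW] with z hz1 hz2
    have h2 := Cov_comp_mem hQ (hc.ne _ hz2) (hc.rep _ hz2 (hK.mem z)) (hKD z)
    exact (hbr _ (hc.mapsU _ hz2) h2).resolve_right hz1
  have hlen : ∀ᶠ z in 𝓝 c, ‖deriv η z‖ * Cov_phi n σ (η z) = 0 := by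
    filter_upwards [h1.eventually_nhds, hW] with z hz1 hz2
    have h3 := Cov_len hX n hc (hK.diff.analyticAt z) (Eventually.of_forall hK.mem) hz2 hz1
    rw [null_rat hX n hK.diff hK.diff' hK.mem hK.mem' hK.rel z] at h3
    exact h3.symm
  have hd : ∀ᶠ z in 𝓝[≠] c, deriv η z ≠ 0 := by
    rcases hηa.deriv.eventually_eq_zero_or_eventually_ne_zero with h4 | h4
    · exfalso
      refine hnc ?_
      have h5 : ∀ᶠ z in 𝓝 c, η z = η c := by
        obtain ⟨r, hr, h6⟩ := Metric.eventually_nhds_iff_ball.1 (h4.and hηa.eventually_analyticAt)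
        filter_upwards [ball_mem_nhds c hr] with z hz
        refine (convex_ball c r).is_const_of_fderivWithin_eq_zero (𝕜 := ℂ) (f := η) ?_ ?_ hz (mem_ball_self hr)
        · exact fun x hx => (h6 x hx).2.differentiableAt.differentiableWithinAt
        · intro x hx
          rw [fderivWithin_of_isOpen isOpen_ball hx]
          ext
          simpa using (h6 x hx).1
      filter_upwards [h5, h1, hW] with z hz1 hz2 hz3
      have h7 : T (K z) = T (K c) := by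
        rw [hT]
        refine Prod.ext hz2 ?_
        rw [← hηc, ← hz1]
      have h8 := hc.rep _ hz3 (hK.mem z)
      have h9 := hc.rep _ hKc (hK.mem c)
      rw [h7] at h8
      refine ⟨H (K z) * (H (K c))⁻¹, mul_ne_zero (hc.ne _ hz3) (inv_ne_zero (hc.ne _ hKc)), ?_⟩
      have h10 : σ (T (K c)) = (H (K c))⁻¹ • K c := by
        rw [eq_inv_smul_iff₀ (hc.ne _ hKc)]
        exact h9.symm
      rw [h10] at h8
      rw [← smul_smul]
      exact h8
    · exact h4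
  have hφ : ∀ᶠ z in 𝓝[≠] c, Cov_phi n σ (η z) = 0 := by
    filter_upwards [hd, hlen.filter_mono nhdsWithin_le_nhds] with z hz1 hz2
    exact (mul_eq_zero.1 hz2).resolve_left (norm_ne_zero_iff.2 hz1)
  have hU0 : ((0 : ℂ), w) ∈ U := by
    have h2 := hc.mapsU _ hKc
    rw [hT] at h2
    exact h2
  have hlim : Tendsto (fun z => Cov_phi n σ (η z)) (𝓝[≠] c) (𝓝 (Cov_phi n σ w)) := by
    have h6 : Tendsto η (𝓝[≠] c) (𝓝 w) := by
      rw [← hηc]
      exact hηa.continuousAt.tendsto.mono_left nhdsWithin_le_nhds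
    exact (Cov_phi_cont n hc hU0).tendsto.comp h6
  exact tendsto_nhds_unique hlim (tendsto_const_nhds.congr' (hφ.mono fun z hz => hz.symm))

/-- a disc on the second axis -/
private theorem Cov_axis (hS : Surface X) (hX : IsCone X) (n : PseudoLength X) {κ : Type} {Q : κ → EN N → ℂ} {e : ℕ}
    (hQ : ∀ k (c : ℂ) x, Q k (c • x) = c ^ e * Q k x) {σ : ℂ × ℂ → EN N} {U : Set (ℂ × ℂ)} {W : Set (EN N)} {T : EN N → ℂ × ℂ}
    {H : EN N → ℂ} (hc : Cov_Co X σ U W T H) (hbr : ∀ p ∈ U, (∀ k, Q k (σ p) = 0) → p.1 = 0 ∨ p.2 = 0)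
    {E : Finset (EN N)} (hcov : ∀ x ∈ X, (∀ k, Q k x = 0) → (∃ y ∈ E, Pr x y) ∨ ∃ (d : ℕ) (K K' : ℂ → EN N) (c : ℂ), 1 ≤ d ∧
      RatC X d K K' ∧ (∀ z k, Q k (K z) = 0) ∧ Pr x (K c))
    {γ : ℂ → EN N} (hγ : AnalyticAt ℂ γ 0) (hγX : ∀ᶠ z in 𝓝 (0 : ℂ), γ z ∈ X ∧ ∀ k, Q k (γ z) = 0) (hγW : γ 0 ∈ W)
    (hT0 : T (γ 0) = 0) (h1 : ∀ᶠ z in 𝓝 (0 : ℂ), (T (γ z)).1 = 0) : n.toFun (γ 0) (deriv γ 0) = 0 := by
  set y : ℂ → ℂ := fun z => (T (γ z)).2 with hy
  have hTγ : AnalyticAt ℂ (fun z => T (γ z)) 0 := (hc.anT _ hγW).comp hγ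
  have hya : AnalyticAt ℂ y 0 := (analyticAt_snd).comp hTγ
  have hlen := Cov_len hX n hc hγ (hγX.mono fun z hz => hz.1) hγW h1
  rcases hya.eventually_eq_zero_or_eventually_ne_zero with h2 | h2
  · have h3 : deriv y 0 = 0 := by
      have h4 : y =ᶠ[𝓝 0] fun _ => 0 := h2
      rw [h4.deriv_eq]
      simp
    rw [hlen]
    change ‖deriv y 0‖ * _ = 0
    rw [h3, norm_zero, zero_mul]
  · have hU0 : ((0 : ℂ), (0 : ℂ)) ∈ U := by
      have h3 := hc.mapsU _ hγW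
      rw [hT0] at h3
      exact h3
    have hy0 : y 0 = 0 := by rw [hy]; simp only [hT0]; rfl
    have hW : ∀ᶠ z in 𝓝 (0 : ℂ), γ z ∈ W := hγ.continuousAt.eventually (hc.openW.mem_nhds hγW)
    have hE : ∀ᶠ z in 𝓝[≠] (0 : ℂ), ∀ v ∈ E, y z ≠ (T v).2 := by
      rw [Filter.eventually_all_finset]
      intro v _
      by_cases hv : (T v).2 = 0
      · rw [hv]
        exact h2
      · have h3 : y 0 ≠ (T v).2 := by rw [hy0]; exact Ne.symm hv
        exact (hya.continuousAt.eventually_ne h3).filter_mono nhdsWithin_le_nhds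
    have hφ : ∀ᶠ z in 𝓝[≠] (0 : ℂ), Cov_phi n σ (y z) = 0 := by
      filter_upwards [h2, hγX.filter_mono nhdsWithin_le_nhds, h1.filter_mono nhdsWithin_le_nhds, hW.filter_mono nhdsWithin_le_nhds, hE]
        with z hz1 hz2 hz3 hz4 hz5
      rcases hcov _ hz2.1 hz2.2 with ⟨v, hv, a, ha, hp⟩ | ⟨d, K, K', c, hd, hK, hKD, a, ha, hp⟩
      · exfalso
        refine hz5 v hv ?_
        have h5 : v = a⁻¹ • γ z := by rw [hp, smul_smul, inv_mul_cancel₀ ha, one_smul]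
        have h6 := (hc.cone _ hz4 a⁻¹ (inv_ne_zero ha)).2
        rw [← h5] at h6
        rw [h6]
      have h5 : K c = a⁻¹ • γ z := by rw [hp, smul_smul, inv_mul_cancel₀ ha, one_smul]
      have h6 := hc.cone _ hz4 a⁻¹ (inv_ne_zero ha)
      rw [← h5] at h6
      have h7 : T (K c) = (0, y z) := by
        rw [h6.2]
        exact Prod.ext hz3 rfl
      exact Cov_zero hX n hQ hc hbr hK hKD h6.1 ((nonconst hS hK hd).1 c) hz1 h7
    have hlim : Tendsto (fun z => Cov_phi n σ (y z)) (𝓝[≠] 0) (𝓝 (Cov_phi n σ 0)) := by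
      have h6 : Tendsto y (𝓝[≠] 0) (𝓝 0) := by
        have := hya.continuousAt.tendsto.mono_left (nhdsWithin_le_nhds (s := {(0 : ℂ)}ᶜ))
        rwa [hy0] at this
      exact (Cov_phi_cont n hc hU0).tendsto.comp h6
    have h8 : Cov_phi n σ 0 = 0 := tendsto_nhds_unique hlim (tendsto_const_nhds.congr' (hφ.mono fun z hz => hz.symm))
    rw [hlen]
    change _ * Cov_phi n σ (y 0) = 0
    rw [hy0, h8, mul_zero]

/-- MODULE Cov: A nonpositively curved pseudo-length vanishes on the tangent vectors of a curve `D` with at most nodes such that through every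
point of `D`, except finitely many points, there is a rational curve contained in `D`. -/
theorem hn_of_cover (hX : IsCone X) {κ : Type} {Q : κ → EN N → ℂ} {e : ℕ} (hc : Crv X Q e) (n : PseudoLength X) {E : Finset (EN N)}
    (hcov : ∀ x ∈ X, (∀ k, Q k x = 0) → (∃ y ∈ E, Pr x y) ∨ ∃ (d : ℕ) (K K' : ℂ → EN N) (c : ℂ), 1 ≤ d ∧
      RatC X d K K' ∧ (∀ z k, Q k (K z) = 0) ∧ Pr x (K c)) :
    ∀ γ : ℂ → EN N, AnalyticAt ℂ γ 0 → (∀ᶠ z in 𝓝 (0 : ℂ), γ z ∈ X ∧ ∀ k, Q k (γ z) = 0) → n.toFun (γ 0) (deriv γ 0) = 0 := by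
  intro γ hγ hγX
  obtain ⟨i, b, σ, τ, hσ0, hm⟩ := hc.loc _ hγX.self_of_nhds.1 hγX.self_of_nhds.2
  obtain ⟨r, hr, hr0, hQr⟩ := hm.unit
  obtain ⟨U, hU1, hUo, hU0⟩ := _root_.eventually_nhds_iff.1 ((hm.chart.σ_an.eventually_analyticAt.and hm.chart.σ_mem).and
    (hQr.and (hr.continuousAt.eventually_ne hr0)))
  obtain ⟨W, T, H, hWo, hW0, hT0, hcone, hW, hrep⟩ := exists_cone hc.surf hm.chart (hUo.mem_nhds hU0)
  rw [hσ0] at hW0 hT0
  have hC : Cov_Co X σ U W T H := ⟨hUo, fun p hp => (hU1 p hp).1.1, fun p hp => (hU1 p hp).1.2, hWo,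
    fun y hy c hc => ⟨(hcone y hy c hc).1, (hcone y hy c hc).2.1⟩, fun y hy => (hW y hy).1, fun y hy => (hW y hy).2.1,
    fun y hy => (hW y hy).2.2.1, fun y hy => (hW y hy).2.2.2, hrep⟩
  have hbr : ∀ p ∈ U, (∀ k, Q k (σ p) = 0) → p.1 = 0 ∨ p.2 = 0 := by
    intro p hp hk
    have h1 := hk i
    rw [(hU1 p hp).2.1] at h1
    rcases mul_eq_zero.1 ((mul_eq_zero.1 h1).resolve_right (hU1 p hp).2.2) with h2 | h2
    · exact Or.inl h2
    · exact Or.inr (eq_zero_of_pow_eq_zero h2)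
  have hTγ : AnalyticAt ℂ (fun z => T (γ z)) 0 := (hC.anT _ hW0).comp hγ
  have h1a : AnalyticAt ℂ (fun z => (T (γ z)).1) 0 := (analyticAt_fst).comp hTγ
  have hWγ : ∀ᶠ z in 𝓝 (0 : ℂ), γ z ∈ W := hγ.continuousAt.eventually (hWo.mem_nhds hW0)
  have hp : ∀ᶠ z in 𝓝 (0 : ℂ), (T (γ z)).1 = 0 ∨ (T (γ z)).2 = 0 := by
    filter_upwards [hγX, hWγ] with z hz1 hz2
    exact hbr _ (hC.mapsU _ hz2) (Cov_comp_mem hc.smul (hC.ne _ hz2) (hrep _ hz2 hz1.1) hz1.2)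
  rcases h1a.eventually_eq_zero_or_eventually_ne_zero with h1 | h1
  · exact Cov_axis hc.surf hX n hc.smul hC hbr hcov hγ hγX hW0 hT0 h1
  · have h2 : ∀ᶠ z in 𝓝 (0 : ℂ), (T (γ z)).2 = 0 := by
      have h3 : ∀ᶠ z in 𝓝[≠] (0 : ℂ), (T (γ z)).2 = 0 := by
        filter_upwards [h1, hp.filter_mono nhdsWithin_le_nhds] with z hz1 hz2
        exact hz2.resolve_left hz1
      rw [eventually_nhdsWithin_iff] at h3
      filter_upwards [h3] with z hz
      by_cases hz0 : z = 0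
      · rw [hz0, hT0]
        rfl
      · exact hz hz0
    have hsw : ContDiff ℂ 0 (fun p : ℂ × ℂ => (p.2, p.1)) := by fun_prop
    have hswa : ∀ p : ℂ × ℂ, AnalyticAt ℂ (fun p : ℂ × ℂ => (p.2, p.1)) p := fun p => analyticAt_snd.prod analyticAt_fst
    have hC' : Cov_Co X (fun p => σ (p.2, p.1)) ((fun p : ℂ × ℂ => (p.2, p.1)) ⁻¹' U) W (fun y => ((T y).2, (T y).1)) H := by
      refine ⟨hUo.preimage hsw.continuous, ?_, ?_, hWo, ?_, ?_, hC.anH, hC.ne, ?_, ?_⟩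
      · intro p hp
        exact AnalyticAt.comp (g := σ) (f := fun p : ℂ × ℂ => (p.2, p.1)) (hC.an (p.2, p.1) hp) (hswa p)
      · intro p hp
        exact hC.mem (p.2, p.1) hp
      · intro y hy c hc0
        refine ⟨(hC.cone y hy c hc0).1, ?_⟩
        rw [(hC.cone y hy c hc0).2]
      · intro y hy
        exact (analyticAt_snd.comp (hC.anT y hy)).prod (analyticAt_fst.comp (hC.anT y hy))
      · intro y hy
        exact hC.mapsU y hy
      · intro y hy hyX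
        exact hC.rep y hy hyX
    refine Cov_axis hc.surf hX n hc.smul hC' (fun p hp hk => (hbr (p.2, p.1) hp hk).symm) hcov hγ hγX hW0 ?_ h2
    simp only [hT0]
    rfl

end Pool.Agent.UC
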