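import Pool.Agent.UC.FinS

/-!
# UC FinN: a curve of positive length crosses both branches of `D` at a node transversally
-/

set_option autoImplicit false

open Topology Filter Metric

noncomputable section

namespace Pool.Agent.UC

open Pool.Agent.H17BP (Surface IsForm IsChart Pr)
open Pool.Agent.H36.BP (EN)
open Pool.Agent.H22.W (PseudoLength)

variable {N : ℕ} {X : Set (EN N)} {κ : Type} {Q : κ → EN N → ℂ} {e : ℕ}

/-- MODULE FinN: at a node both coordinates have a simple zero. -/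
theorem coord_one (hc : Crv X Q e) {n : PseudoLength X} (hn : ∀ γ : ℂ → EN N, AnalyticAt ℂ γ 0 →
      (∀ᶠ z in 𝓝 (0 : ℂ), γ z ∈ X ∧ ∀ k, Q k (γ z) = 0) → n.toFun (γ 0) (deriv γ 0) = 0) {H : ℂ → EN N} {u : ℂ → ℂ} (hH : AnalyticAt ℂ H 0)
    (hHX : ∀ᶠ z in 𝓝 (0 : ℂ), H z ∈ X) (hu : AnalyticAt ℂ u 0) (hu0 : u 0 ≠ 0) (hn1 : n.toFun (H 0) (deriv H 0) ≠ 0) {i : κ}
    {σ : ℂ × ℂ → EN N} {τ : EN N → ℂ × ℂ} (hσ : Mon X Q i 1 σ τ) (hp : Pr (σ 0) (H 0)) :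
    ∃ x y u' : ℂ → ℂ, AnalyticAt ℂ x 0 ∧ AnalyticAt ℂ y 0 ∧ AnalyticAt ℂ u' 0 ∧ u' 0 ≠ 0 ∧
      (∀ᶠ z in 𝓝 (0 : ℂ), u z • H z = u' z • σ (x z, y z)) ∧ x 0 = 0 ∧ y 0 = 0 ∧ deriv x 0 ≠ 0 ∧ deriv y 0 ≠ 0 := by
  have hG : AnalyticAt ℂ (fun z => u z • H z) 0 := hu.smul hH
  have hGX : ∀ᶠ z in 𝓝 (0 : ℂ), u z • H z ∈ X := by
    filter_upwards [hHX, hu.continuousAt.eventually_ne hu0] with z h1 h2
    exact hc.surf.smul _ h1 _ h2
  have hp' : Pr (σ 0) (u 0 • H 0) := by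
    obtain ⟨c, hc0, hc1⟩ := hp
    refine ⟨c * (u 0)⁻¹, mul_ne_zero hc0 (inv_ne_zero hu0), ?_⟩
    rw [smul_smul, mul_assoc, inv_mul_cancel₀ hu0, mul_one]
    exact hc1
  obtain ⟨x, y, u', hx, hy, hu', hu'0, he, hx0, hy0⟩ := chart_curve hc.surf hσ.chart hG hGX hp'
  refine ⟨x, y, u', hx, hy, hu', hu'0, he, hx0, hy0, ?_, ?_⟩
  · intro hd
    refine hn1 (null_of_deriv hc hn hH hHX hu hu0 hσ.chart hx hy hu' hu'0 hx0 hy0 he (x₁ := fun _ => 0) (y₁ := y) analyticAt_const hy rfl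
      hy0 ?_ rfl fun k => ?_)
    · rw [hd]
      exact deriv_const 0 0
    · obtain ⟨r, -, hr⟩ := hσ.dvd k
      have hxy : Tendsto (fun z => ((0 : ℂ), y z)) (𝓝 (0 : ℂ)) (𝓝 (0 : ℂ × ℂ)) := by
        have h1 := (tendsto_const_nhds (x := (0 : ℂ)) (f := 𝓝 (0 : ℂ))).prodMk_nhds hy.continuousAt.tendsto
        rw [hy0] at h1
        exact h1
      filter_upwards [hxy.eventually hr] with z hz
      rw [hz]
      simp
  · intro hd
    refine hn1 (null_of_deriv hc hn hH hHX hu hu0 hσ.chart hx hy hu' hu'0 hx0 hy0 he (x₁ := x) (y₁ := fun _ => 0) hx analyticAt_const hx0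
      rfl rfl ?_ fun k => ?_)
    · rw [hd]
      exact deriv_const 0 0
    · obtain ⟨r, -, hr⟩ := hσ.dvd k
      have hxy : Tendsto (fun z => (x z, (0 : ℂ))) (𝓝 (0 : ℂ)) (𝓝 (0 : ℂ × ℂ)) := by
        have h1 := (hx.continuousAt.tendsto).prodMk_nhds (tendsto_const_nhds (x := (0 : ℂ)) (f := 𝓝 (0 : ℂ)))
        rw [hx0] at h1
        exact h1
      filter_upwards [hxy.eventually hr] with z hz
      rw [hz]
      simp

end Pool.Agent.UC
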