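import Mathlib.Analysis.Complex.RemovableSingularity
import Mathlib.Analysis.Complex.Liouville

/-!
# UC Liou: meromorphic functions on the plane with bounded pole orders and given decay at infinity
-/

set_option autoImplicit false

open Topology Filter Metric

namespace Pool.Agent.UC

private theorem liou_div (F : Finset ℂ) : ∀ {H : ℂ → ℂ}, Differentiable ℂ H → (∀ c ∈ F, H c = 0) →
    ∃ K : ℂ → ℂ, Differentiable ℂ K ∧ ∀ z, H z = (∏ c ∈ F, (z - c)) * K z := by
  induction F using Finset.induction_on with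
  | empty => intro H hH _; exact ⟨H, hH, by simp⟩
  | insert a F ha ih =>
    intro H hH h0
    have hd : Differentiable ℂ (dslope H a) := by
      rw [← differentiableOn_univ]
      exact (Complex.differentiableOn_dslope univ_mem).2 hH.differentiableOn
    have h1 : ∀ z, H z = (z - a) * dslope H a z := by
      intro z
      have h := sub_smul_dslope H a z
      rw [h0 a (by simp), sub_zero, smul_eq_mul] at h
      exact h.symm
    obtain ⟨K, hK, hK'⟩ := ih hd (by
      intro c hc
      have h2 := h1 c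
      rw [h0 c (by simp [hc])] at h2
      have h3 : c - a ≠ 0 := by
        intro h
        rw [sub_eq_zero] at h
        subst h
        exact ha hc
      rcases mul_eq_zero.1 h2.symm with h4 | h4
      · exact absurd h4 h3
      · exact h4)
    exact ⟨K, hK, fun z => by rw [h1, hK', Finset.prod_insert ha, mul_assoc]⟩

/-- MODULE Liou: a meromorphic function on the plane with bounded pole orders and given decay at infinity. -/
theorem liou {G : ℂ → ℂ} {F : Finset ℂ} {p : ℂ → ℕ} {A B : ℕ} (hd : ∀ c ∉ F, DifferentiableAt ℂ G c) (hnz : ∃ z ∉ F, G z ≠ 0)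
    (hF : ∀ c ∈ F, ∃ C : ℝ, ∀ᶠ z in 𝓝[≠] c, ‖(z - c) ^ p c * G z‖ ≤ C) (hi : ∃ C R : ℝ, ∀ z : ℂ, R ≤ ‖z‖ → ‖z‖ ^ A * ‖G z‖ ≤ C * ‖z‖ ^ B) :
    A ≤ ∑ c ∈ F, p c + B := by
  by_contra hA
  push Not at hA
  let H : ℂ → ℂ := fun z => (∏ c ∈ F, (z - c) ^ (p c + 1)) * G z
  have hH0 : ∀ c ∈ F, H c = 0 := by
    intro c hc
    show (∏ d ∈ F, (c - d) ^ (p d + 1)) * G c = 0
    rw [Finset.prod_eq_zero hc (by simp), zero_mul]
  have hdiff : Differentiable ℂ H := by
    intro c
    by_cases hc : c ∈ F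
    · refine (Complex.analyticAt_of_differentiable_on_punctured_nhds_of_continuousAt ?_ ?_).differentiableAt
      · have h1 : ∀ᶠ z in 𝓝[≠] c, z ∉ F := by
          have h2 : ((F.erase c : Finset ℂ) : Set ℂ)ᶜ ∈ 𝓝 c :=
            (F.erase c).finite_toSet.isClosed.isOpen_compl.mem_nhds (by simp)
          filter_upwards [nhdsWithin_le_nhds h2, self_mem_nhdsWithin] with z hz hz' hzF
          exact hz (by
            rw [Finset.mem_coe, Finset.mem_erase]
            exact ⟨hz', hzF⟩)
        filter_upwards [h1] with z hz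
        exact DifferentiableAt.mul (by fun_prop) (hd z hz)
      · rw [continuousAt_iff_punctured_nhds, hH0 c hc]
        obtain ⟨C, hC⟩ := hF c hc
        rw [tendsto_zero_iff_norm_tendsto_zero]
        have h3 : Tendsto (fun z : ℂ => ‖(z - c) * ∏ d ∈ F.erase c, (z - d) ^ (p d + 1)‖ * C) (𝓝[≠] c) (𝓝 0) := by
          have h4 : ContinuousAt (fun z : ℂ => ‖(z - c) * ∏ d ∈ F.erase c, (z - d) ^ (p d + 1)‖ * C) c := by
            fun_prop
          have h5 := h4.tendsto
          rw [sub_self, zero_mul, norm_zero, zero_mul] at h5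
          exact h5.mono_left nhdsWithin_le_nhds
        refine squeeze_zero' (Eventually.of_forall fun z => norm_nonneg _) ?_ h3
        filter_upwards [hC] with z hz
        have h6 : H z = ((z - c) * ∏ d ∈ F.erase c, (z - d) ^ (p d + 1)) * ((z - c) ^ p c * G z) := by
          show (∏ d ∈ F, (z - d) ^ (p d + 1)) * G z = _
          rw [← Finset.mul_prod_erase F _ hc]
          ring
        rw [h6, norm_mul]
        exact mul_le_mul_of_nonneg_left hz (norm_nonneg _)
    · exact DifferentiableAt.mul (by fun_prop) (hd c hc)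
  obtain ⟨K, hK, hK'⟩ := liou_div F hdiff hH0
  have hKG : ∀ z ∉ F, K z = (∏ c ∈ F, (z - c) ^ p c) * G z := by
    intro z hz
    have h1 := hK' z
    have h2 : (∏ c ∈ F, (z - c)) ≠ 0 := by
      rw [Finset.prod_ne_zero_iff]
      intro c hc h
      rw [sub_eq_zero] at h
      subst h
      exact hz hc
    have h3 : H z = (∏ c ∈ F, (z - c)) * ((∏ c ∈ F, (z - c) ^ p c) * G z) := by
      show (∏ c ∈ F, (z - c) ^ (p c + 1)) * G z = _
      rw [← mul_assoc, ← Finset.prod_mul_distrib]
      congr 1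
      exact Finset.prod_congr rfl fun c _ => by ring
    exact mul_left_cancel₀ h2 (h1.symm.trans h3)
  obtain ⟨C, R, hCR⟩ := hi
  have hlim : Tendsto K (cocompact ℂ) (𝓝 0) := by
    rw [tendsto_zero_iff_norm_tendsto_zero]
    have h1 : Tendsto (fun z : ℂ => (2 ^ (∑ c ∈ F, p c) * |C|) * ‖z‖⁻¹) (cocompact ℂ) (𝓝 0) := by
      have h2 := ((tendsto_norm_cocompact_atTop (E := ℂ)).inv_tendsto_atTop).const_mul (2 ^ (∑ c ∈ F, p c) * |C|)
      simpa using h2
    refine squeeze_zero' (Eventually.of_forall fun z => norm_nonneg _) ?_ h1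
    filter_upwards [tendsto_norm_cocompact_atTop.eventually_ge_atTop R, tendsto_norm_cocompact_atTop.eventually_ge_atTop 1,
      tendsto_norm_cocompact_atTop.eventually_ge_atTop (∑ c ∈ F, ‖c‖ + 1)] with z hz1 hz2 hz3
    have hc : ∀ c ∈ F, ‖c‖ < ‖z‖ := fun c hc => by
      have := Finset.single_le_sum (f := fun c : ℂ => ‖c‖) (fun c _ => norm_nonneg c) hc

      linarith
    have hzF : z ∉ F := fun h => lt_irrefl _ (hc z h)
    have hz0 : 0 < ‖z‖ := by linarith
    rw [hKG z hzF, norm_mul, norm_prod]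
    have h3 : ∏ c ∈ F, ‖(z - c) ^ p c‖ ≤ (2 * ‖z‖) ^ (∑ c ∈ F, p c) := by
      rw [← Finset.prod_pow_eq_pow_sum]
      refine Finset.prod_le_prod (fun c _ => norm_nonneg _) fun c hcF => ?_
      rw [norm_pow]
      refine pow_le_pow_left₀ (norm_nonneg _) ?_ _
      have := norm_sub_le z c
      have := hc c hcF
      linarith
    have h4 := hCR z hz1
    have h5 : ‖G z‖ ≤ |C| * ‖z‖ ^ B / ‖z‖ ^ A := by
      rw [le_div_iff₀ (pow_pos hz0 _), mul_comm]
      exact h4.trans (mul_le_mul_of_nonneg_right (le_abs_self _) (pow_nonneg hz0.le _))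
    have h6 : ‖z‖ ^ ((∑ c ∈ F, p c) + B + 1) ≤ ‖z‖ ^ A := pow_le_pow_right₀ hz2 hA
    calc (∏ c ∈ F, ‖(z - c) ^ p c‖) * ‖G z‖ ≤ (2 * ‖z‖) ^ (∑ c ∈ F, p c) * (|C| * ‖z‖ ^ B / ‖z‖ ^ A) :=
          mul_le_mul h3 h5 (norm_nonneg _) (by positivity)
      _ ≤ (2 * ‖z‖) ^ (∑ c ∈ F, p c) * (|C| * ‖z‖ ^ B / ‖z‖ ^ ((∑ c ∈ F, p c) + B + 1)) := by
          refine mul_le_mul_of_nonneg_left ?_ (by positivity)
          exact div_le_div_of_nonneg_left (by positivity) (pow_pos hz0 _) h6
      _ = (2 ^ (∑ c ∈ F, p c) * |C|) * ‖z‖⁻¹ := by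
          rw [mul_pow, pow_succ, pow_add]
          field_simp
  have hK0 : ∀ z, K z = 0 := fun z => hK.apply_eq_of_tendsto_cocompact z hlim
  obtain ⟨z, hzF, hz⟩ := hnz
  have h1 := hKG z hzF
  rw [hK0 z] at h1
  rcases mul_eq_zero.1 h1.symm with h2 | h2
  · rw [Finset.prod_eq_zero_iff] at h2
    obtain ⟨c, hc, h3⟩ := h2
    have h5 : z - c = 0 := by
      by_contra hne
      exact pow_ne_zero _ hne h3
    rw [sub_eq_zero] at h5
    subst h5
    exact hzF hc
  · exact hz h2

end Pool.Agent.UC
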