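import Pool.Agent.UC.KrhG
import Pool.Agent.UC.Liou

/-!
# UC KrhM: the inequality for the rational curves in `D`
-/

set_option autoImplicit false

open Topology Filter Metric

noncomputable section

namespace Pool.Agent.UC

open Pool.Agent.H17BP (Surface IsForm IsChart Tan Pr)


variable {V : Type} [NormedAddCommGroup V] [NormedSpace ℂ V] [FiniteDimensional ℂ V] {X : Set V} {κ : Type} {Q : κ → V → ℂ} {e m j : ℕ}

/-- The inequality for the rational curves in `D`. -/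
theorem krh (hc : Crv X Q e) (hm : 1 ≤ m) {ℓ : Type} {Ω : ℓ → V → V → V → ℂ} (hΩ : ∀ l, IsForm X m j (Ω l))
    (hnz : ∀ x ∈ X, (∀ k, Q k x = 0) → ∃ l, ∃ v ∈ Tan X x, ∃ w ∈ Tan X x, Ω l x v w ≠ 0) : Krh X Q e m j := by
  intro d K K' hd h hKD i₀ F b ν b' ν' hF hF' hi
  obtain ⟨l, hl⟩ := hnz (K 0) (h.mem 0) (hKD 0)
  obtain ⟨G, h1, h2, h3, h4⟩ := exists_G hc hm (hΩ l) h hd hKD ⟨0, hl⟩ hF hF' hi
  have h5 := liou (p := fun c => m * (ν c + b c)) (A := (j + e * m) * d + 2 * m) (B := m * (ν' + b')) h1 h2 h3 h4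
  rw [← Finset.mul_sum, ← mul_add] at h5
  calc m * (e * d + 2) + j * d = (j + e * m) * d + 2 * m := by ring
    _ ≤ _ := h5

end Pool.Agent.UC
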