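import Pool.Agent.UC.Defs
import Pool.Agent.H36.BP.Defs
import Pool.Agent.H59.NB.NeckZ

/-!
# UC Neck: between the scale of the bubble and the outer scale
-/

set_option autoImplicit false

open Topology Filter Metric Bornology Polynomial

noncomputable section

namespace Pool.Agent.UC

open Pool.Agent.H17BP (Surface IsForm IsChart Tan Pr)
open Pool.Agent.H74.NB (CC Obj)
open Pool.Agent.H36.BP (EN)
open Pool.Agent.H59.NB (neck_close)

/-- the limit at the inner scale, seen from infinity -/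
theorem neck_rev {N : ℕ} {X : Set (EN N)} {p : Polynomial ℂ} {d M : ℕ} {K K' : ℂ → EN N} (hp : p.Monic) (hpd : p.natDegree + d = M)
    (hK : RatC X d K K') :
    AnalyticAt ℂ (fun t => p.reverse.eval t • K' t) 0 ∧ p.reverse.eval 0 = 1 ∧
      ∀ t : ℂ, t ≠ 0 → p.reverse.eval t • K' t = t ^ M • (p.eval t⁻¹ • K t⁻¹) := by
  refine ⟨?_, ?_, ?_⟩
  · have h1 : Differentiable ℂ (fun t => p.reverse.eval t • K' t) := p.reverse.differentiable.smul hK.diff'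
    exact h1.analyticAt 0
  · rw [← Polynomial.coeff_zero_eq_eval_zero, Polynomial.coeff_zero_reverse, hp.leadingCoeff]
  · intro t ht
    have h1 := hK.rel t⁻¹ (inv_ne_zero ht)
    rw [inv_inv] at h1
    have h2 : p.reverse.eval t * (t⁻¹) ^ p.natDegree = p.eval t⁻¹ := by
      let _ : Invertible (t⁻¹ : ℂ) := invertibleOfNonzero (inv_ne_zero ht)
      have h3 := Polynomial.eval₂_reverse_mul_pow (RingHom.id ℂ) (t⁻¹) p
      rw [invOf_eq_inv, inv_inv] at h3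
      exact h3
    rw [h1, ← h2, smul_smul, smul_smul, ← hpd, pow_add]
    congr 1
    have h4 : t ^ p.natDegree ≠ 0 := pow_ne_zero _ ht
    have h5 : t ^ d ≠ 0 := pow_ne_zero _ ht
    rw [inv_pow, inv_pow]
    field_simp

/-- MODULE Neck: between the scale of the bubble and the outer scale the curves are near the point `G w`. -/
theorem neck {N : ℕ} {X : Set (EN N)} {𝒰 : Ultrafilter ℕ} {Φ : ℕ → ℂ → EN N} {w : ℂ} {M : ℕ} {G : ℂ → EN N} {r : ℝ} (h : Obj 𝒰 Φ w M G r)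
    {b : ℕ → ℂ} {ρ : ℕ → ℝ}
    {p : Polynomial ℂ} {d : ℕ} {K K' : ℂ → EN N} (hb : Tendsto b 𝒰 (𝓝 w)) (hρ : ∀ᶠ n in (𝒰 : Filter ℕ), 0 < ρ n) (_hρ0 : Tendsto ρ 𝒰 (𝓝 0))
    (hp : p.Monic) (hpd : p.natDegree + d = M) (hK : RatC X d K K') (hK0 : K' 0 = G w)
    (hcc : CC 𝒰 (fun n ζ => ((ρ n : ℂ) ^ M)⁻¹ • Φ n (b n + ρ n * ζ)) (fun ζ => p.eval ζ • K ζ) Set.univ) {ε : ℝ} (hε : 0 < ε) :
    ∃ R s : ℝ, 0 < R ∧ 0 < s ∧ ∀ᶠ n in (𝒰 : Filter ℕ), ∀ z : ℂ, R * ρ n ≤ ‖z - b n‖ → ‖z - b n‖ ≤ s →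
      ‖((z - b n) ^ M)⁻¹ • Φ n z - G w‖ ≤ ε := by
  obtain ⟨h1, h2, h3⟩ := neck_rev hp hpd hK
  have hP1 : Tendsto (fun ζ : ℂ => (ζ ^ M)⁻¹ • (p.eval ζ • K ζ)) (cobounded ℂ) (𝓝 (G w)) := by
    have h4 : Tendsto (fun ζ : ℂ => p.reverse.eval ζ⁻¹ • K' ζ⁻¹) (cobounded ℂ) (𝓝 (p.reverse.eval 0 • K' 0)) :=
      h1.continuousAt.tendsto.comp tendsto_inv₀_cobounded
    rw [h2, one_smul, hK0] at h4
    refine h4.congr' ?_
    have h5 : ∀ᶠ ζ : ℂ in cobounded ℂ, ζ ≠ 0 := eventually_ne_cobounded 0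
    filter_upwards [h5] with ζ hζ
    rw [h3 _ (inv_ne_zero hζ), inv_inv, inv_pow]
  have hGc : ContinuousAt G w := h.holG.continuousOn.continuousAt (ball_mem_nhds w h.pos)
  obtain ⟨R, s, hR, hs, _, hneck⟩ := neck_close h.pos h.hol h.cc hGc hb hρ hcc hP1 hε
  refine ⟨R, s, hR, hs, ?_⟩
  filter_upwards [hneck R le_rfl s hs le_rfl] with n hn z hz1 hz2
  exact hn z (by rwa [dist_eq_norm]) (by rwa [dist_eq_norm])

end Pool.Agent.UC
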