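import Pool.Agent.UC.Defs
import Pool.Agent.H4.NB.Cnt

/-!
# UC ZgA: counting zeros, the predicate `ZGe`

`ZGe f U S k` is the predicate `Pool.Agent.H4.NB.Zer f U S k` with the components in another order.
-/

set_option autoImplicit false

open Topology Filter Metric

namespace Pool.Agent.UC

open Pool.Agent.H4.NB (Zer mp)

section zeros

variable {f f₁ f₂ : ℂ → ℂ} {U U' S S' : Set ℂ} {k k' k₁ k₂ : ℕ}

theorem zGe_iff_zer : ZGe f U S k ↔ Zer f U S k := by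
  constructor
  · rintro ⟨s, g, h1, h2, h3, h4⟩
    exact ⟨s, h1, h2, g, h3, h4⟩
  · rintro ⟨s, h1, h2, g, h3, h4⟩
    exact ⟨s, g, h1, h2, h3, h4⟩

theorem ZGe.mono (h : ZGe f U S k) (hS : S ⊆ S') : ZGe f U S' k := zGe_iff_zer.mpr ((zGe_iff_zer.mp h).mono hS)

theorem ZGe.le (h : ZGe f U S k) (hk : k' ≤ k) : ZGe f U S k' := zGe_iff_zer.mpr ((zGe_iff_zer.mp h).le hk)

theorem ZGe.restrict (h : ZGe f U' S k) (hU : U ⊆ U') : ZGe f U S k := zGe_iff_zer.mpr ((zGe_iff_zer.mp h).mono_dom hU)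

theorem ZGe.congr (h : ZGe f₁ U S k) (he : ∀ z ∈ U, f₁ z = f₂ z) : ZGe f₂ U S k :=
  zGe_iff_zer.mpr ((zGe_iff_zer.mp h).congr fun z hz => (he z hz).symm)

/-- removable singularities -/
theorem ZGe.extend (hU : IsOpen U) (hU' : IsOpen U') (hUU : U ⊆ U') (hf : DifferentiableOn ℂ f U') (hS : S ⊆ U) (h : ZGe f U S k) :
    ZGe f U' S k := zGe_iff_zer.mpr (Zer.extend hU hU' hUU hS hf (zGe_iff_zer.mp h))

theorem ZGe.mul (h₁ : ZGe f₁ U S k₁) (h₂ : ZGe f₂ U S k₂) : ZGe (fun z => f₁ z * f₂ z) U S (k₁ + k₂) :=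
  zGe_iff_zer.mpr ((zGe_iff_zer.mp h₁).mul (zGe_iff_zer.mp h₂))

/-- disjoint sets: divide out the zeros one after the other -/
theorem ZGe.union {ι : Type} (F : Finset ι) {S : ι → Set ℂ} {k : ι → ℕ} (hU : IsOpen U) (hf : DifferentiableOn ℂ f U) (hS : ∀ i ∈ F, S i ⊆ U)
    (hd : ∀ i ∈ F, ∀ j ∈ F, i ≠ j → Disjoint (S i) (S j)) (h : ∀ i ∈ F, ZGe f U (S i) (k i)) :
    ZGe f U (⋃ i ∈ F, S i) (∑ i ∈ F, k i) :=
  zGe_iff_zer.mpr (Zer.sum hU hf F hS hd fun i hi => zGe_iff_zer.mp (h i hi))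

theorem ZGe.affine {b ρ : ℂ} (hρ : ρ ≠ 0) (h : ZGe (fun ζ => f (b + ρ * ζ)) U S k) :
    ZGe f ((fun ζ => b + ρ * ζ) '' U) ((fun ζ => b + ρ * ζ) '' S) k := by
  refine zGe_iff_zer.mpr (Zer.scale hρ ((zGe_iff_zer.mp h).mono_dom ?_))
  rintro u ⟨v, hv, hvu⟩
  have huv : v = u := mul_left_cancel₀ hρ (add_left_cancel hvu)
  exact huv ▸ hv

end zeros

end Pool.Agent.UC
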