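import Pool.Agent.UC.Defs
import Pool.Agent.UC.ZgA

/-!
# UC ZgB: zeros along an ultrafilter
-/

set_option autoImplicit false

open Topology Filter Metric

noncomputable section

namespace Pool.Agent.UC

open Pool.Agent.H74.NB (CC Obj weier)

variable {k k' k₁ k₂ : ℕ} {𝒰 : Ultrafilter ℕ} {F F₁ F₂ : ℕ → ℂ → ℂ} {w : ℂ} {r r' : ℝ}

theorem Lo.le (h : Lo 𝒰 F w r k) (hk : k' ≤ k) : Lo 𝒰 F w r k' :=
  fun s hs hsr => (h s hs hsr).mono fun _ hn => ZGe.le hn hk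

theorem Lo.radius (hr' : 0 < r') (hrr : r' ≤ r) (hF : ∀ᶠ n in (𝒰 : Filter ℕ), DifferentiableOn ℂ (F n) (ball w r)) :
    Lo 𝒰 F w r' k ↔ Lo 𝒰 F w r k := by
  constructor
  · intro h s hs hsr
    have h1 := h (min s r') (lt_min hs hr') (min_le_right _ _)
    filter_upwards [h1, hF] with n hn hd
    have h2 : ball w (min s r') ⊆ ball w r' := ball_subset_ball (min_le_right _ _)
    exact ZGe.mono (ZGe.extend isOpen_ball isOpen_ball (ball_subset_ball hrr) hd h2 hn) (ball_subset_ball (min_le_left _ _))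
  · intro h s hs hsr
    filter_upwards [h s hs (hsr.trans hrr)] with n hn
    exact ZGe.restrict hn (ball_subset_ball hrr)

theorem Lo.mul (h₁ : Lo 𝒰 F₁ w r k₁) (h₂ : Lo 𝒰 F₂ w r k₂) : Lo 𝒰 (fun n z => F₁ n z * F₂ n z) w r (k₁ + k₂) := by
  intro s hs hsr
  filter_upwards [h₁ s hs hsr, h₂ s hs hsr] with n h1 h2
  exact ZGe.mul h1 h2

/-- multiplication by a holomorphic function -/
theorem Lo.mul_hol (h₁ : Lo 𝒰 F₁ w r k₁) (h₂ : ∀ᶠ n in (𝒰 : Filter ℕ), DifferentiableOn ℂ (F₂ n) (ball w r)) :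
    Lo 𝒰 (fun n z => F₂ n z * F₁ n z) w r k₁ := by
  intro s hs hsr
  filter_upwards [h₁ s hs hsr, h₂] with n h1 h2
  obtain ⟨t, g, ht, hS, hg, he⟩ := h1
  refine ⟨t, fun z => F₂ n z * g z, ht, hS, h2.mul hg, fun z hz => ?_⟩
  show F₂ n z * F₁ n z = (t.map fun a => z - a).prod * (F₂ n z * g z)
  rw [he z hz]
  ring

/-- Hurwitz (from `H74.NB.weier`) -/
theorem Lo.of_limit {v : ℂ → ℂ} (hr : 0 < r) (hF : ∀ᶠ n in (𝒰 : Filter ℕ), DifferentiableOn ℂ (F n) (ball w r))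
    (hv : DifferentiableOn ℂ v (ball w r)) (hv0 : v w ≠ 0) (hc : CC 𝒰 F (fun z => (z - w) ^ k * v z) (ball w r)) : Lo 𝒰 F w r k := by
  obtain ⟨a, q, ha, hq, he, -⟩ := weier hr hv hv0 k hF hc
  intro s hs hsr
  have h1 : ∀ᶠ n in (𝒰 : Filter ℕ), ∀ i ∈ Finset.range k, a i n ∈ ball w s := by
    rw [Filter.eventually_all_finset]
    intro i _
    exact (ha i).eventually (ball_mem_nhds w hs)
  filter_upwards [h1, hq, he] with n h1 h2 h3
  refine ⟨(Finset.range k).val.map fun i => a i n, q n, by simp, ?_, h2, fun z _ => ?_⟩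
  · intro b hb
    rw [Multiset.mem_map] at hb
    obtain ⟨i, hi, rfl⟩ := hb
    exact h1 i hi
  · rw [h3 z, Multiset.map_map]
    rfl

private theorem ZgB_norm_le (s : Multiset ℂ) {z : ℂ} {A : ℝ} (hA : 0 ≤ A) (hs : ∀ a ∈ s, ‖z - a‖ ≤ A) :
    ‖(s.map fun a => z - a).prod‖ ≤ A ^ s.card := by
  induction s using Multiset.induction_on with
  | empty => simp
  | cons a s ih =>
    rw [Multiset.map_cons, Multiset.prod_cons, norm_mul, Multiset.card_cons, pow_succ']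
    exact mul_le_mul (hs a (Multiset.mem_cons_self a s)) (ih fun b hb => hs b (Multiset.mem_cons_of_mem hb)) (norm_nonneg _) hA

private theorem ZgB_le_norm (s : Multiset ℂ) {z : ℂ} {A : ℝ} (hA : 0 ≤ A) (hs : ∀ a ∈ s, A ≤ ‖z - a‖) :
    A ^ s.card ≤ ‖(s.map fun a => z - a).prod‖ := by
  induction s using Multiset.induction_on with
  | empty => simp
  | cons a s ih =>
    rw [Multiset.map_cons, Multiset.prod_cons, norm_mul, Multiset.card_cons, pow_succ']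
    exact mul_le_mul (hs a (Multiset.mem_cons_self a s)) (ih fun b hb => hs b (Multiset.mem_cons_of_mem hb)) (pow_nonneg hA _)
      (norm_nonneg _)

theorem not_lo {v : ℂ → ℂ} (hr : 0 < r) (hF : ∀ᶠ n in (𝒰 : Filter ℕ), DifferentiableOn ℂ (F n) (ball w r))
    (hv : DifferentiableOn ℂ v (ball w r)) (hv0 : v w ≠ 0) (hc : CC 𝒰 F (fun z => (z - w) ^ k * v z) (ball w r)) : ¬ Lo 𝒰 F w r (k + 1) := by
  intro hlo
  have hwr : w ∈ ball w r := mem_ball_self hr
  have hvc : ContinuousAt v w := (hv.continuousOn.continuousAt (isOpen_ball.mem_nhds hwr))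
  -- a radius on which `v` is bounded below
  set c₀ : ℝ := ‖v w‖ / 2 with hc₀
  have hc₀p : 0 < c₀ := by positivity
  have h1 : ∀ᶠ z in 𝓝 w, c₀ < ‖v z‖ := by
    refine hvc.norm.eventually (lt_mem_nhds ?_)
    rw [hc₀]
    have : 0 < ‖v w‖ := norm_pos_iff.2 hv0
    linarith
  obtain ⟨ρ₁, hρ₁, hball⟩ := Metric.eventually_nhds_iff_ball.1 h1
  set ρ : ℝ := min (ρ₁ / 2) (r / 2) with hρdef
  have hρ0 : 0 < ρ := lt_min (by positivity) (by positivity)
  have hρr : ρ < r := (min_le_right _ _).trans_lt (by linarith)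
  have hρρ₁ : ρ < ρ₁ := (min_le_left _ _).trans_lt (by linarith)
  have hcb : closedBall w ρ ⊆ ball w r := closedBall_subset_ball hρr
  -- the bound on the circle
  have hgc : ContinuousOn (fun z => (z - w) ^ k * v z) (ball w r) :=
    ((continuous_id.sub continuous_const).pow k).continuousOn.mul hv.continuousOn
  obtain ⟨B, hB⟩ := (isCompact_closedBall w ρ).exists_bound_of_continuousOn (hgc.mono hcb)
  have hB0 : 0 ≤ B := (norm_nonneg _).trans (hB w (mem_closedBall_self hρ0.le))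
  have hun : ∀ᶠ n in (𝒰 : Filter ℕ), ∀ z ∈ closedBall w ρ, ‖F n z - (z - w) ^ k * v z‖ < 1 :=
    hc.unif hgc isOpen_ball (isCompact_closedBall w ρ) hcb one_pos
  -- choice of the point
  set C : ℝ := (B + 1) * (2 / ρ) ^ (k + 1) * 2 ^ (k + 1) with hC
  have hC0 : 0 < C := by positivity
  obtain ⟨δ, hδ0, hδ⟩ : ∃ δ : ℝ, 0 < δ ∧ δ ≤ ρ / 2 ∧ C * δ < c₀ / 2 := by
    refine ⟨min (ρ / 2) (c₀ / (4 * C)), lt_min (by positivity) (by positivity), min_le_left _ _, ?_⟩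
    calc C * min (ρ / 2) (c₀ / (4 * C)) ≤ C * (c₀ / (4 * C)) := mul_le_mul_of_nonneg_left (min_le_right _ _) hC0.le
      _ = c₀ / 4 := by field_simp
      _ < c₀ / 2 := by linarith
  obtain ⟨hδρ, hδC⟩ := hδ
  set z₁ : ℂ := w + δ with hz₁
  have hz₁n : ‖z₁ - w‖ = δ := by
    rw [hz₁, add_sub_cancel_left, Complex.norm_real, Real.norm_of_nonneg hδ0.le]
  have hz₁b : z₁ ∈ ball w r := by
    rw [mem_ball, dist_eq_norm, hz₁n]
    linarith
  -- the value at the point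
  have hpt : Tendsto (fun n => F n z₁) 𝒰 (𝓝 ((z₁ - w) ^ k * v z₁)) := hc z₁ hz₁b (fun _ => z₁) tendsto_const_nhds
  have hlow : δ ^ k * c₀ < ‖(z₁ - w) ^ k * v z₁‖ := by
    rw [norm_mul, norm_pow, hz₁n]
    refine mul_lt_mul_of_pos_left (hball z₁ ?_) (by positivity)
    rw [mem_ball, dist_eq_norm, hz₁n]
    linarith
  have hpt' : ∀ᶠ n in (𝒰 : Filter ℕ), δ ^ k * c₀ < ‖F n z₁‖ := hpt.norm.eventually (lt_mem_nhds hlow)
  obtain ⟨n, hnF, hnz, hnu, hnp⟩ := (hF.and ((hlo δ hδ0 (by linarith)).and (hun.and hpt'))).exists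
  obtain ⟨s, g, hs, hS, hg, he⟩ := hnz
  -- the bound of `g` on the circle
  have hgs : ∀ z ∈ frontier (ball w ρ), ‖g z‖ ≤ (B + 1) * (2 / ρ) ^ (k + 1) := by
    intro z hz
    rw [frontier_ball w hρ0.ne'] at hz
    have hzc : z ∈ closedBall w ρ := sphere_subset_closedBall hz
    have h2 : ‖F n z‖ ≤ B + 1 := by
      have h3 := hnu z hzc
      have h4 := hB z hzc
      calc ‖F n z‖ = ‖(F n z - (z - w) ^ k * v z) + (z - w) ^ k * v z‖ := by rw [sub_add_cancel]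
        _ ≤ ‖F n z - (z - w) ^ k * v z‖ + ‖(z - w) ^ k * v z‖ := norm_add_le _ _
        _ ≤ 1 + B := add_le_add h3.le h4
        _ = B + 1 := add_comm _ _
    have h5 : (ρ / 2) ^ (k + 1) ≤ ‖(s.map fun a => z - a).prod‖ := by
      rw [← hs]
      refine ZgB_le_norm s (by positivity) fun a ha => ?_
      have h6 := hS a ha
      rw [mem_ball, dist_eq_norm] at h6
      rw [mem_sphere, dist_eq_norm] at hz
      have h7 : ‖z - w‖ ≤ ‖z - a‖ + ‖a - w‖ := by
        calc ‖z - w‖ = ‖(z - a) + (a - w)‖ := by rw [sub_add_sub_cancel]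
          _ ≤ _ := norm_add_le _ _
      linarith
    have h8 := he z (hcb hzc)
    have h9 : ‖(s.map fun a => z - a).prod‖ * ‖g z‖ ≤ B + 1 := by
      rw [← norm_mul, ← h8]
      exact h2
    have h10 : (ρ / 2) ^ (k + 1) * ‖g z‖ ≤ B + 1 := (mul_le_mul_of_nonneg_right h5 (norm_nonneg _)).trans h9
    have h11 : (2 / ρ) ^ (k + 1) * (ρ / 2) ^ (k + 1) = 1 := by
      rw [← mul_pow, div_mul_div_comm, mul_comm 2 ρ, div_self (by positivity), one_pow]
    calc ‖g z‖ = (2 / ρ) ^ (k + 1) * ((ρ / 2) ^ (k + 1) * ‖g z‖) := by rw [← mul_assoc, h11, one_mul]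
      _ ≤ (2 / ρ) ^ (k + 1) * (B + 1) := mul_le_mul_of_nonneg_left h10 (by positivity)
      _ = _ := mul_comm _ _
  have hgd : DiffContOnCl ℂ g (ball w ρ) := by
    refine DifferentiableOn.diffContOnCl ?_
    rw [closure_ball w hρ0.ne']
    exact hg.mono hcb
  have hz₁ρ : z₁ ∈ closure (ball w ρ) := by
    rw [closure_ball w hρ0.ne', mem_closedBall, dist_eq_norm, hz₁n]
    linarith
  have hg1 : ‖g z₁‖ ≤ (B + 1) * (2 / ρ) ^ (k + 1) := Complex.norm_le_of_forall_mem_frontier_norm_le isBounded_ball hgd hgs hz₁ρ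
  have hpr : ‖(s.map fun a => z₁ - a).prod‖ ≤ (2 * δ) ^ (k + 1) := by
    rw [← hs]
    refine ZgB_norm_le s (by positivity) fun a ha => ?_
    have h6 := hS a ha
    rw [mem_ball, dist_eq_norm] at h6
    calc ‖z₁ - a‖ = ‖(z₁ - w) - (a - w)‖ := by rw [sub_sub_sub_cancel_right]
      _ ≤ ‖z₁ - w‖ + ‖a - w‖ := norm_sub_le _ _
      _ ≤ 2 * δ := by rw [hz₁n]; linarith
  have hfin : ‖F n z₁‖ ≤ (2 * δ) ^ (k + 1) * ((B + 1) * (2 / ρ) ^ (k + 1)) := by
    rw [he z₁ hz₁b, norm_mul]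
    exact mul_le_mul hpr hg1 (norm_nonneg _) (by positivity)
  have h12 : (2 * δ) ^ (k + 1) * ((B + 1) * (2 / ρ) ^ (k + 1)) = δ ^ k * (C * δ) := by
    rw [hC, mul_pow]
    ring
  rw [h12] at hfin
  have h13 : δ ^ k * (C * δ) < δ ^ k * (c₀ / 2) := mul_lt_mul_of_pos_left hδC (by positivity)
  have h14 : δ ^ k * (c₀ / 2) < δ ^ k * c₀ := mul_lt_mul_of_pos_left (by linarith) (by positivity)
  linarith

end Pool.Agent.UC
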