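import Pool.Agent.UC.Core
import Pool.Agent.UC.Neck
import Pool.Agent.UC.Child
import Pool.Agent.UC.NonC
import Pool.Agent.UC.Sca
import Pool.Agent.UC.ZgB

/-!
# UC RootN: a limit curve which crosses both branches at a node transversally
-/

set_option autoImplicit false

open Topology Filter Metric Bornology Polynomial

noncomputable section

namespace Pool.Agent.UC

open Pool.Agent.H17BP (Surface IsForm IsChart Tan Pr)
open Pool.Agent.H74.NB (CC Obj)
open Pool.Agent.H36.BP (EN)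
open Pool.Agent.H59.NB (neck_close zero_in_neck)

/-- dividing out a zero -/
private theorem RootN_div {f g : ℂ → ℂ} {w : ℂ} {r : ℝ} {k : ℕ} (hf : DifferentiableOn ℂ f (ball w r)) (hg : AnalyticAt ℂ g w)
    (he : ∀ᶠ z in 𝓝 w, f z = (z - w) ^ k * g z) :
    ∃ v : ℂ → ℂ, DifferentiableOn ℂ v (ball w r) ∧ v w = g w ∧ ∀ z ∈ ball w r, f z = (z - w) ^ k * v z := by
  classical
  set v : ℂ → ℂ := fun z => if z = w then g w else f z / (z - w) ^ k with hv
  refine ⟨v, ?_, ?_, ?_⟩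
  · intro z hz
    refine DifferentiableAt.differentiableWithinAt ?_
    by_cases hzw : z = w
    · subst hzw
      have h1 : v =ᶠ[𝓝 z] g := by
        filter_upwards [he] with y hy
        by_cases hyz : y = z
        · simp [hv, hyz]
        · simp only [hv, if_neg hyz]
          rw [hy, mul_comm, mul_div_assoc, div_self (pow_ne_zero _ (sub_ne_zero.2 hyz)), mul_one]
      exact h1.differentiableAt_iff.2 hg.differentiableAt
    · have h1 : v =ᶠ[𝓝 z] fun y => f y / (y - w) ^ k := by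
        filter_upwards [isOpen_ne.mem_nhds hzw] with y hy
        simp only [hv, if_neg hy]
      refine h1.differentiableAt_iff.2 ?_
      exact (hf.differentiableAt (isOpen_ball.mem_nhds hz)).div ((differentiableAt_id.sub_const w).pow k)
        (pow_ne_zero _ (sub_ne_zero.2 hzw))
  · simp [hv]
  · intro z hz
    by_cases hzw : z = w
    · subst hzw
      have h1 := he.self_of_nhds
      rw [h1]
      simp [hv]
    · simp only [hv, if_neg hzw]
      rw [mul_div_cancel₀]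
      exact pow_ne_zero _ (sub_ne_zero.2 hzw)

private theorem RootN_congr {𝒰 : Ultrafilter ℕ} {F₁ F₂ : ℕ → ℂ → ℂ} {w : ℂ} {r : ℝ} {k : ℕ} (h : Lo 𝒰 F₁ w r k)
    (he : ∀ᶠ n in (𝒰 : Filter ℕ), ∀ z ∈ ball w r, F₁ n z = F₂ n z) : Lo 𝒰 F₂ w r k := by
  intro s hs hsr
  filter_upwards [h s hs hsr, he] with n h1 h2
  exact h1.congr h2

/-- the zeros at the inner scale and one more zero in the neck -/
theorem lo_succ {𝒰 : Ultrafilter ℕ} {F : ℕ → ℂ → ℂ} {w : ℂ} {r : ℝ} (hr : 0 < r)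
    (hF : ∀ᶠ n in (𝒰 : Filter ℕ), DifferentiableOn ℂ (F n) (ball w r)) {b : ℕ → ℂ} {ρ : ℕ → ℝ} {t : ℕ → ℂ}
    (hb : Tendsto b 𝒰 (𝓝 w)) (hρ : ∀ᶠ n in (𝒰 : Filter ℕ), 0 < ρ n) (hρ0 : Tendsto ρ 𝒰 (𝓝 0)) (ht : ∀ᶠ n in (𝒰 : Filter ℕ), t n ≠ 0)
    {C : Finset ℂ} {k : ℂ → ℕ} {δ : ℂ → ℝ} (hδ : ∀ c ∈ C, 0 < δ c) (h : ∀ c ∈ C, Lo 𝒰 (fun n ζ => t n * F n (b n + ρ n * ζ)) c (δ c) (k c))
    (hz : ∀ R s : ℝ, 0 < s → ∀ᶠ n in (𝒰 : Filter ℕ), ∃ z, R * ρ n < dist z (b n) ∧ dist z (b n) < s ∧ F n z = 0) :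
    Lo 𝒰 F w r (∑ c ∈ C, k c + 1) := by
  intro s hs hsr
  set R : ℝ := ∑ c ∈ C, (‖c‖ + δ c) with hR
  have hRc : ∀ c ∈ C, ‖c‖ + δ c ≤ R := fun c hc =>
    Finset.single_le_sum (f := fun c => ‖c‖ + δ c) (fun c hc => add_nonneg (norm_nonneg _) (hδ c hc).le) hc
  have h1 := hz R (s / 2) (by linarith)
  choose! z hz' using fun (n : ℕ) (h : ∃ z, R * ρ n < dist z (b n) ∧ dist z (b n) < s / 2 ∧ F n z = 0) => h
  have hb' : ∀ᶠ n in (𝒰 : Filter ℕ), dist (b n) w < s / 2 := hb.eventually (ball_mem_nhds w (by linarith))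
  have hzs : ∀ᶠ n in (𝒰 : Filter ℕ), z n ∈ ball w s := by
    filter_upwards [h1, hb'] with n h2 h3
    have h4 := (hz' n h2).2.1
    rw [mem_ball]
    linarith [dist_triangle (z n) (b n) w]
  have hzr : ∀ᶠ n in (𝒰 : Filter ℕ), z n ∈ ball w r := hzs.mono fun n hn => ball_subset_ball hsr hn
  set F' : ℕ → ℂ → ℂ := fun n => dslope (F n) (z n) with hF'
  have hFF : ∀ᶠ n in (𝒰 : Filter ℕ), ∀ y, F n y = (y - z n) * F' n y := by
    filter_upwards [h1] with n h2 y
    have h3 := sub_smul_dslope (F n) (z n) y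
    rw [smul_eq_mul, (hz' n h2).2.2, sub_zero] at h3
    exact h3.symm
  have hF'd : ∀ᶠ n in (𝒰 : Filter ℕ), DifferentiableOn ℂ (F' n) (ball w r) := by
    filter_upwards [hF, hzr] with n h2 h3
    exact (Complex.differentiableOn_dslope (isOpen_ball.mem_nhds h3)).2 h2
  have hne : ∀ c ∈ C, ∀ᶠ n in (𝒰 : Filter ℕ), ∀ ζ ∈ ball c (δ c), b n + ρ n * ζ - z n ≠ 0 := by
    intro c hc
    filter_upwards [h1, hρ] with n h2 h3 ζ hζ h0
    have h4 := (hz' n h2).1
    have h5 : dist (z n) (b n) = ρ n * ‖ζ‖ := by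
      rw [sub_eq_zero] at h0
      rw [← h0, dist_eq_norm, add_sub_cancel_left, norm_mul, Complex.norm_real, Real.norm_of_nonneg h3.le]
    have h6 : ‖ζ‖ < ‖c‖ + δ c := by
      have h7 : ‖ζ - c‖ < δ c := by rwa [mem_ball, dist_eq_norm] at hζ
      have h8 : ζ = (ζ - c) + c := by ring
      calc ‖ζ‖ = ‖(ζ - c) + c‖ := by rw [← h8]
        _ ≤ ‖ζ - c‖ + ‖c‖ := norm_add_le _ _
        _ < ‖c‖ + δ c := by linarith
    have h7 : ‖ζ‖ < R := h6.trans_le (hRc c hc)
    rw [h5] at h4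
    nlinarith
  have hLo' : ∀ c ∈ C, Lo 𝒰 (fun n ζ => t n * F' n (b n + ρ n * ζ)) c (δ c) (k c) := by
    intro c hc
    have h2 := Lo.mul_hol (F₂ := fun n ζ => (b n + ρ n * ζ - z n)⁻¹) (h c hc) (by
      filter_upwards [hne c hc] with n h3
      intro ζ hζ
      refine DifferentiableAt.differentiableWithinAt ?_
      have h4 : DifferentiableAt ℂ (fun ζ : ℂ => b n + ρ n * ζ - z n) ζ := by fun_prop
      exact h4.inv (h3 ζ hζ))
    refine RootN_congr h2 ?_
    filter_upwards [hne c hc, hFF] with n h3 h4 ζ hζ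
    have h5 := h3 ζ hζ
    rw [h4 (b n + ρ n * ζ)]
    field_simp
  have h2 := Lo.of_rescaled hr hF'd hb hρ hρ0 ht hδ hLo' s hs hsr
  filter_upwards [h2, hFF, hzs] with n h3 h4 h5
  have h6 : ZGe (fun y => y - z n) (ball w r) (ball w s) 1 := by
    refine ⟨{z n}, fun _ => 1, by simp, ?_, differentiableOn_const _, ?_⟩
    · intro a ha
      rw [Multiset.mem_singleton] at ha
      rw [ha]
      exact h5
    · intro y _
      simp
  have h7 := (h3.mul h6).congr (f₂ := F n) fun y _ => by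
    rw [h4 y, mul_comm]
  exact h7

variable {N : ℕ} {X : Set (EN N)} {κ : Type} {Q : κ → EN N → ℂ} {e m j : ℕ}

/-- MODULE RootN: a limit curve which crosses both branches at a node transversally; here `1 ≤ j`. -/
theorem rootN (hc : Crv X Q e) (hm : 1 ≤ m) (hj : 1 ≤ j) (hk : Krh X Q e m j) (hr : RatIn X Q) {𝒰 : Ultrafilter ℕ}
    (hu : ∀ μ, 1 ≤ μ → UCat X Q e m j 𝒰 μ) {M : ℕ} (hM : 1 ≤ M) {Φ : ℕ → ℂ → EN N} {w : ℂ}
    {G : ℂ → EN N} {r : ℝ} (h : Obj 𝒰 Φ w M G r) (hX : ∀ᶠ n in (𝒰 : Filter ℕ), ∀ z ∈ ball w r, Φ n z ∈ X) {i : κ} {σ : ℂ × ℂ → EN N}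
    {τ : EN N → ℂ × ℂ} (hσ : Mon X Q i 1 σ τ) {x y u : ℂ → ℂ} (hx : AnalyticAt ℂ x w) (hy : AnalyticAt ℂ y w) (hu1 : AnalyticAt ℂ u w)
    (hu0 : u w ≠ 0) (hG : ∀ᶠ z in 𝓝 w, G z = u z • σ (x z, y z)) (hx0 : x w = 0) (hy0 : y w = 0) (hx1 : deriv x w ≠ 0) (hy1 : deriv y w ≠ 0) :
    False := by
  classical
  obtain ⟨M, rfl⟩ : ∃ M', M = M' + 1 := ⟨M - 1, by omega⟩
  have hXs := hc.surf
  have hwr : ball w r ∈ 𝓝 w := ball_mem_nhds w h.pos
  have hQd : Differentiable ℂ (Q i) := fun x => (hc.an i x).differentiableAt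
  have hGw : G w = u w • σ 0 := by
    have h1 := hG.self_of_nhds
    rw [hx0, hy0] at h1
    exact h1
  have hPr : Pr (σ 0) (G w) := ⟨(u w)⁻¹, inv_ne_zero hu0, by rw [hGw, smul_smul, inv_mul_cancel₀ hu0, one_smul]⟩
  have hFd : ∀ᶠ n in (𝒰 : Filter ℕ), DifferentiableOn ℂ (fun z => Q i (Φ n z)) (ball w r) := by
    filter_upwards [h.hol] with n hn
    exact hQd.comp_differentiableOn hn
  -- the function `(x, y)` tends to zero
  have hxy : Tendsto (fun z => (x z, y z)) (𝓝 w) (𝓝 (0 : ℂ × ℂ)) := by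
    have h1 := hx.continuousAt.tendsto.prodMk_nhds hy.continuousAt.tendsto
    rw [hx0, hy0] at h1
    exact h1
  -- upper bound for the number of zeros
  have hnot : ¬ Lo 𝒰 (fun n z => Q i (Φ n z)) w r (e * (M + 1) + 2 + 1) := by
    obtain ⟨rr, hra, hr0, hrr⟩ := hσ.unit
    -- linear factors
    have hx' : ∀ᶠ z in 𝓝 w, x z = (z - w) * dslope x w z := Eventually.of_forall fun z => by
      have := sub_smul_dslope x w z
      rw [smul_eq_mul, hx0, sub_zero] at this
      exact this.symm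
    have hy' : ∀ᶠ z in 𝓝 w, y z = (z - w) * dslope y w z := Eventually.of_forall fun z => by
      have := sub_smul_dslope y w z
      rw [smul_eq_mul, hy0, sub_zero] at this
      exact this.symm
    have hda : ∀ f : ℂ → ℂ, AnalyticAt ℂ f w → AnalyticAt ℂ (dslope f w) w := by
      intro f hf
      obtain ⟨s, hs, hs'⟩ := Metric.eventually_nhds_iff_ball.1 hf.eventually_analyticAt
      have h1 : DifferentiableOn ℂ f (ball w s) := fun z hz => (hs' z hz).differentiableAt.differentiableWithinAt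
      have h2 := (Complex.differentiableOn_dslope (ball_mem_nhds w hs)).2 h1
      exact h2.analyticAt (ball_mem_nhds w hs)
    have hra' : AnalyticAt ℂ (fun z => rr (x z, y z)) w := by
      have h1 : AnalyticAt ℂ rr ((fun z => (x z, y z)) w) := by
        show AnalyticAt ℂ rr (x w, y w)
        rw [hx0, hy0]
        exact hra
      exact AnalyticAt.comp (f := fun z => (x z, y z)) h1 (hx.prod hy)
    set g : ℂ → ℂ := fun z => u z ^ e * (dslope x w z * dslope y w z * rr (x z, y z)) with hg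
    have hga : AnalyticAt ℂ g w := (hu1.pow e).mul (((hda x hx).mul (hda y hy)).mul hra')
    have hg0 : g w ≠ 0 := by
      simp only [hg, dslope_same, hx0, hy0]
      exact mul_ne_zero (pow_ne_zero _ hu0) (mul_ne_zero (mul_ne_zero hx1 hy1) hr0)
    have hfd : DifferentiableOn ℂ (fun z => Q i (G z)) (ball w r) := hQd.comp_differentiableOn h.holG
    have hfe : ∀ᶠ z in 𝓝 w, Q i (G z) = (z - w) ^ 2 * g z := by
      filter_upwards [hG, hx', hy', hxy.eventually hrr] with z h1 h2 h3 h4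
      rw [h1, hc.smul, h4]
      simp only [hg, pow_one]
      have h5 : x z * y z = (z - w) ^ 2 * (dslope x w z * dslope y w z) := by
        rw [h2, h3]
        ring
      rw [h5]
      ring
    obtain ⟨v, hvd, hvw, hvv⟩ := RootN_div hfd hga hfe
    refine not_lo h.pos hFd hvd (by rw [hvw]; exact hg0) ?_
    intro z₀ hz₀ z hz
    have h1 := h.cc z₀ hz₀ z hz
    have h2 := (hQd.continuous.tendsto _).comp h1
    have h3 : Q i ((z₀ - w) ^ (M + 1) • G z₀) = (z₀ - w) ^ (e * (M + 1) + 2) * v z₀ := by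
      rw [hc.smul, hvv z₀ hz₀, ← pow_mul, mul_comm (M + 1) e, pow_add, mul_assoc]
    show Tendsto _ _ (𝓝 ((z₀ - w) ^ (e * (M + 1) + 2) * v z₀))
    rw [← h3]
    exact h2
  -- the rescaling
  obtain ⟨b, ρ, p, d, K, K', hb, hρ, hρ0, hpm, hpd, hroot, hK, hK0, hcc, hch⟩ := dec_child hXs.zero hXs.smul hXs.closed h hX
  obtain ⟨-, hcore⟩ := step_core hc hm hk hr (fun μ h1 _ => hu μ h1) h hX hb hρ hρ0 hpm hpd hroot hK hK0 hch
  obtain ⟨S, k, δ, hδ, hLo, hin1, hin2⟩ := hcore i 1 σ τ hσ hPr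
  have ht : ∀ᶠ n in (𝒰 : Filter ℕ), (((ρ n : ℂ) ^ (M + 1))⁻¹) ^ e ≠ 0 := by
    filter_upwards [hρ] with n hn
    exact pow_ne_zero _ (inv_ne_zero (pow_ne_zero _ (by exact_mod_cast hn.ne')))
  rcases Nat.eq_zero_or_pos d with hd | hd
  · -- ghost
    have h1 := hin2 hd
    have h2 : e * (M + 1) + 2 + 1 ≤ ∑ c ∈ S, k c := by
      by_contra hcon
      have h3 : ∑ c ∈ S, k c ≤ e * (M + 1) + 2 := by omega
      have h4 : m * ∑ c ∈ S, k c ≤ m * (e * (M + 1) + 2) := Nat.mul_le_mul_left m h3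
      have h5 : 1 ≤ j * (M + 1) := Nat.mul_pos hj (Nat.succ_pos M)
      norm_num at h1
      omega
    exact hnot ((Lo.of_rescaled h.pos hFd hb hρ hρ0 ht hδ hLo).le h2)
  · have h1 : e * (M + 1) + 2 ≤ ∑ c ∈ S, k c := by
      by_contra hcon
      have h3 : ∑ c ∈ S, k c ≤ e * (M + 1) + 1 := by omega
      have h4 : m * ∑ c ∈ S, k c ≤ m * (e * (M + 1) + 1) := Nat.mul_le_mul_left m h3
      have h5 : 1 ≤ j * (M + 1) := Nat.mul_pos hj (Nat.succ_pos M)
      norm_num at hin1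
      omega
    -- one more zero in the neck
    have hneck : ∀ R s : ℝ, 0 < s → ∀ᶠ n in (𝒰 : Filter ℕ), ∃ z, R * ρ n < dist z (b n) ∧ dist z (b n) < s ∧ Q i (Φ n z) = 0 := by
      obtain ⟨hr1, hr2, hr3⟩ := neck_rev hpm hpd hK
      set PR : ℂ → EN N := fun t => p.reverse.eval t • K' t with hPR
      have hPR0 : PR 0 = G w := by
        simp only [hPR]
        rw [hr2, one_smul, hK0]
      have hPRt : ∀ t : ℂ, t ≠ 0 → PR t = t ^ (M + 1) • (p.eval t⁻¹ • K t⁻¹) := hr3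
      -- the scaled chart
      set lam : ℂ := u w with hlam
      have hlamG : lam⁻¹ • G w = σ 0 := by rw [hGw, smul_smul, inv_mul_cancel₀ hu0, one_smul]
      have hT : AnalyticAt ℂ (fun v : EN N => τ (lam⁻¹ • v)) (G w) := by
        have h2 : AnalyticAt ℂ τ (lam⁻¹ • G w) := by rw [hlamG]; exact hσ.chart.τ_an
        have h3 : AnalyticAt ℂ (fun v : EN N => lam⁻¹ • v) (G w) := by fun_prop
        exact h2.comp h3
      have hτσ : τ (σ 0) = 0 := hσ.chart.left.self_of_nhds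
      have hT0 : τ (lam⁻¹ • G w) = 0 := by rw [hlamG, hτσ]
      -- near `G w` on `X`
      have hnear : ∀ᶠ v in 𝓝 (G w), v ∈ X → ∃ c : ℂ, c ≠ 0 ∧ lam⁻¹ • v = c • σ (τ (lam⁻¹ • v)) := by
        have h2 : Tendsto (fun v : EN N => lam⁻¹ • v) (𝓝 (G w)) (𝓝 (σ 0)) := by
          have := (continuous_const_smul lam⁻¹).tendsto (G w)
          rwa [hlamG] at this
        filter_upwards [h2.eventually hσ.chart.right] with v h3 h4
        exact h3 (hXs.smul v h4 _ (inv_ne_zero hu0))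
      have hnearQ : ∀ᶠ v in 𝓝 (G w), v ∈ X → (τ (lam⁻¹ • v)).1 * (τ (lam⁻¹ • v)).2 = 0 → Q i v = 0 := by
        obtain ⟨rr, -, -, hrr⟩ := hσ.unit
        have h2 : Tendsto (fun v : EN N => τ (lam⁻¹ • v)) (𝓝 (G w)) (𝓝 0) := by
          have := hT.continuousAt.tendsto
          rwa [hT0] at this
        filter_upwards [hnear, h2.eventually hrr] with v h3 h4 h5 h6
        obtain ⟨c, hc0, hcv⟩ := h3 h5
        have h7 : Q i (lam⁻¹ • v) = 0 := by
          rw [hcv, hc.smul, h4, pow_one, h6]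
          ring
        rw [hc.smul] at h7
        exact (mul_eq_zero.1 h7).resolve_left (pow_ne_zero _ (inv_ne_zero hu0))
      -- coordinates along the limits
      have hTG : ∀ᶠ z in 𝓝 w, τ (lam⁻¹ • G z) = (x z, y z) := by
        have h2 : Tendsto (fun z => (σ (x z, y z), lam⁻¹ * u z)) (𝓝 w) (𝓝 (σ 0, (1 : ℂ))) := by
          refine Tendsto.prodMk_nhds ?_ ?_
          · exact hσ.chart.σ_an.continuousAt.tendsto.comp hxy
          · have h3 := (hu1.continuousAt.tendsto).const_mul lam⁻¹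
            rwa [inv_mul_cancel₀ hu0] at h3
        filter_upwards [hG, h2.eventually hσ.chart.inv, hxy.eventually hσ.chart.left] with z h3 h4 h5
        rw [h3, smul_smul]
        exact h4.trans h5
      have hnx : ∀ f : ℂ → ℂ, deriv f w ≠ 0 → ¬ ∀ᶠ z in 𝓝 w, f z = 0 := by
        intro f hf hcon
        have h2 : f =ᶠ[𝓝 w] fun _ => 0 := hcon
        rw [h2.deriv_eq] at hf
        simp at hf
      have hnP : ¬ ∀ᶠ t in 𝓝 (0 : ℂ), τ (lam⁻¹ • PR t) = 0 := by
        intro hcon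
        refine (nonconst hXs hK hd).2 ?_
        have h2 : Tendsto PR (𝓝 0) (𝓝 (G w)) := by
          have := hr1.continuousAt.tendsto
          rw [← hPR0]
          exact this
        have h3 : ∀ᶠ t in 𝓝 (0 : ℂ), p.reverse.eval t ≠ 0 := by
          refine p.reverse.continuous.continuousAt.eventually_ne ?_
          rw [hr2]
          exact one_ne_zero
        filter_upwards [hcon, h2.eventually hnear, h3] with t h4 h5 h6
        have h7 : PR t ∈ X := hXs.smul _ (hK.mem' t) _ h6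
        obtain ⟨c, hc0, hcv⟩ := h5 h7
        rw [h4, ← hlamG, smul_comm c] at hcv
        have h8 : PR t = c • G w := smul_right_injective _ (inv_ne_zero hu0) hcv
        refine ⟨(p.reverse.eval t)⁻¹ * c, mul_ne_zero (inv_ne_zero h6) hc0, ?_⟩
        rw [hK0, mul_smul, ← h8]
        simp only [hPR]
        rw [smul_smul, inv_mul_cancel₀ h6, one_smul]
      -- one of the coordinates
      have hcoord : ∃ π : ℂ × ℂ → ℂ, (∀ q, AnalyticAt ℂ π q) ∧ π 0 = 0 ∧ (∀ q : ℂ × ℂ, π q = 0 → q.1 * q.2 = 0) ∧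
          (¬ ∀ᶠ z in 𝓝 w, π (τ (lam⁻¹ • G z)) = 0) ∧ ¬ ∀ᶠ t in 𝓝 (0 : ℂ), π (τ (lam⁻¹ • PR t)) = 0 := by
        by_cases h2 : ∀ᶠ t in 𝓝 (0 : ℂ), (τ (lam⁻¹ • PR t)).1 = 0
        · refine ⟨Prod.snd, fun q => analyticAt_snd, rfl, fun q hq => by rw [hq, mul_zero], ?_, ?_⟩
          · intro h3
            refine hnx y hy1 ?_
            filter_upwards [h3, hTG] with z h4 h5
            rw [h5] at h4
            exact h4
          · intro h3
            refine hnP ?_
            filter_upwards [h2, h3] with t h4 h5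
            exact Prod.ext h4 h5
        · refine ⟨Prod.fst, fun q => analyticAt_fst, rfl, fun q hq => by rw [hq, zero_mul], ?_, h2⟩
          intro h3
          refine hnx x hx1 ?_
          filter_upwards [h3, hTG] with z h4 h5
          rw [h5] at h4
          exact h4
      obtain ⟨π, hπa, hπ0, hπ1, hπG, hπP⟩ := hcoord
      have hπT : AnalyticAt ℂ (fun v : EN N => π (τ (lam⁻¹ • v))) (G w) := (hπa _).comp hT
      obtain ⟨ε, hε, hεQ⟩ := Metric.eventually_nhds_iff_ball.1 hnearQ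
      obtain ⟨R₀, s₀, hR₀, hs₀, hneck⟩ := neck h hb hρ hρ0 hpm hpd hK hK0 hcc (half_pos hε)
      intro R s hs
      have hbr : ∀ᶠ n in (𝒰 : Filter ℕ), dist (b n) w < r / 2 := hb.eventually (ball_mem_nhds w (by linarith [h.pos]))
      have hz2 := zero_in_neck h.pos h.hol h.cc h.holG hb hρ hρ0 hcc hr1 hPR0 hPRt hπT (by
        show π (τ (lam⁻¹ • G w)) = 0
        rw [hT0]
        exact hπ0) hπG hπP (max R R₀) (min (min s s₀) (r / 2)) (lt_min (lt_min hs hs₀) (by linarith [h.pos]))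
      filter_upwards [hz2, hneck, hρ, hX, hbr] with n h2 h3 h4 h5 h6
      obtain ⟨z, hz1, hz2, hz3⟩ := h2
      refine ⟨z, (mul_le_mul_of_nonneg_right (le_max_left _ _) h4.le).trans_lt hz1,
        hz2.trans_le ((min_le_left _ _).trans (min_le_left _ _)), ?_⟩
      have h7 : R₀ * ρ n ≤ ‖z - b n‖ := by
        rw [← dist_eq_norm]
        exact (mul_le_mul_of_nonneg_right (le_max_right _ _) h4.le).trans hz1.le
      have h8 : ‖z - b n‖ ≤ s₀ := by
        rw [← dist_eq_norm]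
        exact hz2.le.trans ((min_le_left _ _).trans (min_le_right _ _))
      have h9 := h3 z h7 h8
      have h10 : ((z - b n) ^ (M + 1))⁻¹ • Φ n z ∈ ball (G w) ε := by
        rw [mem_ball, dist_eq_norm]
        linarith
      have h11 : z ∈ ball w r := by
        rw [mem_ball]
        have := hz2.trans_le (min_le_right _ _)
        linarith [dist_triangle z (b n) w]
      have h12 : z - b n ≠ 0 := by
        intro h0
        rw [h0, norm_zero] at h7
        nlinarith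
      have h13 : ((z - b n) ^ (M + 1))⁻¹ • Φ n z ∈ X := hXs.smul _ (h5 z h11) _ (inv_ne_zero (pow_ne_zero _ h12))
      have h14 := hεQ _ h10 h13 (hπ1 _ hz3)
      rw [hc.smul] at h14
      exact (mul_eq_zero.1 h14).resolve_left (pow_ne_zero _ (inv_ne_zero (pow_ne_zero _ h12)))
    have h2 := lo_succ h.pos hFd hb hρ hρ0 ht hδ hLo hneck
    exact hnot (h2.le (by omega))

end Pool.Agent.UC
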