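import Pool.Agent.UC.ZgB
import Pool.Agent.H36.BP.Defs

/-!
# UC RootS: a limit curve which crosses `D` transversally at a smooth point
-/

set_option autoImplicit false

open Topology Filter Metric

noncomputable section

namespace Pool.Agent.UC

open Pool.Agent.H17BP (Surface IsForm IsChart Tan Pr)
open Pool.Agent.H74.NB (CC Obj)
open Pool.Agent.H36.BP (EN)

/-- a function with a simple zero: the difference quotient is not zero -/
private theorem rootS_dslope {q : ℂ → ℂ} {w : ℂ} {r : ℝ} (hr : 0 < r) (hq : DifferentiableOn ℂ q (ball w r))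
    (ho : analyticOrderAt q w = 1) : dslope q w w ≠ 0 := by
  have hqa : AnalyticAt ℂ q w := hq.analyticAt (ball_mem_nhds w hr)
  have ho' : analyticOrderAt q w = ((1 : ℕ) : ℕ∞) := by simpa using ho
  obtain ⟨g, hga, hg0, hge⟩ := (hqa.analyticOrderAt_eq_natCast).1 ho'
  rw [dslope_same]
  have h1 : HasDerivAt (fun z => (z - w) * g z) (g w) w := by
    have h2 : HasDerivAt (fun z : ℂ => z - w) 1 w := (hasDerivAt_id w).sub_const w
    have h4 := h2.fun_mul hga.differentiableAt.hasDerivAt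
    rw [sub_self, zero_mul, add_zero, one_mul] at h4
    exact h4
  have h3 : HasDerivAt q (g w) w := by
    refine h1.congr_of_eventuallyEq ?_
    filter_upwards [hge] with z hz
    rw [hz, pow_one, smul_eq_mul]
  rw [h3.deriv]
  exact hg0

variable {N : ℕ} {X : Set (EN N)} {κ : Type} {Q : κ → EN N → ℂ} {e m j : ℕ}

/-- MODULE RootS: a limit curve `G` which crosses `D` transversally at a smooth point. -/
theorem rootS (hc : Crv X Q e) (hm : 1 ≤ m) {𝒰 : Ultrafilter ℕ} {M : ℕ} (hM : 1 ≤ M) (hu : UCat X Q e m j 𝒰 M) {Φ : ℕ → ℂ → EN N} {w : ℂ}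
    {G : ℂ → EN N} {r : ℝ} (h : Obj 𝒰 Φ w M G r) (hX : ∀ᶠ n in (𝒰 : Filter ℕ), ∀ z ∈ ball w r, Φ n z ∈ X) {i : κ} {σ : ℂ × ℂ → EN N}
    {τ : EN N → ℂ × ℂ} (hσ : Mon X Q i 0 σ τ) (hp : Pr (σ 0) (G w)) (ho : analyticOrderAt (fun z => Q i (G z)) w = 1) : False := by
  obtain ⟨hD, hL⟩ := hu Φ w G r h hX
  obtain ⟨k, hk, hLo⟩ := hL i 0 σ τ hσ hp
  have hk2 : e * M + 1 + 1 ≤ k := by
    have h1 : m * (e * M + 2) ≤ m * k := le_trans (Nat.le_add_right _ _) hk
    have h2 := Nat.le_of_mul_le_mul_left h1 (by omega)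
    omega
  have hQd : Differentiable ℂ (Q i) := fun x => (hc.an i x).differentiableAt
  have hqd : DifferentiableOn ℂ (fun z => Q i (G z)) (ball w r) := hQd.comp_differentiableOn h.holG
  have hvd : DifferentiableOn ℂ (dslope (fun z => Q i (G z)) w) (ball w r) :=
    (Complex.differentiableOn_dslope (ball_mem_nhds w h.pos)).2 hqd
  have hv0 : dslope (fun z => Q i (G z)) w w ≠ 0 := rootS_dslope h.pos hqd ho
  have hFd : ∀ᶠ n in (𝒰 : Filter ℕ), DifferentiableOn ℂ (fun z => Q i (Φ n z)) (ball w r) := by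
    filter_upwards [h.hol] with n hn
    exact hQd.comp_differentiableOn hn
  have hcc : CC 𝒰 (fun n z => Q i (Φ n z)) (fun z => (z - w) ^ (e * M + 1) * dslope (fun z => Q i (G z)) w z) (ball w r) := by
    intro z₀ hz₀ z hz
    have h1 := h.cc z₀ hz₀ z hz
    have h2 := (hQd.continuous.tendsto _).comp h1
    have h3 : Q i ((z₀ - w) ^ M • G z₀) = (z₀ - w) ^ (e * M + 1) * dslope (fun z => Q i (G z)) w z₀ := by
      have h4 : (z₀ - w) • dslope (fun z => Q i (G z)) w z₀ = Q i (G z₀) - Q i (G w) := sub_smul_dslope (fun z => Q i (G z)) w z₀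
      rw [hD i, sub_zero, smul_eq_mul] at h4
      rw [hc.smul, ← h4, ← pow_mul, mul_comm M e, pow_succ, mul_assoc]
    have h5 : (fun z => (z - w) ^ (e * M + 1) * dslope (fun z => Q i (G z)) w z) z₀ = Q i ((z₀ - w) ^ M • G z₀) := h3.symm
    rw [h5]
    exact h2
  exact not_lo h.pos hFd hvd hv0 hcc (Lo.le hLo hk2)

end Pool.Agent.UC
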