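import Pool.Agent.UC.Step
import Pool.Agent.UC.RootS
import Pool.Agent.UC.RootN
import Pool.Agent.UC.FinA
import Pool.Agent.UC.FinS
import Pool.Agent.UC.FinN
import Pool.Agent.UC.KrhM

/-!
# UC Fin: no bubbles
-/

set_option autoImplicit false

open Topology Filter Metric

noncomputable section

namespace Pool.Agent.UC

open Pool.Agent.H17BP (Surface IsForm IsChart Tan Pr)
open Pool.Agent.H74.NB (CC Obj)
open Pool.Agent.H36.BP (EN)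
open Pool.Agent.H22.W (PseudoLength)
open Pool.Agent.SY (Cls BubbleAt NoBubbles)

variable {N : ℕ} {X : Set (EN N)} {κ : Type} {Q : κ → EN N → ℂ} {e m j : ℕ}

/-- No bubbles, for a pseudo-length which vanishes on the tangent vectors of `D`. -/
theorem noBubbles (hc : Crv X Q e) (hm : 1 ≤ m) (hj : 1 ≤ j) (hr : RatIn X Q) {ℓ : Type} {Ω : ℓ → EN N → EN N → EN N → ℂ}
    (hΩ : ∀ l, IsForm X m j (Ω l)) (hnz : ∀ x ∈ X, (∀ k, Q k x = 0) → ∃ l, ∃ v ∈ Tan X x, ∃ w ∈ Tan X x, Ω l x v w ≠ 0) (T : Set (EN N))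
    (n : PseudoLength X) (hn : ∀ γ : ℂ → EN N, AnalyticAt ℂ γ 0 → (∀ᶠ z in 𝓝 (0 : ℂ), γ z ∈ X ∧ ∀ k, Q k (γ z) = 0) →
      n.toFun (γ 0) (deriv γ 0) = 0) : NoBubbles X T n := by
  intro 𝒰 F v H u r M hb
  by_contra hM
  have hM1 : 1 ≤ M := Nat.one_le_iff_ne_zero.2 hM
  obtain ⟨hO, hX⟩ := obj_of_bubble hc.surf hb
  have hkrh : Krh X Q e m j := krh hc hm hΩ hnz
  have huc : ∀ μ, 1 ≤ μ → UCat X Q e m j 𝒰 μ := fun μ hμ => uc hc hm hkrh hr 𝒰 μ hμ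
  have h00 : (0 : ℂ) ∈ ball (0 : ℂ) r := mem_ball_self hb.r_pos
  have hu0 : u 0 ≠ 0 := hb.u_ne 0 h00
  have hua : AnalyticAt ℂ u 0 := hb.diff_u.analyticAt (isOpen_ball.mem_nhds h00)
  have hHa : AnalyticAt ℂ H 0 := hb.cls_H.1.diff.analyticAt 0
  have hHX : ∀ z, H z ∈ X := hb.cls_H.1.mem
  have hHD : ∀ k, Q k (H 0) = 0 := by
    intro k
    have h1 := (huc M hM1 _ 0 _ r hO hX).1 k
    simp only [hc.smul] at h1
    exact (mul_eq_zero.1 h1).resolve_left (pow_ne_zero _ hu0)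
  have hn1 : n.toFun (H 0) (deriv H 0) ≠ 0 := by rw [hb.cls_H.2 0]; exact one_ne_zero
  obtain ⟨i, b, σ, τ, hσ0, hσ⟩ := hc.loc (H 0) (hHX 0) hHD
  have hp : Pr (σ 0) (H 0) := ⟨1, one_ne_zero, by rw [hσ0, one_smul]⟩
  have hpG : Pr (σ 0) (u 0 • H 0) := ⟨(u 0)⁻¹, inv_ne_zero hu0, by rw [hσ0, smul_smul, inv_mul_cancel₀ hu0, one_smul]⟩
  have hble := hσ.le
  interval_cases b
  · exact rootS hc hm hM1 (huc M hM1) hO hX hσ hpG (order_one hc hn hHa (Eventually.of_forall hHX) hua hu0 hn1 hσ hp)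
  · obtain ⟨x, y, u', h1, h2, h3, h4, h5, h6, h7, h8, h9⟩ := coord_one hc hn hHa (Eventually.of_forall hHX) hua hu0 hn1 hσ hp
    exact rootN hc hm hj hkrh hr huc hM1 hO hX hσ h1 h2 h3 h4 h5 h6 h7 h8 h9

end Pool.Agent.UC
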