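import Pool.Agent.UC.G1

/-!
# UC G2: the local formula for `gf`
-/

set_option autoImplicit false

open Topology Filter Metric

noncomputable section

namespace Pool.Agent.UC

open Pool.Agent.H17BP (Surface IsForm IsChart Tan Pr)

variable {V : Type} [NormedAddCommGroup V] [NormedSpace ℂ V] [FiniteDimensional ℂ V] {X : Set V} {κ : Type} {Q : κ → V → ℂ} {e m j : ℕ}
  {Ω : V → V → V → ℂ}

/-- Euler -/
theorem euler {q : V → ℂ} {x : V} (hq : AnalyticAt ℂ q x) (hs : ∀ (c : ℂ) x, q (c • x) = c ^ e * q x) (h0 : q x = 0) : fderiv ℂ q x x = 0 := by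
  have h1 : HasDerivAt (fun t : ℂ => x + t • x) x 0 := by
    have := ((hasDerivAt_id (0 : ℂ)).smul_const x).const_add x
    simpa using this
  have h2 : HasFDerivAt q (fderiv ℂ q x) (x + (0 : ℂ) • x) := by
    rw [zero_smul, add_zero]
    exact hq.differentiableAt.hasFDerivAt
  have h3 : HasDerivAt (fun t : ℂ => q (x + t • x)) (fderiv ℂ q x x) 0 := h2.comp_hasDerivAt (0 : ℂ) h1
  have h4 : (fun t : ℂ => q (x + t • x)) = fun _ => (0 : ℂ) := by
    funext t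
    have : x + t • x = (1 + t) • x := by rw [add_smul, one_smul]
    rw [this, hs, h0, mul_zero]
  rw [h4] at h3
  exact h3.unique (hasDerivAt_const _ _)

theorem fderiv_smul {q : V → ℂ} (hq : ∀ x, AnalyticAt ℂ q x) (hs : ∀ (c : ℂ) x, q (c • x) = c ^ e * q x) (x v : V) {c : ℂ} (hc : c ≠ 0) :
    fderiv ℂ q (c • x) (c • v) = c ^ e * fderiv ℂ q x v := by
  have h1 : ∀ x v : V, HasDerivAt (fun t : ℂ => q (x + t • v)) (fderiv ℂ q x v) 0 := by
    intro x v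
    have h1 : HasDerivAt (fun t : ℂ => x + t • v) v 0 := by
      have := ((hasDerivAt_id (0 : ℂ)).smul_const v).const_add x
      simpa using this
    have h2 : HasFDerivAt q (fderiv ℂ q x) (x + (0 : ℂ) • v) := by
      rw [zero_smul, add_zero]
      exact (hq x).differentiableAt.hasFDerivAt
    exact h2.comp_hasDerivAt (0 : ℂ) h1
  have h2 : (fun t : ℂ => q (c • x + t • (c • v))) = fun t => c ^ e * q (x + t • v) := by
    funext t
    have : c • x + t • (c • v) = c • (x + t • v) := by rw [smul_add, smul_comm]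
    rw [this, hs]
  have h3 := h1 (c • x) (c • v)
  rw [h2] at h3
  exact h3.unique ((h1 x v).const_mul _)

private theorem G2_tan {K : ℂ → V} {z : ℂ} (hK : AnalyticAt ℂ K z) (hKX : ∀ᶠ z' in 𝓝 z, K z' ∈ X) : deriv K z ∈ Tan X (K z) := by
  have h1 : AnalyticAt ℂ (fun t : ℂ => z + t) 0 := by fun_prop
  have h2 : Tendsto (fun t : ℂ => z + t) (𝓝 0) (𝓝 z) := by
    have := h1.continuousAt.tendsto
    rwa [add_zero] at this
  refine ⟨fun t => K (z + t), AnalyticAt.comp (g := K) (f := fun t : ℂ => z + t) (by rw [add_zero]; exact hK) h1, h2.eventually hKX, by simp, ?_⟩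
  have := deriv_comp_const_add K z (0 : ℂ)
  rw [add_zero] at this
  exact this

/-- any admissible `v` computes `gf` -/
theorem gf_eq (hX : Surface X) (hΩ : IsForm X m j Ω) {q : V → ℂ} (hq : ∀ x, AnalyticAt ℂ q x) (hs : ∀ (c : ℂ) x, q (c • x) = c ^ e * q x)
    {K : ℂ → V} {z : ℂ} (hK : AnalyticAt ℂ K z) (hKX : ∀ᶠ z' in 𝓝 z, K z' ∈ X) (hKq : ∀ᶠ z' in 𝓝 z, q (K z') = 0) {v : V}
    (hv : v ∈ Tan X (K z)) (hv0 : fderiv ℂ q (K z) v ≠ 0) : gf X q m Ω K z = Ω (K z) v (deriv K z) / fderiv ℂ q (K z) v ^ m := by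
  have h : ∃ v ∈ Tan X (K z), fderiv ℂ q (K z) v ≠ 0 := ⟨v, hv, hv0⟩
  unfold gf
  rw [dif_pos h]
  obtain ⟨h1, h2⟩ := h.choose_spec
  have hE : fderiv ℂ q (K z) (K z) = 0 := euler (hq _) hs hKq.self_of_nhds
  have hw : fderiv ℂ q (K z) (deriv K z) = 0 := by
    have h3 : HasDerivAt (fun t => q (K t)) (fderiv ℂ q (K z) (deriv K z)) z :=
      ((hq (K z)).differentiableAt.hasFDerivAt).comp_hasDerivAt z hK.differentiableAt.hasDerivAt
    have h4 : (fun t => q (K t)) =ᶠ[𝓝 z] fun _ => (0 : ℂ) := hKq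
    exact (h3.congr_of_eventuallyEq h4.symm).unique (hasDerivAt_const _ _)
  rw [div_eq_div_iff (pow_ne_zero _ h2) (pow_ne_zero _ hv0)]
  exact omega_quot hX hΩ hKX.self_of_nhds hE h1 hv (G2_tan hK hKX) hw

/-- The local formula: take `v = h z • σ_x (0, y z)` in `gf_eq`; `K' = (h' / h) K + y' • (h • σ_y)`, `dq v = h ^ e y ^ b r (0, y)`. -/
theorem gf_local (hX : Surface X) (hΩ : IsForm X m j Ω) {q : V → ℂ} (hq : ∀ x, AnalyticAt ℂ q x) (hs : ∀ (c : ℂ) x, q (c • x) = c ^ e * q x)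
    {K : ℂ → V} {c : ℂ} (hK : AnalyticAt ℂ K c) (hKX : ∀ᶠ z in 𝓝 c, K z ∈ X) (hKq : ∀ᶠ z in 𝓝 c, q (K z) = 0) {σ : ℂ × ℂ → V} {τ : V → ℂ × ℂ}
    (hσ : IsChart X σ τ) {h y : ℂ → ℂ} {r : ℂ × ℂ → ℂ} {b : ℕ} (hh : AnalyticAt ℂ h c) (hh0 : h c ≠ 0) (hy : AnalyticAt ℂ y c) (hy0 : y c = 0)
    (hKe : ∀ᶠ z in 𝓝 c, K z = h z • σ (0, y z)) (hr : AnalyticAt ℂ r 0) (hqr : ∀ᶠ p in 𝓝 (0 : ℂ × ℂ), q (σ p) = p.1 * p.2 ^ b * r p) :
    ∀ᶠ z in 𝓝 c, y z ^ b * r (0, y z) ≠ 0 → h z ^ (j + e * m) * (y z ^ b * r (0, y z)) ^ m * gf X q m Ω K z =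
      deriv y z ^ m * Ω (σ (0, y z)) (fderiv ℂ σ (0, y z) (1, 0)) (fderiv ℂ σ (0, y z) (0, 1)) := by
  have hp : Tendsto (fun z => ((0 : ℂ), y z)) (𝓝 c) (𝓝 (0 : ℂ × ℂ)) := by
    have h1 : ContinuousAt (fun z => ((0 : ℂ), y z)) c := continuousAt_const.prodMk hy.continuousAt
    have h2 : ((0 : ℂ), y c) = (0 : ℂ × ℂ) := by rw [hy0]; rfl
    have := h1.tendsto
    rwa [h2] at this
  filter_upwards [hp.eventually (omega_comb hX hΩ hσ), hp.eventually (tan_comb hX hσ), hp.eventually hσ.σ_an.eventually_analyticAt,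
    hp.eventually hr.eventually_analyticAt, hp.eventually (eventually_eventually_nhds.2 hqr), hh.continuousAt.eventually_ne hh0,
    hh.eventually_analyticAt, hy.eventually_analyticAt, eventually_eventually_nhds.2 hKe, hK.eventually_analyticAt,
    eventually_eventually_nhds.2 hKX, eventually_eventually_nhds.2 hKq] with z g1 g2 g3 g4 g5 g6 g7 g8 g9 g10 g11 g12 hne
  set p : ℂ × ℂ := ((0 : ℂ), y z) with hpdef
  -- the derivative of `K`
  have hKz : K z = h z • σ p := g9.self_of_nhds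
  have hy' : HasDerivAt (fun t => ((0 : ℂ), y t)) ((0 : ℂ), deriv y z) z :=
    (hasDerivAt_const z (0 : ℂ)).prodMk g8.differentiableAt.hasDerivAt
  have hσ' : HasDerivAt (fun t => σ ((0 : ℂ), y t)) (fderiv ℂ σ p ((0 : ℂ), deriv y z)) z :=
    HasFDerivAt.comp_hasDerivAt (f := fun t => ((0 : ℂ), y t)) z g3.differentiableAt.hasFDerivAt hy'
  have hσ2 : fderiv ℂ σ p ((0 : ℂ), deriv y z) = deriv y z • fderiv ℂ σ p (0, 1) := by
    rw [← map_smul]
    congr 1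
    ext <;> simp
  have hK' : deriv K z = (deriv h z / h z) • (h z • σ p) + h z • ((0 : ℂ) • fderiv ℂ σ p (1, 0) + deriv y z • fderiv ℂ σ p (0, 1)) := by
    have h1 := (g7.differentiableAt.hasDerivAt.smul hσ').congr_of_eventuallyEq
      (show K =ᶠ[𝓝 z] (h • fun t => σ ((0 : ℂ), y t)) from g9)
    rw [h1.deriv, hσ2, smul_smul (deriv h z / h z), div_mul_cancel₀ _ g6, zero_smul, zero_add, add_comm]
  -- the derivative of `q`
  have hq1 : fderiv ℂ q (σ p) (fderiv ℂ σ p (1, 0)) = y z ^ b * r p := by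
    have h1 : HasDerivAt (fun t : ℂ => (t, y z)) ((1 : ℂ), (0 : ℂ)) 0 :=
      (hasDerivAt_id (0 : ℂ)).prodMk (hasDerivAt_const (0 : ℂ) (y z))
    have h2 : HasDerivAt (fun t : ℂ => σ (t, y z)) (fderiv ℂ σ p (1, 0)) 0 :=
      HasFDerivAt.comp_hasDerivAt (f := fun t : ℂ => (t, y z)) (0 : ℂ) g3.differentiableAt.hasFDerivAt h1
    have h3 : HasDerivAt (fun t : ℂ => q (σ (t, y z))) (fderiv ℂ q (σ p) (fderiv ℂ σ p (1, 0))) 0 :=
      HasFDerivAt.comp_hasDerivAt (f := fun t : ℂ => σ (t, y z)) (0 : ℂ) (hq (σ p)).differentiableAt.hasFDerivAt h2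
    have h4 : HasDerivAt (fun t : ℂ => r (t, y z)) (fderiv ℂ r p (1, 0)) 0 :=
      HasFDerivAt.comp_hasDerivAt (f := fun t : ℂ => (t, y z)) (0 : ℂ) g4.differentiableAt.hasFDerivAt h1
    have h5 : HasDerivAt (fun t : ℂ => t * y z ^ b * r (t, y z)) (y z ^ b * r p) 0 := by
      have h6 := ((hasDerivAt_id (0 : ℂ)).mul_const (y z ^ b)).mul h4
      simp only [id, zero_mul, add_zero, one_mul] at h6
      exact h6
    have h7 : Tendsto (fun t : ℂ => (t, y z)) (𝓝 0) (𝓝 p) := h1.continuousAt.tendsto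
    have h8 : (fun t : ℂ => t * y z ^ b * r (t, y z)) =ᶠ[𝓝 0] fun t : ℂ => q (σ (t, y z)) := by
      filter_upwards [h7.eventually g5] with t ht
      exact ht.symm
    exact (h3.congr_of_eventuallyEq h8).unique h5
  -- the tangent vector
  set v : V := (0 : ℂ) • (h z • σ p) + h z • ((1 : ℂ) • fderiv ℂ σ p (1, 0) + (0 : ℂ) • fderiv ℂ σ p (0, 1)) with hv
  have hve : v = h z • fderiv ℂ σ p (1, 0) := by
    rw [hv, zero_smul, zero_add, one_smul, zero_smul, add_zero]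
  have hvT : v ∈ Tan X (K z) := by
    rw [hKz]
    exact g2 _ g6 _ _ _
  have hqv : fderiv ℂ q (K z) v = h z ^ e * (y z ^ b * r p) := by
    rw [hve, hKz, fderiv_smul hq hs _ _ g6, hq1]
  have hqv0 : fderiv ℂ q (K z) v ≠ 0 := by
    rw [hqv]
    exact mul_ne_zero (pow_ne_zero _ g6) hne
  rw [gf_eq hX hΩ hq hs g10 g11 g12 hvT hqv0]
  have h9 := g1 (h z) g6 0 1 0 (deriv h z / h z) 0 (deriv y z)
  rw [← hv, ← hK', one_mul, zero_mul, sub_zero, ← hKz] at h9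
  rw [← h9, hqv]
  have hA : (h z ^ e * (y z ^ b * r p)) ^ m ≠ 0 := pow_ne_zero _ (mul_ne_zero (pow_ne_zero _ g6) hne)
  have hB : h z ^ (j + e * m) * (y z ^ b * r p) ^ m = h z ^ j * (h z ^ e * (y z ^ b * r p)) ^ m := by
    rw [mul_pow (h z ^ e), ← pow_mul, pow_add, mul_assoc]
  rw [hB, mul_assoc, mul_div_cancel₀ _ hA]

end Pool.Agent.UC
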