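import Pool.Agent.UC.Defs

/-!
# UC GDefs: the function `Ω(v, K') / (dq v) ^ m` along a curve in `{q = 0}`
-/

set_option autoImplicit false

open Topology Filter

namespace Pool.Agent.UC

open Pool.Agent.H17BP (Tan)

variable {V : Type} [NormedAddCommGroup V] [NormedSpace ℂ V]

open Classical in
/-- `Ω(v, K') / (dq v) ^ m` at the point `K z`, for a tangent vector `v` with `dq v ≠ 0` (and `0` if there is none). -/
noncomputable def gf (X : Set V) (q : V → ℂ) (m : ℕ) (Ω : V → V → V → ℂ) (K : ℂ → V) (z : ℂ) : ℂ :=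
  if h : ∃ v ∈ Tan X (K z), fderiv ℂ q (K z) v ≠ 0 then Ω (K z) h.choose (deriv K z) / fderiv ℂ q (K z) h.choose ^ m else 0

end Pool.Agent.UC
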