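import Pool.Agent.UC.G1
import Pool.Agent.UC.GDefs

/-!
# UC G3: the function `gf` at infinity
-/

set_option autoImplicit false

open Topology Filter Metric

noncomputable section

namespace Pool.Agent.UC

open Pool.Agent.H17BP (Surface IsForm IsChart Tan Pr)

variable {V : Type} [NormedAddCommGroup V] [NormedSpace ℂ V] {X : Set V} {e m j : ℕ} {Ω : V → V → V → ℂ}

/-- scaling of tangent vectors -/
theorem tan_scale (hX : Surface X) {x v : V} (hv : v ∈ Tan X x) {c : ℂ} (hc : c ≠ 0) : c • v ∈ Tan X (c • x) := by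
  obtain ⟨γ, h1, h2, h3, h4⟩ := hv
  refine ⟨fun t => c • γ t, h1.const_smul, h2.mono fun t ht => hX.smul _ ht c hc, congrArg (fun y => c • y) h3, ?_⟩
  rw [deriv_fun_const_smul c h1.differentiableAt, h4]

/-- reparametrisation, and the vector of the ray -/
theorem tan_add (hX : Surface X) {x v : V} (hv : v ∈ Tan X x) (a b : ℂ) : a • v + b • x ∈ Tan X x := by
  obtain ⟨γ, h1, h2, h3, h4⟩ := hv
  have hl : HasDerivAt (fun t : ℂ => a * t) a 0 := by
    simpa using (hasDerivAt_id (0 : ℂ)).const_mul a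
  have hl' : HasDerivAt (fun t : ℂ => 1 + b * t) b 0 := by
    simpa using ((hasDerivAt_id (0 : ℂ)).const_mul b).const_add 1
  have hγ : HasDerivAt γ v (a * 0) := by
    rw [mul_zero, ← h4]
    exact h1.differentiableAt.hasDerivAt
  have hcomp : HasDerivAt (fun t : ℂ => γ (a * t)) (a • v) 0 := hγ.scomp 0 hl
  have hmul : HasDerivAt (fun t : ℂ => (1 + b * t) • γ (a * t)) ((1 + b * 0) • (a • v) + b • γ (a * 0)) 0 := hl'.smul hcomp
  have hla : AnalyticAt ℂ (fun t : ℂ => a * t) 0 := analyticAt_const.mul analyticAt_id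
  have hlb : AnalyticAt ℂ (fun t : ℂ => 1 + b * t) 0 := analyticAt_const.add (analyticAt_const.mul analyticAt_id)
  refine ⟨fun t => (1 + b * t) • γ (a * t), hlb.smul (AnalyticAt.comp_of_eq h1 hla (mul_zero a)), ?_, ?_, ?_⟩
  · have hc1 : Tendsto (fun t : ℂ => a * t) (𝓝 0) (𝓝 0) := by
      have := hla.continuousAt.tendsto
      rwa [mul_zero] at this
    have hc2 : ∀ᶠ t in 𝓝 (0 : ℂ), 1 + b * t ≠ 0 := by
      refine hlb.continuousAt.eventually_ne ?_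
      rw [mul_zero, add_zero]
      exact one_ne_zero
    filter_upwards [hc1.eventually h2, hc2] with t ht ht'
    exact hX.smul _ ht _ ht'
  · change (1 + b * 0) • γ (a * 0) = x
    rw [mul_zero, mul_zero, add_zero, one_smul, h3]
  · rw [hmul.deriv, mul_zero, mul_zero, add_zero, one_smul, h3]

/-- the derivative of a curve in `X` is tangent -/
theorem tan_deriv {K : ℂ → V} {z : ℂ} (hK : AnalyticAt ℂ K z) (hKX : ∀ᶠ w in 𝓝 z, K w ∈ X) : deriv K z ∈ Tan X (K z) := by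
  have hla : AnalyticAt ℂ (fun t : ℂ => z + t) 0 := analyticAt_const.add analyticAt_id
  have hz : z + 0 = z := add_zero z
  refine ⟨fun t => K (z + t), AnalyticAt.comp_of_eq hK hla hz, ?_, congrArg K hz, ?_⟩
  · have h1 : Tendsto (fun t : ℂ => z + t) (𝓝 0) (𝓝 z) := by
      have := hla.continuousAt.tendsto
      rwa [hz] at this
    exact h1.eventually hKX
  · rw [deriv_comp_const_add, add_zero]

/-- the differential of a form at `c • x` -/
theorem fderiv_scale {q : V → ℂ} (hq : ∀ x, AnalyticAt ℂ q x) (hs : ∀ (c : ℂ) x, q (c • x) = c ^ e * q x) (x v : V) (c : ℂ) :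
    fderiv ℂ q (c • x) (c • v) = c ^ e * fderiv ℂ q x v := by
  have h1 : HasFDerivAt (fun y : V => c • y) (c • ContinuousLinearMap.id ℂ V) x := (hasFDerivAt_id x).const_smul c
  have h2 : HasFDerivAt (fun y : V => q (c • y)) ((fderiv ℂ q (c • x)).comp (c • ContinuousLinearMap.id ℂ V)) x :=
    HasFDerivAt.comp x (hq (c • x)).differentiableAt.hasFDerivAt h1
  have h3 : HasFDerivAt (fun y : V => c ^ e * q y) (c ^ e • fderiv ℂ q x) x := (hq x).differentiableAt.hasFDerivAt.const_mul (c ^ e)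
  have h4 : (fun y : V => q (c • y)) = fun y => c ^ e * q y := funext fun y => hs c y
  rw [h4] at h2
  have h5 := DFunLike.congr_fun (h2.unique h3) v
  exact h5

/-- any admissible vector computes `gf` (the statement of module G2) -/
def GfEq (X : Set V) (q : V → ℂ) (m : ℕ) (Ω : V → V → V → ℂ) : Prop :=
  ∀ (K : ℂ → V) (z : ℂ), AnalyticAt ℂ K z → (∀ᶠ z' in 𝓝 z, K z' ∈ X) → (∀ᶠ z' in 𝓝 z, q (K z') = 0) → ∀ v ∈ Tan X (K z),
    fderiv ℂ q (K z) v ≠ 0 → gf X q m Ω K z = Ω (K z) v (deriv K z) / fderiv ℂ q (K z) v ^ m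

theorem gf_inf_of [FiniteDimensional ℂ V] (hX : Surface X) (hΩ : IsForm X m j Ω) {q : V → ℂ} (hq : ∀ x, AnalyticAt ℂ q x) (hs : ∀ (c : ℂ) x, q (c • x) = c ^ e * q x)
    (hgf : GfEq X q m Ω) {d : ℕ} {K K' : ℂ → V} (h : RatC X d K K') (hKq : ∀ z, q (K z) = 0) {z : ℂ} (hz : z ≠ 0) :
    z ^ ((j + e * m) * d + 2 * m) * gf X q m Ω K z = (-1) ^ m * gf X q m Ω K' z⁻¹ := by
  haveI : CompleteSpace V := FiniteDimensional.complete ℂ V
  have hu : z⁻¹ ≠ 0 := inv_ne_zero hz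
  have hl : z ^ d ≠ 0 := pow_ne_zero d hz
  have hK : AnalyticAt ℂ K z := h.diff.analyticAt z
  have hK' : AnalyticAt ℂ K' z⁻¹ := h.diff'.analyticAt _
  have hKz : K z = z ^ d • K' z⁻¹ := h.rel z hz
  have hKX : ∀ᶠ w in 𝓝 z, K w ∈ X := Eventually.of_forall h.mem
  have hKX' : ∀ᶠ w in 𝓝 z⁻¹, K' w ∈ X := Eventually.of_forall h.mem'
  have hKq1 : ∀ᶠ w in 𝓝 z, q (K w) = 0 := Eventually.of_forall hKq
  have hKq' : ∀ᶠ w in 𝓝 z⁻¹, q (K' w) = 0 := by
    filter_upwards [isOpen_ne.mem_nhds hu] with w hw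
    have h1 := hKq w⁻¹
    rw [h.rel _ (inv_ne_zero hw), inv_inv, hs] at h1
    exact (mul_eq_zero.1 h1).resolve_left (pow_ne_zero _ (pow_ne_zero _ (inv_ne_zero hw)))
  -- the derivative of `K`
  have hder : deriv K z = z ^ d • ((-(z ^ 2)⁻¹) • deriv K' z⁻¹ + ((d : ℂ) / z) • K' z⁻¹) := by
    have h1 : K =ᶠ[𝓝 z] fun w => w ^ d • K' w⁻¹ := by
      filter_upwards [isOpen_ne.mem_nhds hz] with w hw
      exact h.rel w hw
    have h2 : HasDerivAt (fun w : ℂ => w⁻¹) (-(z ^ 2)⁻¹) z := hasDerivAt_inv hz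
    have h3 : HasDerivAt (fun w : ℂ => K' w⁻¹) ((-(z ^ 2)⁻¹) • deriv K' z⁻¹) z :=
      HasDerivAt.scomp z hK'.differentiableAt.hasDerivAt h2
    have h4 : HasDerivAt (fun w : ℂ => w ^ d) ((d : ℂ) * z ^ (d - 1)) z := hasDerivAt_pow d z
    have h5 : HasDerivAt (fun w : ℂ => w ^ d • K' w⁻¹) (z ^ d • ((-(z ^ 2)⁻¹) • deriv K' z⁻¹) + ((d : ℂ) * z ^ (d - 1)) • K' z⁻¹) z := h4.smul h3
    rw [h1.deriv_eq, h5.deriv, smul_add]
    congr 1
    rw [smul_smul]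
    congr 1
    rcases Nat.eq_zero_or_pos d with rfl | hd
    · simp
    · obtain ⟨d', rfl⟩ : ∃ d', d = d' + 1 := ⟨d - 1, by omega⟩
      rw [Nat.add_sub_cancel, pow_succ]
      field_simp
  by_cases hA : ∃ v ∈ Tan X (K' z⁻¹), fderiv ℂ q (K' z⁻¹) v ≠ 0
  · obtain ⟨v, hv, hv0⟩ := hA
    have hvK : z ^ d • v ∈ Tan X (K z) := by
      rw [hKz]
      exact tan_scale hX hv hl
    have hdq : fderiv ℂ q (K z) (z ^ d • v) = (z ^ d) ^ e * fderiv ℂ q (K' z⁻¹) v := by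
      rw [hKz]
      exact fderiv_scale hq hs _ _ _
    have hdq0 : fderiv ℂ q (K z) (z ^ d • v) ≠ 0 := by
      rw [hdq]
      exact mul_ne_zero (pow_ne_zero _ hl) hv0
    rw [hgf K z hK hKX hKq1 _ hvK hdq0, hgf K' z⁻¹ hK' hKX' hKq' _ hv hv0, hdq, hder]
    have hw : deriv K' z⁻¹ ∈ Tan X (K' z⁻¹) := tan_deriv hK' hKX'
    have hw1 : (-(z ^ 2)⁻¹) • deriv K' z⁻¹ + ((d : ℂ) / z) • K' z⁻¹ ∈ Tan X (K' z⁻¹) := tan_add hX hw _ _
    have hw2 : (-(z ^ 2)⁻¹) • deriv K' z⁻¹ ∈ Tan X (K' z⁻¹) := by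
      have h1 := tan_add hX hw (-(z ^ 2)⁻¹) 0
      rwa [zero_smul, add_zero] at h1
    have h1 := hΩ.scale _ (h.mem' z⁻¹) _ hv _ hw1 (z ^ d) hl
    have h2 := hΩ.add_smul _ (h.mem' z⁻¹) _ hv _ hw2 0 ((d : ℂ) / z)
    rw [zero_smul, add_zero] at h2
    have h3 := hΩ.det _ (h.mem' z⁻¹) _ hv _ hw 1 0 0 (-(z ^ 2)⁻¹)
    rw [one_smul, zero_smul, zero_smul, add_zero, zero_add, one_mul, mul_zero, sub_zero] at h3
    rw [h2, h3, ← hKz] at h1
    have h4 : z ^ ((j + e * m) * d + 2 * m) = (z ^ d) ^ j * ((z ^ d) ^ e) ^ m * (z ^ 2) ^ m := by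
      rw [← pow_mul, ← pow_mul, ← pow_mul, ← pow_mul, ← pow_add, ← pow_add]
      congr 1
      ring
    have h5 : ((z ^ d) ^ e) ^ m ≠ 0 := pow_ne_zero _ (pow_ne_zero _ hl)
    have h6 : fderiv ℂ q (K' z⁻¹) v ^ m ≠ 0 := pow_ne_zero _ hv0
    have h7 : (z ^ 2) ^ m * (-(z ^ 2)⁻¹) ^ m = (-1) ^ m := by
      rw [← mul_pow]
      congr 1
      have : z ^ 2 ≠ 0 := pow_ne_zero 2 hz
      field_simp
    rw [h4, mul_pow, ← h7]
    have h8 : ∀ A B C D E F : ℂ, A * B * C * (D / (B * E)) = C * (A * D) * (B / (B * E)) := by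
      intro A B C D E F
      ring
    rw [h8 _ _ _ _ _ 0, h1]
    field_simp
  · have hA' : ¬ ∃ v ∈ Tan X (K z), fderiv ℂ q (K z) v ≠ 0 := by
      rintro ⟨v, hv, hv0⟩
      apply hA
      refine ⟨(z ^ d)⁻¹ • v, ?_, ?_⟩
      · have h1 := tan_scale hX hv (inv_ne_zero hl)
        rwa [hKz, smul_smul, inv_mul_cancel₀ hl, one_smul] at h1
      · have h1 := fderiv_scale hq hs (K' z⁻¹) ((z ^ d)⁻¹ • v) (z ^ d)
        rw [smul_smul, mul_inv_cancel₀ hl, one_smul, ← hKz] at h1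
        rw [h1] at hv0
        exact right_ne_zero_of_mul hv0
    unfold gf
    rw [dif_neg hA', dif_neg hA, mul_zero, mul_zero]

/-- Euler -/
theorem euler_form {q : V → ℂ} {x : V} (hq : AnalyticAt ℂ q x) (hs : ∀ (c : ℂ) x, q (c • x) = c ^ e * q x) (h0 : q x = 0) :
    fderiv ℂ q x x = 0 := by
  have h1 : HasDerivAt (fun t : ℂ => t • x) x 1 := by
    simpa using (hasDerivAt_id (1 : ℂ)).smul_const x
  have hq1 : HasFDerivAt q (fderiv ℂ q x) ((1 : ℂ) • x) := by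
    rw [one_smul]
    exact hq.differentiableAt.hasFDerivAt
  have h2 : HasDerivAt (fun t : ℂ => q (t • x)) (fderiv ℂ q x x) 1 := hq1.comp_hasDerivAt 1 h1
  have h3 : (fun t : ℂ => q (t • x)) = fun _ => 0 := by
    funext t
    rw [hs, h0, mul_zero]
  rw [h3] at h2
  exact h2.unique (hasDerivAt_const 1 0)

theorem gfEq_of [FiniteDimensional ℂ V] (hX : Surface X) (hΩ : IsForm X m j Ω) {q : V → ℂ} (hq : ∀ x, AnalyticAt ℂ q x)
    (hs : ∀ (c : ℂ) x, q (c • x) = c ^ e * q x) : GfEq X q m Ω := by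
  intro K z hK hKX hKq v hv hv0
  have hE : ∃ v ∈ Tan X (K z), fderiv ℂ q (K z) v ≠ 0 := ⟨v, hv, hv0⟩
  obtain ⟨h1, h2⟩ := hE.choose_spec
  have h3 : fderiv ℂ q (K z) (deriv K z) = 0 := by
    have h4 : HasDerivAt (fun w => q (K w)) (fderiv ℂ q (K z) (deriv K z)) z :=
      (hq (K z)).differentiableAt.hasFDerivAt.comp_hasDerivAt z hK.differentiableAt.hasDerivAt
    have h5 : (fun w => q (K w)) =ᶠ[𝓝 z] fun _ => 0 := hKq
    exact (h4.congr_of_eventuallyEq h5.symm).unique (hasDerivAt_const z 0)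
  have h6 := omega_quot hX hΩ (hKX.self_of_nhds) (euler_form (hq _) hs hKq.self_of_nhds) h1 hv (tan_deriv hK hKX) h3
  unfold gf
  rw [dif_pos hE, div_eq_div_iff (pow_ne_zero _ h2) (pow_ne_zero _ hv0)]
  exact h6

/-- MODULE G3 -/
theorem gf_inf [FiniteDimensional ℂ V] (hX : Surface X) (hΩ : IsForm X m j Ω) {q : V → ℂ} (hq : ∀ x, AnalyticAt ℂ q x)
    (hs : ∀ (c : ℂ) x, q (c • x) = c ^ e * q x)
    {d : ℕ} {K K' : ℂ → V} (h : RatC X d K K') (hKq : ∀ z, q (K z) = 0) {z : ℂ} (hz : z ≠ 0) :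
    z ^ ((j + e * m) * d + 2 * m) * gf X q m Ω K z = (-1) ^ m * gf X q m Ω K' z⁻¹ :=
  gf_inf_of hX hΩ hq hs (gfEq_of hX hΩ hq hs) h hKq hz

end Pool.Agent.UC
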