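import Pool.Agent.UC.G1
import Pool.Agent.UC.G2

/-!
# UC G4: analysis of the local formula for `gf`
-/

set_option autoImplicit false

open Topology Filter Metric

noncomputable section

namespace Pool.Agent.UC

open Pool.Agent.H17BP (Surface IsForm IsChart Tan Pr)

variable {V : Type} [NormedAddCommGroup V] [NormedSpace ℂ V] [FiniteDimensional ℂ V] {X : Set V} {κ : Type} {Q : κ → V → ℂ} {e m j : ℕ}
  {Ω : V → V → V → ℂ}

private theorem G4_omega (hΩ : IsForm X m j Ω) {σ : ℂ × ℂ → V} {τ : V → ℂ × ℂ} (h : IsChart X σ τ) {y : ℂ → ℂ} {c : ℂ}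
    (hy : AnalyticAt ℂ y c) (hy0 : y c = 0) :
    AnalyticAt ℂ (fun z => Ω (σ (0, y z)) (fderiv ℂ σ (0, y z) (1, 0)) (fderiv ℂ σ (0, y z) (0, 1))) c := by
  have h1 := hΩ.analytic σ 0 h.σ_an h.σ_mem
  have h2 : AnalyticAt ℂ (fun z => ((0 : ℂ), y z)) c := analyticAt_const.prod hy
  have h3 : (fun z => ((0 : ℂ), y z)) c = 0 := by simp [hy0]
  exact AnalyticAt.fun_comp_of_eq (g := fun p : ℂ × ℂ => Ω (σ p) (fderiv ℂ σ p (1, 0)) (fderiv ℂ σ p (0, 1))) h1 h2 h3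

/-- the logarithmic derivative -/
private theorem G4_log {y : ℂ → ℂ} {c : ℂ} (hy : AnalyticAt ℂ y c) (hyn : ¬ ∀ᶠ z in 𝓝 c, y z = 0) {b : ℕ} (hb : b ≤ 1) :
    ∃ B : ℂ → ℂ, AnalyticAt ℂ B c ∧ ∀ᶠ z in 𝓝 c, (z - c) ^ b * deriv y z = y z ^ b * B z := by
  rcases Nat.le_one_iff_eq_zero_or_eq_one.1 hb with rfl | rfl
  · exact ⟨deriv y, hy.deriv, by simp⟩
  · obtain ⟨k, u, hu, hu0, hku⟩ := hy.exists_eventuallyEq_pow_smul_nonzero_iff.2 hyn
    have hd : ∀ᶠ z in 𝓝 c, deriv y z = k * (z - c) ^ (k - 1) * u z + (z - c) ^ k * deriv u z := by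
      have h1 : (deriv y) =ᶠ[𝓝 c] deriv (fun z => (z - c) ^ k • u z) := EventuallyEq.deriv hku
      filter_upwards [h1, hu.eventually_analyticAt] with z hz hz2
      rw [hz]
      have h2 : HasDerivAt (fun z => (z - c) ^ k • u z) (k * (z - c) ^ (k - 1) * u z + (z - c) ^ k * deriv u z) z := by
        have h3 : HasDerivAt (fun z => (z - c) ^ k) (k * (z - c) ^ (k - 1)) z := by
          simpa using ((hasDerivAt_id z).sub_const c).fun_pow k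
        exact h3.mul hz2.differentiableAt.hasDerivAt
      exact h2.deriv
    refine ⟨fun z => (k * u z + (z - c) * deriv u z) / u z, ?_, ?_⟩
    · exact ((analyticAt_const.mul hu).add ((analyticAt_id.sub analyticAt_const).mul hu.deriv)).div hu hu0
    · filter_upwards [hd, hku, hu.continuousAt.eventually_ne hu0] with z h1 h2 h3
      rw [h1, h2, smul_eq_mul]
      rcases k with _ | k
      · field_simp
        simp
      · field_simp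
        simp only [Nat.add_sub_cancel]
        ring

private theorem G4_core (hc : Crv X Q e) (hΩ : IsForm X m j Ω) {i₀ : κ} {K : ℂ → V} {c : ℂ} {b ν : ℕ} (hK : AnalyticAt ℂ K c)
    (hKX : ∀ᶠ z in 𝓝 c, K z ∈ X) (hKq : ∀ᶠ z in 𝓝 c, Q i₀ (K z) = 0) (hat : At X Q i₀ K c b ν) :
    ∃ (σ : ℂ × ℂ → V) (τ : V → ℂ × ℂ) (h y B w : ℂ → ℂ), IsChart X σ τ ∧ b ≤ 1 ∧ AnalyticAt ℂ h c ∧ h c ≠ 0 ∧ AnalyticAt ℂ y c ∧ y c = 0 ∧
      (¬ ∀ᶠ z in 𝓝 c, y z = 0) ∧ AnalyticAt ℂ B c ∧ AnalyticAt ℂ w c ∧ w c ≠ 0 ∧ (∀ᶠ z in 𝓝 c, K z = h z • σ (0, y z)) ∧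
      (∀ᶠ z in 𝓝 c, (z - c) ^ b * deriv y z = y z ^ b * B z) ∧
      ∀ᶠ z in 𝓝 c, y z ^ b * ((z - c) ^ ν * w z) ≠ 0 → h z ^ (j + e * m) * (y z ^ b * ((z - c) ^ ν * w z)) ^ m * gf X (Q i₀) m Ω K z =
        deriv y z ^ m * Ω (σ (0, y z)) (fderiv ℂ σ (0, y z) (1, 0)) (fderiv ℂ σ (0, y z) (0, 1)) := by
  obtain ⟨i, σ, τ, h, y, r, hm, hh, hh0, hy, hy0, hyn, hKe, hr, hqr, hν⟩ := hat
  obtain ⟨B, hB, hBe⟩ := G4_log hy hyn hm.le
  have hra : AnalyticAt ℂ (fun z => r (0, y z)) c := by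
    have h2 : AnalyticAt ℂ (fun z => ((0 : ℂ), y z)) c := analyticAt_const.prod hy
    have h3 : (fun z => ((0 : ℂ), y z)) c = 0 := by simp [hy0]
    exact AnalyticAt.fun_comp_of_eq (g := r) hr h2 h3
  obtain ⟨w, hw, hw0, hwe⟩ := (hra.analyticOrderAt_eq_natCast).1 hν
  have hl := gf_local (m := m) (j := j) (Ω := Ω) hc.surf hΩ (hc.an i₀) (hc.smul i₀) hK hKX hKq hm.chart hh hh0 hy hy0 hKe hr hqr
  refine ⟨σ, τ, h, y, B, w, hm.chart, hm.le, hh, hh0, hy, hy0, hyn, hB, hw, hw0, hKe, hBe, ?_⟩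
  filter_upwards [hl, hwe] with z h1 h2 h3
  rw [smul_eq_mul] at h2
  rw [← h2] at h3 ⊢
  exact h1 h3

theorem gf_bound (hc : Crv X Q e) (hΩ : IsForm X m j Ω) {i₀ : κ} {K : ℂ → V} {c : ℂ} {b ν : ℕ} (hK : AnalyticAt ℂ K c)
    (hKX : ∀ᶠ z in 𝓝 c, K z ∈ X) (hKq : ∀ᶠ z in 𝓝 c, Q i₀ (K z) = 0) (hat : At X Q i₀ K c b ν) :
    ∃ C : ℝ, ∀ᶠ z in 𝓝[≠] c, ‖(z - c) ^ (m * (ν + b)) * gf X (Q i₀) m Ω K z‖ ≤ C := by
  obtain ⟨σ, τ, h, y, B, w, hσ, hb, hh, hh0, hy, hy0, hyn, hB, hw, hw0, hKe, hBe, hl⟩ := G4_core hc hΩ hK hKX hKq hat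
  have hω := G4_omega hΩ hσ hy hy0
  set ω : ℂ → ℂ := fun z => Ω (σ (0, y z)) (fderiv ℂ σ (0, y z) (1, 0)) (fderiv ℂ σ (0, y z) (0, 1)) with hωdef
  have hE : ContinuousAt (fun z => B z ^ m * ω z / (h z ^ (j + e * m) * w z ^ m)) c := by
    apply ContinuousAt.div
    · exact (hB.continuousAt.pow m).mul hω.continuousAt
    · exact (hh.continuousAt.pow _).mul (hw.continuousAt.pow _)
    · exact mul_ne_zero (pow_ne_zero _ hh0) (pow_ne_zero _ hw0)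
  refine ⟨‖B c ^ m * ω c / (h c ^ (j + e * m) * w c ^ m)‖ + 1, ?_⟩
  have h1 : ∀ᶠ z in 𝓝 c, ‖B z ^ m * ω z / (h z ^ (j + e * m) * w z ^ m)‖ < ‖B c ^ m * ω c / (h c ^ (j + e * m) * w c ^ m)‖ + 1 :=
    hE.norm.eventually_lt_const (lt_add_one _)
  have hyne : ∀ᶠ z in 𝓝[≠] c, y z ≠ 0 := by
    rcases hy.eventually_eq_zero_or_eventually_ne_zero with h0 | h0
    · exact absurd h0 hyn
    · exact h0
  filter_upwards [hyne, h1.filter_mono nhdsWithin_le_nhds, hl.filter_mono nhdsWithin_le_nhds, hBe.filter_mono nhdsWithin_le_nhds,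
    (hh.continuousAt.eventually_ne hh0).filter_mono nhdsWithin_le_nhds, (hw.continuousAt.eventually_ne hw0).filter_mono nhdsWithin_le_nhds,
    self_mem_nhdsWithin] with z z1 z2 z3 z4 z5 z6 z7
  have z8 : z - c ≠ 0 := sub_ne_zero.2 z7
  have z9 := z3 (mul_ne_zero (pow_ne_zero _ z1) (mul_ne_zero (pow_ne_zero _ z8) z6))
  have key : (z - c) ^ (m * (ν + b)) * gf X (Q i₀) m Ω K z = B z ^ m * ω z / (h z ^ (j + e * m) * w z ^ m) := by
    rw [eq_div_iff (mul_ne_zero (pow_ne_zero _ z5) (pow_ne_zero _ z6))]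
    have h2 : ((y z ^ b) ^ m * ((z - c) ^ ν) ^ m) ≠ 0 := mul_ne_zero (pow_ne_zero _ (pow_ne_zero _ z1)) (pow_ne_zero _ (pow_ne_zero _ z8))
    apply mul_left_cancel₀ h2
    calc (y z ^ b) ^ m * ((z - c) ^ ν) ^ m * ((z - c) ^ (m * (ν + b)) * gf X (Q i₀) m Ω K z * (h z ^ (j + e * m) * w z ^ m))
        = (z - c) ^ (m * (ν + b)) * (h z ^ (j + e * m) * (y z ^ b * ((z - c) ^ ν * w z)) ^ m * gf X (Q i₀) m Ω K z) := by ring
      _ = (z - c) ^ (m * (ν + b)) * (deriv y z ^ m * ω z) := by rw [z9]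
      _ = ((z - c) ^ ν) ^ m * ((z - c) ^ b * deriv y z) ^ m * ω z := by ring
      _ = ((z - c) ^ ν) ^ m * (y z ^ b * B z) ^ m * ω z := by rw [z4]
      _ = (y z ^ b) ^ m * ((z - c) ^ ν) ^ m * (B z ^ m * ω z) := by ring
  rw [key]
  exact z2.le

theorem gf_diff (hc : Crv X Q e) (hΩ : IsForm X m j Ω) {i₀ : κ} {K : ℂ → V} {c : ℂ} (hK : AnalyticAt ℂ K c)
    (hKX : ∀ᶠ z in 𝓝 c, K z ∈ X) (hKq : ∀ᶠ z in 𝓝 c, Q i₀ (K z) = 0) (hat : At X Q i₀ K c 0 0) : DifferentiableAt ℂ (gf X (Q i₀) m Ω K) c := by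
  obtain ⟨σ, τ, h, y, B, w, hσ, hb, hh, hh0, hy, hy0, hyn, hB, hw, hw0, hKe, hBe, hl⟩ := G4_core hc hΩ hK hKX hKq hat
  have hω := G4_omega hΩ hσ hy hy0
  set ω : ℂ → ℂ := fun z => Ω (σ (0, y z)) (fderiv ℂ σ (0, y z) (1, 0)) (fderiv ℂ σ (0, y z) (0, 1)) with hωdef
  have hE : AnalyticAt ℂ (fun z => deriv y z ^ m * ω z / (h z ^ (j + e * m) * w z ^ m)) c := by
    apply AnalyticAt.div
    · exact (hy.deriv.pow m).mul hω
    · exact (hh.pow _).mul (hw.pow _)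
    · exact mul_ne_zero (pow_ne_zero _ hh0) (pow_ne_zero _ hw0)
  have key : (gf X (Q i₀) m Ω K) =ᶠ[𝓝 c] fun z => deriv y z ^ m * ω z / (h z ^ (j + e * m) * w z ^ m) := by
    filter_upwards [hl, hh.continuousAt.eventually_ne hh0, hw.continuousAt.eventually_ne hw0] with z z3 z5 z6
    simp only [pow_zero, one_mul] at z3
    rw [eq_div_iff (mul_ne_zero (pow_ne_zero _ z5) (pow_ne_zero _ z6)), ← z3 z6]
    ring
  exact (hE.congr key.symm).differentiableAt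

/-- `Ω` is not zero at `K c` -/
theorem gf_ne (hc : Crv X Q e) (hm : 1 ≤ m) (hΩ : IsForm X m j Ω) {i₀ : κ} {K : ℂ → V} {c : ℂ} {b ν : ℕ} (hK : AnalyticAt ℂ K c)
    (hKX : ∀ᶠ z in 𝓝 c, K z ∈ X) (hKq : ∀ᶠ z in 𝓝 c, Q i₀ (K z) = 0) (hat : At X Q i₀ K c b ν)
    (hnz : ∃ v ∈ Tan X (K c), ∃ w ∈ Tan X (K c), Ω (K c) v w ≠ 0) : ∀ᶠ z in 𝓝[≠] c, gf X (Q i₀) m Ω K z ≠ 0 := by
  obtain ⟨σ, τ, h, y, B, w, hσ, hb, hh, hh0, hy, hy0, hyn, hB, hw, hw0, hKe, hBe, hl⟩ := G4_core hc hΩ hK hKX hKq hat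
  have hω := G4_omega hΩ hσ hy hy0
  set ω : ℂ → ℂ := fun z => Ω (σ (0, y z)) (fderiv ℂ σ (0, y z) (1, 0)) (fderiv ℂ σ (0, y z) (0, 1)) with hωdef
  have hωc : ω c ≠ 0 := by
    obtain ⟨v, hv, v', hv', hvv⟩ := hnz
    have hKc : K c = h c • σ 0 := by
      have := hKe.self_of_nhds
      rwa [hy0] at this
    rw [hKc] at hv hv' hvv
    obtain ⟨α, a, b, rfl⟩ := (tan_span hc.surf hσ).self_of_nhds (h c) hh0 v hv
    obtain ⟨α', a', b', rfl⟩ := (tan_span hc.surf hσ).self_of_nhds (h c) hh0 v' hv'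
    have h1 := (omega_comb hc.surf hΩ hσ).self_of_nhds (h c) hh0 α a b α' a' b'
    intro h0
    have h2 : ω c = Ω (σ 0) (fderiv ℂ σ 0 (1, 0)) (fderiv ℂ σ 0 (0, 1)) := by
      rw [hωdef]
      simp only [hy0]
      rfl
    rw [← h2, h0, mul_zero, mul_eq_zero] at h1
    rcases h1 with h1 | h1
    · exact pow_ne_zero _ hh0 h1
    · exact hvv h1
  have hyne : ∀ᶠ z in 𝓝[≠] c, y z ≠ 0 := by
    rcases hy.eventually_eq_zero_or_eventually_ne_zero with h0 | h0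
    · exact absurd h0 hyn
    · exact h0
  have hyd : ∀ᶠ z in 𝓝[≠] c, deriv y z ≠ 0 := by
    rcases hy.deriv.eventually_eq_zero_or_eventually_ne_zero with h0 | h0
    · exfalso
      apply hyn
      obtain ⟨ε, hε, hball⟩ := Metric.eventually_nhds_iff_ball.1 (h0.and hy.eventually_analyticAt)
      have h3 : ∀ z ∈ ball c ε, y z = y c := by
        intro z hz
        exact (convex_ball c ε).is_const_of_fderivWithin_eq_zero (𝕜 := ℂ) (fun x hx => (hball x hx).2.differentiableAt.differentiableWithinAt)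
          (fun x hx => by
            rw [fderivWithin_of_isOpen isOpen_ball hx]
            ext
            simpa using (hball x hx).1) hz (mem_ball_self hε)
      filter_upwards [ball_mem_nhds c hε] with z hz
      rw [h3 z hz, hy0]
    · exact h0
  filter_upwards [hyne, hyd, hl.filter_mono nhdsWithin_le_nhds, (hω.continuousAt.eventually_ne hωc).filter_mono nhdsWithin_le_nhds,
    (hw.continuousAt.eventually_ne hw0).filter_mono nhdsWithin_le_nhds, self_mem_nhdsWithin] with z z1 z2 z3 z4 z6 z7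
  have z8 : z - c ≠ 0 := sub_ne_zero.2 z7
  have z9 := z3 (mul_ne_zero (pow_ne_zero _ z1) (mul_ne_zero (pow_ne_zero _ z8) z6))
  intro h0
  rw [h0, mul_zero] at z9
  exact mul_ne_zero (pow_ne_zero _ z2) z4 z9.symm

end Pool.Agent.UC
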