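import Pool.Agent.UC.G3
import Pool.Agent.UC.G4

/-!
# UC KrhG: the rational function of a rational curve in `D`
-/

set_option autoImplicit false

open Topology Filter Metric

noncomputable section

namespace Pool.Agent.UC

open Pool.Agent.H17BP (Surface IsForm IsChart Tan Pr)


variable {V : Type} [NormedAddCommGroup V] [NormedSpace ℂ V] [FiniteDimensional ℂ V] {X : Set V} {κ : Type} {Q : κ → V → ℂ} {e m j : ℕ}

/-- The rational function `G = Ω(K)(v, K') / (dQ(K) v) ^ m` and its local orders. -/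
theorem exists_G (hc : Crv X Q e) (hm : 1 ≤ m) {Ω : V → V → V → ℂ} (hΩ : IsForm X m j Ω) {d : ℕ} {K K' : ℂ → V} (h : RatC X d K K')
    (_hd : 1 ≤ d) (hKD : ∀ z k, Q k (K z) = 0) (hnz : ∃ z, ∃ v ∈ Tan X (K z), ∃ w ∈ Tan X (K z), Ω (K z) v w ≠ 0)
    {i₀ : κ} {F : Finset ℂ} {b ν : ℂ → ℕ} {b' ν' : ℕ} (hF : ∀ c ∈ F, At X Q i₀ K c (b c) (ν c)) (hF' : ∀ c ∉ F, At X Q i₀ K c 0 0)
    (hi : At X Q i₀ K' 0 b' ν') :
    ∃ G : ℂ → ℂ, (∀ c ∉ F, DifferentiableAt ℂ G c) ∧ (∃ z ∉ F, G z ≠ 0) ∧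
      (∀ c ∈ F, ∃ C : ℝ, ∀ᶠ z in 𝓝[≠] c, ‖(z - c) ^ (m * (ν c + b c)) * G z‖ ≤ C) ∧
      ∃ C R : ℝ, ∀ z : ℂ, R ≤ ‖z‖ → ‖z‖ ^ ((j + e * m) * d + 2 * m) * ‖G z‖ ≤ C * ‖z‖ ^ (m * (ν' + b')) := by
  have hKa : ∀ c, AnalyticAt ℂ K c := fun c => h.diff.analyticAt c
  have hKX : ∀ c, ∀ᶠ z in 𝓝 c, K z ∈ X := fun c => Eventually.of_forall h.mem
  have hKq : ∀ c, ∀ᶠ z in 𝓝 c, Q i₀ (K z) = 0 := fun c => Eventually.of_forall fun z => hKD z i₀
  have hKq' : ∀ t : ℂ, Q i₀ (K' t) = 0 := by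
    have h1 : ∀ t : ℂ, t ≠ 0 → Q i₀ (K' t) = 0 := by
      intro t ht
      have h2 := hKD t⁻¹ i₀
      rw [h.rel t⁻¹ (inv_ne_zero ht), inv_inv, hc.smul] at h2
      rcases mul_eq_zero.1 h2 with h3 | h3
      · exact absurd h3 (pow_ne_zero _ (pow_ne_zero _ (inv_ne_zero ht)))
      · exact h3
    intro t
    by_cases ht : t = 0
    · subst ht
      have hcont : ContinuousAt (fun t => Q i₀ (K' t)) 0 := (hc.an i₀ (K' 0)).continuousAt.comp h.diff'.continuous.continuousAt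
      have h3 : Tendsto (fun t => Q i₀ (K' t)) (𝓝[≠] 0) (𝓝 (Q i₀ (K' 0))) := hcont.tendsto.mono_left nhdsWithin_le_nhds
      have h4 : Tendsto (fun t => Q i₀ (K' t)) (𝓝[≠] 0) (𝓝 0) := by
        refine tendsto_const_nhds.congr' ?_
        filter_upwards [self_mem_nhdsWithin] with t ht
        exact (h1 t ht).symm
      exact tendsto_nhds_unique h3 h4
    · exact h1 t ht
  refine ⟨gf X (Q i₀) m Ω K, ?_, ?_, ?_, ?_⟩
  · intro c hcF
    exact gf_diff hc hΩ (hKa c) (hKX c) (hKq c) (hF' c hcF)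
  · obtain ⟨c, hc0⟩ := hnz
    have h1 : ∀ᶠ z in 𝓝[≠] c, gf X (Q i₀) m Ω K z ≠ 0 := by
      by_cases hcF : c ∈ F
      · exact gf_ne hc hm hΩ (hKa c) (hKX c) (hKq c) (hF c hcF) hc0
      · exact gf_ne hc hm hΩ (hKa c) (hKX c) (hKq c) (hF' c hcF) hc0
    have h2 : ∀ᶠ z in 𝓝[≠] c, z ∉ F := by
      have h3 : ∀ᶠ z in 𝓝 c, z ∉ (↑(F.erase c) : Set ℂ) :=
        (F.erase c).finite_toSet.isClosed.isOpen_compl.mem_nhds (by simp)
      filter_upwards [h3.filter_mono nhdsWithin_le_nhds, self_mem_nhdsWithin] with z hz hz'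
      intro hzF
      exact hz (by simp only [Finset.mem_coe, Finset.mem_erase]; exact ⟨hz', hzF⟩)
    obtain ⟨z, hz1, hz2⟩ := (h1.and h2).exists
    exact ⟨z, hz2, hz1⟩
  · intro c hcF
    exact gf_bound hc hΩ (hKa c) (hKX c) (hKq c) (hF c hcF)
  · obtain ⟨C, hC⟩ := gf_bound hc hΩ (h.diff'.analyticAt 0) (Eventually.of_forall h.mem') (Eventually.of_forall hKq') hi
    rw [eventually_nhdsWithin_iff, Metric.eventually_nhds_iff] at hC
    obtain ⟨ε, hε, hC⟩ := hC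
    refine ⟨C, 2 / ε, ?_⟩
    intro z hz
    have hzpos : 0 < ‖z‖ := lt_of_lt_of_le (by positivity) hz
    have hz0 : z ≠ 0 := norm_pos_iff.1 hzpos
    have h1 : ‖z⁻¹‖ < ε := by
      rw [norm_inv]
      have : ‖z‖⁻¹ ≤ (2 / ε)⁻¹ := inv_anti₀ (by positivity) hz
      refine lt_of_le_of_lt this ?_
      rw [inv_div]
      linarith
    have h2 := hC (y := z⁻¹) (by rwa [dist_zero_right]) (by simpa using hz0)
    rw [sub_zero, norm_mul, norm_pow, norm_inv] at h2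
    have h3 := congrArg norm (gf_inf hc.surf hΩ (hc.an i₀) (hc.smul i₀) h (fun z => hKD z i₀) hz0)
    rw [norm_mul, norm_mul, norm_pow, norm_pow, norm_neg, norm_one, one_pow, one_mul] at h3
    rw [h3]
    have h4 : ‖gf X (Q i₀) m Ω K' z⁻¹‖ = ‖z‖ ^ (m * (ν' + b')) * (‖z‖⁻¹ ^ (m * (ν' + b')) * ‖gf X (Q i₀) m Ω K' z⁻¹‖) := by
      rw [← mul_assoc, ← mul_pow, mul_inv_cancel₀ hzpos.ne', one_pow, one_mul]
    rw [h4, mul_comm C]
    exact mul_le_mul_of_nonneg_left h2 (by positivity)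

end Pool.Agent.UC
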