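import Pool.Agent.UC.Fin
import Pool.Agent.UC.Cov

/-!
# UC Main: no bubbles for every pseudo-length, when the canonical class is ample and the rational curves form a nodal curve
-/

set_option autoImplicit false

open Topology Filter Metric

noncomputable section

namespace Pool.Agent.UC

open Pool.Agent.H17BP (Surface IsForm IsChart Tan Pr)
open Pool.Agent.H36.BP (EN)
open Pool.Agent.SY (NoBubblesAll zer)
open Pool.Agent.H17EF (coneE)

variable {N : ℕ} {P : Ideal (MvPolynomial (Fin (N + 1)) ℂ)} {κ : Type} {Q : κ → EN N → ℂ} {e m j : ℕ}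

/-- No bubbles, for every pseudo-length.  `Q k = 0` are the equations of a nodal curve `D`, which contains all the rational curves (`hr`) and is
covered by rational curves (`hcov`); the forms `Ω l` in `m K - j H` have no common zeros on `D`. -/
theorem noBubblesAll (hc : Crv (coneE P) Q e) (hm : 1 ≤ m) (hj : 1 ≤ j) (hr : RatIn (coneE P) Q) {ℓ : Type}
    {Ω : ℓ → EN N → EN N → EN N → ℂ} (hΩ : ∀ l, IsForm (coneE P) m j (Ω l))
    (hnz : ∀ x ∈ coneE P, (∀ k, Q k x = 0) → ∃ l, ∃ v ∈ Tan (coneE P) x, ∃ w ∈ Tan (coneE P) x, Ω l x v w ≠ 0) {E : Finset (EN N)}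
    (hcov : ∀ x ∈ coneE P, (∀ k, Q k x = 0) → (∃ y ∈ E, Pr x y) ∨
      ∃ (d : ℕ) (K K' : ℂ → EN N) (c : ℂ), 1 ≤ d ∧ RatC (coneE P) d K K' ∧ (∀ z k, Q k (K z) = 0) ∧ Pr x (K c)) : NoBubblesAll P := by
  intro n R d hR hRP _
  exact ⟨R, d, hR, hRP, noBubbles hc hm hj hr hΩ hnz _ n (hn_of_cover (isCone_of_surface hc.surf) hc n hcov)⟩

end Pool.Agent.UC
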