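import Pool.Agent.UC.Defs
import Pool.Agent.H36.BP.Defs

/-!
# UC RDef: the hypotheses of the theorem of line U
-/

set_option autoImplicit false

open Topology Filter

namespace Pool.Agent.UC

open Pool.Agent.H17BP (IsForm Tan Pr)
open Pool.Agent.H36.BP (EN)

variable {N : ℕ}

/-- For some `m, j ≥ 1` the sections of `m K_X - j H` have no common zeros (that is, the canonical class is ample). -/
def Ample (X : Set (EN N)) : Prop :=
  ∃ m j : ℕ, 1 ≤ m ∧ 1 ≤ j ∧ ∀ x ∈ X, ∃ Ω : EN N → EN N → EN N → ℂ, IsForm X m j Ω ∧ ∃ v ∈ Tan X x, ∃ w ∈ Tan X x, Ω x v w ≠ 0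

/-- The rational curves of `X` form a curve `{Q k = 0 for all k}` with at most nodes (or there are none). -/
def NodalRat (X : Set (EN N)) : Prop :=
  ∃ (κ : Type) (Q : κ → EN N → ℂ) (e : ℕ) (E : Finset (EN N)), Crv X Q e ∧ RatIn X Q ∧
    ∀ x ∈ X, (∀ k, Q k x = 0) → (∃ y ∈ E, Pr x y) ∨
      ∃ (d : ℕ) (K K' : ℂ → EN N) (c : ℂ), 1 ≤ d ∧ RatC X d K K' ∧ (∀ z k, Q k (K z) = 0) ∧ Pr x (K c)

end Pool.Agent.UC
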