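import Pool.Agent.UC.Main
import Pool.Agent.UC.RDef
import Pool.Agent.SY.Joint
import Pool.Agent.SY.Fin

/-!
# UC Res: the main theorem with the hypothesis `no rational curves, or the canonical class is ample and the rational curves form a nodal curve`
-/

set_option autoImplicit false

open Topology Filter Metric MvPolynomial

noncomputable section

namespace Pool.Agent.UC

open Pool.Agent.H17BP (IsForm Tan Pr)
open Pool.Agent.H36.BP (EN)
open Pool.Agent.H17 (PN VanishesAt HolomorphicInto)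
open Pool.Agent.H62.FC (Homog)
open Pool.Agent.H17LG.Variety (FunField)
open Pool.Agent.H13.OT (OrderTwo)
open Pool.Agent.H17EF (projVar coneE)
open Pool.Agent.AD (NullClass)
open Pool.Agent.AD.NC (IsSmooth IsOfLogGeneralType)
open Pool.Agent.SY (NoRat IsHyperbolicSurface NoBubblesAll StepBAll)

variable {N : ℕ} {P : Ideal (MvPolynomial (Fin (N + 1)) ℂ)}

/-- no bubbles -/
theorem noBubblesAll_of_ample (h₁ : Ample (coneE P)) (h₂ : NodalRat (coneE P)) : NoBubblesAll P := by
  obtain ⟨m, j, hm, hj, hΩ⟩ := h₁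
  obtain ⟨κ, Q, e, E, hc, hr, hcov⟩ := h₂
  choose! Ω hΩ1 hΩ2 using hΩ
  refine noBubblesAll hc hm hj hr (ℓ := coneE P) (Ω := fun x => Ω x) (fun x => hΩ1 x x.2) (fun x hx _ => ⟨⟨x, hx⟩, hΩ2 x hx⟩) hcov

/-- **The main theorem of line U.** -/
theorem main [P.IsPrime] (hP : Homog P) (hdim : ∃ z : Fin 2 → FunField P, IsTranscendenceBasis ℂ z) (hsmooth : IsSmooth P 2)
    (hgt : IsOfLogGeneralType P (Fin.elim0 : Fin 0 → MvPolynomial (Fin (N + 1)) ℂ) 2)
    (hrat : NoRat (coneE P) ∨ Ample (coneE P) ∧ NodalRat (coneE P))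
    (A : Set (ℂ → PN N)) (hA : NullClass P A) (R : MvPolynomial (Fin (N + 1)) ℂ) (d : ℕ) (hR : R.IsHomogeneous d) (hRP : R ∉ P)
    (hnull : ∀ f : ℂ → PN N, HolomorphicInto f Set.univ → OrderTwo f → (∀ z, f z ∈ projVar P) → (∃ z w, f z ≠ f w) → f ∈ A →
      ∀ z, VanishesAt R (f z)) : IsHyperbolicSurface P := by
  obtain ⟨z, hz⟩ := id hdim
  have hb : StepBAll P := by
    rcases hrat with h | ⟨h₁, h₂⟩
    · exact Pool.Agent.SY.stepBAll_of_noRat hP hz hsmooth h
    · have hX := h₂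
      obtain ⟨_, _, _, _, hc, -⟩ := hX
      exact Pool.Agent.SY.stepBAll_of_noBubblesAll (isCone_of_surface hc.surf) (noBubblesAll_of_ample h₁ h₂)
  exact Pool.Agent.SY.hyperbolic_of hP hdim hsmooth hgt hb A hA R d hR hRP hnull

end Pool.Agent.UC
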