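import Pool.Agent.UC.Core

/-!
# UC Step: the induction
-/

set_option autoImplicit false

open Topology Filter Metric

noncomputable section

namespace Pool.Agent.UC

open Pool.Agent.H17BP (Surface IsForm IsChart Tan Pr)
open Pool.Agent.H74.NB (CC Obj)
open Pool.Agent.H36.BP (EN)

variable {N : ℕ} {X : Set (EN N)} {κ : Type} {Q : κ → EN N → ℂ} {e m j : ℕ}

/-- MODULE Step: from `dec_child`, `step_core`, `Lo.of_rescaled`. -/
theorem step (hc : Crv X Q e) (hm : 1 ≤ m) (hk : Krh X Q e m j) (hr : RatIn X Q) {𝒰 : Ultrafilter ℕ} {M : ℕ}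
    (ih : ∀ μ, 1 ≤ μ → μ ≤ M → UCat X Q e m j 𝒰 μ) : UCat X Q e m j 𝒰 (M + 1) := by
  intro Φ w G r h hX
  obtain ⟨b, ρ, p, d, K, K', hb, hρ, hρ0, hpm, hpd, hroot, hRat, hK0, -, hch⟩ :=
    dec_child hc.surf.zero hc.surf.smul hc.surf.closed h hX
  obtain ⟨h1, h2⟩ := step_core hc hm hk hr ih h hX hb hρ hρ0 hpm hpd hroot hRat hK0 hch
  refine ⟨h1, fun i b₀ σ τ hmon hpr => ?_⟩
  obtain ⟨S, k, δ, hδ, hlo, hineq, -⟩ := h2 i b₀ σ τ hmon hpr
  refine ⟨∑ c ∈ S, k c, hineq, ?_⟩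
  refine Lo.of_rescaled h.pos ?_ hb hρ hρ0 (t := fun n => (((ρ n : ℂ) ^ (M + 1))⁻¹) ^ e) ?_ hδ hlo
  · filter_upwards [h.hol] with n hn
    intro z hz
    exact ((hc.an i (Φ n z)).differentiableAt).comp_differentiableWithinAt z (hn z hz)
  · filter_upwards [hρ] with n h3
    exact pow_ne_zero _ (inv_ne_zero (pow_ne_zero _ (by exact_mod_cast h3.ne')))

/-- MODULE UC. -/
theorem uc (hc : Crv X Q e) (hm : 1 ≤ m) (hk : Krh X Q e m j) (hr : RatIn X Q) (𝒰 : Ultrafilter ℕ) : ∀ M, 1 ≤ M → UCat X Q e m j 𝒰 M := by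
  intro M
  induction M using Nat.strong_induction_on with
  | _ M ih =>
    intro hM
    obtain ⟨M', rfl⟩ : ∃ M', M = M' + 1 := ⟨M - 1, by omega⟩
    exact step hc hm hk hr fun μ h1 h2 => ih μ (by omega) h1

end Pool.Agent.UC
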