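import Pool.Agent.UC.Defs
import Pool.Agent.SY.Plug

/-!
# UC Stub: the statements of the modules
-/

set_option autoImplicit false

open Topology Filter Metric

noncomputable section

namespace Pool.Agent.UC.Stub

open Pool.Agent.H17BP (Surface IsForm IsChart Tan Pr)
open Pool.Agent.H74.NB (CC Obj)
open Pool.Agent.H36.BP (EN)
open Pool.Agent.H22.W (PseudoLength)
open Pool.Agent.SY (Cls BubbleAt NoBubbles)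
open Pool.Agent.UC

/-! ## MODULE Zg: counting zeros -/

section zeros

variable {f f₁ f₂ : ℂ → ℂ} {U U' S S' : Set ℂ} {k k' k₁ k₂ : ℕ}

theorem ZGe.mono (h : ZGe f U S k) (hS : S ⊆ S') : ZGe f U S' k := by sorry

theorem ZGe.le (h : ZGe f U S k) (hk : k' ≤ k) : ZGe f U S k' := by sorry

theorem ZGe.restrict (h : ZGe f U' S k) (hU : U ⊆ U') : ZGe f U S k := by sorry

theorem ZGe.congr (h : ZGe f₁ U S k) (he : ∀ z ∈ U, f₁ z = f₂ z) : ZGe f₂ U S k := by sorry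

/-- removable singularities -/
theorem ZGe.extend (hU : IsOpen U) (hU' : IsOpen U') (hUU : U ⊆ U') (hf : DifferentiableOn ℂ f U') (hS : S ⊆ U) (h : ZGe f U S k) :
    ZGe f U' S k := by sorry

theorem ZGe.mul (h₁ : ZGe f₁ U S k₁) (h₂ : ZGe f₂ U S k₂) : ZGe (fun z => f₁ z * f₂ z) U S (k₁ + k₂) := by sorry

/-- disjoint sets: divide out the zeros one after the other -/
theorem ZGe.union {ι : Type} (F : Finset ι) {S : ι → Set ℂ} {k : ι → ℕ} (hU : IsOpen U) (hf : DifferentiableOn ℂ f U) (hS : ∀ i ∈ F, S i ⊆ U)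
    (hd : ∀ i ∈ F, ∀ j ∈ F, i ≠ j → Disjoint (S i) (S j)) (h : ∀ i ∈ F, ZGe f U (S i) (k i)) :
    ZGe f U (⋃ i ∈ F, S i) (∑ i ∈ F, k i) := by sorry

theorem ZGe.affine {b ρ : ℂ} (hρ : ρ ≠ 0) (h : ZGe (fun ζ => f (b + ρ * ζ)) U S k) :
    ZGe f ((fun ζ => b + ρ * ζ) '' U) ((fun ζ => b + ρ * ζ) '' S) k := by sorry

variable {𝒰 : Ultrafilter ℕ} {F F₁ F₂ : ℕ → ℂ → ℂ} {w : ℂ} {r r' : ℝ}

theorem Lo.le (h : Lo 𝒰 F w r k) (hk : k' ≤ k) : Lo 𝒰 F w r k' := by sorry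

theorem Lo.radius (hr' : 0 < r') (hrr : r' ≤ r) (hF : ∀ᶠ n in (𝒰 : Filter ℕ), DifferentiableOn ℂ (F n) (ball w r)) :
    Lo 𝒰 F w r' k ↔ Lo 𝒰 F w r k := by sorry

theorem Lo.mul (h₁ : Lo 𝒰 F₁ w r k₁) (h₂ : Lo 𝒰 F₂ w r k₂) : Lo 𝒰 (fun n z => F₁ n z * F₂ n z) w r (k₁ + k₂) := by sorry

/-- multiplication by a holomorphic function -/
theorem Lo.mul_hol (h₁ : Lo 𝒰 F₁ w r k₁) (h₂ : ∀ᶠ n in (𝒰 : Filter ℕ), DifferentiableOn ℂ (F₂ n) (ball w r)) :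
    Lo 𝒰 (fun n z => F₂ n z * F₁ n z) w r k₁ := by sorry

/-- Hurwitz (from `H74.NB.weier`) -/
theorem Lo.of_limit {v : ℂ → ℂ} (hr : 0 < r) (hF : ∀ᶠ n in (𝒰 : Filter ℕ), DifferentiableOn ℂ (F n) (ball w r))
    (hv : DifferentiableOn ℂ v (ball w r)) (hv0 : v w ≠ 0) (hc : CC 𝒰 F (fun z => (z - w) ^ k * v z) (ball w r)) : Lo 𝒰 F w r k := by sorry

theorem not_lo {v : ℂ → ℂ} (hr : 0 < r) (hF : ∀ᶠ n in (𝒰 : Filter ℕ), DifferentiableOn ℂ (F n) (ball w r))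
    (hv : DifferentiableOn ℂ v (ball w r)) (hv0 : v w ≠ 0) (hc : CC 𝒰 F (fun z => (z - w) ^ k * v z) (ball w r)) : ¬ Lo 𝒰 F w r (k + 1) := by sorry

/-- MODULE Sca: from the rescaled functions, which have `k c` zeros near the points `c` of a finite set, to the original ones. -/
theorem Lo.of_rescaled (hr : 0 < r) (hF : ∀ᶠ n in (𝒰 : Filter ℕ), DifferentiableOn ℂ (F n) (ball w r)) {b : ℕ → ℂ} {ρ : ℕ → ℝ} {t : ℕ → ℂ}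
    (hb : Tendsto b 𝒰 (𝓝 w)) (hρ : ∀ᶠ n in (𝒰 : Filter ℕ), 0 < ρ n) (hρ0 : Tendsto ρ 𝒰 (𝓝 0)) (ht : ∀ᶠ n in (𝒰 : Filter ℕ), t n ≠ 0)
    {C : Finset ℂ} {k : ℂ → ℕ} {δ : ℂ → ℝ} (hδ : ∀ c ∈ C, 0 < δ c) (h : ∀ c ∈ C, Lo 𝒰 (fun n ζ => t n * F n (b n + ρ n * ζ)) c (δ c) (k c)) :
    Lo 𝒰 F w r (∑ c ∈ C, k c) := by sorry

/-- MODULE Ratio (helper57). -/
theorem ratio {v : ℂ → ℂ} {ν : ℕ} (hr : 0 < r) (hF₁ : ∀ᶠ n in (𝒰 : Filter ℕ), DifferentiableOn ℂ (F₁ n) (ball w r))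
    (hF₂ : ∀ᶠ n in (𝒰 : Filter ℕ), DifferentiableOn ℂ (F₂ n) (ball w r)) (hv : DifferentiableOn ℂ v (ball w r)) (hv0 : v w ≠ 0)
    {ρ : ℕ → ℂ → ℂ} (hρ : CC 𝒰 ρ (fun z => (z - w) ^ ν * v z) (ball w r \ {w}))
    (hρd : ∀ K ⊆ ball w r \ {w}, IsCompact K → ∀ᶠ n in (𝒰 : Filter ℕ), ∀ z ∈ K, DifferentiableAt ℂ (ρ n) z)
    (he : ∀ K ⊆ ball w r \ {w}, IsCompact K → ∀ᶠ n in (𝒰 : Filter ℕ), ∀ z ∈ K, F₁ n z = ρ n z * F₂ n z) (h : Lo 𝒰 F₂ w r k) :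
    Lo 𝒰 F₁ w r (k + ν) := by sorry

end zeros

/-! ## MODULE Child (helper74): the rescaling at a bubble -/

theorem dec_child {N : ℕ} {X : Set (EN N)} (h0 : (0 : EN N) ∉ X) (hs : ∀ x ∈ X, ∀ c : ℂ, c ≠ 0 → c • x ∈ X) (hcl : ∀ x ∈ closure X, x ≠ 0 → x ∈ X)
    {𝒰 : Ultrafilter ℕ} {Φ : ℕ → ℂ → EN N} {w : ℂ} {M : ℕ} {G : ℂ → EN N} {r : ℝ} (h : Obj 𝒰 Φ w (M + 1) G r)
    (hX : ∀ᶠ n in (𝒰 : Filter ℕ), ∀ z ∈ ball w r, Φ n z ∈ X) :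
    ∃ (b : ℕ → ℂ) (ρ : ℕ → ℝ) (p : Polynomial ℂ) (d : ℕ) (K K' : ℂ → EN N), Tendsto b 𝒰 (𝓝 w) ∧ (∀ᶠ n in (𝒰 : Filter ℕ), 0 < ρ n) ∧
      Tendsto ρ 𝒰 (𝓝 0) ∧ p.Monic ∧ p.natDegree + d = M + 1 ∧ (∀ a, p.rootMultiplicity a ≤ M) ∧ RatC X d K K' ∧ K' 0 = G w ∧
      CC 𝒰 (fun n ζ => ((ρ n : ℂ) ^ (M + 1))⁻¹ • Φ n (b n + ρ n * ζ)) (fun ζ => p.eval ζ • K ζ) Set.univ ∧
      ∀ a, ∃ δ : ℝ, Obj 𝒰 (fun n ζ => ((ρ n : ℂ) ^ (M + 1))⁻¹ • Φ n (b n + ρ n * ζ)) a (p.rootMultiplicity a)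
        (fun ζ => (p /ₘ (Polynomial.X - Polynomial.C a) ^ p.rootMultiplicity a).eval ζ • K ζ) δ := by
  sorry

/-! ## charts -/

section charts

variable {V : Type} [NormedAddCommGroup V] [NormedSpace ℂ V] [FiniteDimensional ℂ V] {X : Set V} {κ : Type} {Q : κ → V → ℂ} {e m j : ℕ}

/-- MODULE Ch: a chart on an open cone. `U` is a given neighbourhood of `0` (where the equations of `Mon` hold). -/
theorem exists_cone (hX : Surface X) {σ : ℂ × ℂ → V} {τ : V → ℂ × ℂ} (h : IsChart X σ τ) {U : Set (ℂ × ℂ)} (hU : U ∈ 𝓝 (0 : ℂ × ℂ)) :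
    ∃ (W : Set V) (T : V → ℂ × ℂ) (H : V → ℂ), IsOpen W ∧ σ 0 ∈ W ∧ T (σ 0) = 0 ∧
      (∀ y ∈ W, ∀ c : ℂ, c ≠ 0 → c • y ∈ W ∧ T (c • y) = T y ∧ H (c • y) = c * H y) ∧
      (∀ y ∈ W, AnalyticAt ℂ T y ∧ AnalyticAt ℂ H y ∧ H y ≠ 0 ∧ T y ∈ U) ∧ ∀ y ∈ W, y ∈ X → y = H y • σ (T y) := by
  sorry

/-- MODULE AtInf: at the point at infinity (or any point `c`) the curve `K` is one of the branches. -/
theorem at_of_mon (hc : Crv X Q e) {K : ℂ → V} {c : ℂ} (hK : AnalyticAt ℂ K c) (hKX : ∀ᶠ z in 𝓝 c, K z ∈ X)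
    (hKD : ∀ᶠ z in 𝓝 c, ∀ k, Q k (K z) = 0) (hnc : ¬ ∀ᶠ z in 𝓝 c, Pr (K z) (K c)) {i : κ} {b : ℕ} {σ : ℂ × ℂ → V} {τ : V → ℂ × ℂ}
    (hm : Mon X Q i b σ τ) (hp : Pr (σ 0) (K c)) : At X Q i K c b 0 := by
  sorry

/-- MODULE NonC: a rational curve of positive degree is not constant near any point. -/
theorem nonconst (hX : Surface X) {d : ℕ} {K K' : ℂ → V} (h : RatC X d K K') (hd : 1 ≤ d) :
    (∀ c, ¬ ∀ᶠ z in 𝓝 c, Pr (K z) (K c)) ∧ ¬ ∀ᶠ z in 𝓝 (0 : ℂ), Pr (K' z) (K' 0) := by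
  sorry

/-- MODULE AtEx: the local data along a rational curve in `D`; the points where something happens are finite in number (identity theorem,
compactness of `ℙ¹`). -/
theorem exists_at (hc : Crv X Q e) {d : ℕ} {K K' : ℂ → V} (h : RatC X d K K') (hd : 1 ≤ d) (hKD : ∀ z k, Q k (K z) = 0) {i₀ : κ} {b' ν' : ℕ}
    (hi : At X Q i₀ K' 0 b' ν') :
    ∃ (F : Finset ℂ) (b ν : ℂ → ℕ), (∀ c ∈ F, At X Q i₀ K c (b c) (ν c)) ∧ ∀ c ∉ F, At X Q i₀ K c 0 0 := by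
  sorry

/-- MODULE Near: zeros near a point where the rescaled curves converge to `K` uniformly. -/
theorem lo_near (hc : Crv X Q e) {𝒰 : Ultrafilter ℕ} {Ψ : ℕ → ℂ → V} {c : ℂ} {r : ℝ} {g : ℂ → ℂ} {K : ℂ → V} (hr : 0 < r)
    (hΨ : ∀ᶠ n in (𝒰 : Filter ℕ), DifferentiableOn ℂ (Ψ n) (ball c r)) (hX : ∀ᶠ n in (𝒰 : Filter ℕ), ∀ z ∈ ball c r, Ψ n z ∈ X)
    (hg : g c ≠ 0) (hgd : DifferentiableOn ℂ g (ball c r)) (hK : DifferentiableOn ℂ K (ball c r)) (hcc : CC 𝒰 Ψ (fun z => g z • K z) (ball c r))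
    {i₀ : κ} {b ν : ℕ} (hat : At X Q i₀ K c b ν) : Lo 𝒰 (fun n z => Q i₀ (Ψ n z)) c r (ν + b) := by
  sorry

/-- MODULE Chr: zeros near a child: comparison of `Q i₀` and the local equation `Q i` at the point `K a` (module Ratio).  The inductive hypothesis
is `hu` (`UCat` for the mass `μ ≥ 1` of the child). -/
theorem lo_child (hc : Crv X Q e) {𝒰 : Ultrafilter ℕ} {Ψ : ℕ → ℂ → V} {a : ℂ} {μ : ℕ} (hμ : 1 ≤ μ) (hu : UCat X Q e m j 𝒰 μ) {δ : ℝ} {g : ℂ → ℂ}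
    {K : ℂ → V} (h : Obj 𝒰 Ψ a μ (fun z => g z • K z) δ) (hX : ∀ᶠ n in (𝒰 : Filter ℕ), ∀ z ∈ ball a δ, Ψ n z ∈ X) (hg : g a ≠ 0)
    (hgd : Differentiable ℂ g) (hK : Differentiable ℂ K) {i₀ : κ} {b ν : ℕ} (hat : At X Q i₀ K a b ν) :
    ∃ k : ℕ, m * (e * μ + (2 - b) + ν) + j * μ ≤ m * k ∧ Lo 𝒰 (fun n z => Q i₀ (Ψ n z)) a δ k := by
  sorry

/-- MODULE KrhG: the rational function `G = Ω(K)(v, K') / (dQ(K) v) ^ m` and its local orders.  `G` is differentiable off `F`, at `c ∈ F` the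
pole has order at most `m (ν c + b c)`, at infinity `G z = O(|z| ^ (-(j + e m) d - 2 m + m (ν' + b')))`, and `G` is not zero (helper38). -/
theorem exists_G (hc : Crv X Q e) (hm : 1 ≤ m) {Ω : V → V → V → ℂ} (hΩ : IsForm X m j Ω) {d : ℕ} {K K' : ℂ → V} (h : RatC X d K K')
    (hd : 1 ≤ d) (hKD : ∀ z k, Q k (K z) = 0) (hnz : ∃ z, ∃ v ∈ Tan X (K z), ∃ w ∈ Tan X (K z), Ω (K z) v w ≠ 0)
    {i₀ : κ} {F : Finset ℂ} {b ν : ℂ → ℕ} {b' ν' : ℕ} (hF : ∀ c ∈ F, At X Q i₀ K c (b c) (ν c)) (hF' : ∀ c ∉ F, At X Q i₀ K c 0 0)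
    (hi : At X Q i₀ K' 0 b' ν') :
    ∃ G : ℂ → ℂ, (∀ c ∉ F, DifferentiableAt ℂ G c) ∧ (∃ z ∉ F, G z ≠ 0) ∧
      (∀ c ∈ F, ∃ C : ℝ, ∀ᶠ z in 𝓝[≠] c, ‖(z - c) ^ (m * (ν c + b c)) * G z‖ ≤ C) ∧
      ∃ C R : ℝ, ∀ z : ℂ, R ≤ ‖z‖ → ‖z‖ ^ ((j + e * m) * d + 2 * m) * ‖G z‖ ≤ C * ‖z‖ ^ (m * (ν' + b')) := by
  sorry

/-- MODULE KrhM: the inequality, from `exists_G` and `liou`. -/
theorem krh (hc : Crv X Q e) (hm : 1 ≤ m) {ℓ : Type} {Ω : ℓ → V → V → V → ℂ} (hΩ : ∀ l, IsForm X m j (Ω l))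
    (hnz : ∀ x ∈ X, (∀ k, Q k x = 0) → ∃ l, ∃ v ∈ Tan X x, ∃ w ∈ Tan X x, Ω l x v w ≠ 0) : Krh X Q e m j := by
  sorry

end charts

/-- MODULE Liou: a meromorphic function on the plane with bounded pole orders and given decay at infinity. -/
theorem liou {G : ℂ → ℂ} {F : Finset ℂ} {p : ℂ → ℕ} {A B : ℕ} (hd : ∀ c ∉ F, DifferentiableAt ℂ G c) (hnz : ∃ z ∉ F, G z ≠ 0)
    (hF : ∀ c ∈ F, ∃ C : ℝ, ∀ᶠ z in 𝓝[≠] c, ‖(z - c) ^ p c * G z‖ ≤ C) (hi : ∃ C R : ℝ, ∀ z : ℂ, R ≤ ‖z‖ → ‖z‖ ^ A * ‖G z‖ ≤ C * ‖z‖ ^ B) :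
    A ≤ ∑ c ∈ F, p c + B := by
  sorry

/-! ## the induction and the root -/

section main

variable {N : ℕ} {X : Set (EN N)} {κ : Type} {Q : κ → EN N → ℂ} {e m j : ℕ}

/-- MODULE Step: from `dec_child`, `lo_child`, `lo_near`, `exists_at`, `at_of_mon`, `Lo.of_rescaled`. -/
theorem step (hc : Crv X Q e) (hm : 1 ≤ m) (hk : Krh X Q e m j) (hr : RatIn X Q) {𝒰 : Ultrafilter ℕ} {M : ℕ}
    (ih : ∀ μ, 1 ≤ μ → μ ≤ M → UCat X Q e m j 𝒰 μ) : UCat X Q e m j 𝒰 (M + 1) := by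
  sorry

/-- MODULE UC. -/
theorem uc (hc : Crv X Q e) (hm : 1 ≤ m) (hk : Krh X Q e m j) (hr : RatIn X Q) (𝒰 : Ultrafilter ℕ) : ∀ M, 1 ≤ M → UCat X Q e m j 𝒰 M := by
  sorry

/-- MODULE RootS: a limit curve `G` which crosses `D` transversally at a smooth point. -/
theorem rootS (hc : Crv X Q e) (hm : 1 ≤ m) {𝒰 : Ultrafilter ℕ} {M : ℕ} (hM : 1 ≤ M) (hu : UCat X Q e m j 𝒰 M) {Φ : ℕ → ℂ → EN N} {w : ℂ}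
    {G : ℂ → EN N} {r : ℝ} (h : Obj 𝒰 Φ w M G r) (hX : ∀ᶠ n in (𝒰 : Filter ℕ), ∀ z ∈ ball w r, Φ n z ∈ X) {i : κ} {σ : ℂ × ℂ → EN N}
    {τ : EN N → ℂ × ℂ} (hσ : Mon X Q i 0 σ τ) (hp : Pr (σ 0) (G w)) (ho : analyticOrderAt (fun z => Q i (G z)) w = 1) : False := by
  sorry

/-- MODULE Neck: between the scale of the bubble and the outer scale the curves are near the point `G w` (maximum principle for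
`(z - b) ^ (-M) • Φ n z - G w` on the annulus). -/
theorem neck {𝒰 : Ultrafilter ℕ} {Φ : ℕ → ℂ → EN N} {w : ℂ} {M : ℕ} {G : ℂ → EN N} {r : ℝ} (h : Obj 𝒰 Φ w M G r) {b : ℕ → ℂ} {ρ : ℕ → ℝ}
    {p : Polynomial ℂ} {d : ℕ} {K K' : ℂ → EN N} (hb : Tendsto b 𝒰 (𝓝 w)) (hρ : ∀ᶠ n in (𝒰 : Filter ℕ), 0 < ρ n) (hρ0 : Tendsto ρ 𝒰 (𝓝 0))
    (hp : p.Monic) (hpd : p.natDegree + d = M) (hK : RatC X d K K') (hK0 : K' 0 = G w)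
    (hcc : CC 𝒰 (fun n ζ => ((ρ n : ℂ) ^ M)⁻¹ • Φ n (b n + ρ n * ζ)) (fun ζ => p.eval ζ • K ζ) Set.univ) {ε : ℝ} (hε : 0 < ε) :
    ∃ R s : ℝ, 0 < R ∧ 0 < s ∧ ∀ᶠ n in (𝒰 : Filter ℕ), ∀ z : ℂ, R * ρ n ≤ ‖z - b n‖ → ‖z - b n‖ ≤ s →
      ‖((z - b n) ^ M)⁻¹ • Φ n z - G w‖ ≤ ε := by
  sorry

/-- MODULE RootN: a limit curve which crosses both branches at a node transversally; here `1 ≤ j`. -/
theorem rootN (hc : Crv X Q e) (hm : 1 ≤ m) (hj : 1 ≤ j) (hk : Krh X Q e m j) (hr : RatIn X Q) {𝒰 : Ultrafilter ℕ}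
    (hu : ∀ μ, 1 ≤ μ → UCat X Q e m j 𝒰 μ) {M : ℕ} (hM : 1 ≤ M) {Φ : ℕ → ℂ → EN N} {w : ℂ}
    {G : ℂ → EN N} {r : ℝ} (h : Obj 𝒰 Φ w M G r) (hX : ∀ᶠ n in (𝒰 : Filter ℕ), ∀ z ∈ ball w r, Φ n z ∈ X) {i : κ} {σ : ℂ × ℂ → EN N}
    {τ : EN N → ℂ × ℂ} (hσ : Mon X Q i 1 σ τ) {x y u : ℂ → ℂ} (hx : AnalyticAt ℂ x w) (hy : AnalyticAt ℂ y w) (hu1 : AnalyticAt ℂ u w)
    (hu0 : u w ≠ 0) (hG : ∀ᶠ z in 𝓝 w, G z = u z • σ (x z, y z)) (hx0 : x w = 0) (hy0 : y w = 0) (hx1 : deriv x w ≠ 0) (hy1 : deriv y w ≠ 0) :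
    False := by
  sorry

/-- MODULE Fin: no bubbles, for a pseudo-length which vanishes on the tangent vectors of `D`. -/
theorem noBubbles (hc : Crv X Q e) (hm : 1 ≤ m) (hj : 1 ≤ j) (hr : RatIn X Q) {ℓ : Type} {Ω : ℓ → EN N → EN N → EN N → ℂ}
    (hΩ : ∀ l, IsForm X m j (Ω l)) (hnz : ∀ x ∈ X, (∀ k, Q k x = 0) → ∃ l, ∃ v ∈ Tan X x, ∃ w ∈ Tan X x, Ω l x v w ≠ 0) (T : Set (EN N))
    (n : PseudoLength X) (hn : ∀ γ : ℂ → EN N, AnalyticAt ℂ γ 0 → (∀ᶠ z in 𝓝 (0 : ℂ), γ z ∈ X ∧ ∀ k, Q k (γ z) = 0) →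
      n.toFun (γ 0) (deriv γ 0) = 0) : NoBubbles X T n := by
  sorry

end main

end Pool.Agent.UC.Stub
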