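import Pool.Agent.UC.Defs
import Pool.Agent.SY.Plug

/-!
# UC StubF: the parts of the module Fin
-/

set_option autoImplicit false

open Topology Filter Metric

noncomputable section

namespace Pool.Agent.UC.StubF

open Pool.Agent.H17BP (Surface IsForm IsChart Tan Pr)
open Pool.Agent.H74.NB (CC Obj)
open Pool.Agent.H36.BP (EN)
open Pool.Agent.H22.W (PseudoLength)
open Pool.Agent.SY (Cls BubbleAt NoBubbles)
open Pool.Agent.UC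

variable {N : ℕ} {X : Set (EN N)} {κ : Type} {Q : κ → EN N → ℂ} {e m j : ℕ}

/-- MODULE FinA (helper74) -/
theorem obj_of_bubble (hX : Surface X) {T : Set (EN N)} {n : PseudoLength X} {𝒰 : Ultrafilter ℕ} {F : ℕ → ℂ → EN N} {v : ℕ → ℂ → ℂ}
    {H : ℂ → EN N} {u : ℂ → ℂ} {r : ℝ} {M : ℕ} (h : BubbleAt X T n 𝒰 F v H u r M) :
    Obj 𝒰 (fun k z => Complex.exp (v k z) • F k z) 0 M (fun z => u z • H z) r ∧
      ∀ᶠ k in (𝒰 : Filter ℕ), ∀ z ∈ ball (0 : ℂ) r, Complex.exp (v k z) • F k z ∈ X := by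
  sorry

/-- MODULE FinS (helper41): at a smooth point the curve `H` crosses `D` transversally.  If `Q i (H z) = O(z ^ 2)`, then `H' 0` is the tangent
vector of a curve in `D = {p.1 = 0}` (`t ↦ c(t) • σ (0, β t)`), so its length is zero. -/
theorem order_one (hc : Crv X Q e) {n : PseudoLength X} (hn : ∀ γ : ℂ → EN N, AnalyticAt ℂ γ 0 →
      (∀ᶠ z in 𝓝 (0 : ℂ), γ z ∈ X ∧ ∀ k, Q k (γ z) = 0) → n.toFun (γ 0) (deriv γ 0) = 0) {H : ℂ → EN N} {u : ℂ → ℂ} (hH : AnalyticAt ℂ H 0)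
    (hHX : ∀ᶠ z in 𝓝 (0 : ℂ), H z ∈ X) (hu : AnalyticAt ℂ u 0) (hu0 : u 0 ≠ 0) (hn1 : n.toFun (H 0) (deriv H 0) ≠ 0) {i : κ}
    {σ : ℂ × ℂ → EN N} {τ : EN N → ℂ × ℂ} (hσ : Mon X Q i 0 σ τ) (hp : Pr (σ 0) (H 0)) :
    analyticOrderAt (fun z => Q i (u z • H z)) 0 = 1 := by
  sorry

/-- MODULE FinN (helper41): at a node both coordinates have a simple zero. -/
theorem coord_one (hc : Crv X Q e) {n : PseudoLength X} (hn : ∀ γ : ℂ → EN N, AnalyticAt ℂ γ 0 →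
      (∀ᶠ z in 𝓝 (0 : ℂ), γ z ∈ X ∧ ∀ k, Q k (γ z) = 0) → n.toFun (γ 0) (deriv γ 0) = 0) {H : ℂ → EN N} {u : ℂ → ℂ} (hH : AnalyticAt ℂ H 0)
    (hHX : ∀ᶠ z in 𝓝 (0 : ℂ), H z ∈ X) (hu : AnalyticAt ℂ u 0) (hu0 : u 0 ≠ 0) (hn1 : n.toFun (H 0) (deriv H 0) ≠ 0) {i : κ}
    {σ : ℂ × ℂ → EN N} {τ : EN N → ℂ × ℂ} (hσ : Mon X Q i 1 σ τ) (hp : Pr (σ 0) (H 0)) :
    ∃ x y u' : ℂ → ℂ, AnalyticAt ℂ x 0 ∧ AnalyticAt ℂ y 0 ∧ AnalyticAt ℂ u' 0 ∧ u' 0 ≠ 0 ∧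
      (∀ᶠ z in 𝓝 (0 : ℂ), u z • H z = u' z • σ (x z, y z)) ∧ x 0 = 0 ∧ y 0 = 0 ∧ deriv x 0 ≠ 0 ∧ deriv y 0 ≠ 0 := by
  sorry

end Pool.Agent.UC.StubF
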