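import Pool.Agent.UC.GDefs

/-!
# UC StubG: the modules G1, ..., G4 for `exists_G`
-/

set_option autoImplicit false

open Topology Filter Metric

noncomputable section

namespace Pool.Agent.UC.StubG

open Pool.Agent.H17BP (Surface IsForm IsChart Tan Pr)
open Pool.Agent.UC

variable {V : Type} [NormedAddCommGroup V] [NormedSpace ℂ V] [FiniteDimensional ℂ V] {X : Set V} {κ : Type} {Q : κ → V → ℂ} {e m j : ℕ}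
  {Ω : V → V → V → ℂ}

/-! ## MODULE G1 (helper68) -/

/-- `x = c • σ p`; scale by `c⁻¹`; a curve `γ` in `X` at `σ p` is `γ t = (ℓ (γ t) / ℓ (σ (τ (γ t)))) • σ (τ (γ t))` for a linear form `ℓ` with
`ℓ (σ 0) ≠ 0` (`IsChart.right`). -/
theorem tan_span (hX : Surface X) {σ : ℂ × ℂ → V} {τ : V → ℂ × ℂ} (h : IsChart X σ τ) :
    ∀ᶠ p in 𝓝 (0 : ℂ × ℂ), ∀ c : ℂ, c ≠ 0 → ∀ v ∈ Tan X (c • σ p), ∃ α a b : ℂ,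
      v = α • (c • σ p) + c • (a • fderiv ℂ σ p (1, 0) + b • fderiv ℂ σ p (0, 1)) := by
  sorry

theorem tan_comb (hX : Surface X) {σ : ℂ × ℂ → V} {τ : V → ℂ × ℂ} (h : IsChart X σ τ) :
    ∀ᶠ p in 𝓝 (0 : ℂ × ℂ), ∀ c : ℂ, c ≠ 0 → ∀ α a b : ℂ,
      α • (c • σ p) + c • (a • fderiv ℂ σ p (1, 0) + b • fderiv ℂ σ p (0, 1)) ∈ Tan X (c • σ p) := by
  sorry

theorem omega_comb (hX : Surface X) (hΩ : IsForm X m j Ω) {σ : ℂ × ℂ → V} {τ : V → ℂ × ℂ} (h : IsChart X σ τ) :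
    ∀ᶠ p in 𝓝 (0 : ℂ × ℂ), ∀ c : ℂ, c ≠ 0 → ∀ α a b α' a' b' : ℂ,
      c ^ j * Ω (c • σ p) (α • (c • σ p) + c • (a • fderiv ℂ σ p (1, 0) + b • fderiv ℂ σ p (0, 1)))
        (α' • (c • σ p) + c • (a' • fderiv ℂ σ p (1, 0) + b' • fderiv ℂ σ p (0, 1))) =
        (a * b' - b * a') ^ m * Ω (σ p) (fderiv ℂ σ p (1, 0)) (fderiv ℂ σ p (0, 1)) := by
  sorry

/-- The value does not depend on `v`.  With `v = α x + a σ_x + b σ_y`, ..., `A = dq σ_x`, `B = dq σ_y`: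
`(a b' - b a') (a₁ A + b₁ B) - (a₁ b' - b₁ a') (a A + b B) = (a b₁ - a₁ b) (a' A + b' B) = 0`. -/
theorem omega_quot (hX : Surface X) (hΩ : IsForm X m j Ω) {q : V → ℂ} {x : V} (hx : x ∈ X) (hE : fderiv ℂ q x x = 0) {v v₁ w : V}
    (hv : v ∈ Tan X x) (hv₁ : v₁ ∈ Tan X x) (hw : w ∈ Tan X x) (hqw : fderiv ℂ q x w = 0) :
    Ω x v w * fderiv ℂ q x v₁ ^ m = Ω x v₁ w * fderiv ℂ q x v ^ m := by
  sorry

/-! ## MODULE G2 (helper10) -/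

/-- Euler -/
theorem euler {q : V → ℂ} {x : V} (hq : AnalyticAt ℂ q x) (hs : ∀ (c : ℂ) x, q (c • x) = c ^ e * q x) (h0 : q x = 0) : fderiv ℂ q x x = 0 := by
  sorry

theorem fderiv_smul {q : V → ℂ} (hq : ∀ x, AnalyticAt ℂ q x) (hs : ∀ (c : ℂ) x, q (c • x) = c ^ e * q x) (x v : V) {c : ℂ} (hc : c ≠ 0) :
    fderiv ℂ q (c • x) (c • v) = c ^ e * fderiv ℂ q x v := by
  sorry

/-- any admissible `v` computes `gf` -/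
theorem gf_eq (hX : Surface X) (hΩ : IsForm X m j Ω) {q : V → ℂ} (hq : ∀ x, AnalyticAt ℂ q x) (hs : ∀ (c : ℂ) x, q (c • x) = c ^ e * q x)
    {K : ℂ → V} {z : ℂ} (hK : AnalyticAt ℂ K z) (hKX : ∀ᶠ z' in 𝓝 z, K z' ∈ X) (hKq : ∀ᶠ z' in 𝓝 z, q (K z') = 0) {v : V}
    (hv : v ∈ Tan X (K z)) (hv0 : fderiv ℂ q (K z) v ≠ 0) : gf X q m Ω K z = Ω (K z) v (deriv K z) / fderiv ℂ q (K z) v ^ m := by
  sorry

/-- The local formula: take `v = h z • σ_x (0, y z)` in `gf_eq`; `K' = (h' / h) K + y' • (h • σ_y)`, `dq v = h ^ e y ^ b r (0, y)`. -/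
theorem gf_local (hX : Surface X) (hΩ : IsForm X m j Ω) {q : V → ℂ} (hq : ∀ x, AnalyticAt ℂ q x) (hs : ∀ (c : ℂ) x, q (c • x) = c ^ e * q x)
    {K : ℂ → V} {c : ℂ} (hK : AnalyticAt ℂ K c) (hKX : ∀ᶠ z in 𝓝 c, K z ∈ X) (hKq : ∀ᶠ z in 𝓝 c, q (K z) = 0) {σ : ℂ × ℂ → V} {τ : V → ℂ × ℂ}
    (hσ : IsChart X σ τ) {h y : ℂ → ℂ} {r : ℂ × ℂ → ℂ} {b : ℕ} (hh : AnalyticAt ℂ h c) (hh0 : h c ≠ 0) (hy : AnalyticAt ℂ y c) (hy0 : y c = 0)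
    (hKe : ∀ᶠ z in 𝓝 c, K z = h z • σ (0, y z)) (hr : AnalyticAt ℂ r 0) (hqr : ∀ᶠ p in 𝓝 (0 : ℂ × ℂ), q (σ p) = p.1 * p.2 ^ b * r p) :
    ∀ᶠ z in 𝓝 c, y z ^ b * r (0, y z) ≠ 0 → h z ^ (j + e * m) * (y z ^ b * r (0, y z)) ^ m * gf X q m Ω K z =
      deriv y z ^ m * Ω (σ (0, y z)) (fderiv ℂ σ (0, y z) (1, 0)) (fderiv ℂ σ (0, y z) (0, 1)) := by
  sorry

/-! ## MODULE G3 (helper66) -/

/-- `K z = z ^ d • K' z⁻¹`; take `z ^ d • v` for `K z` if `v` is the vector for `K' z⁻¹` (`gf_eq`); if there is no `v`, both sides are zero. -/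
theorem gf_inf (hX : Surface X) (hΩ : IsForm X m j Ω) {q : V → ℂ} (hq : ∀ x, AnalyticAt ℂ q x) (hs : ∀ (c : ℂ) x, q (c • x) = c ^ e * q x)
    {d : ℕ} {K K' : ℂ → V} (h : RatC X d K K') (hKq : ∀ z, q (K z) = 0) {z : ℂ} (hz : z ≠ 0) :
    z ^ ((j + e * m) * d + 2 * m) * gf X q m Ω K z = (-1) ^ m * gf X q m Ω K' z⁻¹ := by
  sorry

/-! ## MODULE G4 (helper91): analysis of the local formula -/

theorem gf_bound (hc : Crv X Q e) (hΩ : IsForm X m j Ω) {i₀ : κ} {K : ℂ → V} {c : ℂ} {b ν : ℕ} (hK : AnalyticAt ℂ K c)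
    (hKX : ∀ᶠ z in 𝓝 c, K z ∈ X) (hKq : ∀ᶠ z in 𝓝 c, Q i₀ (K z) = 0) (hat : At X Q i₀ K c b ν) :
    ∃ C : ℝ, ∀ᶠ z in 𝓝[≠] c, ‖(z - c) ^ (m * (ν + b)) * gf X (Q i₀) m Ω K z‖ ≤ C := by
  sorry

theorem gf_diff (hc : Crv X Q e) (hΩ : IsForm X m j Ω) {i₀ : κ} {K : ℂ → V} {c : ℂ} (hK : AnalyticAt ℂ K c)
    (hKX : ∀ᶠ z in 𝓝 c, K z ∈ X) (hKq : ∀ᶠ z in 𝓝 c, Q i₀ (K z) = 0) (hat : At X Q i₀ K c 0 0) : DifferentiableAt ℂ (gf X (Q i₀) m Ω K) c := by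
  sorry

/-- `Ω` is not zero at `K c` -/
theorem gf_ne (hc : Crv X Q e) (hm : 1 ≤ m) (hΩ : IsForm X m j Ω) {i₀ : κ} {K : ℂ → V} {c : ℂ} {b ν : ℕ} (hK : AnalyticAt ℂ K c)
    (hKX : ∀ᶠ z in 𝓝 c, K z ∈ X) (hKq : ∀ᶠ z in 𝓝 c, Q i₀ (K z) = 0) (hat : At X Q i₀ K c b ν)
    (hnz : ∃ v ∈ Tan X (K c), ∃ w ∈ Tan X (K c), Ω (K c) v w ≠ 0) : ∀ᶠ z in 𝓝[≠] c, gf X (Q i₀) m Ω K z ≠ 0 := by
  sorry

end Pool.Agent.UC.StubG
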